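import Pool.Agent.Lib.MP_95bb8c_al.GW.Cuts

set_option autoImplicit false
set_option linter.unusedSectionVars false

/-!
# Almost all cyclically reduced words are nearly uniform: the counting step
-/

namespace Pool.Agent.Lib.MP_95bb8c_al.GW

open Finset

variable {n : ℕ}

/-- Counts close to the mean give a nearly uniform list. -/
theorem g13_near (hn : 1 < n) {N : ℕ} (w : Fin N → Letter n)
    (hmult : ∀ u v : Letter n, u ≠ v →
      mult [List.ofFn w] u v = X w u (bar v) + X w v (bar u))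
    (hw : ∀ a b : Letter n, b ≠ bar a →
      |(X w a b : ℝ) - N / (2 * n * (2 * n - 1))| ≤
        1 / (2 * n * (2 * n - 1)) / (100 * n + 1) * N) :
    Near [List.ofFn w] := by
  intro u v u' v' huv huv'
  have hn' : (2 : ℝ) ≤ n := by exact_mod_cast hn
  set p : ℝ := 1 / (2 * n * (2 * n - 1)) with hp
  have hp0 : 0 < p := by
    rw [hp]
    apply one_div_pos.2
    apply mul_pos
    · linarith
    · linarith
  have hq : (0 : ℝ) < 100 * n + 1 := by linarith
  have hNp : (N : ℝ) / (2 * n * (2 * n - 1)) = p * N := by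
    rw [hp]
    ring
  have hb : ∀ x y : Letter n, x ≠ y → bar y ≠ bar x := by
    intro x y hxy h
    apply hxy
    rw [← bar_bar x, ← bar_bar y, h]
  have hval : ∀ x y : Letter n, x ≠ y →
      2 * (p * N) - 2 * (p / (100 * n + 1) * N) ≤ (mult [List.ofFn w] x y : ℝ) ∧
        (mult [List.ofFn w] x y : ℝ) ≤ 2 * (p * N) + 2 * (p / (100 * n + 1) * N) := by
    intro x y hxy
    rw [hmult x y hxy]
    push_cast
    have h1 := hw x (bar y) (hb x y hxy)
    have h2 := hw y (bar x) (hb y x hxy.symm)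
    rw [hNp, abs_le] at h1 h2
    constructor
    · linarith [h1.1, h2.1]
    · linarith [h1.2, h2.2]
  have h1 := (hval u v huv).2
  have h2 := (hval u' v' huv').1
  have hN : (0 : ℝ) ≤ N := Nat.cast_nonneg N
  have h3 : (50 * n : ℝ) * (2 * (p * N) + 2 * (p / (100 * n + 1) * N)) =
      (50 * n + 1 : ℝ) * (2 * (p * N) - 2 * (p / (100 * n + 1) * N)) := by
    field_simp
    ring
  have h4 : (50 * n : ℝ) * (mult [List.ofFn w] u v : ℝ) ≤
      (50 * n + 1 : ℝ) * (mult [List.ofFn w] u' v' : ℝ) := by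
    calc (50 * n : ℝ) * (mult [List.ofFn w] u v : ℝ)
        ≤ (50 * n : ℝ) * (2 * (p * N) + 2 * (p / (100 * n + 1) * N)) :=
          mul_le_mul_of_nonneg_left h1 (by linarith)
      _ = (50 * n + 1 : ℝ) * (2 * (p * N) - 2 * (p / (100 * n + 1) * N)) := h3
      _ ≤ (50 * n + 1 : ℝ) * (mult [List.ofFn w] u' v' : ℝ) :=
          mul_le_mul_of_nonneg_left h2 (by linarith)
  exact_mod_cast h4

/-- There is a cyclically reduced word of each length. -/
theorem g13_exists (hn : 1 < n) (N : ℕ) : ∃ w : Fin N → Letter n, CR w := by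
  refine ⟨fun _ => (⟨0, by omega⟩, true), ?_⟩
  intro i h
  unfold bar at h
  simp at h

/-- The counting step. -/
theorem g13_core (hn : 1 < n)
    (huni : ∀ η ε : ℝ, 0 < η → 0 < ε →
      ∃ N₀ : ℕ, ∀ N ≥ N₀, (Nat.card {w : Fin N → Letter n // CR w ∧ ∃ a b : Letter n,
        b ≠ bar a ∧ η * N < |(X w a b : ℝ) - N / (2 * n * (2 * n - 1))|} : ℝ) ≤
          ε * Nat.card {w : Fin N → Letter n // CR w})
    (hcr : ∀ {N : ℕ}, 0 < N → ∀ w : Fin N → Letter n, CycRed [List.ofFn w] ↔ CR w)
    (hmult : ∀ {N : ℕ} (w : Fin N → Letter n) (u v : Letter n), u ≠ v →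
      mult [List.ofFn w] u v = X w u (bar v) + X w v (bar u))
    (hpoly : ∀ {U : List (List (Letter n))}, CycRed U → U ≠ [] → Near U → Polygonal U) :
    Filter.Tendsto (fun N : ℕ =>
      (Nat.card {w : Fin N → Letter n // CycRed [List.ofFn w] ∧ MinDisk [List.ofFn w] ∧
        Polygonal [List.ofFn w]} : ℝ) / Nat.card {w : Fin N → Letter n // CycRed [List.ofFn w]})
      Filter.atTop (nhds 1) := by
  have hn' : (2 : ℝ) ≤ n := by exact_mod_cast hn
  have hη : (0 : ℝ) < 1 / (2 * n * (2 * n - 1)) / (100 * n + 1) := by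
    apply div_pos
    · apply one_div_pos.2
      apply mul_pos
      · linarith
      · linarith
    · linarith
  rw [Metric.tendsto_atTop]
  intro ε hε
  obtain ⟨N₀, hN₀⟩ := huni _ (ε / 2) hη (half_pos hε)
  refine ⟨max N₀ 1, ?_⟩
  intro N hN
  have hN1 : N₀ ≤ N := le_trans (le_max_left _ _) hN
  have hN2 : 0 < N := lt_of_lt_of_le Nat.zero_lt_one (le_trans (le_max_right _ _) hN)
  have hbad := hN₀ N hN1
  have e1 : Nat.card {w : Fin N → Letter n // CycRed [List.ofFn w]} =
      Set.ncard {w : Fin N → Letter n | CR w} := by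
    rw [← Nat.card_coe_set_eq]
    apply Nat.card_congr
    exact Equiv.subtypeEquivRight fun w => hcr hN2 w
  have e2 : Nat.card {w : Fin N → Letter n // CR w} =
      Set.ncard {w : Fin N → Letter n | CR w} := Nat.card_coe_set_eq _
  have e3 : Nat.card {w : Fin N → Letter n // CycRed [List.ofFn w] ∧ MinDisk [List.ofFn w] ∧
        Polygonal [List.ofFn w]} =
      Set.ncard {w : Fin N → Letter n | CycRed [List.ofFn w] ∧ MinDisk [List.ofFn w] ∧
        Polygonal [List.ofFn w]} := Nat.card_coe_set_eq _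
  have e4 : Nat.card {w : Fin N → Letter n // CR w ∧ ∃ a b : Letter n,
        b ≠ bar a ∧ 1 / (2 * n * (2 * n - 1)) / (100 * n + 1) * N <
          |(X w a b : ℝ) - N / (2 * n * (2 * n - 1))|} =
      Set.ncard {w : Fin N → Letter n | CR w ∧ ∃ a b : Letter n,
        b ≠ bar a ∧ 1 / (2 * n * (2 * n - 1)) / (100 * n + 1) * N <
          |(X w a b : ℝ) - N / (2 * n * (2 * n - 1))|} := Nat.card_coe_set_eq _
  rw [e4, e2] at hbad
  show dist ((_ : ℝ) / _) 1 < ε
  rw [e1, e3]
  set A : Set (Fin N → Letter n) := {w | CR w} with hA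
  set B : Set (Fin N → Letter n) := {w | CycRed [List.ofFn w] ∧ MinDisk [List.ofFn w] ∧
        Polygonal [List.ofFn w]} with hB
  set D : Set (Fin N → Letter n) := {w | CR w ∧ ∃ a b : Letter n,
        b ≠ bar a ∧ 1 / (2 * n * (2 * n - 1)) / (100 * n + 1) * N <
          |(X w a b : ℝ) - N / (2 * n * (2 * n - 1))|} with hD
  have hBA : B ⊆ A := fun w hw => (hcr hN2 w).1 hw.1
  have hAB : A ⊆ B ∪ D := by
    intro w hw
    have hwcr : CR w := hw
    by_cases hd : w ∈ D
    · exact Or.inr hd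
    · refine Or.inl ?_
      have hcy : CycRed [List.ofFn w] := (hcr hN2 w).2 hwcr
      have hnear : Near [List.ofFn w] := by
        apply g13_near hn w (hmult w)
        intro a b hab
        by_contra hlt
        exact hd ⟨hwcr, a, b, hab, not_le.1 hlt⟩
      exact ⟨hcy, (near_cuts hn hcy (List.cons_ne_nil _ _) hnear).1,
        hpoly hcy (List.cons_ne_nil _ _) hnear⟩
  have c1 : B.ncard ≤ A.ncard := Set.ncard_le_ncard hBA (Set.toFinite _)
  have c2 : A.ncard ≤ B.ncard + D.ncard :=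
    le_trans (Set.ncard_le_ncard hAB (Set.toFinite _)) (Set.ncard_union_le _ _)
  have c3 : 0 < A.ncard := by
    rw [Set.ncard_pos (Set.toFinite _)]
    exact g13_exists hn N
  have d1 : (B.ncard : ℝ) ≤ A.ncard := by exact_mod_cast c1
  have d2 : (A.ncard : ℝ) ≤ B.ncard + D.ncard := by exact_mod_cast c2
  have d3 : (0 : ℝ) < A.ncard := by exact_mod_cast c3
  rw [Real.dist_eq, abs_sub_lt_iff]
  constructor
  · have : (B.ncard : ℝ) / A.ncard ≤ 1 := (div_le_one d3).2 d1
    linarith
  · have : 1 - ε / 2 ≤ (B.ncard : ℝ) / A.ncard := by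
      rw [le_div_iff₀ d3]
      linarith
    linarith

end Pool.Agent.Lib.MP_95bb8c_al.GW
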