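import Pool.Agent.Lib.MP_95bb8c_al.GW.Defs

set_option autoImplicit false
set_option linter.unusedSectionVars false

/-!
# Nearly uniform lists are minimal and diskbusting
-/

namespace Pool.Agent.Lib.MP_95bb8c_al.GW

open Finset

variable {n : ℕ}

theorem g9_mem_J {V E : Type} [Fintype V] [DecidableEq V] [Fintype E] [DecidableEq E]
    {s t : E → V} {u v : V} {e : E} :
    e ∈ J s t u v ↔ u ≠ v ∧ ((s e = u ∧ t e = v) ∨ (s e = v ∧ t e = u)) := by
  unfold J
  rw [Finset.mem_filter]
  exact ⟨fun h => h.2, fun h => ⟨Finset.mem_univ _, h⟩⟩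

theorem g9_cut_eq {V E : Type} [Fintype V] [DecidableEq V] [Fintype E] [DecidableEq E]
    (s t : E → V) (S : Finset V) :
    cut s t S = (S ×ˢ Sᶜ).biUnion fun p => J s t p.1 p.2 := by
  ext e
  rw [Finset.mem_biUnion]
  unfold cut
  rw [Finset.mem_filter]
  constructor
  · rintro ⟨-, h⟩
    by_cases h1 : s e ∈ S
    · have h2 : t e ∉ S := fun h2 => h ⟨fun _ => h2, fun _ => h1⟩
      refine ⟨(s e, t e), Finset.mem_product.2 ⟨h1, Finset.mem_compl.2 h2⟩, ?_⟩
      rw [g9_mem_J]
      refine ⟨?_, Or.inl ⟨rfl, rfl⟩⟩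
      intro h3
      have h4 : s e = t e := h3
      rw [h4] at h1
      exact h2 h1
    · have h2 : t e ∈ S := by
        by_contra h2
        exact h ⟨fun h3 => absurd h3 h1, fun h3 => absurd h3 h2⟩
      refine ⟨(t e, s e), Finset.mem_product.2 ⟨h2, Finset.mem_compl.2 h1⟩, ?_⟩
      rw [g9_mem_J]
      refine ⟨?_, Or.inr ⟨rfl, rfl⟩⟩
      intro h3
      have h4 : t e = s e := h3
      rw [h4] at h2
      exact h1 h2
  · rintro ⟨⟨u, v⟩, hp, he⟩
    rw [Finset.mem_product, Finset.mem_compl] at hp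
    have hu : u ∈ S := hp.1
    have hv : v ∉ S := hp.2
    rw [g9_mem_J] at he
    refine ⟨Finset.mem_univ _, ?_⟩
    rcases he.2 with ⟨h1, h2⟩ | ⟨h1, h2⟩
    · rw [h1, h2]
      exact fun h => hv (h.1 hu)
    · rw [h1, h2]
      exact fun h => hv (h.2 hu)

theorem g9_card_cut {V E : Type} [Fintype V] [DecidableEq V] [Fintype E] [DecidableEq E]
    (s t : E → V) (S : Finset V) :
    (cut s t S).card = ∑ p ∈ S ×ˢ Sᶜ, (J s t p.1 p.2).card := by
  rw [g9_cut_eq]
  apply Finset.card_biUnion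
  rintro ⟨u, v⟩ hp ⟨u', v'⟩ hq hne
  rw [Finset.mem_coe, Finset.mem_product, Finset.mem_compl] at hp hq
  have hu : u ∈ S := hp.1
  have hv : v ∉ S := hp.2
  have hu' : u' ∈ S := hq.1
  have hv' : v' ∉ S := hq.2
  show Disjoint (J s t u v) (J s t u' v')
  rw [Finset.disjoint_left]
  intro e he he'
  have he := g9_mem_J.1 he
  have he' := g9_mem_J.1 he'
  apply hne
  rcases he.2 with ⟨h1, h2⟩ | ⟨h1, h2⟩ <;> rcases he'.2 with ⟨h3, h4⟩ | ⟨h3, h4⟩
  · have e1 : u = u' := h1.symm.trans h3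
    have e2 : v = v' := h2.symm.trans h4
    rw [e1, e2]
  · have e1 : u = v' := h1.symm.trans h3
    exact absurd (e1 ▸ hu) hv'
  · have e1 : u = v' := h2.symm.trans h4
    exact absurd (e1 ▸ hu) hv'
  · have e1 : u = u' := h2.symm.trans h4
    have e2 : v = v' := h1.symm.trans h3
    rw [e1, e2]

theorem g9_cut_lower {U : List (List (Letter n))} (S : Finset (Letter n)) (m : ℕ)
    (hm : ∀ u v : Letter n, u ≠ v → m ≤ mult U u v) :
    S.card * Sᶜ.card * m ≤ (cut (src U) (tgt U) S).card := by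
  rw [g9_card_cut, ← Finset.card_product, ← smul_eq_mul]
  apply Finset.card_nsmul_le_sum
  rintro ⟨u, v⟩ hp
  rw [Finset.mem_product, Finset.mem_compl] at hp
  apply hm
  intro h
  have h' : u = v := h
  have hu : u ∈ S := hp.1
  have hv : v ∉ S := hp.2
  exact hv (h' ▸ hu)

theorem g9_cut_upper {U : List (List (Letter n))} (S : Finset (Letter n)) (c m : ℕ)
    (hm : ∀ u v : Letter n, u ≠ v → c * mult U u v ≤ m) :
    c * (cut (src U) (tgt U) S).card ≤ S.card * Sᶜ.card * m := by
  rw [g9_card_cut, Finset.mul_sum, ← Finset.card_product, ← smul_eq_mul (a := (S ×ˢ Sᶜ).card)]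
  apply Finset.sum_le_card_nsmul
  rintro ⟨u, v⟩ hp
  rw [Finset.mem_product, Finset.mem_compl] at hp
  apply hm
  intro h
  have h' : u = v := h
  have hu : u ∈ S := hp.1
  have hv : v ∉ S := hp.2
  exact hv (h' ▸ hu)

/-- The multiplicities of the Whitehead graph differ by a factor at most `56/55`. -/
def Near55 (U : List (List (Letter n))) : Prop :=
  ∀ u v u' v' : Letter n, u ≠ v → u' ≠ v' → 55 * mult U u v ≤ 56 * mult U u' v'

theorem near55_of_near (_hn : 1 < n) {U : List (List (Letter n))} (h : Near U) : Near55 U := by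
  intro u v u' v' huv huv'
  have h1 := h u v u' v' huv huv'
  omega

theorem g9_pos {U : List (List (Letter n))} (hU : CycRed U) (hne : U ≠ [])
    (h : Near55 U) (u v : Letter n) (huv : u ≠ v) : 0 < mult U u v := by
  obtain ⟨p⟩ : Nonempty (Pos U) := by
    have h1 : 0 < U.length := List.length_pos_of_ne_nil hne
    have h2 : 0 < (U.get ⟨0, h1⟩).length :=
      List.length_pos_of_ne_nil (hU.1 _ (List.get_mem _ _))
    exact ⟨⟨⟨0, h1⟩, ⟨0, h2⟩⟩⟩
  have hp : 0 < mult U (src U p) (tgt U p) := by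
    unfold mult
    rw [Finset.card_pos]
    exact ⟨p, g9_mem_J.2 ⟨no_loop hU p, Or.inl ⟨rfl, rfl⟩⟩⟩
  have h1 := h _ _ u v (no_loop hU p) huv
  omega

theorem g9_cut_star (hn : 1 < n) {U : List (List (Letter n))} (hU : CycRed U) (h : Near55 U)
    (v : Letter n) (S : Finset (Letter n)) (hv : v ∈ S) (hb : bar v ∉ S) :
    (star U v).card ≤ (cut (src U) (tgt U) S).card := by
  have hK : Fintype.card (Letter n) = 2 * n := by
    rw [Fintype.card_prod, Fintype.card_fin, Fintype.card_bool]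
    ring
  have hcc : Sᶜ.card + S.card = 2 * n := by
    rw [← hK]
    exact Finset.card_compl_add_card S
  have hS1 : 0 < S.card := Finset.card_pos.2 ⟨v, hv⟩
  have hS2 : 0 < Sᶜ.card := Finset.card_pos.2 ⟨bar v, Finset.mem_compl.2 hb⟩
  by_cases hc1 : S.card = 1
  · obtain ⟨x, hx⟩ := Finset.card_eq_one.1 hc1
    have hxv : v = x := by
      rw [hx] at hv
      exact Finset.mem_singleton.1 hv
    rw [hx, ← hxv]
    exact le_refl _
  by_cases hc2 : Sᶜ.card = 1
  · obtain ⟨x, hx⟩ := Finset.card_eq_one.1 hc2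
    have hxv : bar v = x := by
      have h1 : bar v ∈ Sᶜ := Finset.mem_compl.2 hb
      rw [hx] at h1
      exact Finset.mem_singleton.1 h1
    have h1 : cut (src U) (tgt U) S = star U (bar v) := by
      unfold star
      rw [hxv, ← hx]
      unfold cut
      ext e
      rw [Finset.mem_filter, Finset.mem_filter, Finset.mem_compl, Finset.mem_compl]
      constructor
      · rintro ⟨h2, h3⟩
        exact ⟨h2, fun h4 => h3 (not_iff_not.1 h4)⟩
      · rintro ⟨h2, h3⟩
        exact ⟨h2, fun h4 => h3 (not_iff_not.2 h4)⟩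
    rw [h1]
    have h2 := dg_eq hU v
    have h3 := dg_eq hU (bar v)
    unfold dg at h2 h3
    unfold star
    rw [h2, h3]
    exact le_refl _
  -- the main case
  have hne : (univ.filter fun p : Letter n × Letter n => p.1 ≠ p.2).Nonempty :=
    ⟨(v, bar v), Finset.mem_filter.2 ⟨Finset.mem_univ _, (bar_ne v).symm⟩⟩
  obtain ⟨⟨u1, v1⟩, hp1, hp2⟩ := Finset.exists_min_image _
    (fun p : Letter n × Letter n => mult U p.1 p.2) hne
  have hu1 : u1 ≠ v1 := (Finset.mem_filter.1 hp1).2
  have hlow := g9_cut_lower (U := U) S (mult U u1 v1) (fun u w huw =>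
    hp2 (u, w) (Finset.mem_filter.2 ⟨Finset.mem_univ _, huw⟩))
  have hup := g9_cut_upper (U := U) {v} 55 (56 * mult U u1 v1) (fun u w huw =>
    h u w u1 v1 huw hu1)
  have hvc : ({v} : Finset (Letter n))ᶜ.card = 2 * n - 1 := by
    rw [Finset.card_compl, Finset.card_singleton, hK]
  rw [hvc, Finset.card_singleton, one_mul] at hup
  set m := mult U u1 v1 with hm
  set c := (cut (src U) (tgt U) S).card with hcd
  set d := (star U v).card with hd
  have hup' : 55 * d ≤ (2 * n - 1) * (56 * m) := hup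
  -- `S.card * Sᶜ.card ≥ 2 (2 n - 2)`
  obtain ⟨a, ha⟩ : ∃ a, S.card = a + 2 := ⟨S.card - 2, by omega⟩
  obtain ⟨b, hb'⟩ : ∃ b, Sᶜ.card = b + 2 := ⟨Sᶜ.card - 2, by omega⟩
  have hab : a + b + 4 = 2 * n := by omega
  have hprod : 2 * (a + b + 2) ≤ S.card * Sᶜ.card := by
    rw [ha, hb']
    nlinarith [Nat.zero_le (a * b)]
  have hlow' : 2 * (a + b + 2) * m ≤ c := le_trans (Nat.mul_le_mul_right m hprod) hlow
  have hn1 : 2 * n - 1 = a + b + 3 := by omega
  rw [hn1] at hup'
  by_contra hlt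
  have hlt' : c + 1 ≤ d := by omega
  -- contradiction
  have h1 : 55 * (2 * (a + b + 2) * m + 1) ≤ (a + b + 3) * (56 * m) :=
    le_trans (Nat.mul_le_mul_left _ (by omega)) hup'
  have h3 : (a + b + 3) * 56 ≤ 55 * (2 * (a + b + 2)) := by omega
  have h4 : (a + b + 3) * 56 * m ≤ 55 * (2 * (a + b + 2)) * m :=
    Nat.mul_le_mul_right m h3
  have h5 : 55 * (2 * (a + b + 2) * m + 1) = 55 * (2 * (a + b + 2)) * m + 55 := by
    ring
  have h6 : (a + b + 3) * (56 * m) = (a + b + 3) * 56 * m := by ring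
  rw [h5, h6] at h1
  omega

/-- Lists whose multiplicities differ by a factor at most `56/55` are minimal and diskbusting, and
all multiplicities are positive. -/
theorem near_cuts_55 (hn : 1 < n) {U : List (List (Letter n))} (hU : CycRed U) (hne : U ≠ [])
    (h : Near55 U) : MinDisk U ∧ ∀ u v : Letter n, u ≠ v → 0 < mult U u v := by
  refine ⟨⟨?_, ?_⟩, g9_pos hU hne h⟩
  · intro S hS1 hS2
    obtain ⟨u, hu⟩ := hS1
    obtain ⟨v, hv⟩ : ∃ v, v ∉ S := by
      by_contra h1
      push Not at h1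
      exact hS2 (Finset.eq_univ_iff_forall.2 h1)
    have huv : u ≠ v := fun h1 => hv (h1 ▸ hu)
    have h1 := g9_pos hU hne h u v huv
    unfold mult at h1
    obtain ⟨e, he⟩ := Finset.card_pos.1 h1
    refine ⟨e, ?_⟩
    rw [g9_cut_eq, Finset.mem_biUnion]
    exact ⟨(u, v), Finset.mem_product.2 ⟨hu, Finset.mem_compl.2 hv⟩, he⟩
  · intro v
    unfold lam
    apply le_antisymm
    · exact Nat.sInf_le ⟨{v}, Finset.mem_singleton_self v,
        fun h1 => bar_ne v (Finset.mem_singleton.1 h1), rfl⟩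
    · apply le_csInf
      · exact ⟨_, {v}, Finset.mem_singleton_self v,
          fun h1 => bar_ne v (Finset.mem_singleton.1 h1), rfl⟩
      · rintro k ⟨S, h1, h2, h3⟩
        rw [← h3]
        exact g9_cut_star hn hU h v S h1 h2

/-- Nearly uniform lists are minimal and diskbusting, and all multiplicities are positive. -/
theorem near_cuts (hn : 1 < n) {U : List (List (Letter n))} (hU : CycRed U) (hne : U ≠ [])
    (h : Near U) : MinDisk U ∧ ∀ u v : Letter n, u ≠ v → 0 < mult U u v :=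
  near_cuts_55 hn hU hne (near55_of_near hn h)

end Pool.Agent.Lib.MP_95bb8c_al.GW
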