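import Pool.Agent.Lib.MP_95bb8c_al.GW.Defs

set_option autoImplicit false
set_option linter.unusedSectionVars false

/-!
# The demand is symmetric and has symmetric edge sums
-/

namespace Pool.Agent.Lib.MP_95bb8c_al.GW

open Finset

section Graph

variable {V E : Type} [Fintype V] [DecidableEq V] [Fintype E] [DecidableEq E]

theorem g5_J_symm (s t : E → V) (u v : V) : J s t u v = J s t v u := by
  ext e
  simp only [J, mem_filter, mem_univ, true_and]
  constructor
  · rintro ⟨h1, h2⟩
    exact ⟨Ne.symm h1, h2.symm⟩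
  · rintro ⟨h1, h2⟩
    exact ⟨Ne.symm h1, h2.symm⟩

theorem g5_J_self (s t : E → V) (u : V) : J s t u u = ∅ := by
  ext e
  simp [J]

theorem g5_mq_symm (s t : E → V) (u v : V) : mq s t u v = mq s t v u := by
  unfold mq
  rw [g5_J_symm]

theorem g5_mq_self (s t : E → V) (u : V) : mq s t u u = 0 := by
  unfold mq
  rw [g5_J_self, card_empty, Nat.cast_zero]

theorem g5_Kx_symm (s t : E → V) (κ : V → E → E → ℚ) (hsym : ∀ v e f, κ v e f = κ v f e)
    (z u w : V) : Kx s t κ z u w = Kx s t κ z w u := by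
  unfold Kx
  rw [sum_comm, g5_J_symm s t z w, g5_J_symm s t u z]
  refine sum_congr rfl fun q _ => sum_congr rfl fun p _ => hsym z p q

theorem g5_Kx_self (s t : E → V) (κ : V → E → E → ℚ) (z u : V) : Kx s t κ z u z = 0 := by
  unfold Kx
  refine sum_eq_zero fun p _ => ?_
  rw [g5_J_self, sum_empty]

theorem dd_symm {s t : E → V} (k lam : ℚ) (κ : V → E → E → ℚ)
    (hsym : ∀ v e f, κ v e f = κ v f e) (ρ : V → ℚ) (u v w : V) :
    dd s t k lam κ ρ u v w = dd s t k lam κ ρ w v u := by
  have h : sum4 u v w (fun z => Kx s t κ z u w) = sum4 w v u (fun z => Kx s t κ z w u) := by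
    unfold sum4
    refine sum_congr rfl fun z _ => ?_
    by_cases hz : z = u ∨ z = v ∨ z = w
    · rw [if_pos hz, if_pos (by tauto)]
    · rw [if_neg hz, if_neg (by tauto)]
      exact g5_Kx_symm s t κ hsym z u w
  unfold dd
  rw [h, g5_mq_symm s t u v, g5_mq_symm s t v w]
  ring

/-- the degree is the sum of the multiplicities -/
theorem g5_deg {s t : E → V} (hl : ∀ e, s e ≠ t e) (v : V) :
    ((cut s t {v}).card : ℚ) = ∑ w, mq s t v w := by
  have h : cut s t {v} = univ.biUnion fun w => J s t v w := by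
    ext e
    have := hl e
    simp only [cut, J, mem_filter, mem_univ, true_and, mem_biUnion, mem_singleton]
    constructor
    · intro he
      by_cases h1 : s e = v
      · exact ⟨t e, fun h2 => this (h1.trans h2), Or.inl ⟨h1, rfl⟩⟩
      · have h2 : t e = v := by
          by_contra h2
          tauto
        exact ⟨s e, fun h3 => h1 h3.symm, Or.inr ⟨rfl, h2⟩⟩
    · rintro ⟨w, h1, ⟨h2, h3⟩ | ⟨h2, h3⟩⟩
      · have h4 : t e ≠ v := fun h => h1 (h.symm.trans h3)
        tauto
      · have h4 : s e ≠ v := fun h => h1 (h.symm.trans h2)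
        tauto
  rw [h, card_biUnion]
  · unfold mq
    push_cast
    rfl
  · intro w _ w' _ hww
    rw [Function.onFun, disjoint_left]
    intro e he he'
    simp only [J, mem_filter, mem_univ, true_and] at he he'
    obtain ⟨h1, h2 | h2⟩ := he
    · obtain ⟨h3, h4 | h4⟩ := he'
      · exact hww (h2.2.symm.trans h4.2)
      · exact h1 (h4.2.symm.trans h2.2)
    · obtain ⟨h3, h4 | h4⟩ := he'
      · exact h1 (h4.1.symm.trans h2.1)
      · exact hww (h2.1.symm.trans h4.1)

theorem g5_row {s t : E → V} (κ : V → E → E → ℚ) (hsym : ∀ v e f, κ v e f = κ v f e) (ρ : V → ℚ)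
    (hrow : ∀ v w, ∀ q ∈ J s t v w,
      ∑ u, (if u = w then 0 else ∑ p ∈ J s t u v, κ v p q) = ρ v) (z u : V) :
    ∑ w, (if w = u then 0 else Kx s t κ z u w) = ρ z * mq s t u z := by
  have h1 : ∀ w, (if w = u then (0 : ℚ) else Kx s t κ z u w) =
      ∑ p ∈ J s t u z, (if w = u then (0 : ℚ) else ∑ q ∈ J s t w z, κ z q p) := by
    intro w
    by_cases hw : w = u
    · simp [hw]
    · simp only [if_neg hw]
      unfold Kx
      rw [g5_J_symm s t z w]
      exact sum_congr rfl fun p _ => sum_congr rfl fun q _ => hsym z p q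
  rw [sum_congr rfl fun w _ => h1 w, sum_comm]
  have h2 : ∀ p ∈ J s t u z,
      ∑ w, (if w = u then (0 : ℚ) else ∑ q ∈ J s t w z, κ z q p) = ρ z := by
    intro p hp
    exact hrow z u p (g5_J_symm s t u z ▸ hp)
  rw [sum_congr rfl h2, sum_const, nsmul_eq_mul]
  unfold mq
  ring

theorem g5_sum3_comm (u v : V) (f : V → ℚ) : sum3 u v f = sum3 v u f := by
  unfold sum3
  refine sum_congr rfl fun z _ => ?_
  by_cases hz : z = u ∨ z = v
  · rw [if_pos hz, if_pos hz.symm]
  · rw [if_neg hz, if_neg fun h => hz h.symm]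

theorem g5_sum3_eq (u v : V) (huv : u ≠ v) (f : V → ℚ) : sum3 u v f = ∑ w, f w - f u - f v := by
  unfold sum3
  have h1 : ∀ z, (if z = u ∨ z = v then (0 : ℚ) else f z) =
      f z - (if z = u then f u else 0) - (if z = v then f v else 0) := by
    intro z
    by_cases h1 : z = u
    · have h2 : z ≠ v := fun h => huv (h1.symm.trans h)
      rw [if_pos (Or.inl h1), if_pos h1, if_neg h2, h1]
      ring
    · by_cases h2 : z = v
      · rw [if_pos (Or.inr h2), if_neg h1, if_pos h2, h2]
        ring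
      · rw [if_neg (by tauto), if_neg h1, if_neg h2]
        ring
  rw [sum_congr rfl fun z _ => h1 z, sum_sub_distrib, sum_sub_distrib]
  simp

theorem g5_sum3_sub (u v : V) (f g : V → ℚ) :
    sum3 u v (fun w => f w - g w) = sum3 u v f - sum3 u v g := by
  unfold sum3
  rw [← sum_sub_distrib]
  refine sum_congr rfl fun z _ => ?_
  by_cases hz : z = u ∨ z = v
  · simp [hz]
  · simp [hz]

theorem g5_sum3_mul (u v : V) (a : ℚ) (f : V → ℚ) :
    sum3 u v (fun w => a * f w) = a * sum3 u v f := by
  unfold sum3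
  rw [mul_sum]
  refine sum_congr rfl fun z _ => ?_
  by_cases hz : z = u ∨ z = v
  · simp [hz]
  · simp [hz]

theorem g5_sum3_div (u v : V) (a : ℚ) (f : V → ℚ) :
    sum3 u v (fun w => f w / a) = sum3 u v f / a := by
  have h := g5_sum3_mul u v a⁻¹ f
  rw [div_eq_inv_mul, ← h]
  unfold sum3
  refine sum_congr rfl fun z _ => ?_
  beta_reduce
  rw [div_eq_inv_mul]

/-- the double sum of the demand -/
theorem g5_double {s t : E → V} (κ : V → E → E → ℚ) (hsym : ∀ v e f, κ v e f = κ v f e)
    (ρ : V → ℚ) (hrow : ∀ v w, ∀ q ∈ J s t v w,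
      ∑ u, (if u = w then 0 else ∑ p ∈ J s t u v, κ v p q) = ρ v) (u v : V) (huv : u ≠ v) :
    sum3 u v (fun w => sum4 u v w fun z => Kx s t κ z u w) =
      sum3 u v (fun z => ρ z * mq s t u z) - sum3 u v (fun z => Kx s t κ z u v) := by
  rw [← g5_sum3_sub]
  have h1 : sum3 u v (fun w => sum4 u v w fun z => Kx s t κ z u w) =
      sum3 u v (fun z => sum4 u v z fun w => Kx s t κ z u w) := by
    have e1 : sum3 u v (fun w => sum4 u v w fun z => Kx s t κ z u w) =
        ∑ w, ∑ z, (if w = u ∨ w = v then (0 : ℚ) else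
          if z = u ∨ z = v ∨ z = w then 0 else Kx s t κ z u w) := by
      unfold sum3 sum4
      refine sum_congr rfl fun w _ => ?_
      by_cases hw : w = u ∨ w = v
      · simp [hw]
      · simp only [if_neg hw]
    have e2 : sum3 u v (fun z => sum4 u v z fun w => Kx s t κ z u w) =
        ∑ z, ∑ w, (if z = u ∨ z = v then (0 : ℚ) else
          if w = u ∨ w = v ∨ w = z then 0 else Kx s t κ z u w) := by
      unfold sum3 sum4
      refine sum_congr rfl fun w _ => ?_
      by_cases hw : w = u ∨ w = v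
      · simp [hw]
      · simp only [if_neg hw]
    rw [e1, e2, sum_comm]
    refine sum_congr rfl fun z _ => sum_congr rfl fun w _ => ?_
    by_cases hz : z = u ∨ z = v
    · rw [if_pos hz]
      by_cases hw : w = u ∨ w = v
      · rw [if_pos hw]
      · rw [if_neg hw, if_pos (by tauto)]
    · rw [if_neg hz]
      by_cases hw : w = u ∨ w = v
      · rw [if_pos hw, if_pos (by tauto)]
      · rw [if_neg hw]
        by_cases hzw : z = w
        · rw [if_pos (by tauto), if_pos (by tauto)]
        · have hwz : w ≠ z := fun h => hzw h.symm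
          rw [if_neg (by tauto), if_neg (by tauto)]
  rw [h1]
  unfold sum3
  refine sum_congr rfl fun z _ => ?_
  beta_reduce
  by_cases hz : z = u ∨ z = v
  · rw [if_pos hz, if_pos hz]
  · rw [if_neg hz, if_neg hz]
    have hzu : z ≠ u := fun h => hz (Or.inl h)
    have hzv : z ≠ v := fun h => hz (Or.inr h)
    have h2 := g5_row κ hsym ρ hrow z u
    rw [← h2]
    have h3 : ∀ w, (if w = u ∨ w = v ∨ w = z then (0 : ℚ) else Kx s t κ z u w) =
        (if w = u then 0 else Kx s t κ z u w) - (if w = v then Kx s t κ z u v else 0) := by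
      intro w
      by_cases hwu : w = u
      · have : w ≠ v := fun h => huv (hwu.symm.trans h)
        rw [if_pos (Or.inl hwu), if_pos hwu, if_neg this]
        ring
      · by_cases hwv : w = v
        · rw [if_pos (Or.inr (Or.inl hwv)), if_neg hwu, if_pos hwv, hwv]
          ring
        · by_cases hwz : w = z
          · rw [if_pos (Or.inr (Or.inr hwz)), if_neg hwu, if_neg hwv, hwz, g5_Kx_self]
            ring
          · rw [if_neg (by tauto), if_neg hwu, if_neg hwv]
            ring
    unfold sum4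
    rw [sum_congr rfl fun w _ => h3 w, sum_sub_distrib]
    simp

theorem g5_S {s t : E → V} (hl : ∀ e, s e ≠ t e) (k lam : ℚ) (κ : V → E → E → ℚ)
    (hsym : ∀ v e f, κ v e f = κ v f e) (ρ : V → ℚ)
    (hrow : ∀ v w, ∀ q ∈ J s t v w,
      ∑ u, (if u = w then 0 else ∑ p ∈ J s t u v, κ v p q) = ρ v) (u v : V) (huv : u ≠ v) :
    sum3 u v (fun w => dd s t k lam κ ρ u v w) =
      lam * mq s t u v * (((cut s t {v}).card : ℚ) - mq s t u v) -
        ((Fintype.card V : ℚ) - 2) * (ρ u * mq s t u v / k) -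
        sum3 u v (fun w => ρ w * mq s t v w) / k -
        (sum3 u v (fun z => ρ z * mq s t u z) - sum3 u v (fun z => Kx s t κ z u v)) / k := by
  have h1 : sum3 u v (fun w => mq s t v w) = ((cut s t {v}).card : ℚ) - mq s t u v := by
    rw [g5_sum3_eq u v huv, g5_deg hl v, g5_mq_self, g5_mq_symm s t v u]
    ring
  have h2 : sum3 u v (fun _ => (1 : ℚ)) = (Fintype.card V : ℚ) - 2 := by
    rw [g5_sum3_eq u v huv, sum_const, card_univ, nsmul_eq_mul]
    ring
  rw [← g5_double κ hsym ρ hrow u v huv, ← h1, ← h2, ← g5_sum3_div, ← g5_sum3_div,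
    ← g5_sum3_mul, mul_comm (sum3 u v fun _ => (1 : ℚ)), ← g5_sum3_mul, ← g5_sum3_sub,
    ← g5_sum3_sub, ← g5_sum3_sub]
  unfold sum3
  refine sum_congr rfl fun w _ => ?_
  by_cases hw : w = u ∨ w = v
  · rw [if_pos hw, if_pos hw]
  · rw [if_neg hw, if_neg hw]
    unfold dd
    ring

/-- the demand has symmetric edge sums -/
theorem dd_edge {s t : E → V} (hl : ∀ e, s e ≠ t e) (k lam : ℚ)
    (hk : k = (Fintype.card V : ℚ) - 2) (κ : V → E → E → ℚ)
    (hsym : ∀ v e f, κ v e f = κ v f e) (ρ : V → ℚ)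
    (hrow : ∀ v w, ∀ q ∈ J s t v w,
      ∑ u, (if u = w then 0 else ∑ p ∈ J s t u v, κ v p q) = ρ v)
    (hlam : ∀ v, lam * ((cut s t {v}).card - 1) + ρ v = 1) (u v : V) (huv : u ≠ v) :
    sum3 u v (fun w => dd s t k lam κ ρ u v w) =
      sum3 u v (fun w => dd s t k lam κ ρ v u w) := by
  by_cases hk0 : k = 0
  · -- only two vertices
    have hc : Fintype.card V = 2 := by
      have : (Fintype.card V : ℚ) = 2 := by linarith
      exact_mod_cast this
    have hu : ({u, v} : Finset V) = univ := by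
      apply eq_univ_of_card
      rw [card_pair huv, hc]
    unfold sum3
    refine sum_congr rfl fun w _ => ?_
    have hw : w ∈ ({u, v} : Finset V) := by
      rw [hu]
      exact mem_univ w
    rw [mem_insert, mem_singleton] at hw
    rw [if_pos hw, if_pos hw]
  rw [g5_sum3_comm u v (fun w => dd s t k lam κ ρ v u w),
    g5_S hl k lam κ hsym ρ hrow u v huv, g5_S hl k lam κ hsym ρ hrow v u (Ne.symm huv),
    g5_mq_symm s t v u, g5_sum3_comm v u, g5_sum3_comm v u, g5_sum3_comm v u]
  have h1 : sum3 u v (fun z => Kx s t κ z v u) = sum3 u v (fun z => Kx s t κ z u v) := by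
    unfold sum3
    refine sum_congr rfl fun z _ => ?_
    beta_reduce
    rw [g5_Kx_symm s t κ hsym z v u]
  rw [h1]
  have h2 := hlam u
  have h3 := hlam v
  have h4 : lam * ((cut s t {v}).card : ℚ) = 1 - ρ v + lam := by linarith
  have h5 : lam * ((cut s t {u}).card : ℚ) = 1 - ρ u + lam := by linarith
  rw [← hk]
  have h6 : ∀ x : ℚ, k * (x / k) = x := fun x => by field_simp
  rw [h6, h6]
  have h7 : lam * mq s t u v * (((cut s t {v}).card : ℚ) - mq s t u v) =
      mq s t u v * (lam * ((cut s t {v}).card : ℚ)) - lam * mq s t u v * mq s t u v := by ring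
  have h8 : lam * mq s t u v * (((cut s t {u}).card : ℚ) - mq s t u v) =
      mq s t u v * (lam * ((cut s t {u}).card : ℚ)) - lam * mq s t u v * mq s t u v := by ring
  rw [h7, h8, h4, h5]
  ring

end Graph

end Pool.Agent.Lib.MP_95bb8c_al.GW
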