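import Pool.Agent.Lib.MP_95bb8c_al.GW.Defs

set_option autoImplicit false
set_option linter.unusedSectionVars false

/-!
# Nearly uniform lists: the cost identity
-/

namespace Pool.Agent.Lib.MP_95bb8c_al.GW

open Finset

variable {V E : Type} [Fintype V] [DecidableEq V] [Fintype E] [DecidableEq E]

theorem g3_J_comm (s t : E → V) (u v : V) : J s t u v = J s t v u := by
  unfold J
  ext e
  simp only [mem_filter, mem_univ, true_and]
  constructor
  · rintro ⟨h, h'⟩
    exact ⟨h.symm, h'.elim (fun x => Or.inr ⟨x.1, x.2⟩) (fun x => Or.inl ⟨x.1, x.2⟩)⟩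
  · rintro ⟨h, h'⟩
    exact ⟨h.symm, h'.elim (fun x => Or.inr ⟨x.1, x.2⟩) (fun x => Or.inl ⟨x.1, x.2⟩)⟩

theorem g3_J_self (s t : E → V) (u : V) : J s t u u = ∅ := by
  unfold J
  ext e
  simp

theorem g3_ne_of_mem {s t : E → V} {u v : V} {e : E} (h : e ∈ J s t u v) : u ≠ v := by
  unfold J at h
  exact (mem_filter.1 h).2.1

theorem g3_mq_comm (s t : E → V) (u v : V) : mq s t u v = mq s t v u := by
  unfold mq
  rw [g3_J_comm]

/-- The sum over the closed walks of length 3. -/
def g3_S3 (s t : E → V) (G : V → V → V → E → E → E → ℚ) : ℚ :=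
  ∑ u, ∑ v, ∑ w, ∑ p ∈ J s t u v, ∑ q ∈ J s t v w, ∑ r ∈ J s t w u, G u v w p q r

/-- The sum over the 4-cycles. -/
def g3_S4 (s t : E → V) (G : V → V → V → V → E → E → E → E → ℚ) : ℚ :=
  ∑ u, ∑ v, ∑ w, ∑ z, if u = w ∨ v = z then 0 else
    ∑ p ∈ J s t u v, ∑ q ∈ J s t v w, ∑ r ∈ J s t w z, ∑ x ∈ J s t z u, G u v w z p q r x

theorem g3_rot3 (s t : E → V) (G : V → V → V → E → E → E → ℚ) :
    g3_S3 s t (fun u v w p q r => G v w u q r p) = g3_S3 s t G := by
  unfold g3_S3
  rw [sum_comm]
  refine sum_congr rfl fun v _ => ?_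
  rw [sum_comm]
  refine sum_congr rfl fun w _ => ?_
  refine sum_congr rfl fun u _ => ?_
  rw [sum_comm]
  refine sum_congr rfl fun q _ => ?_
  rw [sum_comm]

theorem g3_rot4 (s t : E → V) (G : V → V → V → V → E → E → E → E → ℚ) :
    g3_S4 s t (fun u v w z p q r x => G v w z u q r x p) = g3_S4 s t G := by
  unfold g3_S4
  rw [sum_comm]
  refine sum_congr rfl fun v _ => ?_
  rw [sum_comm]
  refine sum_congr rfl fun w _ => ?_
  rw [sum_comm]
  refine sum_congr rfl fun z _ => ?_
  refine sum_congr rfl fun u _ => ?_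
  by_cases h : u = w ∨ v = z
  · rw [if_pos h, if_pos (h.elim (fun x => Or.inr x.symm) Or.inl)]
  · have h' : ¬ (v = z ∨ w = u) := fun x => h (x.elim Or.inr (fun y => Or.inl y.symm))
    rw [if_neg h, if_neg h']
    rw [sum_comm]
    refine sum_congr rfl fun q _ => ?_
    rw [sum_comm]
    refine sum_congr rfl fun r _ => ?_
    rw [sum_comm]

theorem g3_S3_add (s t : E → V) (G H : V → V → V → E → E → E → ℚ) :
    g3_S3 s t (fun u v w p q r => G u v w p q r + H u v w p q r) =
      g3_S3 s t G + g3_S3 s t H := by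
  unfold g3_S3
  simp only [sum_add_distrib]

theorem g3_S4_add (s t : E → V) (G H : V → V → V → V → E → E → E → E → ℚ) :
    g3_S4 s t (fun u v w z p q r x => G u v w z p q r x + H u v w z p q r x) =
      g3_S4 s t G + g3_S4 s t H := by
  unfold g3_S4
  rw [← sum_add_distrib]
  refine sum_congr rfl fun u _ => ?_
  rw [← sum_add_distrib]
  refine sum_congr rfl fun v _ => ?_
  rw [← sum_add_distrib]
  refine sum_congr rfl fun w _ => ?_
  rw [← sum_add_distrib]
  refine sum_congr rfl fun z _ => ?_
  by_cases h : u = w ∨ v = z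
  · simp only [if_pos h, add_zero]
  · simp only [if_neg h, sum_add_distrib]

/-- The weight of the triangles at a corner. -/
def g3_FT (s t : E → V) (W : V → V → V → E → E → E → ℚ) (u v w : V) (p q : E) : ℚ :=
  ∑ r ∈ J s t w u, (W u v w p q r + W w u v r p q + W v w u q r p)

/-- The weight of the 4-cycles at a corner. -/
def g3_FQ (s t : E → V) (W : V → V → V → V → E → E → E → E → ℚ) (u v w : V) (p q : E) : ℚ :=
  ∑ z, if v = z then 0 else ∑ r ∈ J s t w z, ∑ x ∈ J s t z u,
    (W u v w z p q r x + W z u v w x p q r + W w z u v r x p q + W v w z u q r x p)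

theorem g3_totT (s t : E → V) (W : V → V → V → E → E → E → ℚ) (c : V → E → E → ℚ) :
    totT s t W c = corner s t (g3_FT s t W) c := by
  have h1 : totT s t W c = g3_S3 s t (fun u v w p q r => W u v w p q r * c v p q) +
      g3_S3 s t (fun u v w p q r => W u v w p q r * c w q r) +
      g3_S3 s t (fun u v w p q r => W u v w p q r * c u r p) := by
    rw [← g3_S3_add, ← g3_S3_add]
    unfold totT g3_S3
    simp only [mul_add]
  have h2 : g3_S3 s t (fun u v w p q r => W u v w p q r * c w q r) =
      g3_S3 s t (fun u v w p q r => W w u v r p q * c v p q) :=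
    g3_rot3 s t (fun u v w p q r => W w u v r p q * c v p q)
  have h3 : g3_S3 s t (fun u v w p q r => W u v w p q r * c u r p) =
      g3_S3 s t (fun u v w p q r => W v w u q r p * c v p q) := by
    have h := g3_rot3 s t (fun u v w p q r => W u v w p q r * c u r p)
    have h' := g3_rot3 s t (fun u v w p q r => W v w u q r p * c v p q)
    exact h.symm
  rw [h1, h2, h3, ← g3_S3_add, ← g3_S3_add]
  unfold g3_S3 corner g3_FT
  refine sum_congr rfl fun u _ => sum_congr rfl fun v _ => sum_congr rfl fun w _ => ?_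
  by_cases h : u = w
  · subst h
    rw [if_pos rfl]
    refine sum_eq_zero fun p _ => sum_eq_zero fun q _ => ?_
    rw [g3_J_self, sum_empty]
  · rw [if_neg h]
    refine sum_congr rfl fun p _ => sum_congr rfl fun q _ => ?_
    rw [sum_mul]
    refine sum_congr rfl fun r _ => ?_
    ring

theorem g3_totQ (s t : E → V) (W : V → V → V → V → E → E → E → E → ℚ) (c : V → E → E → ℚ) :
    totQ s t W c = corner s t (g3_FQ s t W) c := by
  have h1 : totQ s t W c =
      g3_S4 s t (fun u v w z p q r x => W u v w z p q r x * c v p q) +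
      g3_S4 s t (fun u v w z p q r x => W u v w z p q r x * c w q r) +
      g3_S4 s t (fun u v w z p q r x => W u v w z p q r x * c z r x) +
      g3_S4 s t (fun u v w z p q r x => W u v w z p q r x * c u x p) := by
    rw [← g3_S4_add, ← g3_S4_add, ← g3_S4_add]
    unfold totQ g3_S4
    simp only [mul_add]
  have h2 : g3_S4 s t (fun u v w z p q r x => W u v w z p q r x * c w q r) =
      g3_S4 s t (fun u v w z p q r x => W z u v w x p q r * c v p q) :=
    g3_rot4 s t (fun u v w z p q r x => W z u v w x p q r * c v p q)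
  have h3 : g3_S4 s t (fun u v w z p q r x => W u v w z p q r x * c z r x) =
      g3_S4 s t (fun u v w z p q r x => W w z u v r x p q * c v p q) :=
    (g3_rot4 s t (fun u v w z p q r x => W z u v w x p q r * c w q r)).trans
      (g3_rot4 s t (fun u v w z p q r x => W w z u v r x p q * c v p q))
  have h4 : g3_S4 s t (fun u v w z p q r x => W u v w z p q r x * c u x p) =
      g3_S4 s t (fun u v w z p q r x => W v w z u q r x p * c v p q) :=
    (g3_rot4 s t (fun u v w z p q r x => W u v w z p q r x * c u x p)).symm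
  rw [h1, h2, h3, h4, ← g3_S4_add, ← g3_S4_add, ← g3_S4_add]
  unfold g3_S4 corner g3_FQ
  refine sum_congr rfl fun u _ => sum_congr rfl fun v _ => sum_congr rfl fun w _ => ?_
  by_cases h : u = w
  · rw [if_pos h]
    refine sum_eq_zero fun z _ => ?_
    rw [if_pos (Or.inl h)]
  · rw [if_neg h]
    have e1 : ∀ z, (if u = w ∨ v = z then (0 : ℚ) else
        ∑ p ∈ J s t u v, ∑ q ∈ J s t v w, ∑ r ∈ J s t w z, ∑ x ∈ J s t z u,
          (W u v w z p q r x * c v p q + W z u v w x p q r * c v p q +
            W w z u v r x p q * c v p q + W v w z u q r x p * c v p q)) =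
        ∑ p ∈ J s t u v, ∑ q ∈ J s t v w, (if v = z then 0 else
          ∑ r ∈ J s t w z, ∑ x ∈ J s t z u, (W u v w z p q r x + W z u v w x p q r +
            W w z u v r x p q + W v w z u q r x p)) * c v p q := by
      intro z
      by_cases hz : v = z
      · simp [hz]
      · rw [if_neg (by simp [h, hz])]
        simp only [if_neg hz]
        refine sum_congr rfl fun p _ => sum_congr rfl fun q _ => ?_
        rw [sum_mul]
        refine sum_congr rfl fun r _ => ?_
        rw [sum_mul]
        refine sum_congr rfl fun x _ => ?_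
        ring
    rw [sum_congr rfl fun z _ => e1 z, sum_comm]
    refine sum_congr rfl fun p _ => ?_
    rw [sum_comm]
    refine sum_congr rfl fun q _ => ?_
    rw [sum_mul]

theorem g3_split {u v w : V} (huv : u ≠ v) (hvw : v ≠ w) (huw : u ≠ w) (f : V → ℚ) :
    ∑ z, (if z = v then 0 else f z) = f u + f w + sum4 u v w f := by
  have h : ∀ z, (if z = v then 0 else f z) =
      (if z = u then f u else 0) + (if z = w then f w else 0) +
        (if z = u ∨ z = v ∨ z = w then 0 else f z) := by
    intro z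
    by_cases h1 : z = u
    · subst h1
      simp [huv, huw]
    by_cases h2 : z = v
    · subst h2
      simp [h1, hvw]
    by_cases h3 : z = w
    · subst h3
      simp [h1, h2]
    · simp [h1, h2, h3]
  rw [sum_congr rfl fun z _ => h z, sum_add_distrib, sum_add_distrib, sum_ite_eq' univ u,
    sum_ite_eq' univ w]
  simp [sum4]

theorem g3_sum4_const {u v w : V} (huv : u ≠ v) (hvw : v ≠ w) (huw : u ≠ w) (a : ℚ) :
    sum4 u v w (fun _ => a) = ((Fintype.card V : ℚ) - 3) * a := by
  have h1 := g3_split huv hvw huw (fun _ => a)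
  have h2 : ∑ z : V, (if z = v then (0 : ℚ) else a) = ((Fintype.card V : ℚ) - 1) * a := by
    have h3 : ∀ z : V, (if z = v then (0 : ℚ) else a) = a - (if z = v then a else 0) := by
      intro z
      by_cases hz : z = v <;> simp [hz]
    rw [sum_congr rfl fun z _ => h3 z, sum_sub_distrib, sum_ite_eq' univ v]
    simp
    ring
  rw [h2] at h1
  linarith

theorem g3_sum4_add (u v w : V) (f g : V → ℚ) :
    sum4 u v w (fun z => f z + g z) = sum4 u v w f + sum4 u v w g := by
  unfold sum4
  rw [← sum_add_distrib]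
  refine sum_congr rfl fun z _ => ?_
  by_cases h : z = u ∨ z = v ∨ z = w
  · simp only [if_pos h, add_zero]
  · simp only [if_neg h]

theorem g3_sum4_mul (u v w : V) (f : V → ℚ) (a : ℚ) :
    sum4 u v w (fun z => f z * a) = sum4 u v w f * a := by
  unfold sum4
  rw [sum_mul]
  refine sum_congr rfl fun z _ => ?_
  by_cases h : z = u ∨ z = v ∨ z = w
  · simp only [if_pos h, zero_mul]
  · simp only [if_neg h]

theorem g3_sum4_congr (u v w : V) (f g : V → ℚ)
    (h : ∀ z, z ≠ u → z ≠ v → z ≠ w → f z = g z) : sum4 u v w f = sum4 u v w g := by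
  unfold sum4
  refine sum_congr rfl fun z _ => ?_
  by_cases hz : z = u ∨ z = v ∨ z = w
  · rw [if_pos hz, if_pos hz]
  · rw [if_neg hz, if_neg hz]
    push Not at hz
    exact h z hz.1 hz.2.1 hz.2.2

theorem g3_FQ_sum4 (s t : E → V) (W : V → V → V → V → E → E → E → E → ℚ) (u v w : V) (p q : E) :
    g3_FQ s t W u v w p q = sum4 u v w (fun z => ∑ r ∈ J s t w z, ∑ x ∈ J s t z u,
      (W u v w z p q r x + W z u v w x p q r + W w z u v r x p q + W v w z u q r x p)) := by
  unfold g3_FQ sum4
  refine sum_congr rfl fun z _ => ?_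
  by_cases h1 : z = v
  · subst h1
    simp
  by_cases h2 : z = u
  · subst h2
    simp [g3_J_self]
  by_cases h3 : z = w
  · subst h3
    simp [g3_J_self]
  · rw [if_neg (fun h => h1 h.symm), if_neg (by simp [h1, h2, h3])]

section Main

variable {s t : E → V} (k : ℚ) (κ : V → E → E → ℚ)

/-- The contribution of the triangles. -/
theorem g3_FT_val (hk0 : k ≠ 0) (hm : ∀ u v, u ≠ v → mq s t u v ≠ 0)
    (T : V → V → V → ℚ) (hT : ∀ u v w, T u v w = T v w u) {u v w : V}
    (huv : u ≠ v) (hvw : v ≠ w) (huw : u ≠ w) (p q : E) :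
    g3_FT s t (WTof s t k κ T) u v w p q =
      κ v p q / k + (∑ r ∈ J s t w u, κ u r p) / (k * mq s t v w) +
        (∑ r ∈ J s t w u, κ w q r) / (k * mq s t u v) +
          3 * T u v w / (mq s t u v * mq s t v w) := by
  have m1 := hm u v huv
  have m2 := hm v w hvw
  have m3 := hm w u huw.symm
  have hc : (((J s t w u).card : ℚ)) = mq s t w u := rfl
  unfold g3_FT WTof
  have e1 : T w u v = T u v w := hT w u v
  have e2 : T v w u = T u v w := (hT u v w).symm
  rw [e1, e2]
  have h : ∀ r, (κ v p q / (k * mq s t w u) + T u v w / (mq s t u v * mq s t v w * mq s t w u) +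
      (κ u r p / (k * mq s t v w) + T u v w / (mq s t w u * mq s t u v * mq s t v w)) +
      (κ w q r / (k * mq s t u v) + T u v w / (mq s t v w * mq s t w u * mq s t u v))) =
      (κ v p q / (k * mq s t w u) + 3 * T u v w / (mq s t u v * mq s t v w * mq s t w u)) +
        κ u r p * (1 / (k * mq s t v w)) + κ w q r * (1 / (k * mq s t u v)) := by
    intro r
    field_simp
    ring
  rw [sum_congr rfl fun r _ => h r, sum_add_distrib, sum_add_distrib, ← sum_mul, ← sum_mul,
    sum_const, nsmul_eq_mul, hc]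
  field_simp
  ring

/-- The contribution of the 4-cycles. -/
theorem g3_FQ_val (hk0 : k ≠ 0) (hm : ∀ u v, u ≠ v → mq s t u v ≠ 0)
    (hsym : ∀ v e f, κ v e f = κ v f e)
    (Y : V → V → V → V → ℚ) (hY : ∀ u v w z, Y u v w z = Y v w z u) {u v w : V}
    (huv : u ≠ v) (hvw : v ≠ w) (huw : u ≠ w) (p q : E) :
    g3_FQ s t (WQof s t k κ Y) u v w p q =
      ((Fintype.card V : ℚ) - 3) * (κ v p q / k) +
        sum4 u v w (fun z => ∑ x ∈ J s t z u, κ u x p) / (k * mq s t v w) +
        sum4 u v w (fun z => ∑ r ∈ J s t w z, κ w q r) / (k * mq s t u v) +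
        sum4 u v w (fun z => Kx s t κ z u w) / (k * mq s t u v * mq s t v w) +
          4 * sum4 u v w (fun z => Y u v w z) / (mq s t u v * mq s t v w) := by
  have m1 := hm u v huv
  have m2 := hm v w hvw
  rw [g3_FQ_sum4]
  have key : ∀ z, z ≠ u → z ≠ v → z ≠ w →
      (∑ r ∈ J s t w z, ∑ x ∈ J s t z u,
        (WQof s t k κ Y u v w z p q r x + WQof s t k κ Y z u v w x p q r +
          WQof s t k κ Y w z u v r x p q + WQof s t k κ Y v w z u q r x p)) =
      κ v p q / k + (∑ x ∈ J s t z u, κ u x p) * (1 / (k * mq s t v w)) +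
        (∑ r ∈ J s t w z, κ w q r) * (1 / (k * mq s t u v)) +
        Kx s t κ z u w * (1 / (k * mq s t u v * mq s t v w)) +
        Y u v w z * (4 / (mq s t u v * mq s t v w)) := by
    intro z hzu hzv hzw
    have m3 := hm w z hzw.symm
    have m4 := hm z u hzu
    have c3 : (((J s t w z).card : ℚ)) = mq s t w z := rfl
    have c4 : (((J s t z u).card : ℚ)) = mq s t z u := rfl
    have e1 : Y z u v w = Y u v w z := hY z u v w
    have e2 : Y w z u v = Y u v w z := (hY w z u v).trans e1
    have e3 : Y v w z u = Y u v w z := (hY u v w z).symm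
    have hKx : Kx s t κ z u w = ∑ r ∈ J s t w z, ∑ x ∈ J s t z u, κ z r x := by
      unfold Kx
      rw [sum_comm, g3_J_comm s t z w, g3_J_comm s t u z]
      exact sum_congr rfl fun r _ => sum_congr rfl fun x _ => hsym z x r
    rw [hKx]
    unfold WQof
    rw [e1, e2, e3]
    have h : ∀ r x, (κ v p q / (k * mq s t w z * mq s t z u) +
        Y u v w z / (mq s t u v * mq s t v w * mq s t w z * mq s t z u) +
        (κ u x p / (k * mq s t v w * mq s t w z) +
          Y u v w z / (mq s t z u * mq s t u v * mq s t v w * mq s t w z)) +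
        (κ z r x / (k * mq s t u v * mq s t v w) +
          Y u v w z / (mq s t w z * mq s t z u * mq s t u v * mq s t v w)) +
        (κ w q r / (k * mq s t z u * mq s t u v) +
          Y u v w z / (mq s t v w * mq s t w z * mq s t z u * mq s t u v))) =
        (κ v p q / (k * mq s t w z * mq s t z u) +
          4 * Y u v w z / (mq s t u v * mq s t v w * mq s t w z * mq s t z u)) +
          κ u x p * (1 / (k * mq s t v w * mq s t w z)) +
          κ z r x * (1 / (k * mq s t u v * mq s t v w)) +
          κ w q r * (1 / (k * mq s t z u * mq s t u v)) := by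
      intro r x
      field_simp
      ring
    rw [sum_congr rfl fun r _ => sum_congr rfl fun x _ => h r x]
    simp only [sum_add_distrib, ← sum_mul, sum_const, nsmul_eq_mul, c3, c4, ← mul_sum]
    field_simp
    ring
  rw [g3_sum4_congr u v w _ _ key, g3_sum4_add, g3_sum4_add, g3_sum4_add, g3_sum4_add,
    g3_sum4_mul, g3_sum4_mul, g3_sum4_mul, g3_sum4_mul, g3_sum4_const huv hvw huw]
  ring

theorem g3_corner_congr (F G : V → V → V → E → E → ℚ) (c : V → E → E → ℚ)
    (h : ∀ u v w, u ≠ v → v ≠ w → u ≠ w → ∀ p ∈ J s t u v, ∀ q ∈ J s t v w,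
      F u v w p q = G u v w p q) : corner s t F c = corner s t G c := by
  unfold corner
  refine sum_congr rfl fun u _ => sum_congr rfl fun v _ => sum_congr rfl fun w _ => ?_
  by_cases huw : u = w
  · rw [if_pos huw, if_pos huw]
  · rw [if_neg huw, if_neg huw]
    refine sum_congr rfl fun p hp => sum_congr rfl fun q hq => ?_
    rw [h u v w (g3_ne_of_mem hp) (g3_ne_of_mem hq) huw p hp q hq]

theorem g3_corner_add (F G : V → V → V → E → E → ℚ) (c : V → E → E → ℚ) :
    corner s t F c + corner s t G c = corner s t (fun u v w p q => F u v w p q + G u v w p q) c := by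
  unfold corner
  rw [← sum_add_distrib]
  refine sum_congr rfl fun u _ => ?_
  rw [← sum_add_distrib]
  refine sum_congr rfl fun v _ => ?_
  rw [← sum_add_distrib]
  refine sum_congr rfl fun w _ => ?_
  by_cases huw : u = w
  · simp only [if_pos huw, add_zero]
  · simp only [if_neg huw, add_mul, sum_add_distrib]

/-- The cost identity, general form. -/
theorem functional_gen (hk : k = (Fintype.card V : ℚ) - 2)
    (hK : 4 ≤ Fintype.card V) (hm : ∀ u v, u ≠ v → mq s t u v ≠ 0)
    (hsym : ∀ v e f, κ v e f = κ v f e) (ρ : V → V → ℚ)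
    (hrow : ∀ v w, ∀ q ∈ J s t v w,
      ∑ u, (if u = w then 0 else ∑ p ∈ J s t u v, κ v p q) = ρ v w)
    (A T : V → V → V → ℚ) (hT : ∀ u v w, T u v w = T v w u)
    (Y : V → V → V → V → ℚ) (hY : ∀ u v w z, Y u v w z = Y v w z u)
    (hd : ∀ u v w, u ≠ v → v ≠ w → u ≠ w →
      3 * T u v w + 4 * sum4 u v w (fun z => Y u v w z) =
        A u v w - ρ u v * mq s t u v / k - ρ w v * mq s t v w / k -
          sum4 u v w (fun z => Kx s t κ z u w) / k)
    (c : V → E → E → ℚ) :
    totT s t (WTof s t k κ T) c + totQ s t (WQof s t k κ Y) c =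
      corner s t (fun u v w p q => κ v p q + A u v w / (mq s t u v * mq s t v w)) c := by
  have hk0 : k ≠ 0 := by
    have h4 : (4 : ℚ) ≤ (Fintype.card V : ℚ) := by exact_mod_cast hK
    rw [hk]
    intro h
    linarith
  rw [g3_totT, g3_totQ, g3_corner_add]
  refine g3_corner_congr _ _ c fun u v w huv hvw huw p hp q hq => ?_
  have m1 := hm u v huv
  have m2 := hm v w hvw
  rw [g3_FT_val k κ hk0 hm T hT huv hvw huw, g3_FQ_val k κ hk0 hm hsym Y hY huv hvw huw]
  have r1 : (∑ r ∈ J s t w u, κ u r p) + sum4 u v w (fun z => ∑ x ∈ J s t z u, κ u x p) =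
      ρ u v := by
    have h1 := hrow u v p hp
    have h2 := g3_split huv hvw huw (fun z => ∑ x ∈ J s t z u, κ u x p)
    rw [h2] at h1
    simp only [g3_J_self, sum_empty, zero_add] at h1
    exact h1
  have r2 : (∑ r ∈ J s t w u, κ w q r) + sum4 u v w (fun z => ∑ r ∈ J s t w z, κ w q r) =
      ρ w v := by
    have h1 := hrow w v q (by rw [g3_J_comm]; exact hq)
    have h2 := g3_split huv hvw huw (fun z => ∑ x ∈ J s t z w, κ w x q)
    rw [h2] at h1
    simp only [g3_J_self, sum_empty, add_zero] at h1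
    rw [← h1, g3_J_comm s t w u]
    have e1 : ∀ z, (∑ r ∈ J s t w z, κ w q r) = ∑ x ∈ J s t z w, κ w x q := by
      intro z
      rw [g3_J_comm s t w z]
      exact sum_congr rfl fun r _ => hsym w q r
    have e2 : (∑ r ∈ J s t u w, κ w q r) = ∑ x ∈ J s t u w, κ w x q :=
      sum_congr rfl fun r _ => hsym w q r
    rw [e2]
    simp only [e1]
  have hdd := hd u v w huv hvw huw
  have hk3 : (Fintype.card V : ℚ) - 3 = k - 1 := by rw [hk]; ring
  rw [hk3]
  have e3 : κ v p q / k + (k - 1) * (κ v p q / k) = κ v p q := by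
    field_simp
    ring
  have e4 : 3 * T u v w / (mq s t u v * mq s t v w) +
      4 * sum4 u v w (fun z => Y u v w z) / (mq s t u v * mq s t v w) =
      (A u v w - ρ u v * mq s t u v / k - ρ w v * mq s t v w / k -
          sum4 u v w (fun z => Kx s t κ z u w) / k) / (mq s t u v * mq s t v w) := by
    rw [← hdd]
    ring
  have e5 : (∑ r ∈ J s t w u, κ u r p) / (k * mq s t v w) +
      sum4 u v w (fun z => ∑ x ∈ J s t z u, κ u x p) / (k * mq s t v w) =
      ρ u v / (k * mq s t v w) := by
    rw [← r1]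
    ring
  have e6 : (∑ r ∈ J s t w u, κ w q r) / (k * mq s t u v) +
      sum4 u v w (fun z => ∑ r ∈ J s t w z, κ w q r) / (k * mq s t u v) =
      ρ w v / (k * mq s t u v) := by
    rw [← r2]
    ring
  have e7 : (A u v w - ρ u v * mq s t u v / k - ρ w v * mq s t v w / k -
          sum4 u v w (fun z => Kx s t κ z u w) / k) / (mq s t u v * mq s t v w) =
      A u v w / (mq s t u v * mq s t v w) - ρ u v / (k * mq s t v w) -
        ρ w v / (k * mq s t u v) -
        sum4 u v w (fun z => Kx s t κ z u w) / (k * mq s t u v * mq s t v w) := by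
    field_simp
  linear_combination e3 + e4 + e5 + e6 + e7

end Main

/-- The cost identity. -/
theorem functional {s t : E → V} (k : ℚ) (hk : k = (Fintype.card V : ℚ) - 2)
    (hK : 4 ≤ Fintype.card V) (hm : ∀ u v, u ≠ v → mq s t u v ≠ 0) (lam : ℚ)
    (κ : V → E → E → ℚ) (hsym : ∀ v e f, κ v e f = κ v f e) (ρ : V → ℚ)
    (hrow : ∀ v w, ∀ q ∈ J s t v w,
      ∑ u, (if u = w then 0 else ∑ p ∈ J s t u v, κ v p q) = ρ v)
    (T : V → V → V → ℚ) (hT : ∀ u v w, T u v w = T v w u)
    (Y : V → V → V → V → ℚ) (hY : ∀ u v w z, Y u v w z = Y v w z u)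
    (hd : ∀ u v w, u ≠ v → v ≠ w → u ≠ w →
      3 * T u v w + 4 * sum4 u v w (fun z => Y u v w z) = dd s t k lam κ ρ u v w)
    (c : V → E → E → ℚ) (_hc : ∀ v e f, c v e f = c v f e) :
    totT s t (WTof s t k κ T) c + totQ s t (WQof s t k κ Y) c =
      corner s t (fun _ v _ p q => lam + κ v p q) c := by
  rw [functional_gen k κ hk hK hm hsym (fun v _ => ρ v) hrow
    (fun u v w => lam * mq s t u v * mq s t v w) T hT Y hY (fun u v w h1 h2 h3 => by
      rw [hd u v w h1 h2 h3]
      rfl) c]
  refine g3_corner_congr _ _ c fun u v w huv hvw huw p hp q hq => ?_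
  have m1 := hm u v huv
  have m2 := hm v w hvw
  field_simp
  ring

end Pool.Agent.Lib.MP_95bb8c_al.GW
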