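import Mathlib

set_option autoImplicit false

namespace Pool.Agent.Lib.MP_95bb8c_al.GW

open Finset

/-- Hall: if each row and each column of a relation on `α` has at most half of `α` forbidden then
there is a permutation which avoids the forbidden pairs. -/
theorem hall_avoid {α : Type} [Fintype α] [DecidableEq α] (F : α → α → Prop)
    [∀ x y, Decidable (F x y)] (m : ℕ) (hm : 2 * m ≤ Fintype.card α)
    (hr : ∀ x, (univ.filter fun y => F x y).card ≤ m)
    (hc : ∀ y, (univ.filter fun x => F x y).card ≤ m) :
    ∃ σ : Equiv.Perm α, ∀ x, ¬ F x (σ x) := by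
  have key : ∀ A : Finset α,
      A.card ≤ (A.biUnion fun x => univ.filter fun y => ¬ F x y).card := by
    intro A
    rcases A.eq_empty_or_nonempty with h | ⟨x, hx⟩
    · rw [h]; simp
    by_cases hA : A.card ≤ m
    · have h1 : (univ.filter fun y => ¬ F x y).card + (univ.filter fun y => F x y).card =
          Fintype.card α := by
        rw [add_comm]
        exact Finset.card_filter_add_card_filter_not (s := univ) (fun y => F x y)
      have h2 := hr x
      have h3 : (univ.filter fun y => ¬ F x y).card ≤
          (A.biUnion fun x => univ.filter fun y => ¬ F x y).card :=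
        Finset.card_le_card (Finset.subset_biUnion_of_mem
          (fun x => univ.filter fun y => ¬ F x y) hx)
      omega
    · have h1 : (A.biUnion fun x => univ.filter fun y => ¬ F x y) = univ := by
        rw [Finset.eq_univ_iff_forall]
        intro y
        rw [Finset.mem_biUnion]
        by_contra hcon
        apply hA
        refine le_trans (Finset.card_le_card ?_) (hc y)
        intro z hz
        rw [Finset.mem_filter]
        refine ⟨Finset.mem_univ _, ?_⟩
        by_contra hF
        exact hcon ⟨z, hz, by rw [Finset.mem_filter]; exact ⟨Finset.mem_univ _, hF⟩⟩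
      rw [h1]
      exact Finset.card_le_univ A
  obtain ⟨f, hf, hf2⟩ := (Finset.all_card_le_biUnion_card_iff_exists_injective _).1 key
  have hb : Function.Bijective f := Finite.injective_iff_bijective.1 hf
  refine ⟨Equiv.ofBijective f hb, ?_⟩
  intro x
  have h := hf2 x
  rw [Finset.mem_filter] at h
  exact h.2

/-- `k` pairwise disjoint permutations which avoid the pairs with equal `f` or equal `g`. -/
theorem hall_many {α β γ : Type} [Fintype α] [DecidableEq α] [DecidableEq β] [DecidableEq γ]
    (f : α → β) (g : α → γ) (k : ℕ)
    (h : ∀ x, 2 * ((univ.filter fun y => f y = f x ∨ g y = g x).card + (k - 1)) ≤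
      Fintype.card α) :
    ∃ σ : Fin k → Equiv.Perm α, (∀ i x, f (σ i x) ≠ f x ∧ g (σ i x) ≠ g x) ∧
      ∀ i j, i ≠ j → ∀ x, σ i x ≠ σ j x := by
  induction k with
  | zero => exact ⟨fun i => i.elim0, fun i => i.elim0, fun i => i.elim0⟩
  | succ k ih =>
    obtain ⟨σ, h1, h2⟩ := ih (fun x => le_trans (by omega) (h x))
    rcases isEmpty_or_nonempty α with hα | ⟨⟨x₀⟩⟩
    · exact ⟨fun _ => Equiv.refl α, fun _ x => (hα.false x).elim, fun _ _ _ x => (hα.false x).elim⟩
    have h3 : ∃ τ : Equiv.Perm α, ∀ x, ¬ ((f (τ x) = f x ∨ g (τ x) = g x) ∨ ∃ i, σ i x = τ x) := by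
      classical
      refine hall_avoid (fun x y => (f y = f x ∨ g y = g x) ∨ ∃ i, σ i x = y)
        (Fintype.card α / 2) (Nat.mul_div_le _ _) ?_ ?_
      · intro x
        have h4 := h x
        have h5 : (univ.filter fun y => (f y = f x ∨ g y = g x) ∨ ∃ i, σ i x = y) ⊆
            (univ.filter fun y => f y = f x ∨ g y = g x) ∪ univ.image fun i => σ i x := by
          intro y hy
          rw [Finset.mem_filter] at hy
          rw [Finset.mem_union, Finset.mem_filter, Finset.mem_image]
          rcases hy.2 with h6 | ⟨i, h6⟩
          · exact Or.inl ⟨Finset.mem_univ _, h6⟩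
          · exact Or.inr ⟨i, Finset.mem_univ _, h6⟩
        have h6 : (univ.image fun i : Fin k => σ i x).card ≤ k :=
          le_trans Finset.card_image_le (by rw [Finset.card_univ, Fintype.card_fin])
        have h7 := le_trans (Finset.card_le_card h5) (Finset.card_union_le _ _)
        omega
      · intro y
        have h4 := h y
        have h5 : (univ.filter fun x => (f y = f x ∨ g y = g x) ∨ ∃ i, σ i x = y) ⊆
            (univ.filter fun x => f x = f y ∨ g x = g y) ∪ univ.image fun i => (σ i).symm y := by
          intro x hx
          rw [Finset.mem_filter] at hx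
          rw [Finset.mem_union, Finset.mem_filter, Finset.mem_image]
          rcases hx.2 with h6 | ⟨i, h6⟩
          · refine Or.inl ⟨Finset.mem_univ _, ?_⟩
            rcases h6 with h6 | h6
            · exact Or.inl h6.symm
            · exact Or.inr h6.symm
          · refine Or.inr ⟨i, Finset.mem_univ _, ?_⟩
            rw [← h6, Equiv.symm_apply_apply]
        have h6 : (univ.image fun i : Fin k => (σ i).symm y).card ≤ k :=
          le_trans Finset.card_image_le (by rw [Finset.card_univ, Fintype.card_fin])
        have h7 := le_trans (Finset.card_le_card h5) (Finset.card_union_le _ _)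
        omega
    obtain ⟨τ, hτ⟩ := h3
    refine ⟨Fin.cons τ σ, ?_, ?_⟩
    · intro i x
      refine Fin.cases ?_ ?_ i
      · rw [Fin.cons_zero]
        have h4 := hτ x
        rw [not_or, not_or] at h4
        exact h4.1
      · intro i
        rw [Fin.cons_succ]
        exact h1 i x
    · intro i j hij x
      revert hij
      refine Fin.cases ?_ ?_ i
      · refine Fin.cases ?_ ?_ j
        · intro h4
          exact absurd rfl h4
        · intro j _
          rw [Fin.cons_zero, Fin.cons_succ]
          intro h4
          exact hτ x (Or.inr ⟨j, h4.symm⟩)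
      · intro i
        refine Fin.cases ?_ ?_ j
        · intro _
          rw [Fin.cons_zero, Fin.cons_succ]
          intro h4
          exact hτ x (Or.inr ⟨i, h4⟩)
        · intro j h4
          rw [Fin.cons_succ, Fin.cons_succ]
          exact h2 i j (fun h5 => h4 (by rw [h5])) x

theorem hall_two {α β γ : Type} [Fintype α] [DecidableEq α] [DecidableEq β] [DecidableEq γ]
    (f : α → β) (g : α → γ)
    (h : ∀ x, 2 * (univ.filter fun y => f y = f x ∨ g y = g x).card ≤ Fintype.card α) :
    ∃ σ : Equiv.Perm α, ∀ x, f (σ x) ≠ f x ∧ g (σ x) ≠ g x := by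
  obtain ⟨σ, h1, -⟩ := hall_many f g 1 (fun x => by
    have := h x
    simpa using this)
  exact ⟨σ 0, h1 0⟩

end Pool.Agent.Lib.MP_95bb8c_al.GW
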