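import Pool.Agent.Lib.MP_95bb8c_al.GW.Defs
import Pool.Agent.Lib.MP_95bb8c_al.GW.Hall

set_option autoImplicit false
set_option linter.unusedSectionVars false

namespace Pool.Agent.Lib.MP_95bb8c_al.GW

open Finset

section Graph

variable {V E : Type} [Fintype V] [DecidableEq V] [Fintype E] [DecidableEq E]

/-- The other end of the edge `e` at `v`. -/
def oth (s t : E → V) (v : V) (e : E) : V := if s e = v then t e else s e

theorem mem_J_oth {s t : E → V} (hl : ∀ e, s e ≠ t e) {v : V} {e : E} (he : e ∈ cut s t {v}) :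
    oth s t v e ≠ v ∧ e ∈ J s t v (oth s t v e) := by
  rw [mem_star hl] at he
  unfold oth J
  by_cases h : s e = v
  · rw [if_pos h]
    have h1 : t e ≠ v := fun h2 => hl e (h.trans h2.symm)
    refine ⟨h1, ?_⟩
    rw [Finset.mem_filter]
    exact ⟨Finset.mem_univ _, fun h2 => h1 h2.symm, Or.inl ⟨h, rfl⟩⟩
  · rw [if_neg h]
    have h2 : t e = v := he.resolve_left h
    refine ⟨h, ?_⟩
    rw [Finset.mem_filter]
    exact ⟨Finset.mem_univ _, fun h3 => h h3.symm, Or.inr ⟨rfl, h2⟩⟩

theorem oth_of_mem_J {s t : E → V} (hl : ∀ e, s e ≠ t e) {u v : V} {e : E}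
    (he : e ∈ J s t u v) : e ∈ cut s t {v} ∧ oth s t v e = u := by
  unfold J at he
  rw [Finset.mem_filter] at he
  rw [mem_star hl]
  unfold oth
  rcases he.2.2 with ⟨h1, h2⟩ | ⟨h1, h2⟩
  · refine ⟨Or.inr h2, ?_⟩
    rw [if_neg (fun h3 => he.2.1 (h1.symm.trans h3))]
    exact h1
  · refine ⟨Or.inl h1, ?_⟩
    rw [if_pos h1]
    exact h2

theorem J_comm (s t : E → V) (u v : V) : J s t u v = J s t v u := by
  ext e
  unfold J
  rw [Finset.mem_filter, Finset.mem_filter]
  constructor
  · rintro ⟨h1, h2, h3⟩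
    exact ⟨h1, h2.symm, h3.symm⟩
  · rintro ⟨h1, h2, h3⟩
    exact ⟨h1, h2.symm, h3.symm⟩

end Graph

private theorem g8_one {α : Type} {S : Finset α} {P : α → Prop} [DecidablePred P] {f₀ : α}
    (h0 : f₀ ∈ S) (h1 : P f₀) (h2 : ∀ f ∈ S, P f → f = f₀) :
    ∑ f ∈ S, (if P f then (1 : ℚ) else 0) = 1 := by
  rw [Finset.sum_eq_single_of_mem f₀ h0]
  · rw [if_pos h1]
  · intro f hf hne
    rw [if_neg (fun h => hne (h2 f hf h))]

section Words

variable {n : ℕ} {U : List (List (Letter n))}

theorem conMap_conMap (hU : CycRed U) (v : Letter n) {e : Pos U} (he : e ∈ star U v) :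
    conMap U (bar v) (conMap U v e) = e := by
  unfold star at he
  rw [mem_star (no_loop hU)] at he
  by_cases h1 : tgt U e = v
  · have h2 : conMap U v e = e.next := if_pos h1
    have h3 : src U e.next = bar v := tgt_eq h1
    have h4 : ¬ tgt U e.next = bar v := fun h5 => no_loop hU e.next (h3.trans h5.symm)
    rw [h2]
    unfold conMap
    rw [if_neg h4, prev_next]
  · have h2 : conMap U v e = e.prev := if_neg h1
    have h3 : src U e = v := he.resolve_right h1
    have h4 : tgt U e.prev = bar v := src_eq h3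
    rw [h2]
    unfold conMap
    rw [if_pos h4, next_prev]

/-- The edge at the positive letter which is connected to the edge `e` at `v`. -/
private def bas (v : Letter n) (e : Pos U) : Pos U := if v.2 = true then e else conMap U v e

private theorem bas_mem (hU : CycRed U) {v : Letter n} {e : Pos U} (he : e ∈ star U v) :
    bas v e ∈ star U (v.1, true) := by
  obtain ⟨a, b⟩ := v
  unfold bas
  cases b
  · rw [if_neg (by simp)]
    exact conMap_mem hU (a, false) e he
  · rw [if_pos rfl]
    exact he

private theorem bas_inj (hU : CycRed U) {v : Letter n} {e f : Pos U} (he : e ∈ star U v)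
    (hf : f ∈ star U v) (h : bas v e = bas v f) : e = f := by
  obtain ⟨a, b⟩ := v
  unfold bas at h
  cases b
  · rw [if_neg (by simp), if_neg (by simp)] at h
    exact conMap_inj hU (a, false) e he f hf h
  · rw [if_pos rfl, if_pos rfl] at h
    exact h

private theorem bas_surj (hU : CycRed U) (v : Letter n) {x : Pos U}
    (hx : x ∈ star U (v.1, true)) : ∃ e ∈ star U v, bas v e = x := by
  obtain ⟨a, b⟩ := v
  cases b
  · refine ⟨conMap U (a, true) x, conMap_mem hU (a, true) x hx, ?_⟩
    unfold bas
    rw [if_neg (by simp)]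
    exact conMap_conMap hU (a, true) hx
  · exact ⟨x, hx, if_pos rfl⟩

private theorem bas_con (hU : CycRed U) {v : Letter n} {e : Pos U} (he : e ∈ star U v) :
    bas (bar v) (conMap U v e) = bas v e := by
  obtain ⟨a, b⟩ := v
  unfold bas bar
  cases b
  · simp
  · simp only [Bool.not_true]
    rw [if_neg (by simp), if_pos trivial]
    exact conMap_conMap hU (a, true) he

/-- The special weights on the Whitehead graph: for each generator `a` they are spread over `k a`
disjoint permutations. -/
theorem exists_kappa_spread (hU : CycRed U) (ρ : Fin n → ℚ)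
    (hρ : ∀ a, 0 ≤ ρ a) (k : Fin n → ℕ) (hk : ∀ a, 0 < k a)
    (h4 : ∀ v u u' : Letter n, u ≠ v → u' ≠ bar v →
      2 * (mult U v u + mult U (bar v) u' + (k v.1 - 1)) ≤ occ U v.1) :
    ∃ κ : Letter n → Pos U → Pos U → ℚ, (∀ v e f, 0 ≤ κ v e f) ∧
      (∀ v e f, κ v e f = κ v f e) ∧
      (∀ u v, ∀ e ∈ J (src U) (tgt U) u v, ∀ f ∈ J (src U) (tgt U) u v, κ v e f = 0) ∧
      (∀ v, ∀ e ∈ star U v, ∑ f ∈ star U v, κ v e f = ρ v.1) ∧
      (∀ v, ∀ e ∈ star U v, ∀ f ∈ star U v,
        κ (bar v) (conMap U v e) (conMap U v f) = κ v e f) ∧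
      ∀ v e f, (k v.1 : ℚ) * κ v e f ≤ ρ v.1 := by
  classical
  have hl := no_loop hU
  -- the permutations
  have hall : ∀ a : Fin n, ∃ σ : Fin (k a) → Equiv.Perm {e : Pos U // e ∈ star U (a, true)},
      (∀ i x, oth (src U) (tgt U) (a, true) (σ i x).1 ≠ oth (src U) (tgt U) (a, true) x.1 ∧
        oth (src U) (tgt U) (a, false) (conMap U (a, true) (σ i x).1) ≠
          oth (src U) (tgt U) (a, false) (conMap U (a, true) x.1)) ∧
      ∀ i j, i ≠ j → ∀ x, σ i x ≠ σ j x := by
    intro a
    refine hall_many (fun x : {e : Pos U // e ∈ star U (a, true)} =>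
      oth (src U) (tgt U) (a, true) x.1)
      (fun x => oth (src U) (tgt U) (a, false) (conMap U (a, true) x.1)) (k a) ?_
    intro x
    have h1 := mem_J_oth hl x.2
    have h2 := mem_J_oth hl (conMap_mem hU (a, true) x.1 x.2)
    have h3 := h4 (a, true) (oth (src U) (tgt U) (a, true) x.1)
      (oth (src U) (tgt U) (a, false) (conMap U (a, true) x.1)) h1.1 h2.1
    have h5 : Fintype.card {e : Pos U // e ∈ star U (a, true)} = occ U a := by
      rw [Fintype.card_coe]
      exact dg_eq hU (a, true)
    rw [h5]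
    refine le_trans (Nat.mul_le_mul_left 2 (Nat.add_le_add_right ?_ _)) h3
    have h6 : (univ.filter fun y : {e : Pos U // e ∈ star U (a, true)} =>
        oth (src U) (tgt U) (a, true) y.1 = oth (src U) (tgt U) (a, true) x.1 ∨
        oth (src U) (tgt U) (a, false) (conMap U (a, true) y.1) =
          oth (src U) (tgt U) (a, false) (conMap U (a, true) x.1)) =
        (univ.filter fun y : {e : Pos U // e ∈ star U (a, true)} =>
          oth (src U) (tgt U) (a, true) y.1 = oth (src U) (tgt U) (a, true) x.1) ∪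
        (univ.filter fun y : {e : Pos U // e ∈ star U (a, true)} =>
          oth (src U) (tgt U) (a, false) (conMap U (a, true) y.1) =
          oth (src U) (tgt U) (a, false) (conMap U (a, true) x.1)) := by
      ext y
      simp only [Finset.mem_union, Finset.mem_filter, Finset.mem_univ, true_and]
    rw [h6]
    refine le_trans (Finset.card_union_le _ _) (Nat.add_le_add ?_ ?_)
    · unfold mult
      refine Finset.card_le_card_of_injOn (fun y => y.1) ?_ ?_
      · intro y hy
        have hy2 : oth (src U) (tgt U) (a, true) y.1 = oth (src U) (tgt U) (a, true) x.1 := by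
          simpa using hy
        have h7 := (mem_J_oth hl y.2).2
        rw [hy2] at h7
        exact h7
      · intro y _ z _ hyz
        exact Subtype.ext hyz
    · unfold mult
      refine Finset.card_le_card_of_injOn (fun y => conMap U (a, true) y.1) ?_ ?_
      · intro y hy
        have hy2 : oth (src U) (tgt U) (a, false) (conMap U (a, true) y.1) =
          oth (src U) (tgt U) (a, false) (conMap U (a, true) x.1) := by
          simpa using hy
        have h7 := (mem_J_oth hl (conMap_mem hU (a, true) y.1 y.2)).2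
        have h8 : bar (a, true) = (a, false) := rfl
        rw [h8] at h7
        rw [hy2] at h7
        exact h7
      · intro y _ z _ hyz
        exact Subtype.ext (conMap_inj hU (a, true) y.1 y.2 z.1 z.2 hyz)
  choose σ hσ1 hσ2 using hall
  -- extended to all positions
  let S : (a : Fin n) → Fin (k a) → Pos U → Pos U :=
    fun a i x => if h : x ∈ star U (a, true) then (σ a i ⟨x, h⟩).1 else x
  have hS : ∀ a i x (h : x ∈ star U (a, true)), S a i x = (σ a i ⟨x, h⟩).1 := by
    intro a i x h
    exact dif_pos h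
  have hSmem : ∀ a i x, x ∈ star U (a, true) → S a i x ∈ star U (a, true) := by
    intro a i x h
    rw [hS a i x h]
    exact (σ a i ⟨x, h⟩).2
  have hSinj : ∀ a i x y, x ∈ star U (a, true) → y ∈ star U (a, true) →
      S a i x = S a i y → x = y := by
    intro a i x y hx hy h
    rw [hS a i x hx, hS a i y hy] at h
    have h1 := (σ a i).injective (Subtype.ext h)
    exact congrArg Subtype.val h1
  have hSsurj : ∀ a i y, y ∈ star U (a, true) → ∃ x ∈ star U (a, true), S a i x = y := by
    intro a i y hy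
    refine ⟨((σ a i).symm ⟨y, hy⟩).1, ((σ a i).symm ⟨y, hy⟩).2, ?_⟩
    rw [hS a i _ ((σ a i).symm ⟨y, hy⟩).2]
    have h1 : σ a i ((σ a i).symm ⟨y, hy⟩) = ⟨y, hy⟩ := Equiv.apply_symm_apply _ _
    exact congrArg Subtype.val h1
  have hSne : ∀ a i x, x ∈ star U (a, true) →
      oth (src U) (tgt U) (a, true) (S a i x) ≠ oth (src U) (tgt U) (a, true) x ∧
        oth (src U) (tgt U) (a, false) (conMap U (a, true) (S a i x)) ≠
          oth (src U) (tgt U) (a, false) (conMap U (a, true) x) := by
    intro a i x h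
    rw [hS a i x h]
    exact hσ1 a i ⟨x, h⟩
  have hSdis : ∀ a i j, i ≠ j → ∀ x, x ∈ star U (a, true) → S a i x ≠ S a j x := by
    intro a i j hij x h h1
    rw [hS a i x h, hS a j x h] at h1
    exact hσ2 a i j hij ⟨x, h⟩ (Subtype.ext h1)
  -- the weights
  let κ : Letter n → Pos U → Pos U → ℚ := fun v e f =>
    if e ∈ star U v ∧ f ∈ star U v then ρ v.1 / (2 * k v.1) *
      (∑ i : Fin (k v.1), (if S v.1 i (bas v e) = bas v f then (1 : ℚ) else 0) +
        ∑ i : Fin (k v.1), (if S v.1 i (bas v f) = bas v e then (1 : ℚ) else 0)) else 0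
  have hk2 : ∀ a, (0 : ℚ) < k a := fun a => by exact_mod_cast hk a
  have hκin : ∀ v e f, e ∈ star U v → f ∈ star U v → κ v e f = ρ v.1 / (2 * k v.1) *
      (∑ i : Fin (k v.1), (if S v.1 i (bas v e) = bas v f then (1 : ℚ) else 0) +
        ∑ i : Fin (k v.1), (if S v.1 i (bas v f) = bas v e then (1 : ℚ) else 0)) := by
    intro v e f he hf
    exact if_pos ⟨he, hf⟩
  have hκout : ∀ v e f, ¬ (e ∈ star U v ∧ f ∈ star U v) → κ v e f = 0 := by
    intro v e f h
    exact if_neg h
  have hcoef : ∀ a, 0 ≤ ρ a / (2 * (k a : ℚ)) := fun a =>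
    div_nonneg (hρ a) (by have := hk2 a; linarith)
  have hind : ∀ P : Prop, [Decidable P] → (0 : ℚ) ≤ (if P then 1 else 0) := by
    intro P _
    split_ifs <;> norm_num
  have hle1 : ∀ a x y, x ∈ star U (a, true) →
      ∑ i : Fin (k a), (if S a i x = y then (1 : ℚ) else 0) ≤ 1 := by
    intro a x y hx
    by_cases h : ∃ i₀, S a i₀ x = y
    · obtain ⟨i₀, h0⟩ := h
      refine le_of_eq (g8_one (Finset.mem_univ i₀) h0 ?_)
      intro i _ hi
      by_contra hne
      exact hSdis a i i₀ hne x hx (hi.trans h0.symm)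
    · rw [Finset.sum_eq_zero]
      · norm_num
      · intro i _
        rw [if_neg (fun h1 => h ⟨i, h1⟩)]
  refine ⟨κ, ?_, ?_, ?_, ?_, ?_, ?_⟩
  · intro v e f
    by_cases h : e ∈ star U v ∧ f ∈ star U v
    · rw [hκin v e f h.1 h.2]
      refine mul_nonneg (hcoef _) (add_nonneg ?_ ?_)
      · exact Finset.sum_nonneg fun i _ => hind _
      · exact Finset.sum_nonneg fun i _ => hind _
    · rw [hκout v e f h]
  · intro v e f
    by_cases h : e ∈ star U v ∧ f ∈ star U v
    · rw [hκin v e f h.1 h.2, hκin v f e h.2 h.1, add_comm]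
    · rw [hκout v e f h, hκout v f e (fun h' => h h'.symm)]
  · intro u v e he f hf
    have he1 := oth_of_mem_J hl he
    have hf1 := oth_of_mem_J hl hf
    -- no permutation joins two parallel edges
    have key : ∀ e f : Pos U, e ∈ star U v → f ∈ star U v →
        oth (src U) (tgt U) v e = oth (src U) (tgt U) v f →
        ∀ i, S v.1 i (bas v e) ≠ bas v f := by
      clear hκin hκout hle1
      intro e f he hf hef i h
      have h1 := hSne v.1 i (bas v e) (bas_mem hU he)
      rw [h] at h1
      obtain ⟨a, b⟩ := v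
      cases b
      · apply h1.2
        have h2 : conMap U (a, true) (bas (a, false) e) = e := by
          unfold bas
          rw [if_neg (by simp)]
          exact conMap_conMap hU (a, false) he
        have h3 : conMap U (a, true) (bas (a, false) f) = f := by
          unfold bas
          rw [if_neg (by simp)]
          exact conMap_conMap hU (a, false) hf
        show oth (src U) (tgt U) (a, false) (conMap U (a, true) (bas (a, false) f)) =
          oth (src U) (tgt U) (a, false) (conMap U (a, true) (bas (a, false) e))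
        rw [h2, h3]
        exact hef.symm
      · apply h1.1
        have h2 : bas (a, true) e = e := if_pos rfl
        have h3 : bas (a, true) f = f := if_pos rfl
        rw [h2, h3]
        exact hef.symm
    rw [hκin v e f he1.1 hf1.1, Finset.sum_eq_zero, Finset.sum_eq_zero, add_zero, mul_zero]
    · intro i _
      rw [if_neg (key f e hf1.1 he1.1 (hf1.2.trans he1.2.symm) i)]
    · intro i _
      rw [if_neg (key e f he1.1 hf1.1 (he1.2.trans hf1.2.symm) i)]
  · intro v e he
    rw [Finset.sum_congr rfl (fun f hf => hκin v e f he hf), ← Finset.mul_sum,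
      Finset.sum_add_distrib]
    have h1 : ∑ f ∈ star U v, ∑ i : Fin (k v.1),
        (if S v.1 i (bas v e) = bas v f then (1 : ℚ) else 0) = k v.1 := by
      rw [Finset.sum_comm]
      rw [Finset.sum_congr rfl (g := fun _ => (1 : ℚ))]
      · rw [Finset.sum_const, Finset.card_univ, Fintype.card_fin]
        simp
      · intro i _
        obtain ⟨f₀, hf0, hf1⟩ := bas_surj hU v (hSmem v.1 i _ (bas_mem hU he))
        exact g8_one hf0 hf1.symm
          (fun f hf h => bas_inj hU hf hf0 (h.symm.trans hf1.symm))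
    have h2 : ∑ f ∈ star U v, ∑ i : Fin (k v.1),
        (if S v.1 i (bas v f) = bas v e then (1 : ℚ) else 0) = k v.1 := by
      rw [Finset.sum_comm]
      rw [Finset.sum_congr rfl (g := fun _ => (1 : ℚ))]
      · rw [Finset.sum_const, Finset.card_univ, Fintype.card_fin]
        simp
      · intro i _
        obtain ⟨x, hx, hx1⟩ := hSsurj v.1 i _ (bas_mem hU he)
        obtain ⟨f₀, hf0, hf1⟩ := bas_surj hU v hx
        refine g8_one hf0 (by rw [hf1]; exact hx1) ?_
        intro f hf h
        apply bas_inj hU hf hf0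
        apply hSinj v.1 i _ _ (bas_mem hU hf) (bas_mem hU hf0)
        rw [h, hf1, hx1]
    rw [h1, h2]
    have := hk2 v.1
    field_simp
    ring
  · intro v e he f hf
    have he1 : conMap U v e ∈ star U (bar v) := conMap_mem hU v e he
    have hf1 : conMap U v f ∈ star U (bar v) := conMap_mem hU v f hf
    rw [hκin v e f he hf, hκin (bar v) _ _ he1 hf1]
    rw [bas_con hU he, bas_con hU hf]
    rfl
  · intro v e f
    by_cases h : e ∈ star U v ∧ f ∈ star U v
    · rw [hκin v e f h.1 h.2]
      have h1 := hle1 v.1 (bas v e) (bas v f) (bas_mem hU h.1)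
      have h2 := hle1 v.1 (bas v f) (bas v e) (bas_mem hU h.2)
      have h3 := hcoef v.1
      have h4 := hk2 v.1
      have h5 : ρ v.1 = (k v.1 : ℚ) * (ρ v.1 / (2 * (k v.1 : ℚ)) * 2) := by
        field_simp
      refine le_trans ?_ (le_of_eq h5.symm)
      refine mul_le_mul_of_nonneg_left (mul_le_mul_of_nonneg_left ?_ h3) h4.le
      linarith
    · rw [hκout v e f h, mul_zero]
      exact hρ _

theorem exists_kappa {U : List (List (Letter n))} (hU : CycRed U) (ρ : Fin n → ℚ)
    (hρ : ∀ a, 0 ≤ ρ a)
    (h4 : ∀ v u u' : Letter n, u ≠ v → u' ≠ bar v →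
      2 * (mult U v u + mult U (bar v) u') ≤ occ U v.1) :
    ∃ κ : Letter n → Pos U → Pos U → ℚ, (∀ v e f, 0 ≤ κ v e f) ∧
      (∀ v e f, κ v e f = κ v f e) ∧
      (∀ u v, ∀ e ∈ J (src U) (tgt U) u v, ∀ f ∈ J (src U) (tgt U) u v, κ v e f = 0) ∧
      (∀ v, ∀ e ∈ star U v, ∑ f ∈ star U v, κ v e f = ρ v.1) ∧
      ∀ v, ∀ e ∈ star U v, ∀ f ∈ star U v,
        κ (bar v) (conMap U v e) (conMap U v f) = κ v e f := by
  obtain ⟨κ, h1, h2, h3, h5, h6, -⟩ := exists_kappa_spread hU ρ hρ (fun _ => 1)
    (fun _ => one_pos) (fun v u u' h h' => by simpa using h4 v u u' h h')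
  exact ⟨κ, h1, h2, h3, h5, h6⟩

end Words

end Pool.Agent.Lib.MP_95bb8c_al.GW
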