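import Pool.Agent.Lib.MP_95bb8c_al.GW.Sizes

set_option autoImplicit false
set_option linter.unusedSectionVars false

/-!
# Nearly uniform multiplicities: bounds for the demand, with a constant independent of the rank

The special weights are spread, so that `κ z` has a small sum on each pair of directions.
-/

namespace Pool.Agent.Lib.MP_95bb8c_al.GW

open Finset

section Graph
variable {V E : Type} [Fintype V] [DecidableEq V] [Fintype E] [DecidableEq E]

/-- The demand from a bound for the special weights on each pair of directions. -/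
theorem s55_core {s t : E → V} (hl : ∀ e, s e ≠ t e) (hK : 6 ≤ Fintype.card V) (k : ℚ)
    (hk : k = (Fintype.card V : ℚ) - 2) (D : ℕ) (hD : ∀ v, (cut s t {v}).card ≤ D)
    (hD' : ∃ v, (cut s t {v}).card = D)
    (m₀ : ℚ) (hm₀ : 1 ≤ m₀) (hlo : ∀ u v, u ≠ v → m₀ ≤ mq s t u v)
    (hhi : ∀ u v, u ≠ v → mq s t u v ≤ 56 / 55 * m₀)
    (κ : V → E → E → ℚ) (hκ : ∀ v e f, 0 ≤ κ v e f) (ρ : V → ℚ)
    (hρ : ∀ v, ρ v = ((D : ℚ) - (cut s t {v}).card) / ((D : ℚ) - 1))
    (β : ℚ) (hβ0 : 0 ≤ β) (hβ : ∀ z u w, u ≠ z → z ≠ w → u ≠ w →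
      ((D : ℚ) - 1) * Kx s t κ z u w ≤ β * (m₀ * m₀))
    (hnum : 17 * (56 / 55 * (56 / 55)) * k ≤ 20 * (k -
      (2 * (((Fintype.card V : ℚ) - 1) * (1 / 55) * (56 / 55)) +
        ((Fintype.card V : ℚ) - 3) * β))) :
    ∃ a Δ : ℚ, 0 ≤ Δ ∧ 17 * Δ ≤ 3 * a ∧ ∀ u v w, u ≠ v → v ≠ w → u ≠ w →
      a ≤ dd s t k (1 / ((D : ℚ) - 1)) κ ρ u v w ∧
        dd s t k (1 / ((D : ℚ) - 1)) κ ρ u v w ≤ a + Δ := by
  set K : ℚ := (Fintype.card V : ℚ) with hKdef
  have hK6 : (6 : ℚ) ≤ K := by rw [hKdef]; exact_mod_cast hK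
  have hkpos : 0 < k := by rw [hk]; linarith
  have hm0 : 0 < m₀ := by linarith
  have hmm : 0 < m₀ * m₀ := mul_pos hm0 hm0
  have hdeg := g6_deg_bounds hl m₀ (56 / 55 * m₀) hlo hhi
  obtain ⟨v₀, hv₀⟩ := hD'
  have hDlo : (K - 1) * m₀ ≤ (D : ℚ) := by rw [← hv₀]; exact (hdeg v₀).1
  have hDhi : (D : ℚ) ≤ (K - 1) * (56 / 55 * m₀) := by rw [← hv₀]; exact (hdeg v₀).2
  have hD1 : 0 < (D : ℚ) - 1 := by nlinarith
  -- the defects
  have hdef : ∀ v, 0 ≤ ((D : ℚ) - (cut s t {v}).card) ∧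
      ((D : ℚ) - (cut s t {v}).card) ≤ (K - 1) * (1 / 55) * m₀ := by
    intro v
    have h1 : ((cut s t {v}).card : ℚ) ≤ D := by exact_mod_cast hD v
    refine ⟨by linarith, ?_⟩
    have := (hdeg v).1
    nlinarith
  have hρ' : ∀ v, ((D : ℚ) - 1) * ρ v = (D : ℚ) - (cut s t {v}).card := by
    intro v; rw [hρ v]; field_simp
  have hρ0 : ∀ v, 0 ≤ ρ v := by
    intro v; rw [hρ v]; exact div_nonneg (hdef v).1 hD1.le
  have hterm : ∀ x y z : V, y ≠ z → ((D : ℚ) - 1) * (ρ x * mq s t y z) ≤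
      (K - 1) * (1 / 55) * (56 / 55) * (m₀ * m₀) := by
    intro x y z hyz
    rw [← mul_assoc, hρ' x]
    have h1 : ((D : ℚ) - (cut s t {x}).card) * mq s t y z ≤
        ((K - 1) * (1 / 55) * m₀) * (56 / 55 * m₀) :=
      mul_le_mul (hdef x).2 (hhi y z hyz) (g6_mq_nonneg s t y z)
        (by have : 0 ≤ K - 1 := by linarith
            positivity)
    refine le_trans h1 (le_of_eq ?_)
    ring
  have hterm0 : ∀ x y z : V, 0 ≤ ρ x * mq s t y z := fun x y z =>
    mul_nonneg (hρ0 x) (g6_mq_nonneg s t y z)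
  -- the loss
  set R : ℚ := 2 * ((K - 1) * (1 / 55) * (56 / 55)) + (K - 3) * β with hR
  have hR0 : 0 ≤ R := by
    rw [hR]
    have h1 : 0 ≤ K - 1 := by linarith
    have h2 : 0 ≤ K - 3 := by linarith
    positivity
  have hmain : ∀ u v w, u ≠ v → v ≠ w → u ≠ w →
      m₀ * m₀ - R * (m₀ * m₀) / k ≤ ((D : ℚ) - 1) * dd s t k (1 / ((D : ℚ) - 1)) κ ρ u v w ∧
        ((D : ℚ) - 1) * dd s t k (1 / ((D : ℚ) - 1)) κ ρ u v w ≤
          56 / 55 * (56 / 55) * (m₀ * m₀) := by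
    intro u v w huv hvw huw
    have hsum0 : 0 ≤ sum4 u v w (fun z => Kx s t κ z u w) :=
      g6_sum4_nonneg _ fun z => g6_Kx_nonneg κ hκ z u w
    have hsum1 : ((D : ℚ) - 1) * sum4 u v w (fun z => Kx s t κ z u w) ≤
        (K - 3) * β * (m₀ * m₀) := by
      have h1 : sum4 u v w (fun z => Kx s t κ z u w) ≤
          (K - 3) * (β * (m₀ * m₀) / ((D : ℚ) - 1)) := by
        refine g6_sum4_le huv hvw huw _ _ fun z hzu _ hzw => ?_
        rw [le_div_iff₀ hD1, mul_comm]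
        exact hβ z u w hzu.symm hzw huw
      calc ((D : ℚ) - 1) * sum4 u v w (fun z => Kx s t κ z u w)
          ≤ ((D : ℚ) - 1) * ((K - 3) * (β * (m₀ * m₀) / ((D : ℚ) - 1))) :=
            mul_le_mul_of_nonneg_left h1 hD1.le
        _ = (K - 3) * β * (m₀ * m₀) := by field_simp
    have hexp : ((D : ℚ) - 1) * dd s t k (1 / ((D : ℚ) - 1)) κ ρ u v w =
        mq s t u v * mq s t v w - (((D : ℚ) - 1) * (ρ u * mq s t u v) +
          ((D : ℚ) - 1) * (ρ w * mq s t v w) +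
          ((D : ℚ) - 1) * sum4 u v w (fun z => Kx s t κ z u w)) / k := by
      unfold dd
      field_simp
      ring
    have hu := hterm u u v huv
    have hw := hterm w v w hvw
    have hu0 := mul_nonneg hD1.le (hterm0 u u v)
    have hw0 := mul_nonneg hD1.le (hterm0 w v w)
    have hs0 := mul_nonneg hD1.le hsum0
    rw [hexp]
    constructor
    · have h1 : m₀ * m₀ ≤ mq s t u v * mq s t v w :=
        mul_le_mul (hlo u v huv) (hlo v w hvw) hm0.le (g6_mq_nonneg _ _ _ _)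
      have h2 : (((D : ℚ) - 1) * (ρ u * mq s t u v) + ((D : ℚ) - 1) * (ρ w * mq s t v w) +
          ((D : ℚ) - 1) * sum4 u v w (fun z => Kx s t κ z u w)) / k ≤ R * (m₀ * m₀) / k := by
        apply div_le_div_of_nonneg_right _ hkpos.le
        rw [hR]
        linarith
      linarith
    · have h1 : mq s t u v * mq s t v w ≤ (56 / 55 * m₀) * (56 / 55 * m₀) :=
        mul_le_mul (hhi u v huv) (hhi v w hvw) (g6_mq_nonneg _ _ _ _) (by positivity)
      have h2 : 0 ≤ (((D : ℚ) - 1) * (ρ u * mq s t u v) + ((D : ℚ) - 1) * (ρ w * mq s t v w) +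
          ((D : ℚ) - 1) * sum4 u v w (fun z => Kx s t κ z u w)) / k :=
        div_nonneg (by linarith) hkpos.le
      linarith
  refine ⟨(m₀ * m₀ - R * (m₀ * m₀) / k) / ((D : ℚ) - 1),
    (56 / 55 * (56 / 55) * (m₀ * m₀) - (m₀ * m₀ - R * (m₀ * m₀) / k)) / ((D : ℚ) - 1), ?_, ?_, ?_⟩
  · apply div_nonneg _ hD1.le
    have h1 : 0 ≤ R * (m₀ * m₀) / k := div_nonneg (mul_nonneg hR0 hmm.le) hkpos.le
    nlinarith
  · refine le_trans (le_of_eq (mul_div_assoc _ _ _).symm) (le_trans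
      (div_le_div_of_nonneg_right ?_ hD1.le) (le_of_eq (mul_div_assoc _ _ _)))
    have h1 : R * (m₀ * m₀) / k * k = R * (m₀ * m₀) := div_mul_cancel₀ _ hkpos.ne'
    have h2 : 17 * (56 / 55 * (56 / 55)) * k * (m₀ * m₀) ≤ 20 * (k - R) * (m₀ * m₀) :=
      mul_le_mul_of_nonneg_right hnum hmm.le
    have h3 : 17 * (56 / 55 * (56 / 55)) * (m₀ * m₀) ≤
        20 * (m₀ * m₀ - R * (m₀ * m₀) / k) := by
      refine le_of_mul_le_mul_right ?_ hkpos
      have h4 : 20 * (m₀ * m₀ - R * (m₀ * m₀) / k) * k =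
          20 * (k * (m₀ * m₀) - R * (m₀ * m₀) / k * k) := by ring
      rw [h4, h1]
      linarith
    linarith
  · intro u v w huv hvw huw
    obtain ⟨h1, h2⟩ := hmain u v w huv hvw huw
    constructor
    · rw [div_le_iff₀ hD1]; linarith
    · rw [← add_div, le_div_iff₀ hD1]
      linarith

/-- Bounds for the demand when the multiplicities are between `m₀` and `56 / 55 * m₀` and the
special weights are spread. -/
theorem dd_sizes55 {s t : E → V} (hl : ∀ e, s e ≠ t e)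
    (hK : Fintype.card V = 6 ∨ 8 ≤ Fintype.card V) (k : ℚ)
    (hk : k = (Fintype.card V : ℚ) - 2) (D : ℕ) (hD : ∀ v, (cut s t {v}).card ≤ D)
    (hD' : ∃ v, (cut s t {v}).card = D)
    (m₀ : ℚ) (hm₀ : 1 ≤ m₀) (hlo : ∀ u v, u ≠ v → m₀ ≤ mq s t u v)
    (hhi : ∀ u v, u ≠ v → mq s t u v ≤ 56 / 55 * m₀)
    (κ : V → E → E → ℚ) (hκ : ∀ v e f, 0 ≤ κ v e f) (ρ : V → ℚ)
    (hρ : ∀ v, ρ v = ((D : ℚ) - (cut s t {v}).card) / ((D : ℚ) - 1))
    (hrow : ∀ v w, ∀ q ∈ J s t v w,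
      ∑ u, (if u = w then 0 else ∑ p ∈ J s t u v, κ v p q) = ρ v)
    (c : V → ℚ) (hc : ∀ v, ((cut s t {v}).card : ℚ) / 2 - 2 * (56 / 55) * m₀ ≤ c v)
    (hcκ : ∀ v e f, c v * κ v e f ≤ ρ v) :
    ∃ a Δ : ℚ, 0 ≤ Δ ∧ 17 * Δ ≤ 3 * a ∧ ∀ u v w, u ≠ v → v ≠ w → u ≠ w →
      a ≤ dd s t k (1 / ((D : ℚ) - 1)) κ ρ u v w ∧
        dd s t k (1 / ((D : ℚ) - 1)) κ ρ u v w ≤ a + Δ := by
  have hK6 : 6 ≤ Fintype.card V := by rcases hK with h | h <;> omega
  have hK6q : (6 : ℚ) ≤ Fintype.card V := by exact_mod_cast hK6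
  have hm0 : 0 < m₀ := by linarith
  have hmm : 0 < m₀ * m₀ := mul_pos hm0 hm0
  have hdeg := g6_deg_bounds hl m₀ (56 / 55 * m₀) hlo hhi
  obtain ⟨v₀, hv₀⟩ := hD'
  have hDlo : ((Fintype.card V : ℚ) - 1) * m₀ ≤ (D : ℚ) := by rw [← hv₀]; exact (hdeg v₀).1
  have hDhi : (D : ℚ) ≤ ((Fintype.card V : ℚ) - 1) * (56 / 55 * m₀) := by
    rw [← hv₀]; exact (hdeg v₀).2
  have hD1 : 0 < (D : ℚ) - 1 := by nlinarith
  have hdef : ∀ v, 0 ≤ ((D : ℚ) - (cut s t {v}).card) ∧
      ((D : ℚ) - (cut s t {v}).card) ≤ ((Fintype.card V : ℚ) - 1) * (1 / 55) * m₀ := by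
    intro v
    have h1 : ((cut s t {v}).card : ℚ) ≤ D := by exact_mod_cast hD v
    refine ⟨by linarith, ?_⟩
    have := (hdeg v).1
    nlinarith
  have hρ' : ∀ v, ((D : ℚ) - 1) * ρ v = (D : ℚ) - (cut s t {v}).card := by
    intro v; rw [hρ v]; field_simp
  have hρ0 : ∀ v, 0 ≤ ρ v := by
    intro v; rw [hρ v]; exact div_nonneg (hdef v).1 hD1.le
  rcases hK with hK | hK
  · -- rank three: the crude bound
    have hKq : (Fintype.card V : ℚ) = 6 := by exact_mod_cast hK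
    refine s55_core hl hK6 k hk D hD ⟨v₀, hv₀⟩ m₀ hm₀ hlo hhi κ hκ ρ hρ (56 / 605) (by norm_num)
      ?_ ?_
    · intro z u w _ hzw huw
      have h1 := g6_Kx_le κ hκ ρ hrow z u w huw
      have h2 : ((D : ℚ) - 1) * Kx s t κ z u w ≤ ((D : ℚ) - 1) * (mq s t z w * ρ z) :=
        mul_le_mul_of_nonneg_left h1 hD1.le
      have h3 : ((D : ℚ) - 1) * (mq s t z w * ρ z) =
          ((D : ℚ) - (cut s t {z}).card) * mq s t z w := by
        rw [← hρ' z]; ring
      have h4 : ((D : ℚ) - (cut s t {z}).card) * mq s t z w ≤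
          (5 * (1 / 55) * m₀) * (56 / 55 * m₀) := by
        have h5 := (hdef z).2
        rw [hKq] at h5
        refine mul_le_mul (by linarith) (hhi z w hzw) (g6_mq_nonneg s t z w) (by positivity)
      rw [h3] at h2
      refine le_trans h2 (le_trans h4 (le_of_eq ?_))
      ring
    · rw [hk, hKq]
      norm_num
  · -- rank at least four: the special weights are spread
    have hKq : (8 : ℚ) ≤ Fintype.card V := by exact_mod_cast hK
    have hC : 0 < 55 * (Fintype.card V : ℚ) - 279 := by linarith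
    refine s55_core hl hK6 k hk D hD ⟨v₀, hv₀⟩ m₀ hm₀ hlo hhi κ hκ ρ hρ
      (344960 / 166375 * ((Fintype.card V : ℚ) - 1) / (55 * (Fintype.card V : ℚ) - 279))
      (div_nonneg (mul_nonneg (by norm_num) (by linarith)) hC.le) ?_ ?_
    · intro z u w huz hzw _
      -- each special weight is small
      have h1 : ∀ e f, (55 * (Fintype.card V : ℚ) - 279) / 110 * m₀ * κ z e f ≤ ρ z := by
        intro e f
        refine le_trans (mul_le_mul_of_nonneg_right ?_ (hκ z e f)) (hcκ z e f)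
        refine le_trans ?_ (hc z)
        have := (hdeg z).1
        nlinarith
      have h2 : (55 * (Fintype.card V : ℚ) - 279) / 110 * m₀ * Kx s t κ z u w ≤
          mq s t u z * mq s t z w * ρ z := by
        unfold Kx
        rw [Finset.mul_sum]
        have h3 : ∀ p ∈ J s t u z, (55 * (Fintype.card V : ℚ) - 279) / 110 * m₀ *
            ∑ q ∈ J s t z w, κ z p q ≤ mq s t z w * ρ z := by
          intro p _
          rw [Finset.mul_sum]
          have := Finset.sum_le_card_nsmul (J s t z w)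
            (fun q => (55 * (Fintype.card V : ℚ) - 279) / 110 * m₀ * κ z p q) (ρ z)
            (fun q _ => h1 p q)
          simpa [nsmul_eq_mul, mq] using this
        have h4 := Finset.sum_le_card_nsmul _ _ _ h3
        rw [nsmul_eq_mul] at h4
        refine le_trans h4 (le_of_eq ?_)
        unfold mq
        ring
      have h3 : mq s t u z * mq s t z w ≤ (56 / 55 * m₀) * (56 / 55 * m₀) :=
        mul_le_mul (hhi u z huz) (hhi z w hzw) (g6_mq_nonneg _ _ _ _) (by positivity)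
      have h4 : ((D : ℚ) - 1) * (mq s t u z * mq s t z w * ρ z) ≤
          (56 / 55 * m₀) * (56 / 55 * m₀) * (((Fintype.card V : ℚ) - 1) * (1 / 55) * m₀) := by
        have h5 : ((D : ℚ) - 1) * (mq s t u z * mq s t z w * ρ z) =
            mq s t u z * mq s t z w * ((D : ℚ) - (cut s t {z}).card) := by
          rw [← hρ' z]; ring
        rw [h5]
        exact mul_le_mul h3 (hdef z).2 (hdef z).1 (by positivity)
      have h5 : (55 * (Fintype.card V : ℚ) - 279) / 110 * m₀ *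
          (((D : ℚ) - 1) * Kx s t κ z u w) ≤
          (56 / 55 * m₀) * (56 / 55 * m₀) * (((Fintype.card V : ℚ) - 1) * (1 / 55) * m₀) := by
        refine le_trans (le_of_eq ?_) (le_trans (mul_le_mul_of_nonneg_left h2 hD1.le) h4)
        ring
      have h6 : (((D : ℚ) - 1) * Kx s t κ z u w) * (55 * (Fintype.card V : ℚ) - 279) ≤
          344960 / 166375 * ((Fintype.card V : ℚ) - 1) * (m₀ * m₀) := by
        refine le_of_mul_le_mul_left ?_ hm0
        nlinarith
      rw [div_mul_eq_mul_div, le_div_iff₀ hC]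
      exact h6
    · rw [hk]
      have hx : ((Fintype.card V : ℚ) - 3) * (344960 / 166375 * ((Fintype.card V : ℚ) - 1) /
          (55 * (Fintype.card V : ℚ) - 279)) * (55 * (Fintype.card V : ℚ) - 279) =
          ((Fintype.card V : ℚ) - 3) * (344960 / 166375 * ((Fintype.card V : ℚ) - 1)) := by
        rw [mul_assoc, div_mul_cancel₀ _ hC.ne']
      refine le_of_mul_le_mul_right ?_ hC
      have hy : 0 ≤ (Fintype.card V : ℚ) - 8 := by linarith
      nlinarith [mul_nonneg hy hy]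

end Graph

end Pool.Agent.Lib.MP_95bb8c_al.GW
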