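import Pool.Agent.Lib.MP_95bb8c_al.GW.Defs

set_option autoImplicit false
set_option linter.unusedSectionVars false

/-!
# A cycle through two edges with different other ends has at least three edges
-/

namespace Pool.Agent.Lib.MP_95bb8c_al.GW

open Finset

section Graph
variable {V E : Type} [Fintype V] [DecidableEq V] [Fintype E] [DecidableEq E]

theorem three_le {s t : E → V} (_hl : ∀ e, s e ≠ t e) {C : Finset E} (hC : IsCycle s t C)
    {u v w : V} (huw : u ≠ w) {e f : E} (he : e ∈ J s t u v) (hf : f ∈ J s t v w)
    (heC : e ∈ C) (hfC : f ∈ C) : 3 ≤ C.card := by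
  have he' := (Finset.mem_filter.1 he).2
  have hf' := (Finset.mem_filter.1 hf).2
  have hef : e ≠ f := by
    rintro rfl
    rcases he' with ⟨huv, h1 | h1⟩ <;> rcases hf' with ⟨hvw, h2 | h2⟩
    · exact huv (h1.1.symm.trans h2.1)
    · exact huw (h1.1.symm.trans h2.1)
    · exact huw (h1.2.symm.trans h2.2)
    · exact hvw (h1.1.symm.trans h2.1)
  have heu : e ∈ cut s t {u} := by
    simp only [cut, Finset.mem_filter, Finset.mem_univ, true_and, Finset.mem_singleton]
    rcases he' with ⟨huv, h1 | h1⟩
    · rw [h1.1, h1.2]; intro h; exact huv (h.1 rfl).symm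
    · rw [h1.1, h1.2]; intro h; exact huv (h.2 rfl).symm
  have hfu : f ∉ cut s t {u} := by
    simp only [cut, Finset.mem_filter, Finset.mem_univ, true_and, Finset.mem_singleton, not_not]
    rcases hf' with ⟨hvw, h1 | h1⟩
    · rw [h1.1, h1.2]
      exact ⟨fun h => absurd h.symm he'.1, fun h => absurd h.symm huw⟩
    · rw [h1.1, h1.2]
      exact ⟨fun h => absurd h.symm huw, fun h => absurd h.symm he'.1⟩
  have hu : (C ∩ cut s t {u}).card = 2 := by
    rcases hC.deg u with h | h
    · exfalso
      rw [Finset.card_eq_zero] at h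
      have : e ∈ C ∩ cut s t {u} := Finset.mem_inter.2 ⟨heC, heu⟩
      rw [h] at this
      exact absurd this (Finset.notMem_empty e)
    · exact h
  have hsub : insert f (C ∩ cut s t {u}) ⊆ C := by
    intro x hx
    rcases Finset.mem_insert.1 hx with rfl | hx
    · exact hfC
    · exact (Finset.mem_inter.1 hx).1
  have hcard := Finset.card_le_card hsub
  rw [Finset.card_insert_of_notMem (fun h => hfu (Finset.mem_inter.1 h).2), hu] at hcard
  exact hcard

end Graph

end Pool.Agent.Lib.MP_95bb8c_al.GW
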