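import Pool.Agent.Lib.MP_95bb8c_al.GW.Defs

set_option autoImplicit false
set_option linter.unusedSectionVars false

/-!
# Nearly uniform lists: the weights of the triangles and 4-cycles with given corner demands

A symmetric demand on the corners with symmetric edge sums and small oscillation is the sum of
nonnegative rotation invariant weights on the triangles and on the 4-cycles.
-/

namespace Pool.Agent.Lib.MP_95bb8c_al.GW

open Finset

section TL
variable {V : Type} [Fintype V] [DecidableEq V]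

theorem g4_sum4 {u v w : V} (f : V → ℚ) (hu : w ≠ u) (hv : w ≠ v) :
    sum4 u v w f = sum3 u v f - f w := by
  unfold sum4 sum3
  rw [eq_sub_iff_add_eq]
  have h : f w = ∑ z, if z = w then f z else 0 := by simp
  rw [h, ← Finset.sum_add_distrib]
  refine Finset.sum_congr rfl fun z _ => ?_
  by_cases h1 : z = w
  · subst h1; simp [hu, hv]
  · simp [h1]

theorem g4_sum3 {u v : V} (f : V → ℚ) (huv : u ≠ v) :
    sum3 u v f = ∑ z, f z - f u - f v := by
  unfold sum3
  have hu : f u = ∑ z, if z = u then f z else 0 := by simp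
  have hv : f v = ∑ z, if z = v then f z else 0 := by simp
  rw [hu, hv, sub_sub, eq_sub_iff_add_eq, ← Finset.sum_add_distrib, ← Finset.sum_add_distrib]
  refine Finset.sum_congr rfl fun z _ => ?_
  by_cases h1 : z = u
  · subst h1; simp [huv]
  · by_cases h2 : z = v
    · simp [h2, huv.symm]
    · simp [h1, h2]

theorem g4_swap (u v : V) (f : V → ℚ) : sum3 u v f = sum3 v u f := by
  unfold sum3
  refine Finset.sum_congr rfl fun z _ => ?_
  simp only [or_comm]

theorem g4_congr {u v : V} {f g : V → ℚ} (h : ∀ z, z ≠ u → z ≠ v → f z = g z) :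
    sum3 u v f = sum3 u v g := by
  unfold sum3
  refine Finset.sum_congr rfl fun z _ => ?_
  by_cases h1 : z = u ∨ z = v
  · simp [h1]
  · rw [not_or] at h1
    simp [h1, h z h1.1 h1.2]

theorem g4_add (u v : V) (f g : V → ℚ) :
    sum3 u v (fun z => f z + g z) = sum3 u v f + sum3 u v g := by
  unfold sum3
  rw [← Finset.sum_add_distrib]
  refine Finset.sum_congr rfl fun z _ => ?_
  split_ifs <;> simp

theorem g4_mul (u v : V) (c : ℚ) (f : V → ℚ) :
    sum3 u v (fun z => c * f z) = c * sum3 u v f := by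
  unfold sum3
  rw [Finset.mul_sum]
  refine Finset.sum_congr rfl fun z _ => ?_
  split_ifs <;> simp

theorem g4_const {u v : V} (c : ℚ) (huv : u ≠ v) :
    sum3 u v (fun _ => c) = ((Fintype.card V : ℚ) - 2) * c := by
  rw [g4_sum3 _ huv]; simp; ring

theorem g4_abs {u v : V} (huv : u ≠ v) (f : V → ℚ) (c : ℚ)
    (h : ∀ z, z ≠ u → z ≠ v → |f z| ≤ c) :
    |sum3 u v f| ≤ ((Fintype.card V : ℚ) - 2) * c := by
  rw [← g4_const c huv]
  unfold sum3
  refine (Finset.abs_sum_le_sum_abs _ _).trans (Finset.sum_le_sum fun z _ => ?_)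
  by_cases h1 : z = u ∨ z = v
  · simp [h1]
  · rw [not_or] at h1
    simpa [h1] using h z h1.1 h1.2

/-- The triple sum of the demands. -/
def g4T (d : V → V → V → ℚ) (u v w : V) : ℚ := d v u w + d u v w + d u w v

/-- The demand minus its triple mean. -/
def g4e (d : V → V → V → ℚ) (u v w : V) : ℚ := d u v w - g4T d u v w / 3

/-- The edge sums. -/
def g4E (d : V → V → V → ℚ) (u v : V) : ℚ := sum3 u v (fun w => g4e d u v w)

section
variable (d : V → V → V → ℚ) (hsym : ∀ u v w, d u v w = d w v u)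
  (hedge : ∀ u v, u ≠ v → sum3 u v (fun w => d u v w) = sum3 u v (fun w => d v u w))
include hsym

theorem g4T_rot (u v w : V) : g4T d u v w = g4T d v w u := by
  unfold g4T; rw [hsym w v u, hsym v w u]; ring

theorem g4T_swap (u v w : V) : g4T d u v w = g4T d v u w := by
  unfold g4T; rw [hsym u w v]; ring

theorem g4e_sym (u v w : V) : g4e d u v w = g4e d w v u := by
  unfold g4e; rw [hsym u v w, g4T_rot d hsym u v w, g4T_swap d hsym v w u]

theorem g4e_sum (u v w : V) : g4e d v u w + g4e d u v w + g4e d u w v = 0 := by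
  unfold g4e
  rw [← g4T_swap d hsym u v w, g4T_rot d hsym u w v, g4T_swap d hsym w v u,
    g4T_rot d hsym v w u, ← g4T_rot d hsym w u v]
  have h1 : g4T d w u v = g4T d u v w := g4T_rot d hsym w u v
  rw [h1]
  unfold g4T
  ring

include hedge

theorem g4E_sym (u v : V) : g4E d u v = g4E d v u := by
  by_cases huv : u = v
  · subst huv; rfl
  unfold g4E
  rw [← g4_swap u v]
  have h1 : ∀ x y : V, sum3 u v (fun w => g4e d x y w) =
      sum3 u v (fun w => d x y w) - sum3 u v (fun w => g4T d x y w) / 3 := by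
    intro x y
    have := g4_add u v (fun w => d x y w) (fun w => (-1/3 : ℚ) * g4T d x y w)
    rw [g4_mul] at this
    have h2 : sum3 u v (fun w => g4e d x y w) =
        sum3 u v (fun w => d x y w + (-1/3 : ℚ) * g4T d x y w) := by
      refine g4_congr fun z _ _ => ?_
      unfold g4e; ring
    rw [h2, this]; ring
  rw [h1, h1, hedge u v huv]
  congr 2
  exact g4_congr fun z _ _ => g4T_swap d hsym u v z

/-- The sum of the corners opposite to the edge `u v`. -/
theorem g4_opp (u v : V) : sum3 u v (fun z => g4e d u z v) = -2 * g4E d u v := by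
  have h1 : sum3 u v (fun z => g4e d u z v) =
      sum3 u v (fun z => (-1 : ℚ) * g4e d u v z + (-1 : ℚ) * g4e d v u z) := by
    refine g4_congr fun z _ _ => ?_
    have := g4e_sum d hsym u v z
    have h2 := g4e_sum d hsym u z v
    rw [g4e_sym d hsym z u v] at h2
    linarith
  rw [h1, g4_add, g4_mul, g4_mul]
  have h2 : sum3 u v (fun z => g4e d v u z) = g4E d v u := g4_swap u v _
  rw [h2, g4E_sym d hsym hedge v u]
  unfold g4E
  ring

theorem g4_M (v : V) : ∑ x, (if x = v then 0 else g4E d v x) = 0 := by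
  have h1 : ∀ x, (if x = v then 0 else (-2 : ℚ) * g4E d v x) =
      ∑ z, if x = v ∨ z = v ∨ z = x then 0 else g4e d v z x := by
    intro x
    by_cases hx : x = v
    · simp [hx]
    · simp only [hx, if_false, false_or]
      rw [← g4_opp d hsym hedge v x]
      rfl
  have h2 : ∀ z, (if z = v then 0 else g4E d v z) =
      ∑ x, if x = v ∨ z = v ∨ z = x then 0 else g4e d v z x := by
    intro z
    by_cases hz : z = v
    · simp [hz]
    · simp only [hz, if_false, false_or]
      unfold g4E sum3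
      refine Finset.sum_congr rfl fun x _ => ?_
      simp only [eq_comm (a := z) (b := x)]
  have h3 : ∑ x, (if x = v then 0 else (-2 : ℚ) * g4E d v x) =
      ∑ z, (if z = v then 0 else g4E d v z) := by
    rw [Finset.sum_congr rfl fun x _ => h1 x, Finset.sum_congr rfl fun z _ => h2 z,
      Finset.sum_comm]
  have h4 : ∑ x, (if x = v then 0 else (-2 : ℚ) * g4E d v x) =
      -2 * ∑ x, (if x = v then 0 else g4E d v x) := by
    rw [Finset.mul_sum]
    refine Finset.sum_congr rfl fun x _ => ?_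
    split_ifs <;> simp
  rw [h4] at h3
  linarith

theorem g4_E3 {u v w : V} (huv : u ≠ v) (hvw : v ≠ w) (huw : u ≠ w) :
    sum4 u v w (fun z => g4E d v z + g4E d u w) =
      ((Fintype.card V : ℚ) - 2) * g4E d u w - (g4E d u v + g4E d v w + g4E d u w) := by
  rw [g4_sum4 _ huw.symm hvw.symm, g4_add, g4_const _ huv]
  have h1 : sum3 u v (fun z => g4E d v z) = - g4E d v u := by
    have h2 := g4_M d hsym hedge v
    have h3 : sum3 u v (fun z => g4E d v z) =
        ∑ x, (if x = v then 0 else g4E d v x) - g4E d v u := by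
      have h4 : g4E d v u = ∑ x, if x = u then g4E d v x else 0 := by simp
      rw [h4, eq_sub_iff_add_eq]
      unfold sum3
      rw [← Finset.sum_add_distrib]
      refine Finset.sum_congr rfl fun z _ => ?_
      by_cases hz : z = u
      · subst hz; simp [huv]
      · simp [hz]
    rw [h3, h2]; ring
  rw [h1, g4E_sym d hsym hedge v u]
  ring

theorem g4_I {u v w : V} (huv : u ≠ v) (hvw : v ≠ w) (huw : u ≠ w) :
    sum4 u v w (fun z => g4e d u v w + g4e d u z w + g4e d v u z + g4e d v w z) =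
      ((Fintype.card V : ℚ) - 3) * g4e d u v w +
        (g4E d u v + g4E d v w + g4E d u w) - 3 * g4E d u w := by
  have hc : ∀ f : V → ℚ, ∀ x y z : V, x ≠ y → x ≠ z → y ≠ z → 
      (sum4 u v w f = sum4 x y z f → sum4 u v w f = sum3 x y f - f z) := by
    intro f x y z _ h2 h3 h
    rw [h, g4_sum4 f h2.symm h3.symm]
  have ha : ∀ f g : V → ℚ, sum4 u v w (fun z => f z + g z) = sum4 u v w f + sum4 u v w g := by
    intro f g
    unfold sum4
    rw [← Finset.sum_add_distrib]
    refine Finset.sum_congr rfl fun z _ => ?_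
    split_ifs <;> simp
  have hk : ∀ c : ℚ, sum4 u v w (fun _ => c) = ((Fintype.card V : ℚ) - 3) * c := by
    intro c
    rw [g4_sum4 _ huw.symm hvw.symm, g4_const _ huv]; ring
  have h1 : sum4 u v w (fun z => g4e d u z w) = -2 * g4E d u w - g4e d u v w := by
    rw [hc _ u w v huw huv hvw.symm ?_, g4_opp d hsym hedge]
    unfold sum4
    refine Finset.sum_congr rfl fun z _ => ?_
    simp only [or_comm (a := z = v)]
  have h2 : sum4 u v w (fun z => g4e d v u z) = g4E d u v - g4e d v u w := by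
    rw [g4_sum4 _ huw.symm hvw.symm, g4_swap, g4E_sym d hsym hedge]
    rfl
  have h3 : sum4 u v w (fun z => g4e d v w z) = g4E d v w - g4e d v w u := by
    rw [hc _ v w u hvw huv.symm huw.symm ?_]
    · rfl
    unfold sum4
    refine Finset.sum_congr rfl fun z _ => ?_
    have : (z = u ∨ z = v ∨ z = w) ↔ (z = v ∨ z = w ∨ z = u) := by tauto
    simp only [this]
  have hI : sum4 u v w (fun z => g4e d u v w + g4e d u z w + g4e d v u z + g4e d v w z) =
      sum4 u v w (fun _ => g4e d u v w) + sum4 u v w (fun z => g4e d u z w) +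
        sum4 u v w (fun z => g4e d v u z) + sum4 u v w (fun z => g4e d v w z) := by
    rw [← ha, ← ha, ← ha]
  rw [hI, hk, h1, h2, h3]
  have h4 := g4e_sum d hsym u v w
  have h5 := g4e_sym d hsym v w u
  rw [h5]
  linarith

end

/-- The edge sums in terms of the demands. -/
theorem g4E_eq (d : V → V → V → ℚ)
    (hedge : ∀ u v, u ≠ v → sum3 u v (fun w => d u v w) = sum3 u v (fun w => d v u w))
    {u v : V} (huv : u ≠ v) :
    g4E d u v = sum3 u v (fun w => (d u v w - d u w v) / 3) := by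
  have h1 : g4E d u v = (2/3 : ℚ) * sum3 u v (fun w => d u v w) +
      ((-1/3 : ℚ) * sum3 u v (fun w => d v u w) + (-1/3 : ℚ) * sum3 u v (fun w => d u w v)) := by
    rw [← g4_mul, ← g4_mul, ← g4_mul, ← g4_add, ← g4_add]
    unfold g4E
    refine g4_congr fun z _ _ => ?_
    unfold g4e g4T
    ring
  have h2 : sum3 u v (fun w => (d u v w - d u w v) / 3) =
      (1/3 : ℚ) * sum3 u v (fun w => d u v w) + (-1/3 : ℚ) * sum3 u v (fun w => d u w v) := by
    rw [← g4_mul, ← g4_mul, ← g4_add]
    refine g4_congr fun z _ _ => ?_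
    ring
  rw [h1, h2, ← hedge u v huv]
  ring

theorem type_level (hK : 4 ≤ Fintype.card V) (d : V → V → V → ℚ)
    (hsym : ∀ u v w, d u v w = d w v u)
    (hedge : ∀ u v, u ≠ v → sum3 u v (fun w => d u v w) = sum3 u v (fun w => d v u w))
    (a Δ : ℚ) (hd : ∀ u v w, u ≠ v → v ≠ w → u ≠ w → a ≤ d u v w ∧ d u v w ≤ a + Δ)
    (hΔ : 0 ≤ Δ) (haΔ : 17 * Δ ≤ 3 * a) :
    ∃ (T : V → V → V → ℚ) (Y : V → V → V → V → ℚ),
      (∀ u v w, u ≠ v → v ≠ w → u ≠ w → 0 ≤ T u v w) ∧
      (∀ u v w z, u ≠ v → v ≠ w → w ≠ z → z ≠ u → u ≠ w → v ≠ z → 0 ≤ Y u v w z) ∧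
      (∀ u v w, T u v w = T v w u) ∧ (∀ u v w z, Y u v w z = Y v w z u) ∧
      ∀ u v w, u ≠ v → v ≠ w → u ≠ w →
        3 * T u v w + 4 * sum4 u v w (fun z => Y u v w z) = d u v w := by
  set K : ℚ := (Fintype.card V : ℚ) with hKdef
  have hK4 : (4 : ℚ) ≤ K := by rw [hKdef]; exact_mod_cast hK
  have hK2 : 0 < K - 2 := by linarith
  have hK3 : 0 < K - 3 := by linarith
  have he : ∀ u v w, u ≠ v → v ≠ w → u ≠ w → |g4e d u v w| ≤ 2 * Δ / 3 := by
    intro u v w h1 h2 h3
    have a1 := hd u v w h1 h2 h3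
    have a2 := hd v u w h1.symm h3 h2
    have a3 := hd u w v h3 h2.symm h1
    unfold g4e g4T
    rw [abs_le]
    constructor <;> linarith [a1.1, a1.2, a2.1, a2.2, a3.1, a3.2]
  have hE : ∀ u v, u ≠ v → |g4E d u v| ≤ (K - 2) * (Δ / 3) := by
    intro u v h1
    rw [g4E_eq d hedge h1]
    refine g4_abs h1 _ _ fun z h2 h3 => ?_
    have a1 := hd u v z h1 h3.symm h2.symm
    have a2 := hd u z v h2.symm h3 h1
    rw [abs_le]
    constructor <;> linarith [a1.1, a1.2, a2.1, a2.2]
  refine ⟨fun u v w => (g4T d u v w / 3 - 14 * a / 17 -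
      (g4E d u v + g4E d v w + g4E d u w) * (K - 5) / ((K - 3) * (K - 2))) / 3,
    fun u v w z => (14 * a / (17 * (K - 3)) + (1 / (K - 3)) *
      ((g4e d u v w + g4e d u z w + g4e d v u z + g4e d v w z) +
        (3 / (K - 2)) * (g4E d v z + g4E d u w))) / 4, ?_, ?_, ?_, ?_, ?_⟩
  · intro u v w h1 h2 h3
    have a1 := hd u v w h1 h2 h3
    have a2 := hd v u w h1.symm h3 h2
    have a3 := hd u w v h3 h2.symm h1
    have e1 := abs_le.mp (hE u v h1)
    have e2 := abs_le.mp (hE v w h2)
    have e3 := abs_le.mp (hE u w h3)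
    have hT : a ≤ g4T d u v w / 3 := by unfold g4T; linarith [a1.1, a2.1, a3.1]
    have hS : (g4E d u v + g4E d v w + g4E d u w) * (K - 5) / ((K - 3) * (K - 2)) ≤ Δ := by
      rw [div_le_iff₀ (by positivity)]
      have hS1 : g4E d u v + g4E d v w + g4E d u w ≤ Δ * (K - 2) := by linarith [e1.2, e2.2, e3.2]
      have hS2 : -(Δ * (K - 2)) ≤ g4E d u v + g4E d v w + g4E d u w := by
        linarith [e1.1, e2.1, e3.1]
      have hx : 0 ≤ Δ * (K - 2) := by positivity
      rcases le_total 0 (K - 5) with h | h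
      · calc (g4E d u v + g4E d v w + g4E d u w) * (K - 5) ≤ (Δ * (K - 2)) * (K - 5) :=
            mul_le_mul_of_nonneg_right hS1 h
          _ ≤ (Δ * (K - 2)) * (K - 3) := mul_le_mul_of_nonneg_left (by linarith) hx
          _ = Δ * ((K - 3) * (K - 2)) := by ring
      · calc (g4E d u v + g4E d v w + g4E d u w) * (K - 5) ≤ (-(Δ * (K - 2))) * (K - 5) :=
            mul_le_mul_of_nonpos_right hS2 h
          _ = (Δ * (K - 2)) * (5 - K) := by ring
          _ ≤ (Δ * (K - 2)) * (K - 3) := mul_le_mul_of_nonneg_left (by linarith) hx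
          _ = Δ * ((K - 3) * (K - 2)) := by ring
    show 0 ≤ (g4T d u v w / 3 - 14 * a / 17 -
      (g4E d u v + g4E d v w + g4E d u w) * (K - 5) / ((K - 3) * (K - 2))) / 3
    linarith
  · intro u v w z h1 h2 h3 h4 h5 h6
    have e1 := abs_le.mp (he u v w h1 h2 h5)
    have e2 := abs_le.mp (he u z w h4.symm h3.symm h5)
    have e3 := abs_le.mp (he v u z h1.symm h4.symm h6)
    have e4 := abs_le.mp (he v w z h2 h3 h6)
    have e5 := abs_le.mp (hE v z h6)
    have e6 := abs_le.mp (hE u w h5)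
    have hX : -(2 * Δ) ≤ (3 / (K - 2)) * (g4E d v z + g4E d u w) := by
      rw [div_mul_eq_mul_div, le_div_iff₀ hK2]
      linarith [e5.1, e6.1]
    have hY : 0 ≤ 14 * a / (17 * (K - 3)) + (1 / (K - 3)) *
      ((g4e d u v w + g4e d u z w + g4e d v u z + g4e d v w z) +
        (3 / (K - 2)) * (g4E d v z + g4E d u w)) := by
      have h7 : 14 * a / (17 * (K - 3)) + (1 / (K - 3)) *
          ((g4e d u v w + g4e d u z w + g4e d v u z + g4e d v w z) +
            (3 / (K - 2)) * (g4E d v z + g4E d u w)) =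
          (14 * a / 17 + ((g4e d u v w + g4e d u z w + g4e d v u z + g4e d v w z) +
            (3 / (K - 2)) * (g4E d v z + g4E d u w))) / (K - 3) := by
        field_simp
      rw [h7]
      apply div_nonneg _ hK3.le
      linarith [e1.1, e2.1, e3.1, e4.1]
    show 0 ≤ _ / 4
    linarith
  · intro u v w
    show (g4T d u v w / 3 - 14 * a / 17 -
      (g4E d u v + g4E d v w + g4E d u w) * (K - 5) / ((K - 3) * (K - 2))) / 3 =
      (g4T d v w u / 3 - 14 * a / 17 -
      (g4E d v w + g4E d w u + g4E d v u) * (K - 5) / ((K - 3) * (K - 2))) / 3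
    rw [g4T_rot d hsym u v w, g4E_sym d hsym hedge w u, g4E_sym d hsym hedge v u]
    ring
  · intro u v w z
    show (14 * a / (17 * (K - 3)) + (1 / (K - 3)) *
      ((g4e d u v w + g4e d u z w + g4e d v u z + g4e d v w z) +
        (3 / (K - 2)) * (g4E d v z + g4E d u w))) / 4 =
      (14 * a / (17 * (K - 3)) + (1 / (K - 3)) *
      ((g4e d v w z + g4e d v u z + g4e d w v u + g4e d w z u) +
        (3 / (K - 2)) * (g4E d w u + g4E d v z))) / 4
    rw [g4e_sym d hsym w v u, g4e_sym d hsym w z u, g4E_sym d hsym hedge w u]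
    ring
  · intro u v w h1 h2 h3
    have hone : sum4 u v w (fun _ => (1 : ℚ)) = K - 3 := by
      rw [g4_sum4 _ h3.symm h2.symm, g4_const _ h1]; ring
    have hsum : sum4 u v w (fun z => (14 * a / (17 * (K - 3)) + (1 / (K - 3)) *
      ((g4e d u v w + g4e d u z w + g4e d v u z + g4e d v w z) +
        (3 / (K - 2)) * (g4E d v z + g4E d u w))) / 4) =
        (7 * a / (34 * (K - 3))) * sum4 u v w (fun _ => (1 : ℚ)) + (1 / (4 * (K - 3))) *
          sum4 u v w (fun z => g4e d u v w + g4e d u z w + g4e d v u z + g4e d v w z) +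
          (3 / (4 * (K - 3) * (K - 2))) * sum4 u v w (fun z => g4E d v z + g4E d u w) := by
      unfold sum4
      rw [Finset.mul_sum, Finset.mul_sum, Finset.mul_sum, ← Finset.sum_add_distrib,
        ← Finset.sum_add_distrib]
      refine Finset.sum_congr rfl fun z _ => ?_
      by_cases h : z = u ∨ z = v ∨ z = w
      · simp [h]
      · simp only [h, if_false]
        field_simp
        ring
    show 3 * ((g4T d u v w / 3 - 14 * a / 17 -
      (g4E d u v + g4E d v w + g4E d u w) * (K - 5) / ((K - 3) * (K - 2))) / 3) +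
      4 * sum4 u v w (fun z => (14 * a / (17 * (K - 3)) + (1 / (K - 3)) *
      ((g4e d u v w + g4e d u z w + g4e d v u z + g4e d v w z) +
        (3 / (K - 2)) * (g4E d v z + g4E d u w))) / 4) = d u v w
    rw [hsum, hone, g4_I d hsym hedge h1 h2 h3, g4_E3 d hsym hedge h1 h2 h3]
    have h4 : d u v w = g4T d u v w / 3 + g4e d u v w := by unfold g4e; ring
    rw [h4, ← hKdef]
    field_simp
    ring

/-- The signed form of `type_level`: a demand of absolute value at most `Δ` is met by signed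
weights of the triangles (at most `Δ`) and of the 4-cycles (at most `(7/3) Δ / (K - 3)`). -/
theorem type_level_signed (hK : 4 ≤ Fintype.card V) (d : V → V → V → ℚ)
    (hsym : ∀ u v w, d u v w = d w v u)
    (hedge : ∀ u v, u ≠ v → sum3 u v (fun w => d u v w) = sum3 u v (fun w => d v u w))
    (Δ : ℚ) (hd : ∀ u v w, u ≠ v → v ≠ w → u ≠ w → |d u v w| ≤ Δ) (hΔ : 0 ≤ Δ) :
    ∃ (T : V → V → V → ℚ) (Y : V → V → V → V → ℚ),
      (∀ u v w, u ≠ v → v ≠ w → u ≠ w → |T u v w| ≤ Δ) ∧
      (∀ u v w z, u ≠ v → v ≠ w → w ≠ z → z ≠ u → u ≠ w → v ≠ z →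
        ((Fintype.card V : ℚ) - 3) * |Y u v w z| ≤ 7 / 3 * Δ) ∧
      (∀ u v w, T u v w = T v w u) ∧ (∀ u v w z, Y u v w z = Y v w z u) ∧
      ∀ u v w, u ≠ v → v ≠ w → u ≠ w →
        3 * T u v w + 4 * sum4 u v w (fun z => Y u v w z) = d u v w := by
  set K : ℚ := (Fintype.card V : ℚ) with hKdef
  have hK4 : (4 : ℚ) ≤ K := by rw [hKdef]; exact_mod_cast hK
  have hK2 : 0 < K - 2 := by linarith
  have hK3 : 0 < K - 3 := by linarith
  have he : ∀ u v w, u ≠ v → v ≠ w → u ≠ w → |g4e d u v w| ≤ 4 * Δ / 3 := by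
    intro u v w h1 h2 h3
    have a1 := abs_le.mp (hd u v w h1 h2 h3)
    have a2 := abs_le.mp (hd v u w h1.symm h3 h2)
    have a3 := abs_le.mp (hd u w v h3 h2.symm h1)
    unfold g4e g4T
    rw [abs_le]
    constructor <;> linarith [a1.1, a1.2, a2.1, a2.2, a3.1, a3.2]
  have hE : ∀ u v, u ≠ v → |g4E d u v| ≤ (K - 2) * (2 * Δ / 3) := by
    intro u v h1
    rw [g4E_eq d hedge h1]
    refine g4_abs h1 _ _ fun z h2 h3 => ?_
    have a1 := abs_le.mp (hd u v z h1 h3.symm h2.symm)
    have a2 := abs_le.mp (hd u z v h2.symm h3 h1)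
    rw [abs_le]
    constructor <;> linarith [a1.1, a1.2, a2.1, a2.2]
  refine ⟨fun u v w => (g4T d u v w / 3 -
      (g4E d u v + g4E d v w + g4E d u w) * (K - 5) / ((K - 3) * (K - 2))) / 3,
    fun u v w z => ((1 / (K - 3)) *
      ((g4e d u v w + g4e d u z w + g4e d v u z + g4e d v w z) +
        (3 / (K - 2)) * (g4E d v z + g4E d u w))) / 4, ?_, ?_, ?_, ?_, ?_⟩
  · intro u v w h1 h2 h3
    have a1 := abs_le.mp (hd u v w h1 h2 h3)
    have a2 := abs_le.mp (hd v u w h1.symm h3 h2)
    have a3 := abs_le.mp (hd u w v h3 h2.symm h1)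
    have e1 := abs_le.mp (hE u v h1)
    have e2 := abs_le.mp (hE v w h2)
    have e3 := abs_le.mp (hE u w h3)
    have hT : |g4T d u v w / 3| ≤ Δ := by
      unfold g4T
      rw [abs_le]
      constructor <;> linarith [a1.1, a2.1, a3.1, a1.2, a2.2, a3.2]
    have hS : |(g4E d u v + g4E d v w + g4E d u w) * (K - 5) / ((K - 3) * (K - 2))| ≤ 2 * Δ := by
      have hpos : 0 < (K - 3) * (K - 2) := by positivity
      rw [abs_div, abs_of_pos hpos, div_le_iff₀ hpos, abs_mul]
      have hS1 : |g4E d u v + g4E d v w + g4E d u w| ≤ 2 * Δ * (K - 2) := by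
        rw [abs_le]
        constructor <;> linarith [e1.1, e2.1, e3.1, e1.2, e2.2, e3.2]
      have hS2 : |K - 5| ≤ K - 3 := by
        rw [abs_le]; constructor <;> linarith
      calc |g4E d u v + g4E d v w + g4E d u w| * |K - 5|
          ≤ (2 * Δ * (K - 2)) * (K - 3) :=
            mul_le_mul hS1 hS2 (abs_nonneg _) (by positivity)
        _ = 2 * Δ * ((K - 3) * (K - 2)) := by ring
    have hT' := abs_le.mp hT
    have hS' := abs_le.mp hS
    show |(g4T d u v w / 3 -
      (g4E d u v + g4E d v w + g4E d u w) * (K - 5) / ((K - 3) * (K - 2))) / 3| ≤ Δ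
    rw [abs_le]
    constructor <;> linarith [hT'.1, hT'.2, hS'.1, hS'.2]
  · intro u v w z h1 h2 h3 h4 h5 h6
    have e1 := abs_le.mp (he u v w h1 h2 h5)
    have e2 := abs_le.mp (he u z w h4.symm h3.symm h5)
    have e3 := abs_le.mp (he v u z h1.symm h4.symm h6)
    have e4 := abs_le.mp (he v w z h2 h3 h6)
    have e5 := abs_le.mp (hE v z h6)
    have e6 := abs_le.mp (hE u w h5)
    have hX : |(3 / (K - 2)) * (g4E d v z + g4E d u w)| ≤ 4 * Δ := by
      rw [div_mul_eq_mul_div, abs_div, abs_of_pos hK2, div_le_iff₀ hK2, abs_le]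
      constructor <;> linarith [e5.1, e6.1, e5.2, e6.2]
    have hX' := abs_le.mp hX
    show (K - 3) * |((1 / (K - 3)) *
      ((g4e d u v w + g4e d u z w + g4e d v u z + g4e d v w z) +
        (3 / (K - 2)) * (g4E d v z + g4E d u w))) / 4| ≤ 7 / 3 * Δ
    have h7 : (K - 3) * |((1 / (K - 3)) *
        ((g4e d u v w + g4e d u z w + g4e d v u z + g4e d v w z) +
          (3 / (K - 2)) * (g4E d v z + g4E d u w))) / 4| =
        |((g4e d u v w + g4e d u z w + g4e d v u z + g4e d v w z) +
          (3 / (K - 2)) * (g4E d v z + g4E d u w)) / 4| := by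
      rw [← abs_of_pos hK3, ← abs_mul, abs_of_pos hK3]
      congr 1
      field_simp
    rw [h7, abs_le]
    constructor <;> linarith [e1.1, e2.1, e3.1, e4.1, e1.2, e2.2, e3.2, e4.2, hX'.1, hX'.2]
  · intro u v w
    show (g4T d u v w / 3 -
      (g4E d u v + g4E d v w + g4E d u w) * (K - 5) / ((K - 3) * (K - 2))) / 3 =
      (g4T d v w u / 3 -
      (g4E d v w + g4E d w u + g4E d v u) * (K - 5) / ((K - 3) * (K - 2))) / 3
    rw [g4T_rot d hsym u v w, g4E_sym d hsym hedge w u, g4E_sym d hsym hedge v u]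
    ring
  · intro u v w z
    show ((1 / (K - 3)) *
      ((g4e d u v w + g4e d u z w + g4e d v u z + g4e d v w z) +
        (3 / (K - 2)) * (g4E d v z + g4E d u w))) / 4 =
      ((1 / (K - 3)) *
      ((g4e d v w z + g4e d v u z + g4e d w v u + g4e d w z u) +
        (3 / (K - 2)) * (g4E d w u + g4E d v z))) / 4
    rw [g4e_sym d hsym w v u, g4e_sym d hsym w z u, g4E_sym d hsym hedge w u]
    ring
  · intro u v w h1 h2 h3
    have hsum : sum4 u v w (fun z => ((1 / (K - 3)) *
      ((g4e d u v w + g4e d u z w + g4e d v u z + g4e d v w z) +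
        (3 / (K - 2)) * (g4E d v z + g4E d u w))) / 4) =
        (1 / (4 * (K - 3))) *
          sum4 u v w (fun z => g4e d u v w + g4e d u z w + g4e d v u z + g4e d v w z) +
          (3 / (4 * (K - 3) * (K - 2))) * sum4 u v w (fun z => g4E d v z + g4E d u w) := by
      unfold sum4
      rw [Finset.mul_sum, Finset.mul_sum, ← Finset.sum_add_distrib]
      refine Finset.sum_congr rfl fun z _ => ?_
      by_cases h : z = u ∨ z = v ∨ z = w
      · simp [h]
      · simp only [h, if_false]
        field_simp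
        try ring
    show 3 * ((g4T d u v w / 3 -
      (g4E d u v + g4E d v w + g4E d u w) * (K - 5) / ((K - 3) * (K - 2))) / 3) +
      4 * sum4 u v w (fun z => ((1 / (K - 3)) *
      ((g4e d u v w + g4e d u z w + g4e d v u z + g4e d v w z) +
        (3 / (K - 2)) * (g4E d v z + g4E d u w))) / 4) = d u v w
    rw [hsum, g4_I d hsym hedge h1 h2 h3, g4_E3 d hsym hedge h1 h2 h3]
    have h4 : d u v w = g4T d u v w / 3 + g4e d u v w := by unfold g4e; ring
    rw [h4, ← hKdef]
    field_simp
    ring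

end TL

end Pool.Agent.Lib.MP_95bb8c_al.GW
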