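import Pool.Agent.Lib.MP_95bb8c_al.GW.Cover
import Pool.Agent.Lib.MP_95bb8c_al.GW.Three
import Pool.Agent.Lib.MP_95bb8c_al.GW.Functional
import Pool.Agent.Lib.MP_95bb8c_al.GW.TypeLevel
import Pool.Agent.Lib.MP_95bb8c_al.GW.DdEdge
import Pool.Agent.Lib.MP_95bb8c_al.GW.Sizes55
import Pool.Agent.Lib.MP_95bb8c_al.GW.Kappa
import Pool.Agent.Lib.MP_95bb8c_al.GW.Cuts
import Pool.Agent.Lib.MP_95bb8c_al.OE.Final

set_option autoImplicit false
set_option linter.unusedSectionVars false

/-!
# Nearly uniform lists are polygonal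
-/

namespace Pool.Agent.Lib.MP_95bb8c_al.GW

open Finset

section Graph
variable {V E : Type} [Fintype V] [DecidableEq V] [Fintype E] [DecidableEq E]

private theorem g10_fib {s t : E → V} (hl : ∀ e, s e ≠ t e) (v : V) (F : E → ℚ) :
    ∑ u, ∑ p ∈ J s t u v, F p = ∑ p ∈ cut s t {v}, F p := by
  rw [← Finset.sum_fiberwise_of_maps_to (s := cut s t {v}) (t := univ)
    (g := fun e => oth s t v e) (fun _ _ => Finset.mem_univ _)]
  apply Finset.sum_congr rfl
  intro u _
  apply Finset.sum_congr _ (fun _ _ => rfl)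
  ext e
  rw [Finset.mem_filter]
  constructor
  · intro he
    exact oth_of_mem_J hl he
  · rintro ⟨h1, h2⟩
    have h3 := (mem_J_oth hl h1).2
    rw [h2, J_comm] at h3
    exact h3

private theorem g10_card {s t : E → V} (hl : ∀ e, s e ≠ t e) (v : V) :
    ((cut s t {v}).card : ℚ) = ∑ u, mq s t u v := by
  have h := g10_fib hl v (fun _ => (1 : ℚ))
  rw [Finset.sum_const, nsmul_eq_mul, mul_one] at h
  rw [← h]
  apply Finset.sum_congr rfl
  intro u _
  rw [Finset.sum_const, nsmul_eq_mul, mul_one]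
  rfl

end Graph

section Words
variable {n : ℕ}

/-- The case of rank at least three. -/
private theorem g10_main (hn : 3 ≤ n) {U : List (List (Letter n))} (hU : CycRed U)
    (hpos : ∀ u v : Letter n, u ≠ v → 0 < mult U u v)
    (h : ∀ u v u' v' : Letter n, u ≠ v → u' ≠ v' → 55 * mult U u v ≤ 56 * mult U u' v') :
    Polygonal U := by
  classical
  have hl := no_loop hU
  have hcV : Fintype.card (Letter n) = 2 * n := by
    rw [Fintype.card_prod, Fintype.card_fin, Fintype.card_bool, mul_comm]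
  have hK : Fintype.card (Letter n) = 6 ∨ 8 ≤ Fintype.card (Letter n) := by
    rw [hcV]; omega
  have hK6 : 6 ≤ Fintype.card (Letter n) := by rcases hK with h | h <;> omega
  -- the pairs of different letters, least and largest multiplicity
  let P : Finset (Letter n × Letter n) := univ.filter fun x => x.1 ≠ x.2
  have hPne : P.Nonempty := by
    refine ⟨((⟨0, by omega⟩, true), (⟨0, by omega⟩, false)), ?_⟩
    rw [Finset.mem_filter]
    exact ⟨Finset.mem_univ _, by simp⟩
  obtain ⟨x₀, hx₀, hmin⟩ := Finset.exists_min_image P (fun x => mult U x.1 x.2) hPne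
  obtain ⟨x₁, hx₁, hmax⟩ := Finset.exists_max_image P (fun x => mult U x.1 x.2) hPne
  rw [Finset.mem_filter] at hx₀ hx₁
  have hmin' : ∀ u v : Letter n, u ≠ v → mult U x₀.1 x₀.2 ≤ mult U u v := by
    intro u v huv
    exact hmin (u, v) (by rw [Finset.mem_filter]; exact ⟨Finset.mem_univ _, huv⟩)
  have hmax' : ∀ u v : Letter n, u ≠ v → mult U u v ≤ mult U x₁.1 x₁.2 := by
    intro u v huv
    exact hmax (u, v) (by rw [Finset.mem_filter]; exact ⟨Finset.mem_univ _, huv⟩)
  have h01 := h x₁.1 x₁.2 x₀.1 x₀.2 hx₁.2 hx₀.2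
  have hp0 := hpos x₀.1 x₀.2 hx₀.2
  generalize mult U x₀.1 x₀.2 = m at hmin' h01 hp0
  generalize mult U x₁.1 x₁.2 = M at hmax' h01
  have hmQ : (1 : ℚ) ≤ m := by exact_mod_cast hp0
  have hMQ : (M : ℚ) ≤ 56 / 55 * m := by
    have h1 : (55 : ℚ) * M ≤ 56 * m := by exact_mod_cast h01
    linarith
  have hlo : ∀ u v : Letter n, u ≠ v → (m : ℚ) ≤ mq (src U) (tgt U) u v := by
    intro u v huv
    unfold mq
    exact_mod_cast hmin' u v huv
  have hhi : ∀ u v : Letter n, u ≠ v → mq (src U) (tgt U) u v ≤ 56 / 55 * (m : ℚ) := by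
    intro u v huv
    refine le_trans ?_ hMQ
    unfold mq
    exact_mod_cast hmax' u v huv
  -- the degrees
  have hdeg : ∀ v : Letter n, ((cut (src U) (tgt U) {v}).card : ℚ) = occ U v.1 := by
    intro v
    have h1 := dg_eq hU v
    unfold dg at h1
    rw [h1]
  have hbig : ∀ v : Letter n, (5 : ℚ) * m ≤ (cut (src U) (tgt U) {v}).card := by
    intro v
    rw [g10_card hl v]
    have h1 : ∀ u ∈ (univ : Finset (Letter n)).erase v, (m : ℚ) ≤ mq (src U) (tgt U) u v :=
      fun u hu => hlo u v (Finset.ne_of_mem_erase hu)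
    have h2 : ∑ u ∈ (univ : Finset (Letter n)).erase v, mq (src U) (tgt U) u v ≤
        ∑ u, mq (src U) (tgt U) u v :=
      Finset.sum_le_sum_of_subset_of_nonneg (Finset.erase_subset _ _)
        (fun _ _ _ => by unfold mq; positivity)
    have h3 := Finset.card_nsmul_le_sum _ _ _ h1
    rw [Finset.card_erase_of_mem (Finset.mem_univ _), Finset.card_univ, nsmul_eq_mul] at h3
    refine le_trans ?_ (le_trans h3 h2)
    refine mul_le_mul_of_nonneg_right ?_ (by linarith)
    have h4 : 5 ≤ Fintype.card (Letter n) - 1 := by omega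
    exact_mod_cast h4
  obtain ⟨v₀, -, hv₀⟩ := Finset.exists_max_image (univ : Finset (Letter n))
    (fun v => (cut (src U) (tgt U) {v}).card) ⟨((⟨0, by omega⟩ : Fin n), true), Finset.mem_univ _⟩
  obtain ⟨D, hDdef⟩ : ∃ D : ℕ, D = (cut (src U) (tgt U) {v₀}).card := ⟨_, rfl⟩
  have hD : ∀ v : Letter n, (cut (src U) (tgt U) {v}).card ≤ D := by
    intro v
    rw [hDdef]
    exact hv₀ v (Finset.mem_univ _)
  have hD' : ∃ v : Letter n, (cut (src U) (tgt U) {v}).card = D := ⟨v₀, hDdef.symm⟩
  have hD5 : (5 : ℚ) ≤ D := by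
    have h1 := hbig v₀
    rw [← hDdef] at h1
    linarith
  -- the special weights
  let ρ : Fin n → ℚ := fun a => ((D : ℚ) - occ U a) / ((D : ℚ) - 1)
  have hρ : ∀ a, 0 ≤ ρ a := by
    intro a
    refine div_nonneg ?_ (by linarith)
    have h1 : (((cut (src U) (tgt U) {((a, true) : Letter n)}).card : ℕ) : ℚ) ≤ D := by
      exact_mod_cast hD (a, true)
    rw [hdeg (a, true)] at h1
    linarith
  let k : Fin n → ℕ := fun a => occ U a / 2 - 2 * M + 1
  have h4M : ∀ a : Fin n, 4 * M ≤ occ U a := by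
    intro a
    have h1 := hbig (a, true)
    rw [hdeg (a, true)] at h1
    have h2 : (4 : ℚ) * M ≤ occ U a := by
      refine le_trans ?_ h1
      linarith
    exact_mod_cast h2
  obtain ⟨κ, hκ0, hκs, hκp, hκr, hκc, hκk⟩ := exists_kappa_spread hU ρ hρ k
    (fun a => Nat.succ_pos _) (by
      intro v u u' hu hu'
      have h1 := hmax' v u hu.symm
      have h2 := hmax' (bar v) u' hu'.symm
      have h3 := h4M v.1
      show 2 * (mult U v u + mult U (bar v) u' + (occ U v.1 / 2 - 2 * M + 1 - 1)) ≤ occ U v.1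
      omega)
  have hrow : ∀ v w : Letter n, ∀ q ∈ J (src U) (tgt U) v w,
      ∑ u, (if u = w then 0 else ∑ p ∈ J (src U) (tgt U) u v, κ v p q) = ρ v.1 := by
    intro v w q hq
    have hq1 : q ∈ star U v := by
      rw [J_comm] at hq
      exact (oth_of_mem_J hl hq).1
    rw [← hκr v q hq1]
    unfold star
    rw [← g10_fib hl v]
    apply Finset.sum_congr rfl
    intro u _
    by_cases huw : u = w
    · rw [if_pos huw, huw]
      symm
      apply Finset.sum_eq_zero
      intro p hp
      rw [J_comm] at hq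
      exact hκp w v q hq p hp
    · rw [if_neg huw]
      apply Finset.sum_congr rfl
      intro p _
      exact hκs v p q
  have hρ' : ∀ v : Letter n, ρ v.1 =
      ((D : ℚ) - (cut (src U) (tgt U) {v}).card) / ((D : ℚ) - 1) := by
    intro v
    rw [hdeg v]
  obtain ⟨a, Δ, hΔ, haΔ, hdb⟩ := dd_sizes55 hl hK ((Fintype.card (Letter n) : ℚ) - 2) rfl D hD hD'
    (m : ℚ) hmQ hlo hhi κ hκ0 (fun v => ρ v.1) hρ' hrow (fun v => (k v.1 : ℚ)) (by
      intro v
      rw [hdeg v]
      have h1 : occ U v.1 ≤ 2 * (occ U v.1 / 2) + 1 := by omega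
      have h2 : 2 * M ≤ occ U v.1 / 2 := by have := h4M v.1; omega
      have h3 : (occ U v.1 : ℚ) ≤ 2 * ((occ U v.1 / 2 : ℕ) : ℚ) + 1 := by exact_mod_cast h1
      show (occ U v.1 : ℚ) / 2 - 2 * (56 / 55) * m ≤ ((occ U v.1 / 2 - 2 * M + 1 : ℕ) : ℚ)
      rw [Nat.cast_add, Nat.cast_sub h2]
      push_cast at h3 ⊢
      linarith) (fun v e f => hκk v e f)
  obtain ⟨T, Y, hT0, hY0, hTc, hYc, hTY⟩ := type_level (le_trans (by norm_num) hK6)
    (dd (src U) (tgt U) ((Fintype.card (Letter n) : ℚ) - 2) (1 / ((D : ℚ) - 1)) κ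
      (fun v => ρ v.1))
    (fun u v w => dd_symm _ _ κ hκs _ u v w)
    (fun u v huv => dd_edge hl _ _ rfl κ hκs _ hrow (by
      intro w
      show 1 / ((D : ℚ) - 1) * (((cut (src U) (tgt U) {w}).card : ℚ) - 1) + ρ w.1 = 1
      rw [hρ' w]
      have : (D : ℚ) - 1 ≠ 0 := by linarith
      field_simp
      ring) u v huv) a Δ hdb hΔ haΔ
  have hk0 : (0 : ℚ) < (Fintype.card (Letter n) : ℚ) - 2 := by
    have h1 : (6 : ℚ) ≤ Fintype.card (Letter n) := by exact_mod_cast hK6
    linarith
  have hmq : ∀ u v : Letter n, 0 ≤ mq (src U) (tgt U) u v := by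
    intro u v; unfold mq; positivity
  have hlam0 : 0 < 1 / ((D : ℚ) - 1) := div_pos one_pos (by linarith)
  have hJne : ∀ {u v : Letter n} {e : Pos U}, e ∈ J (src U) (tgt U) u v → u ≠ v := by
    intro u v e he
    unfold J at he
    rw [Finset.mem_filter] at he
    exact he.2.1
  obtain ⟨L, N, hN, hL1, hL2⟩ := cover hl (1 / ((D : ℚ) - 1)) hlam0.le κ hκs
    (WTof (src U) (tgt U) ((Fintype.card (Letter n) : ℚ) - 2) κ T)
    (by
      intro u v w p hp q hq r hr
      unfold WTof
      refine add_nonneg (div_nonneg (hκ0 _ _ _) (mul_nonneg hk0.le (hmq _ _)))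
        (div_nonneg (hT0 u v w (hJne hp) (hJne hq) (hJne hr).symm)
          (mul_nonneg (mul_nonneg (hmq _ _) (hmq _ _)) (hmq _ _))))
    (WQof (src U) (tgt U) ((Fintype.card (Letter n) : ℚ) - 2) κ Y)
    (by
      intro u v w z huw hvz p hp q hq r hr x hx
      unfold WQof
      refine add_nonneg (div_nonneg (hκ0 _ _ _)
        (mul_nonneg (mul_nonneg hk0.le (hmq _ _)) (hmq _ _)))
        (div_nonneg (hY0 u v w z (hJne hp) (hJne hq) (hJne hr) (hJne hx) huw hvz)
          (mul_nonneg (mul_nonneg (mul_nonneg (hmq _ _) (hmq _ _)) (hmq _ _)) (hmq _ _))))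
    (fun c hc => functional _ rfl (le_trans (by norm_num) hK6)
      (fun u v huv => by have := hlo u v huv; linarith) _ κ hκs (fun v => ρ v.1) hrow T hTc
      Y hYc hTY c hc)
    (fun u v e he f hf => hκp u v e he f hf)
    (by
      intro v e he
      have h1 : κ v e e = 0 := by
        have h2 := (mem_J_oth hl he).2
        rw [J_comm] at h2
        exact hκp _ v e h2 e h2
      have h3 := hκr v e he
      unfold star at h3
      rw [Finset.sum_add_distrib, Finset.sum_const, Finset.card_erase_of_mem he, nsmul_eq_mul]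
      have h4 : ∑ f ∈ (cut (src U) (tgt U) {v}).erase e, κ v e f = ρ v.1 := by
        rw [← h3, ← Finset.add_sum_erase _ _ he, h1, zero_add]
      rw [h4, hρ' v]
      have h5 : 1 ≤ (cut (src U) (tgt U) {v}).card := Finset.card_pos.2 ⟨e, he⟩
      rw [Nat.cast_sub h5]
      have : (D : ℚ) - 1 ≠ 0 := by linarith
      field_simp
      push_cast
      ring)
  refine ⟨L, hL1, ?_, ?_⟩
  · -- a long cycle
    let o : Fin n := ⟨0, by omega⟩
    let i1 : Fin n := ⟨1, by omega⟩
    have ho1 : o ≠ i1 := by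
      intro h
      have := congrArg Fin.val h
      simp [o, i1] at this
    have huv : ((o, true) : Letter n) ≠ (o, false) := by simp
    have hvw : ((o, false) : Letter n) ≠ (i1, true) := by simp
    have huw : ((o, true) : Letter n) ≠ (i1, true) := by
      intro h
      exact ho1 (congrArg Prod.fst h)
    obtain ⟨e, he⟩ := Finset.card_pos.1 (hpos _ _ huv)
    obtain ⟨f, hf⟩ := Finset.card_pos.1 (hpos _ _ hvw)
    have he1 := oth_of_mem_J hl he
    have hf' := hf
    rw [J_comm] at hf'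
    have hf1 := oth_of_mem_J hl hf'
    have hne : e ≠ f := by
      intro hef
      rw [hef] at he1
      exact huw (he1.2.symm.trans hf1.2)
    have h1 := hL2 _ e he1.1 f hf1.1
    rw [if_neg hne] at h1
    have h2 : (0 : ℚ) < ((L.countP fun C => e ∈ C ∧ f ∈ C : ℕ) : ℚ) := by
      rw [h1]
      refine mul_pos (by exact_mod_cast hN) ?_
      have := hκ0 (o, false) e f
      linarith
    have h3 : 0 < (L.countP fun C => e ∈ C ∧ f ∈ C) := by exact_mod_cast h2
    obtain ⟨C, hC, hC2⟩ := List.countP_pos_iff.1 h3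
    have hC3 : e ∈ C ∧ f ∈ C := by simpa using hC2
    exact ⟨C, hC, three_le hl (hL1 C hC) huw he hf hC3.1 hC3.2⟩
  · intro v e he f hf
    have he' := conMap_mem hU v e he
    have hf' := conMap_mem hU v f hf
    have h1 := hL2 v e he f hf
    have h2 := hL2 (bar v) _ he' _ hf'
    have h3 : ((L.countP fun C => e ∈ C ∧ f ∈ C : ℕ) : ℚ) =
        ((L.countP fun C => conMap U v e ∈ C ∧ conMap U v f ∈ C : ℕ) : ℚ) := by
      rw [h1, h2]
      by_cases hef : e = f
      · rw [if_pos hef, if_pos (by rw [hef])]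
      · rw [if_neg hef, if_neg (fun h => hef (conMap_inj hU v e he f hf h)), hκc v e he f hf]
    exact_mod_cast h3

/-- Nearly uniform lists are polygonal. -/
theorem near_polygonal55 (hn : 1 < n) {U : List (List (Letter n))} (hU : CycRed U) (hne : U ≠ [])
    (h : Near55 U) : Polygonal U := by
  obtain ⟨⟨h1, h2⟩, h3⟩ := near_cuts_55 hn hU hne h
  rcases Nat.lt_or_ge n 3 with h4 | h4
  · have hn2 : n = 2 := by omega
    subst hn2
    rcases le_total (occ U 0) (occ U 1) with h5 | h5
    · refine OE.one_exceptional hn U hU h1 h2 (occ U 1) 0 ?_ h5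
      intro a ha
      have : a = 1 := by omega
      exact Or.inl (by rw [this])
    · refine OE.one_exceptional hn U hU h1 h2 (occ U 0) 1 ?_ h5
      intro a ha
      have : a = 0 := by omega
      exact Or.inl (by rw [this])
  · exact g10_main h4 hU h3 h

end Words

end Pool.Agent.Lib.MP_95bb8c_al.GW
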