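import Pool.Agent.Lib.MP_95bb8c_al.GW.Cuts

set_option autoImplicit false
set_option linter.unusedSectionVars false

/-!
# Balanced lists in large rank are minimal and diskbusting
-/

namespace Pool.Agent.Lib.MP_95bb8c_al.GW

open Finset

variable {n : ℕ}

theorem b9_pos {C : ℕ} {U : List (List (Letter n))} (hU : CycRed U) (hne : U ≠ [])
    (h : Bal C U) (u v : Letter n) (huv : u ≠ v) : 0 < mult U u v := by
  obtain ⟨p⟩ : Nonempty (Pos U) := by
    have h1 : 0 < U.length := List.length_pos_of_ne_nil hne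
    have h2 : 0 < (U.get ⟨0, h1⟩).length :=
      List.length_pos_of_ne_nil (hU.1 _ (List.get_mem _ _))
    exact ⟨⟨⟨0, h1⟩, ⟨0, h2⟩⟩⟩
  have hp : 0 < mult U (src U p) (tgt U p) := by
    unfold mult
    rw [Finset.card_pos]
    exact ⟨p, g9_mem_J.2 ⟨no_loop hU p, Or.inl ⟨rfl, rfl⟩⟩⟩
  have h1 := h _ _ u v (no_loop hU p) huv
  by_contra h2
  have h3 : mult U u v = 0 := by omega
  rw [h3, Nat.mul_zero] at h1
  omega

theorem b9_mult_comm {U : List (List (Letter n))} (u v : Letter n) :
    mult U u v = mult U v u := by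
  unfold mult
  congr 1
  ext e
  rw [g9_mem_J, g9_mem_J]
  constructor
  · rintro ⟨h1, h2⟩
    exact ⟨h1.symm, h2.symm⟩
  · rintro ⟨h1, h2⟩
    exact ⟨h1.symm, h2.symm⟩

/-- A cut whose complement has at least `C` vertices is at least as large as the star of each of
its vertices. -/
theorem b9_cut_star {C : ℕ} {U : List (List (Letter n))} (hC : 0 < C) (h : Bal C U)
    (v : Letter n) (S : Finset (Letter n)) (hv : v ∈ S) (hS : C ≤ Sᶜ.card) :
    (star U v).card ≤ (cut (src U) (tgt U) S).card := by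
  unfold star
  rw [g9_card_cut, g9_card_cut, Finset.sum_product, Finset.sum_product, Finset.sum_singleton]
  show ∑ w ∈ ({v} : Finset (Letter n))ᶜ, mult U v w ≤ ∑ u ∈ S, ∑ w ∈ Sᶜ, mult U u w
  have e1 : ({v} : Finset (Letter n))ᶜ = S.erase v ∪ Sᶜ := by
    ext w
    rw [Finset.mem_compl, Finset.mem_singleton, Finset.mem_union, Finset.mem_erase,
      Finset.mem_compl]
    constructor
    · intro hw
      by_cases hwS : w ∈ S
      · exact Or.inl ⟨hw, hwS⟩
      · exact Or.inr hwS
    · rintro (⟨hw, _⟩ | hw)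
      · exact hw
      · intro hwv
        exact hw (hwv ▸ hv)
  have hdisj : Disjoint (S.erase v) Sᶜ := by
    rw [Finset.disjoint_left]
    intro w hw hw2
    exact (Finset.mem_compl.1 hw2) (Finset.mem_of_mem_erase hw)
  rw [e1, Finset.sum_union hdisj, ← Finset.add_sum_erase S _ hv, add_comm]
  apply Nat.add_le_add_left
  apply Finset.sum_le_sum
  intro u hu
  have huv : u ≠ v := Finset.ne_of_mem_erase hu
  have huS : u ∈ S := Finset.mem_of_mem_erase hu
  have hne : Sᶜ.Nonempty := Finset.card_pos.1 (lt_of_lt_of_le hC hS)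
  obtain ⟨w0, hw0, hmin⟩ := Finset.exists_min_image Sᶜ (fun w => mult U u w) hne
  have huw0 : u ≠ w0 := fun h1 => (Finset.mem_compl.1 hw0) (h1 ▸ huS)
  calc mult U v u ≤ C * mult U u w0 := h v u u w0 huv.symm huw0
    _ ≤ Sᶜ.card * mult U u w0 := Nat.mul_le_mul_right _ hS
    _ = Sᶜ.card • mult U u w0 := (smul_eq_mul _ _).symm
    _ ≤ ∑ w ∈ Sᶜ, mult U u w := Finset.card_nsmul_le_sum _ _ _ fun w hw => hmin w hw

theorem b9_cut_compl {U : List (List (Letter n))} (S : Finset (Letter n)) :
    cut (src U) (tgt U) Sᶜ = cut (src U) (tgt U) S := by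
  unfold cut
  ext e
  rw [Finset.mem_filter, Finset.mem_filter, Finset.mem_compl, Finset.mem_compl]
  constructor
  · rintro ⟨h2, h3⟩
    exact ⟨h2, fun h4 => h3 (not_iff_not.2 h4)⟩
  · rintro ⟨h2, h3⟩
    exact ⟨h2, fun h4 => h3 (not_iff_not.1 h4)⟩

/-- Lists whose multiplicities agree up to a factor `C` are minimal and diskbusting in rank
`n ≥ C`, and all multiplicities are positive. -/
theorem bal_cuts_le {C : ℕ} (hn : C ≤ n) {U : List (List (Letter n))}
    (hU : CycRed U) (hne : U ≠ []) (h : Bal C U) :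
    MinDisk U ∧ ∀ u v : Letter n, u ≠ v → 0 < mult U u v := by
  have hpos := b9_pos hU hne h
  have hK : Fintype.card (Letter n) = 2 * n := by
    rw [Fintype.card_prod, Fintype.card_fin, Fintype.card_bool]
    ring
  refine ⟨⟨?_, ?_⟩, hpos⟩
  · intro S hS1 hS2
    obtain ⟨u, hu⟩ := hS1
    obtain ⟨v, hv⟩ : ∃ v, v ∉ S := by
      by_contra h1
      push Not at h1
      exact hS2 (Finset.eq_univ_iff_forall.2 h1)
    have huv : u ≠ v := fun h1 => hv (h1 ▸ hu)
    have h1 := hpos u v huv
    unfold mult at h1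
    obtain ⟨e, he⟩ := Finset.card_pos.1 h1
    refine ⟨e, ?_⟩
    rw [g9_cut_eq, Finset.mem_biUnion]
    exact ⟨(u, v), Finset.mem_product.2 ⟨hu, Finset.mem_compl.2 hv⟩, he⟩
  · intro v
    have hC : 0 < C := by
      by_contra hC
      have hC0 : C = 0 := by omega
      have h1 := h v (bar v) v (bar v) (bar_ne v).symm (bar_ne v).symm
      have h2 := hpos v (bar v) (bar_ne v).symm
      rw [hC0, Nat.zero_mul] at h1
      omega
    unfold lam
    apply le_antisymm
    · exact Nat.sInf_le ⟨{v}, Finset.mem_singleton_self v,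
        fun h1 => bar_ne v (Finset.mem_singleton.1 h1), rfl⟩
    · apply le_csInf
      · exact ⟨_, {v}, Finset.mem_singleton_self v,
          fun h1 => bar_ne v (Finset.mem_singleton.1 h1), rfl⟩
      · rintro k ⟨S, h1, h2, h3⟩
        rw [← h3]
        have hcc : Sᶜ.card + S.card = 2 * n := by
          rw [← hK]
          exact Finset.card_compl_add_card S
        by_cases hS : C ≤ Sᶜ.card
        · exact b9_cut_star hC h v S h1 hS
        · have h4 : (star U v).card = (star U (bar v)).card := by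
            have h5 := dg_eq hU v
            have h6 := dg_eq hU (bar v)
            unfold dg at h5 h6
            unfold star
            rw [h5, h6]
            rfl
          rw [h4, ← b9_cut_compl]
          apply b9_cut_star hC h (bar v) Sᶜ (Finset.mem_compl.2 h2)
          rw [compl_compl]
          omega

theorem bal_cuts {C : ℕ} (hn : 2 * C + 2 ≤ 2 * n) {U : List (List (Letter n))}
    (hU : CycRed U) (hne : U ≠ []) (h : Bal C U) :
    MinDisk U ∧ ∀ u v : Letter n, u ≠ v → 0 < mult U u v :=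
  bal_cuts_le (by omega) hU hne h

end Pool.Agent.Lib.MP_95bb8c_al.GW
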