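import Pool.Agent.Lib.MP_95bb8c_al.GW.BalCore
import Pool.Agent.Lib.MP_95bb8c_al.GW.BalCuts
import Pool.Agent.Lib.MP_95bb8c_al.GW.Three

set_option autoImplicit false
set_option linter.unusedSectionVars false

/-!
# Lists with multiplicities within a constant factor are polygonal in large rank
-/

namespace Pool.Agent.Lib.MP_95bb8c_al.GW

open Finset

variable {n : ℕ}

/-- From a list of cycles with the prescribed numbers to polygonality. -/
theorem polygonal_of_counts (hn : 2 ≤ n) {U : List (List (Letter n))} (hU : CycRed U)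
    (hpos : ∀ u v : Letter n, u ≠ v → 0 < mult U u v) (κ : Letter n → Pos U → Pos U → ℚ)
    (hκ0 : ∀ v e f, 0 ≤ κ v e f)
    (hκc : ∀ v, ∀ e ∈ star U v, ∀ f ∈ star U v,
        κ (bar v) (conMap U v e) (conMap U v f) = κ v e f)
    (lam : ℚ) (hlam : 0 < lam) (L : List (Finset (Pos U))) (N : ℕ) (hN : 0 < N)
    (hL1 : ∀ C ∈ L, IsCycle (src U) (tgt U) C)
    (hL2 : ∀ v, ∀ e ∈ cut (src U) (tgt U) {v}, ∀ f ∈ cut (src U) (tgt U) {v},
        ((L.countP fun C => e ∈ C ∧ f ∈ C : ℕ) : ℚ) =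
          N * (if e = f then 1 else lam + κ v e f)) : Polygonal U := by
  have hl := no_loop hU
  refine ⟨L, hL1, ?_, ?_⟩
  · let o : Fin n := ⟨0, by omega⟩
    let i1 : Fin n := ⟨1, by omega⟩
    have ho1 : o ≠ i1 := by
      intro h
      have := congrArg Fin.val h
      simp [o, i1] at this
    have huv : ((o, true) : Letter n) ≠ (o, false) := by simp
    have hvw : ((o, false) : Letter n) ≠ (i1, true) := by simp
    have huw : ((o, true) : Letter n) ≠ (i1, true) := by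
      intro h
      exact ho1 (congrArg Prod.fst h)
    obtain ⟨e, he⟩ := Finset.card_pos.1 (hpos _ _ huv)
    obtain ⟨f, hf⟩ := Finset.card_pos.1 (hpos _ _ hvw)
    have he1 := oth_of_mem_J hl he
    have hf' := hf
    rw [J_comm] at hf'
    have hf1 := oth_of_mem_J hl hf'
    have hne : e ≠ f := by
      intro hef
      rw [hef] at he1
      exact huw (he1.2.symm.trans hf1.2)
    have h1 := hL2 _ e he1.1 f hf1.1
    rw [if_neg hne] at h1
    have h2 : (0 : ℚ) < ((L.countP fun C => e ∈ C ∧ f ∈ C : ℕ) : ℚ) := by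
      rw [h1]
      refine mul_pos (by exact_mod_cast hN) ?_
      have := hκ0 (o, false) e f
      linarith
    have h3 : 0 < (L.countP fun C => e ∈ C ∧ f ∈ C) := by exact_mod_cast h2
    obtain ⟨C, hC, hC2⟩ := List.countP_pos_iff.1 h3
    have hC3 : e ∈ C ∧ f ∈ C := by simpa using hC2
    exact ⟨C, hC, three_le hl (hL1 C hC) huw he hf hC3.1 hC3.2⟩
  · intro v e he f hf
    have he' := conMap_mem hU v e he
    have hf' := conMap_mem hU v f hf
    have h1 := hL2 v e he f hf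
    have h2 := hL2 (bar v) _ he' _ hf'
    have h3 : ((L.countP fun C => e ∈ C ∧ f ∈ C : ℕ) : ℚ) =
        ((L.countP fun C => conMap U v e ∈ C ∧ conMap U v f ∈ C : ℕ) : ℚ) := by
      rw [h1, h2]
      by_cases hef : e = f
      · rw [if_pos hef, if_pos (by rw [hef])]
      · rw [if_neg hef, if_neg (fun h => hef (conMap_inj hU v e he f hf h)), hκc v e he f hf]
    exact_mod_cast h3

private theorem b10_num (C K N : ℚ) (hC : 1 ≤ C) (hK : 2 * 10 ^ 14 * C ^ 14 ≤ K)
    (hN1 : 30000 * C ^ 5 ≤ N) (hN2 : N ≤ 30000 * C ^ 5 + 1) :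
    300 * C ^ 3 * (60 * C ^ 2 / N + 196 * C * (N + 1) ^ 2 / K) ≤ 1 := by
  have hC0 : 0 < C := by linarith
  have hK0 : 0 < K := lt_of_lt_of_le (by positivity) hK
  have hC5 : 0 < 30000 * C ^ 5 := by positivity
  have h1 : 300 * C ^ 3 * (60 * C ^ 2 / N) ≤ 3 / 5 := by
    have h2 : 60 * C ^ 2 / N ≤ 60 * C ^ 2 / (30000 * C ^ 5) :=
      div_le_div_of_nonneg_left (by positivity) hC5 hN1
    have h3 : 300 * C ^ 3 * (60 * C ^ 2 / N) ≤ 300 * C ^ 3 * (60 * C ^ 2 / (30000 * C ^ 5)) :=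
      mul_le_mul_of_nonneg_left h2 (by positivity)
    refine le_trans h3 (le_of_eq ?_)
    field_simp
    norm_num
  have h2 : (N + 1) ^ 2 ≤ (30002 * C ^ 5) ^ 2 := by
    have h3 : 1 ≤ C ^ 5 := one_le_pow₀ hC
    apply pow_le_pow_left₀ (by linarith)
    linarith
  have h4 : 300 * C ^ 3 * (196 * C * (N + 1) ^ 2 / K) ≤ 2 / 5 := by
    have h5 : 300 * C ^ 3 * (196 * C * (N + 1) ^ 2 / K) =
        58800 * C ^ 4 * (N + 1) ^ 2 / K := by
      field_simp
      ring
    rw [h5, div_le_iff₀ hK0]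
    have h6 : 58800 * C ^ 4 * (N + 1) ^ 2 ≤ 58800 * C ^ 4 * (30002 * C ^ 5) ^ 2 :=
      mul_le_mul_of_nonneg_left h2 (by positivity)
    have h7 : 58800 * C ^ 4 * (30002 * C ^ 5) ^ 2 = 58800 * 30002 ^ 2 * C ^ 14 := by ring
    have h8 : (0 : ℚ) < C ^ 14 := by positivity
    rw [h7] at h6
    linarith
  rw [mul_add]
  linarith

/-- Lists whose multiplicities agree up to a factor `R` are polygonal in rank `≥ 10 ^ 14 R ^ 14`. -/
theorem bal_polygonal {R : ℝ} (hn : 1 < n) (hRn : 10 ^ 14 * R ^ 14 ≤ n)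
    {U : List (List (Letter n))} (hU : CycRed U) (hne : U ≠ [])
    (h : ∀ u v u' v' : Letter n, u ≠ v → u' ≠ v' → (mult U u v : ℝ) ≤ R * mult U u' v') :
    Polygonal U := by
  classical
  have hl := no_loop hU
  have hbal : Bal ⌈R⌉₊ U := by
    intro u v u' v' huv huv'
    have h1 := h u v u' v' huv huv'
    have h2 : R * (mult U u' v' : ℝ) ≤ (⌈R⌉₊ : ℝ) * mult U u' v' :=
      mul_le_mul_of_nonneg_right (Nat.le_ceil R) (Nat.cast_nonneg _)
    exact_mod_cast le_trans h1 h2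
  have hpos := b9_pos hU hne hbal
  have hcV : Fintype.card (Letter n) = 2 * n := by
    rw [Fintype.card_prod, Fintype.card_fin, Fintype.card_bool, mul_comm]
  -- the pairs of different letters, least and largest multiplicity
  let P : Finset (Letter n × Letter n) := univ.filter fun x => x.1 ≠ x.2
  have hPne : P.Nonempty := by
    refine ⟨((⟨0, by omega⟩, true), (⟨0, by omega⟩, false)), ?_⟩
    rw [Finset.mem_filter]
    exact ⟨Finset.mem_univ _, by simp⟩
  obtain ⟨x₀, hx₀, hmin⟩ := Finset.exists_min_image P (fun x => mult U x.1 x.2) hPne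
  obtain ⟨x₁, hx₁, hmax⟩ := Finset.exists_max_image P (fun x => mult U x.1 x.2) hPne
  rw [Finset.mem_filter] at hx₀ hx₁
  have hmin' : ∀ u v : Letter n, u ≠ v → mult U x₀.1 x₀.2 ≤ mult U u v := by
    intro u v huv
    exact hmin (u, v) (by rw [Finset.mem_filter]; exact ⟨Finset.mem_univ _, huv⟩)
  have hmax' : ∀ u v : Letter n, u ≠ v → mult U u v ≤ mult U x₁.1 x₁.2 := by
    intro u v huv
    exact hmax (u, v) (by rw [Finset.mem_filter]; exact ⟨Finset.mem_univ _, huv⟩)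
  have h01 := h x₁.1 x₁.2 x₀.1 x₀.2 hx₁.2 hx₀.2
  have hp0 := hpos x₀.1 x₀.2 hx₀.2
  have hp1 := hpos x₁.1 x₁.2 hx₁.2
  have hmM : mult U x₀.1 x₀.2 ≤ mult U x₁.1 x₁.2 := hmax' _ _ hx₀.2
  generalize mult U x₀.1 x₀.2 = m at hmin' h01 hp0 hmM
  generalize mult U x₁.1 x₁.2 = M at hmax' h01 hp1 hmM
  have hmQ : (1 : ℚ) ≤ m := by exact_mod_cast hp0
  have hm0 : (0 : ℚ) < m := by linarith
  -- the actual ratio
  obtain ⟨C, hCdef⟩ : ∃ C : ℚ, C = (M : ℚ) / m := ⟨_, rfl⟩
  have hCq : 1 ≤ C := by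
    rw [hCdef, one_le_div hm0]
    exact_mod_cast hmM
  have hMQ : (M : ℚ) ≤ C * m := by
    rw [hCdef, div_mul_cancel₀ _ hm0.ne']
  have hCR : (C : ℝ) ≤ R := by
    rw [hCdef]
    push_cast
    have hmR : (0 : ℝ) < m := by exact_mod_cast hp0
    rw [div_le_iff₀ hmR]
    exact h01
  -- the rank
  have hnq : (10 : ℚ) ^ 14 * C ^ 14 ≤ n := by
    have h1 : (C : ℝ) ^ 14 ≤ R ^ 14 :=
      pow_le_pow_left₀ (by exact_mod_cast (le_trans zero_le_one hCq)) hCR 14
    have h2 : (10 : ℝ) ^ 14 * (C : ℝ) ^ 14 ≤ n := by linarith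
    exact_mod_cast h2
  obtain ⟨K, hK⟩ : ∃ K : ℚ, K = (Fintype.card (Letter n) : ℚ) := ⟨_, rfl⟩
  have hKn : K = 2 * n := by rw [hK, hcV]; push_cast; ring
  have hK14 : 2 * 10 ^ 14 * C ^ 14 ≤ K := by rw [hKn]; linarith
  have hC14 : C ≤ C ^ 14 := le_self_pow₀ hCq (by norm_num)
  have hC5 : C ^ 5 ≤ C ^ 14 := pow_le_pow_right₀ hCq (by norm_num)
  have hKC : 2 * 10 ^ 14 * C ≤ K := by linarith
  have hK0 : 0 < K := by linarith
  have hlo : ∀ u v : Letter n, u ≠ v → (m : ℚ) ≤ mq (src U) (tgt U) u v := by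
    intro u v huv
    unfold mq
    exact_mod_cast hmin' u v huv
  have hhi : ∀ u v : Letter n, u ≠ v → mq (src U) (tgt U) u v ≤ C * (m : ℚ) := by
    intro u v huv
    refine le_trans ?_ hMQ
    unfold mq
    exact_mod_cast hmax' u v huv
  -- the degrees
  have hdeg : ∀ v : Letter n, ((cut (src U) (tgt U) {v}).card : ℚ) = occ U v.1 := by
    intro v
    have h1 := dg_eq hU v
    unfold dg at h1
    rw [h1]
  have hbig : ∀ v : Letter n, (K - 1) * m ≤ (cut (src U) (tgt U) {v}).card := by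
    intro v
    rw [hK]
    exact (g6_deg_bounds hl (m : ℚ) (C * (m : ℚ)) hlo hhi v).1
  obtain ⟨v₀, -, hv₀⟩ := Finset.exists_max_image (univ : Finset (Letter n))
    (fun v => (cut (src U) (tgt U) {v}).card) ⟨((⟨0, by omega⟩ : Fin n), true), Finset.mem_univ _⟩
  obtain ⟨D, hDdef⟩ : ∃ D : ℕ, D = (cut (src U) (tgt U) {v₀}).card := ⟨_, rfl⟩
  have hD : ∀ v : Letter n, (cut (src U) (tgt U) {v}).card ≤ D := by
    intro v
    rw [hDdef]
    exact hv₀ v (Finset.mem_univ _)
  have hD' : ∃ v : Letter n, (cut (src U) (tgt U) {v}).card = D := ⟨v₀, hDdef.symm⟩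
  have hDm : (K - 1) * m ≤ D := by
    have h1 := hbig v₀
    rw [← hDdef] at h1
    exact h1
  have hD5 : (2 : ℚ) ≤ D := by nlinarith
  have hocc : ∀ a : Fin n, (K - 1) * m ≤ occ U a := by
    intro a
    have h1 := hbig (a, true)
    rw [hdeg (a, true)] at h1
    exact h1
  -- the special weights
  let ρ : Fin n → ℚ := fun a => ((D : ℚ) - occ U a) / ((D : ℚ) - 1)
  have hρ : ∀ a, 0 ≤ ρ a := by
    intro a
    refine div_nonneg ?_ (by linarith)
    have h1 : (((cut (src U) (tgt U) {((a, true) : Letter n)}).card : ℕ) : ℚ) ≤ D := by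
      exact_mod_cast hD (a, true)
    rw [hdeg (a, true)] at h1
    linarith
  have hρ1 : ∀ a, ρ a ≤ 1 := by
    intro a
    show ((D : ℚ) - occ U a) / ((D : ℚ) - 1) ≤ 1
    rw [div_le_one (by linarith)]
    have := hocc a
    nlinarith
  let k : Fin n → ℕ := fun a => occ U a / 2 - 2 * M + 1
  have h4M : ∀ a : Fin n, 4 * M ≤ occ U a := by
    intro a
    have h1 := hocc a
    have h2 : (4 : ℚ) * M ≤ occ U a := by
      refine le_trans ?_ h1
      have h3 : (4 : ℚ) * M ≤ 4 * C * m := by linarith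
      have h4 : 4 * C * m ≤ (K - 1) * m := mul_le_mul_of_nonneg_right (by linarith) hm0.le
      linarith
    exact_mod_cast h2
  have hkK : ∀ a : Fin n, K * m / 4 ≤ (k a : ℚ) := by
    intro a
    have h1 : occ U a ≤ 2 * (occ U a / 2) + 1 := by omega
    have h2 : 2 * M ≤ occ U a / 2 := by have := h4M a; omega
    have h3 : (occ U a : ℚ) ≤ 2 * ((occ U a / 2 : ℕ) : ℚ) + 1 := by exact_mod_cast h1
    show K * m / 4 ≤ ((occ U a / 2 - 2 * M + 1 : ℕ) : ℚ)
    rw [Nat.cast_add, Nat.cast_sub h2]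
    push_cast at h3 ⊢
    have h4 := hocc a
    have h5 : 8 * C * m + 2 * m ≤ K * m := by
      have : (8 * C + 2) * m ≤ K * m := mul_le_mul_of_nonneg_right (by linarith) hm0.le
      linarith
    linarith
  obtain ⟨κ, hκ0, hκs, hκp, hκr, hκc, hκk⟩ := exists_kappa_spread hU ρ hρ k
    (fun a => Nat.succ_pos _) (by
      intro v u u' hu hu'
      have h1 := hmax' v u hu.symm
      have h2 := hmax' (bar v) u' hu'.symm
      have h3 := h4M v.1
      show 2 * (mult U v u + mult U (bar v) u' + (occ U v.1 / 2 - 2 * M + 1 - 1)) ≤ occ U v.1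
      omega)
  have hrow : ∀ v w : Letter n, ∀ q ∈ J (src U) (tgt U) v w,
      ∑ u, (if u = w then 0 else ∑ p ∈ J (src U) (tgt U) u v, κ v p q) = ρ v.1 := by
    intro v w q hq
    have hq' := hq
    rw [J_comm] at hq'
    have hq1 : q ∈ star U v := (oth_of_mem_J hl hq').1
    rw [← hκr v q hq1]
    unfold star
    have h5 : ∑ f ∈ cut (src U) (tgt U) {v}, κ v q f =
        ∑ u, ∑ p ∈ J (src U) (tgt U) u v, κ v q p := by
      rw [← Finset.sum_fiberwise_of_maps_to (s := cut (src U) (tgt U) {v}) (t := univ)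
        (g := fun e => oth (src U) (tgt U) v e) (fun _ _ => Finset.mem_univ _)]
      apply Finset.sum_congr rfl
      intro u _
      apply Finset.sum_congr _ (fun _ _ => rfl)
      ext x
      rw [Finset.mem_filter]
      constructor
      · rintro ⟨h6, h7⟩
        have h8 := (mem_J_oth hl h6).2
        rw [h7, J_comm] at h8
        exact h8
      · intro hx
        exact oth_of_mem_J hl hx
    rw [h5]
    apply Finset.sum_congr rfl
    intro u _
    by_cases huw : u = w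
    · rw [if_pos huw, huw]
      symm
      apply Finset.sum_eq_zero
      intro p hp
      exact hκp w v q hq' p hp
    · rw [if_neg huw]
      apply Finset.sum_congr rfl
      intro p _
      exact hκs v p q
  have hρ' : ∀ v : Letter n, ρ v.1 =
      ((D : ℚ) - (cut (src U) (tgt U) {v}).card) / ((D : ℚ) - 1) := by
    intro v
    rw [hdeg v]
  have hκB : ∀ v e f, κ v e f ≤ 4 / ((Fintype.card (Letter n) : ℚ) * m) := by
    intro v e f
    rw [← hK, le_div_iff₀ (by positivity)]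
    have h1 := hκk v e f
    have h2 := hρ1 v.1
    have h3 : K * m / 4 * κ v e f ≤ (k v.1 : ℚ) * κ v e f :=
      mul_le_mul_of_nonneg_right (hkK v.1) (hκ0 v e f)
    linarith
  have hK10 : 10 ≤ Fintype.card (Letter n) := by
    have h1 : (10 : ℚ) ≤ (Fintype.card (Letter n) : ℚ) := by rw [← hK]; linarith
    exact_mod_cast h1
  have hC51 : 1 ≤ C ^ 5 := one_le_pow₀ hCq
  have hN1 : 30000 * C ^ 5 ≤ (⌈30000 * C ^ 5⌉₊ : ℚ) := Nat.le_ceil _
  have hN2 : (⌈30000 * C ^ 5⌉₊ : ℚ) ≤ 30000 * C ^ 5 + 1 :=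
    (Nat.ceil_lt_add_one (by positivity)).le
  obtain ⟨L, N, hN, hL1, hL2⟩ := bal_core hl hK10 C (m : ℚ) hCq hmQ hlo hhi D hD hD' κ hκ0
    hκs hκp (fun v => ρ v.1) hρ' hrow hκB ⌈30000 * C ^ 5⌉₊
    (Nat.ceil_pos.2 (by positivity))
    (by rw [← hK]; linarith) (by rw [← hK]; linarith)
    (by rw [← hK]; exact b10_num C K _ hCq hK14 hN1 hN2)
  exact polygonal_of_counts hn hU hpos κ hκ0 hκc (1 / ((D : ℚ) - 1))
    (div_pos one_pos (by linarith)) L N hN hL1 hL2

end Pool.Agent.Lib.MP_95bb8c_al.GW
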