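import Pool.Agent.Lib.MP_95bb8c_al.GW.Cover

set_option autoImplicit false
set_option linter.unusedSectionVars false

/-!
# From the cost identity for all symmetric costs to a list of cycles, general form
-/

namespace Pool.Agent.Lib.MP_95bb8c_al.GW

open Finset

variable {V E : Type} [Fintype V] [DecidableEq V] [Fintype E] [DecidableEq E]

/-- **G1, general form.** From the cost identity to a list of cycles, with an additional family
`X0` of sets with degrees `0`, `2` and without parallel edges, with weights `W0`. -/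
theorem cover_gen {s t : E → V} (hl : ∀ e, s e ≠ t e) (lam : ℚ) (hlam : 0 ≤ lam)
    (κ : V → E → E → ℚ) (hsym : ∀ v e f, κ v e f = κ v f e)
    (WT : V → V → V → E → E → E → ℚ)
    (hWT : ∀ u v w, ∀ p ∈ J s t u v, ∀ q ∈ J s t v w, ∀ r ∈ J s t w u, 0 ≤ WT u v w p q r)
    (WQ : V → V → V → V → E → E → E → E → ℚ)
    (hWQ : ∀ u v w z, u ≠ w → v ≠ z → ∀ p ∈ J s t u v, ∀ q ∈ J s t v w, ∀ r ∈ J s t w z,
      ∀ x ∈ J s t z u, 0 ≤ WQ u v w z p q r x)
    {ι : Type} [Fintype ι] (W0 : ι → ℚ) (hW0 : ∀ i, 0 ≤ W0 i) (X0 : ι → Finset E)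
    (hX0 : ∀ i, W0 i ≠ 0 → Deg02 s t (X0 i))
    (hX1 : ∀ i, W0 i ≠ 0 → ∀ u v, ∀ e ∈ J s t u v, ∀ f ∈ J s t u v, e ∈ X0 i → f ∈ X0 i → e = f)
    (hH : ∀ c : V → E → E → ℚ, (∀ v e f, c v e f = c v f e) →
      totT s t WT c + totQ s t WQ c = corner s t (fun _ v _ p q => lam + κ v p q -
        ∑ i, W0 i * (if p ∈ X0 i ∧ q ∈ X0 i then 1 else 0)) c)
    (hpar : ∀ u v, ∀ e ∈ J s t u v, ∀ f ∈ J s t u v, κ v e f = 0)
    (hrow : ∀ v, ∀ e ∈ cut s t {v}, ∑ f ∈ (cut s t {v}).erase e, (lam + κ v e f) = 1) :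
    ∃ (L : List (Finset E)) (N : ℕ), 0 < N ∧ (∀ C ∈ L, IsCycle s t C) ∧
      ∀ v, ∀ e ∈ cut s t {v}, ∀ f ∈ cut s t {v},
        ((L.countP fun C => e ∈ C ∧ f ∈ C : ℕ) : ℚ) =
          N * (if e = f then 1 else lam + κ v e f) := by
  classical
  let W1 : V × V × V × E × E × E → ℚ := fun i =>
    if i.2.2.2.1 ∈ J s t i.1 i.2.1 ∧ i.2.2.2.2.1 ∈ J s t i.2.1 i.2.2.1 ∧
      i.2.2.2.2.2 ∈ J s t i.2.2.1 i.1 then
      WT i.1 i.2.1 i.2.2.1 i.2.2.2.1 i.2.2.2.2.1 i.2.2.2.2.2 / 2 else 0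
  let W2 : V × V × V × V × E × E × E × E → ℚ := fun i =>
    if (i.1 ≠ i.2.2.1 ∧ i.2.1 ≠ i.2.2.2.1) ∧ i.2.2.2.2.1 ∈ J s t i.1 i.2.1 ∧
      i.2.2.2.2.2.1 ∈ J s t i.2.1 i.2.2.1 ∧ i.2.2.2.2.2.2.1 ∈ J s t i.2.2.1 i.2.2.2.1 ∧
      i.2.2.2.2.2.2.2 ∈ J s t i.2.2.2.1 i.1 then
      WQ i.1 i.2.1 i.2.2.1 i.2.2.2.1 i.2.2.2.2.1 i.2.2.2.2.2.1 i.2.2.2.2.2.2.1
        i.2.2.2.2.2.2.2 / 2 else 0
  let W3 : E × E → ℚ := fun i =>
    if i.1 ≠ i.2 ∧ ∃ u v, i.1 ∈ J s t u v ∧ i.2 ∈ J s t u v then lam / 2 else 0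
  let X1 : V × V × V × E × E × E → Finset E := fun i => {i.2.2.2.1, i.2.2.2.2.1, i.2.2.2.2.2}
  let X2 : V × V × V × V × E × E × E × E → Finset E := fun i =>
    {i.2.2.2.2.1, i.2.2.2.2.2.1, i.2.2.2.2.2.2.1, i.2.2.2.2.2.2.2}
  let X3 : E × E → Finset E := fun i => {i.1, i.2}
  let W : ι ⊕ (V × V × V × E × E × E) ⊕ (V × V × V × V × E × E × E × E) ⊕ (E × E) → ℚ :=
    Sum.elim W0 (Sum.elim W1 (Sum.elim W2 W3))
  let X : ι ⊕ (V × V × V × E × E × E) ⊕ (V × V × V × V × E × E × E × E) ⊕ (E × E) → Finset E :=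
    Sum.elim X0 (Sum.elim X1 (Sum.elim X2 X3))
  have hW : ∀ k, 0 ≤ W k := by
    rintro (i | i | i | i)
    · exact hW0 i
    · change 0 ≤ W1 i
      simp only [W1]
      split_ifs with h
      · exact div_nonneg (hWT _ _ _ _ h.1 _ h.2.1 _ h.2.2) (by norm_num)
      · exact le_rfl
    · change 0 ≤ W2 i
      simp only [W2]
      split_ifs with h
      · exact div_nonneg (hWQ _ _ _ _ h.1.1 h.1.2 _ h.2.1 _ h.2.2.1 _ h.2.2.2.1 _ h.2.2.2.2)
          (by norm_num)
      · exact le_rfl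
    · change 0 ≤ W3 i
      simp only [W3]
      split_ifs with h
      · exact div_nonneg hlam (by norm_num)
      · exact le_rfl
  have hX : ∀ k, W k ≠ 0 → Deg02 s t (X k) := by
    rintro (i | i | i | i) hi
    · exact hX0 i hi
    · change W1 i ≠ 0 at hi
      change Deg02 s t (X1 i)
      simp only [W1] at hi
      split_ifs at hi with h
      · exact g1_deg_tri h.1 h.2.1 h.2.2
      · exact absurd rfl hi
    · change W2 i ≠ 0 at hi
      change Deg02 s t (X2 i)
      simp only [W2] at hi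
      split_ifs at hi with h
      · exact g1_deg_quad h.1.1 h.1.2 h.2.1 h.2.2.1 h.2.2.2.1 h.2.2.2.2
      · exact absurd rfl hi
    · change W3 i ≠ 0 at hi
      change Deg02 s t (X3 i)
      simp only [W3] at hi
      split_ifs at hi with h
      · obtain ⟨h1, u, v, h2, h3⟩ := h
        exact g1_deg_two h2 h3 h1
      · exact absurd rfl hi
  obtain ⟨L, N, hN, hL, hLc⟩ := OE.list_of_law hl W hW X hX
  refine ⟨L, N, hN, hL, fun v e he f hf => ?_⟩
  rw [hLc v e he f hf]
  congr 1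
  -- the pair weights
  have key : ∀ e ∈ cut s t {v}, ∀ f ∈ cut s t {v}, e ≠ f →
      ∑ k, W k * (if e ∈ X k ∧ f ∈ X k then (1 : ℚ) else 0) = lam + κ v e f := by
    intro e he f hf hef
    obtain ⟨a, hea⟩ := g1_exists_J hl he
    obtain ⟨b, hfb⟩ := g1_exists_J hl hf
    have hsplit : ∑ k, W k * (if e ∈ X k ∧ f ∈ X k then (1 : ℚ) else 0) =
        ∑ i, W0 i * (if e ∈ X0 i ∧ f ∈ X0 i then (1 : ℚ) else 0) +
        (∑ i, W1 i * (if e ∈ X1 i ∧ f ∈ X1 i then (1 : ℚ) else 0) +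
          (∑ i, W2 i * (if e ∈ X2 i ∧ f ∈ X2 i then (1 : ℚ) else 0) +
            ∑ i, W3 i * (if e ∈ X3 i ∧ f ∈ X3 i then (1 : ℚ) else 0))) := by
      rw [Fintype.sum_sum_type, Fintype.sum_sum_type, Fintype.sum_sum_type]
      rfl
    rw [hsplit]
    by_cases hab : a = b
    · subst hab
      have h0 : ∑ i, W0 i * (if e ∈ X0 i ∧ f ∈ X0 i then (1 : ℚ) else 0) = 0 := by
        refine Finset.sum_eq_zero fun i _ => ?_
        by_cases hi : W0 i = 0
        · rw [hi, zero_mul]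
        · rw [if_neg fun h => hef (hX1 i hi a v e hea f hfb h.1 h.2), mul_zero]
      have h1 : ∑ i, W1 i * (if e ∈ X1 i ∧ f ∈ X1 i then (1 : ℚ) else 0) = 0 := by
        refine Finset.sum_eq_zero fun i _ => ?_
        simp only [W1, X1]
        split_ifs with h h'
        · exact absurd h' (g1_tri_par hef hea hfb h.1 h.2.1 h.2.2)
        · simp
        · simp
        · simp
      have h2 : ∑ i, W2 i * (if e ∈ X2 i ∧ f ∈ X2 i then (1 : ℚ) else 0) = 0 := by
        refine Finset.sum_eq_zero fun i _ => ?_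
        simp only [W2, X2]
        split_ifs with h h'
        · exact absurd h' (g1_quad_par hef hea hfb h.1.1 h.1.2 h.2.1 h.2.2.1 h.2.2.2.1
            h.2.2.2.2)
        · simp
        · simp
        · simp
      have h3 : ∑ i, W3 i * (if e ∈ X3 i ∧ f ∈ X3 i then (1 : ℚ) else 0) = lam := by
        have h4 : ∀ i : E × E, W3 i * (if e ∈ X3 i ∧ f ∈ X3 i then (1 : ℚ) else 0) =
            (if i = (e, f) then lam / 2 else 0) + (if i = (f, e) then lam / 2 else 0) := by
          rintro ⟨p, q⟩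
          simp only [W3, X3, Finset.mem_insert, Finset.mem_singleton, Prod.mk.injEq]
          by_cases h5 : p = e ∧ q = f
          · obtain ⟨rfl, rfl⟩ := h5
            rw [if_pos ⟨hef, a, v, hea, hfb⟩]
            simp [hef]
          · by_cases h6 : p = f ∧ q = e
            · obtain ⟨rfl, rfl⟩ := h6
              rw [if_pos ⟨hef.symm, a, v, hfb, hea⟩]
              simp [hef.symm]
            · rw [if_neg h5, if_neg h6]
              have h7 : ¬ ((e = p ∨ e = q) ∧ (f = p ∨ f = q)) := by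
                rintro ⟨rfl | rfl, rfl | rfl⟩
                · exact hef rfl
                · exact h5 ⟨rfl, rfl⟩
                · exact h6 ⟨rfl, rfl⟩
                · exact hef rfl
              rw [if_neg h7]
              simp
        simp only [h4, Finset.sum_add_distrib, Finset.sum_ite_eq', Finset.mem_univ, if_true]
        ring
      rw [h0, h1, h2, h3, hpar a v e hea f hfb]
      ring
    · have hfb' := g1_J_symm hfb
      have h1 : ∑ i, W1 i * (if e ∈ X1 i ∧ f ∈ X1 i then (1 : ℚ) else 0) =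
          totT s t WT (g1c v e f) / 2 := by
        rw [g1_totT, Finset.sum_div]
        refine Finset.sum_congr rfl fun i _ => ?_
        simp only [W1, X1]
        by_cases h : i.2.2.2.1 ∈ J s t i.1 i.2.1 ∧ i.2.2.2.2.1 ∈ J s t i.2.1 i.2.2.1 ∧
          i.2.2.2.2.2 ∈ J s t i.2.2.1 i.1
        · rw [if_pos h, if_pos h, g1_tri hea hfb' hab h.1 h.2.1 h.2.2]
          ring
        · rw [if_neg h, if_neg h]
          simp
      have h2 : ∑ i, W2 i * (if e ∈ X2 i ∧ f ∈ X2 i then (1 : ℚ) else 0) =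
          totQ s t WQ (g1c v e f) / 2 := by
        rw [g1_totQ, Finset.sum_div]
        refine Finset.sum_congr rfl fun i _ => ?_
        simp only [W2, X2]
        by_cases h : (i.1 ≠ i.2.2.1 ∧ i.2.1 ≠ i.2.2.2.1) ∧ i.2.2.2.2.1 ∈ J s t i.1 i.2.1 ∧
          i.2.2.2.2.2.1 ∈ J s t i.2.1 i.2.2.1 ∧ i.2.2.2.2.2.2.1 ∈ J s t i.2.2.1 i.2.2.2.1 ∧
          i.2.2.2.2.2.2.2 ∈ J s t i.2.2.2.1 i.1
        · rw [if_pos h, if_pos h, g1_quad hea hfb' hab h.1.1 h.1.2 h.2.1 h.2.2.1 h.2.2.2.1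
            h.2.2.2.2]
          ring
        · rw [if_neg h, if_neg h]
          simp
      have h3 : ∑ i, W3 i * (if e ∈ X3 i ∧ f ∈ X3 i then (1 : ℚ) else 0) = 0 := by
        refine Finset.sum_eq_zero fun i _ => ?_
        simp only [W3, X3]
        split_ifs with h h'
        · exfalso
          obtain ⟨h4, u, w, h5, h6⟩ := h
          simp only [Finset.mem_insert, Finset.mem_singleton] at h'
          have h7 : e ∈ J s t u w ∧ f ∈ J s t u w := by
            rcases h' with ⟨h7 | h7, h8 | h8⟩ <;> rw [h7, h8] <;>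
              first | exact ⟨h5, h6⟩ | exact ⟨h6, h5⟩ | exact ⟨h5, h5⟩ | exact ⟨h6, h6⟩
          exact g1_npar hea hfb' hab h7.1 h7.2
        · simp
        · simp
        · simp
      rw [h1, h2, h3, add_zero, ← add_div, hH _ (g1c_symm v e f),
        g1_corner_sum hea hfb' hab (fun v e f => lam + κ v e f -
          ∑ i, W0 i * (if e ∈ X0 i ∧ f ∈ X0 i then 1 else 0))
          (by simp only [hsym v f e, and_comm])]
      ring
  by_cases hef : e = f
  · subst hef
    rw [if_pos rfl]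
    refine Eq.trans ?_ (hrow v e he)
    have h1 : ∀ f ∈ (cut s t {v}).erase e, lam + κ v e f =
        ∑ k, W k * (if e ∈ X k ∧ f ∈ X k then (1 : ℚ) else 0) := fun f hf =>
      (key e he f (Finset.mem_of_mem_erase hf) (Finset.ne_of_mem_erase hf).symm).symm
    rw [Finset.sum_congr rfl h1, Finset.sum_comm]
    refine Finset.sum_congr rfl fun k _ => ?_
    rw [← Finset.mul_sum]
    by_cases hk : W k = 0
    · rw [hk, zero_mul, zero_mul]
    congr 1
    by_cases hek : e ∈ X k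
    · have h2 := hX k hk v
      have h3 : e ∈ X k ∩ cut s t {v} := Finset.mem_inter.mpr ⟨hek, he⟩
      have h4 : (X k ∩ cut s t {v}).card = 2 := by
        rcases h2 with h2 | h2
        · rw [Finset.card_eq_zero] at h2
          rw [h2] at h3
          exact absurd h3 (Finset.notMem_empty _)
        · exact h2
      have h5 : ∑ f ∈ (cut s t {v}).erase e, (if e ∈ X k ∧ f ∈ X k then (1 : ℚ) else 0) =
          ((X k ∩ cut s t {v}).erase e).card := by
        rw [Finset.card_eq_sum_ones, Nat.cast_sum, ← Finset.sum_filter]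
        refine Finset.sum_congr ?_ fun _ _ => by simp
        ext f
        simp only [Finset.mem_filter, Finset.mem_erase, Finset.mem_inter]
        tauto
      rw [h5, Finset.card_erase_of_mem h3, h4]
      simp [hek]
    · simp [hek]
  · rw [if_neg hef]
    exact key e he f hf hef

end Pool.Agent.Lib.MP_95bb8c_al.GW
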