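import Mathlib

set_option autoImplicit false
set_option linter.unusedSectionVars false

/-!
# The path measure of a reversible Markov chain

`pw r M n a` is the stationary weight of the path `a 0, ..., a n`; every pair of consecutive states
has the law `M`, and the paths which meet themselves have a small weight.
-/

namespace Pool.Agent.Lib.MP_95bb8c_al.GW

open Finset

section Markov

variable {D : Type} [Fintype D] [DecidableEq D]

/-- The weight of the path `a 0, ..., a n` for the chain with stationary law `r` and law `M` of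
pairs of consecutive states. -/
def pw (r : D → ℚ) (M : D → D → ℚ) (n : ℕ) (a : Fin (n + 1) → D) : ℚ :=
  r (a 0) * ∏ i : Fin n, (M (a i.castSucc) (a i.succ) / r (a i.castSucc))

variable {r : D → ℚ} {M : D → D → ℚ}

theorem pw_nonneg (hr : ∀ a, 0 < r a) (hM : ∀ a b, 0 ≤ M a b) (n : ℕ) (a : Fin (n + 1) → D) :
    0 ≤ pw r M n a :=
  mul_nonneg (hr _).le (prod_nonneg fun _ _ => div_nonneg (hM _ _) (hr _).le)

theorem pw_zero (a : Fin 1 → D) : pw r M 0 a = r (a 0) := by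
  simp [pw]

theorem pw_snoc (n : ℕ) (a : Fin (n + 1) → D) (b : D) :
    pw r M (n + 1) (Fin.snoc a b : Fin (n + 2) → D) =
      pw r M n a * (M (a (Fin.last n)) b / r (a (Fin.last n))) := by
  unfold pw
  rw [Fin.prod_univ_castSucc]
  have h0 : (Fin.snoc a b : Fin (n + 2) → D) 0 = a 0 := by
    have : (0 : Fin (n + 2)) = Fin.castSucc 0 := rfl
    rw [this, Fin.snoc_castSucc]
  have h1 : ∀ i : Fin n, (Fin.snoc a b : Fin (n + 2) → D) (Fin.castSucc i).succ = a i.succ := by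
    intro i
    rw [← Fin.castSucc_succ, Fin.snoc_castSucc]
  rw [h0, Fin.succ_last, Fin.snoc_last, Fin.snoc_castSucc]
  simp only [Fin.snoc_castSucc, h1]
  ring

theorem sum_snoc (n : ℕ) (F : (Fin (n + 2) → D) → ℚ) :
    ∑ a, F a = ∑ a : Fin (n + 1) → D, ∑ b, F (Fin.snoc a b) := by
  rw [← (Fin.snocEquiv (fun _ : Fin (n + 2) => D)).sum_comp, Fintype.sum_prod_type, sum_comm]
  rfl

/-- The first coordinates of a path. -/
def tr {n N : ℕ} (h : n ≤ N) (a : Fin (N + 1) → D) : Fin (n + 1) → D :=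
  fun i => a (Fin.castLE (Nat.succ_le_succ h) i)

theorem sum_tr (hr : ∀ a, 0 < r a) (hrow : ∀ a, ∑ b, M a b = r a) {n N : ℕ} (h : n ≤ N)
    (G : (Fin (n + 1) → D) → ℚ) :
    ∑ a : Fin (N + 1) → D, pw r M N a * G (tr h a) = ∑ a, pw r M n a * G a := by
  induction N, h using Nat.le_induction with
  | base => rfl
  | succ N h ih =>
    rw [sum_snoc, ← ih]
    apply sum_congr rfl
    intro a _
    have h1 : ∀ b, pw r M (N + 1) (Fin.snoc a b : Fin (N + 2) → D) *
        G (tr (Nat.le_succ_of_le h) (Fin.snoc a b : Fin (N + 2) → D)) =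
        pw r M N a * G (tr h a) / r (a (Fin.last N)) * M (a (Fin.last N)) b := by
      intro b
      have h2 : tr (Nat.le_succ_of_le h) (Fin.snoc a b : Fin (N + 2) → D) = tr h a := by
        funext i
        have h3 : (Fin.castLE (Nat.succ_le_succ (Nat.le_succ_of_le h)) i : Fin (N + 2)) =
            Fin.castSucc (Fin.castLE (Nat.succ_le_succ h) i) := by
          ext; rfl
        unfold tr
        rw [h3, Fin.snoc_castSucc]
      rw [pw_snoc, h2]
      ring
    simp only [h1]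
    rw [← mul_sum, hrow, div_mul_cancel₀ _ (hr _).ne']

theorem sum_fwd {V : Type} [DecidableEq V] (hr : ∀ a, 0 < r a) (hM : ∀ a b, 0 ≤ M a b)
    (hrow : ∀ a, ∑ b, M a b = r a) (hd : D → V) (β : ℚ)
    (hβ : ∀ a v, ∑ b, (if hd b = v then M a b else 0) ≤ β * r a) {n N : ℕ} (h : n + 1 ≤ N)
    (G : (Fin (n + 1) → D) → ℚ) (hG : ∀ a, 0 ≤ G a) (y : (Fin (n + 1) → D) → V) :
    ∑ a : Fin (N + 1) → D, pw r M N a * (G (tr (Nat.le_of_succ_le h) a) *
      if hd (a ⟨n + 1, Nat.lt_succ_of_le h⟩) = y (tr (Nat.le_of_succ_le h) a) then 1 else 0) ≤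
        β * ∑ a, pw r M n a * G a := by
  have key := sum_tr (r := r) (M := M) hr hrow h (fun a : Fin (n + 2) → D =>
    G (tr (Nat.le_succ n) a) * if hd (a (Fin.last (n + 1))) = y (tr (Nat.le_succ n) a) then 1 else 0)
  have e1 : ∑ a : Fin (N + 1) → D, pw r M N a * (G (tr (Nat.le_of_succ_le h) a) *
      if hd (a ⟨n + 1, Nat.lt_succ_of_le h⟩) = y (tr (Nat.le_of_succ_le h) a) then 1 else 0) =
      ∑ a : Fin (n + 2) → D, pw r M (n + 1) a * (G (tr (Nat.le_succ n) a) *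
        if hd (a (Fin.last (n + 1))) = y (tr (Nat.le_succ n) a) then 1 else 0) := by
    rw [← key]
    rfl
  rw [e1, sum_snoc, mul_sum]
  apply sum_le_sum
  intro a _
  have h2 : ∀ b, tr (Nat.le_succ n) (Fin.snoc a b : Fin (n + 2) → D) = a := by
    intro b
    funext i
    have h3 : (Fin.castLE (Nat.succ_le_succ (Nat.le_succ n)) i : Fin (n + 2)) =
        Fin.castSucc i := by
      ext; rfl
    unfold tr
    rw [h3, Fin.snoc_castSucc]
  have h1 : ∀ b, pw r M (n + 1) (Fin.snoc a b : Fin (n + 2) → D) *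
      (G (tr (Nat.le_succ n) (Fin.snoc a b : Fin (n + 2) → D)) *
        if hd ((Fin.snoc a b : Fin (n + 2) → D) (Fin.last (n + 1))) =
          y (tr (Nat.le_succ n) (Fin.snoc a b : Fin (n + 2) → D)) then 1 else 0) =
      pw r M n a * G a / r (a (Fin.last n)) *
        (if hd b = y a then M (a (Fin.last n)) b else 0) := by
    intro b
    rw [pw_snoc, h2, Fin.snoc_last]
    split_ifs
    · ring
    · ring
  simp only [h1]
  rw [← mul_sum]
  have h4 : 0 ≤ pw r M n a * G a / r (a (Fin.last n)) :=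
    div_nonneg (mul_nonneg (pw_nonneg hr hM n a) (hG a)) (hr _).le
  calc pw r M n a * G a / r (a (Fin.last n)) *
        ∑ b, (if hd b = y a then M (a (Fin.last n)) b else 0)
      ≤ pw r M n a * G a / r (a (Fin.last n)) * (β * r (a (Fin.last n))) :=
        mul_le_mul_of_nonneg_left (hβ _ _) h4
    _ = β * (pw r M n a * G a) := by
        field_simp [(hr (a (Fin.last n))).ne']

/-- The reversed path. -/
def rev {n : ℕ} (rv : D → D) (a : Fin (n + 1) → D) : Fin (n + 1) → D := fun i => rv (a (Fin.rev i))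

theorem pw_rev (hr : ∀ a, 0 < r a) (rv : D → D) (hMr : ∀ a b, M (rv b) (rv a) = M a b)
    (hrr : ∀ a, r (rv a) = r a) (n : ℕ) (a : Fin (n + 1) → D) :
    pw r M n (rev rv a) = pw r M n a := by
  have hform : ∀ a : Fin (n + 1) → D, pw r M n a * ∏ i, r (a i) =
      r (a 0) * r (a (Fin.last n)) * ∏ i : Fin n, M (a i.castSucc) (a i.succ) := by
    intro a
    unfold pw
    rw [Fin.prod_univ_castSucc (fun i => r (a i)), prod_div_distrib]
    have : ∏ i : Fin n, r (a i.castSucc) ≠ 0 := prod_ne_zero_iff.mpr fun i _ => (hr _).ne'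
    field_simp
  have h1 := hform (rev rv a)
  have h2 := hform a
  have h3 : ∏ i, r (rev rv a i) = ∏ i, r (a i) := by
    unfold rev
    simp only [hrr]
    exact Equiv.prod_comp Fin.revPerm (fun i => r (a i))
  have h4 : ∏ i : Fin n, M (rev rv a i.castSucc) (rev rv a i.succ) =
      ∏ i : Fin n, M (a i.castSucc) (a i.succ) := by
    unfold rev
    simp only [Fin.rev_castSucc, Fin.rev_succ, hMr]
    exact Equiv.prod_comp Fin.revPerm (fun i : Fin n => M (a i.castSucc) (a i.succ))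
  have h5 : r (rev rv a 0) = r (a (Fin.last n)) := by
    unfold rev
    rw [hrr, Fin.rev_zero]
  have h6 : r (rev rv a (Fin.last n)) = r (a 0) := by
    unfold rev
    rw [hrr, Fin.rev_last]
  rw [h3, h4, h5, h6] at h1
  have h7 : ∏ i, r (a i) ≠ 0 := prod_ne_zero_iff.mpr fun i _ => (hr _).ne'
  have h8 : pw r M n (rev rv a) * ∏ i, r (a i) = pw r M n a * ∏ i, r (a i) := by
    rw [h1, h2]
    ring
  exact mul_right_cancel₀ h7 h8

theorem rev_rev {n : ℕ} (rv : D → D) (hrv : ∀ a, rv (rv a) = a) (a : Fin (n + 1) → D) :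
    rev rv (rev rv a) = a := by
  funext i
  unfold rev
  rw [Fin.rev_rev, hrv]

theorem sum_rev (rv : D → D) (hrv : ∀ a, rv (rv a) = a) {n : ℕ} (F : (Fin (n + 1) → D) → ℚ) :
    ∑ a, F (rev rv a) = ∑ a, F a :=
  Equiv.sum_comp ⟨rev rv, rev rv, rev_rev rv hrv, rev_rev rv hrv⟩ F

theorem sum_zero (F : (Fin 1 → D) → ℚ) : ∑ a, F a = ∑ p : D, F (fun _ => p) := by
  rw [← (Equiv.funUnique (Fin 1) D).symm.sum_comp]
  rfl

theorem sum_last (hr : ∀ a, 0 < r a) (hrow : ∀ a, ∑ b, M a b = r a) (rv : D → D)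
    (hrv : ∀ a, rv (rv a) = a) (hMr : ∀ a b, M (rv b) (rv a) = M a b)
    (hrr : ∀ a, r (rv a) = r a) (n : ℕ) (H : D → ℚ) :
    ∑ a : Fin (n + 1) → D, pw r M n a * H (a (Fin.last n)) = ∑ p, r p * H p := by
  rw [← sum_rev rv hrv]
  have h1 : ∀ a : Fin (n + 1) → D, pw r M n (rev rv a) * H (rev rv a (Fin.last n)) =
      pw r M n a * H (rv (tr (Nat.zero_le n) a 0)) := by
    intro a
    rw [pw_rev hr rv hMr hrr]
    unfold rev
    rw [Fin.rev_last]
    rfl
  simp only [h1]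
  rw [sum_tr hr hrow (Nat.zero_le n) (fun a => H (rv (a 0))), sum_zero]
  have h2 : ∀ p : D, pw r M 0 (fun _ => p) * H (rv p) = r (rv p) * H (rv p) := by
    intro p
    rw [pw_zero, hrr]
  simp only [h2]
  exact Equiv.sum_comp ⟨rv, rv, hrv, hrv⟩ (fun p => r p * H p)

/-- Every pair of consecutive states has the law `M`. -/
theorem sum_corner (hr : ∀ a, 0 < r a) (hrow : ∀ a, ∑ b, M a b = r a) (rv : D → D)
    (hrv : ∀ a, rv (rv a) = a) (hMr : ∀ a b, M (rv b) (rv a) = M a b)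
    (hrr : ∀ a, r (rv a) = r a) {N : ℕ} (g : D → D → ℚ) (i : ℕ) (hi : i + 1 ≤ N) :
    ∑ a : Fin (N + 1) → D, pw r M N a * g (a ⟨i, by omega⟩) (a ⟨i + 1, by omega⟩) =
      ∑ p, ∑ q, M p q * g p q := by
  have key := sum_tr (r := r) (M := M) hr hrow hi (fun a : Fin (i + 2) → D =>
    g (a (Fin.castSucc (Fin.last i))) (a (Fin.last (i + 1))))
  have e1 : ∑ a : Fin (N + 1) → D, pw r M N a * g (a ⟨i, by omega⟩) (a ⟨i + 1, by omega⟩) =
      ∑ a : Fin (i + 2) → D, pw r M (i + 1) a *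
        g (a (Fin.castSucc (Fin.last i))) (a (Fin.last (i + 1))) := by
    rw [← key]
    rfl
  rw [e1, sum_snoc]
  have h1 : ∀ a : Fin (i + 1) → D, ∑ b, pw r M (i + 1) (Fin.snoc a b : Fin (i + 2) → D) *
      g ((Fin.snoc a b : Fin (i + 2) → D) (Fin.castSucc (Fin.last i)))
        ((Fin.snoc a b : Fin (i + 2) → D) (Fin.last (i + 1))) =
      pw r M i a * (fun p => (∑ b, M p b * g p b) / r p) (a (Fin.last i)) := by
    intro a
    simp only [pw_snoc, Fin.snoc_castSucc, Fin.snoc_last]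
    rw [sum_div, mul_sum]
    apply sum_congr rfl
    intro b _
    ring
  simp only [h1]
  rw [sum_last hr hrow rv hrv hMr hrr i (fun p => (∑ b, M p b * g p b) / r p)]
  apply sum_congr rfl
  intro p _
  rw [mul_div_cancel₀ _ (hr p).ne']

/-- Every state of the path has the law `r`. -/
theorem sum_edge (hr : ∀ a, 0 < r a) (hrow : ∀ a, ∑ b, M a b = r a) (rv : D → D)
    (hrv : ∀ a, rv (rv a) = a) (hMr : ∀ a b, M (rv b) (rv a) = M a b)
    (hrr : ∀ a, r (rv a) = r a) {N : ℕ} (H : D → ℚ) (i : ℕ) (hi : i ≤ N) :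
    ∑ a : Fin (N + 1) → D, pw r M N a * H (a ⟨i, by omega⟩) = ∑ p, r p * H p := by
  have key := sum_tr (r := r) (M := M) hr hrow hi (fun a : Fin (i + 1) → D =>
    H (a (Fin.last i)))
  have e1 : ∑ a : Fin (N + 1) → D, pw r M N a * H (a ⟨i, by omega⟩) =
      ∑ a : Fin (i + 1) → D, pw r M i a * H (a (Fin.last i)) := by
    rw [← key]
    rfl
  rw [e1, sum_last hr hrow rv hrv hMr hrr]

variable {V : Type} [DecidableEq V]

theorem coll_fwd (hr : ∀ a, 0 < r a) (hM : ∀ a b, 0 ≤ M a b) (hrow : ∀ a, ∑ b, M a b = r a)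
    (rv : D → D) (hrv : ∀ a, rv (rv a) = a) (hMr : ∀ a b, M (rv b) (rv a) = M a b)
    (hrr : ∀ a, r (rv a) = r a) (tl hd : D → V) (β : ℚ)
    (hβ : ∀ a v, ∑ b, (if hd b = v then M a b else 0) ≤ β * r a) {N : ℕ} (g : D → D → ℚ)
    (hg : ∀ p q, 0 ≤ g p q) (i j k : ℕ) (hik : i + 2 ≤ k) (hjk : j < k) (hk : k ≤ N) :
    ∑ a : Fin (N + 1) → D, pw r M N a * (g (a ⟨i, by omega⟩) (a ⟨i + 1, by omega⟩) *
      if hd (a ⟨k, by omega⟩) = tl (a ⟨j, by omega⟩) then 1 else 0) ≤
        β * ∑ p, ∑ q, M p q * g p q := by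
  obtain ⟨m, rfl⟩ : ∃ m, k = m + 1 := ⟨k - 1, by omega⟩
  have h := sum_fwd hr hM hrow hd β hβ hk
    (fun a : Fin (m + 1) → D => g (a ⟨i, by omega⟩) (a ⟨i + 1, by omega⟩)) (fun a => hg _ _)
    (fun a => tl (a ⟨j, by omega⟩))
  rw [sum_corner hr hrow rv hrv hMr hrr g i (by omega)] at h
  exact h

theorem coll_bwd (hr : ∀ a, 0 < r a) (hM : ∀ a b, 0 ≤ M a b) (hrow : ∀ a, ∑ b, M a b = r a)
    (rv : D → D) (hrv : ∀ a, rv (rv a) = a) (hMr : ∀ a b, M (rv b) (rv a) = M a b)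
    (hrr : ∀ a, r (rv a) = r a) (tl hd : D → V) (htl : ∀ a, tl (rv a) = hd a)
    (hhd : ∀ a, hd (rv a) = tl a) (β : ℚ)
    (hβ : ∀ a v, ∑ b, (if hd b = v then M a b else 0) ≤ β * r a) {N : ℕ} (g : D → D → ℚ)
    (hg : ∀ p q, 0 ≤ g p q) (i j k : ℕ) (hij : j < i) (hi : i + 1 ≤ N) (hjk : j < k)
    (hk : k ≤ N) :
    ∑ a : Fin (N + 1) → D, pw r M N a * (g (a ⟨i, by omega⟩) (a ⟨i + 1, by omega⟩) *
      if hd (a ⟨k, by omega⟩) = tl (a ⟨j, by omega⟩) then 1 else 0) ≤
        β * ∑ p, ∑ q, M p q * g p q := by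
  have h := coll_fwd hr hM hrow rv hrv hMr hrr tl hd β hβ (fun p q => g (rv q) (rv p))
    (fun p q => hg _ _) (N - (i + 1)) (N - k) (N - j) (by omega) (by omega)
    (Nat.sub_le N j)
  have e2 : ∑ p, ∑ q, M p q * g (rv q) (rv p) = ∑ p, ∑ q, M p q * g p q := by
    rw [sum_comm]
    rw [← Equiv.sum_comp ⟨rv, rv, hrv, hrv⟩ (fun p => ∑ q, M p q * g p q)]
    apply sum_congr rfl
    intro q _
    rw [← Equiv.sum_comp ⟨rv, rv, hrv, hrv⟩ (fun p => M _ p * g _ p)]
    apply sum_congr rfl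
    intro p _
    show M p q * g (rv q) (rv p) = M (rv q) (rv p) * g (rv q) (rv p)
    rw [hMr]
  rw [e2] at h
  refine le_trans (le_of_eq ?_) h
  rw [← sum_rev rv hrv]
  apply sum_congr rfl
  intro a _
  rw [pw_rev hr rv hMr hrr]
  have h1 : ∀ m (hm : m ≤ N), rev rv a ⟨m, Nat.lt_succ_of_le hm⟩ =
      rv (a ⟨N - m, Nat.lt_succ_of_le (Nat.sub_le N m)⟩) := by
    intro m hm
    unfold rev
    congr 2
    ext
    rw [Fin.val_rev]
    show N + 1 - (m + 1) = N - m
    omega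
  rw [h1 i (by omega), h1 (i + 1) hi, h1 k hk, h1 j (by omega), htl, hhd]
  have h2 : (⟨N - i, Nat.lt_succ_of_le (Nat.sub_le N i)⟩ : Fin (N + 1)) =
      ⟨N - (i + 1) + 1, by omega⟩ := by
    ext
    show N - i = N - (i + 1) + 1
    omega
  rw [h2]
  congr 2
  by_cases h3 : tl (a ⟨N - k, Nat.lt_succ_of_le (Nat.sub_le N k)⟩) =
      hd (a ⟨N - j, Nat.lt_succ_of_le (Nat.sub_le N j)⟩)
  · rw [if_pos h3, if_pos h3.symm]
  · rw [if_neg h3, if_neg (fun h => h3 h.symm)]

/-- The path does not meet itself: the vertices `tl (a 0), ..., tl (a n), hd (a n)` of a path are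
distinct. -/
def Simp (tl hd : D → V) {n : ℕ} (a : Fin (n + 1) → D) : Prop :=
  ∀ j k : Fin (n + 1), j ≤ k → tl (a j) ≠ hd (a k)

instance (tl hd : D → V) {n : ℕ} (a : Fin (n + 1) → D) : Decidable (Simp tl hd a) := by
  unfold Simp
  infer_instance

theorem pw_eq_zero {n : ℕ} {a : Fin (n + 1) → D} (j : ℕ) (hj : j + 1 ≤ n)
    (h : M (a ⟨j, by omega⟩) (a ⟨j + 1, by omega⟩) = 0) : pw r M n a = 0 := by
  unfold pw
  rw [prod_eq_zero (mem_univ (⟨j, by omega⟩ : Fin n)), mul_zero]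
  have h1 : Fin.castSucc (⟨j, by omega⟩ : Fin n) = ⟨j, by omega⟩ := rfl
  have h2 : Fin.succ (⟨j, by omega⟩ : Fin n) = ⟨j + 1, by omega⟩ := rfl
  rw [h1, h2, h, zero_div]

theorem simple_bound (hr : ∀ a, 0 < r a) (hM : ∀ a b, 0 ≤ M a b) (hrow : ∀ a, ∑ b, M a b = r a)
    (rv : D → D) (hrv : ∀ a, rv (rv a) = a) (hMr : ∀ a b, M (rv b) (rv a) = M a b)
    (hrr : ∀ a, r (rv a) = r a) (tl hd : D → V) (htl : ∀ a, tl (rv a) = hd a)
    (hhd : ∀ a, hd (rv a) = tl a) (hloop : ∀ a, tl a ≠ hd a)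
    (hpar : ∀ a b, tl a = hd b → M a b = 0) (β : ℚ) (hβ0 : 0 ≤ β)
    (hβ : ∀ a v, ∑ b, (if hd b = v then M a b else 0) ≤ β * r a) {N : ℕ} (g : D → D → ℚ)
    (hg : ∀ p q, 0 ≤ g p q) (i : ℕ) (hi : i + 1 ≤ N) :
    (1 - (N + 1) ^ 2 * β) * ∑ p, ∑ q, M p q * g p q ≤
      ∑ a : Fin (N + 1) → D, pw r M N a * (g (a ⟨i, by omega⟩) (a ⟨i + 1, by omega⟩) *
        if Simp tl hd a then 1 else 0) := by
  have hS : 0 ≤ ∑ p, ∑ q, M p q * g p q :=
    sum_nonneg fun p _ => sum_nonneg fun q _ => mul_nonneg (hM p q) (hg p q)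
  have hpt : ∀ a : Fin (N + 1) → D,
      pw r M N a * g (a ⟨i, by omega⟩) (a ⟨i + 1, by omega⟩) ≤
      pw r M N a * (g (a ⟨i, by omega⟩) (a ⟨i + 1, by omega⟩) *
        if Simp tl hd a then 1 else 0) +
      ∑ j : Fin (N + 1), ∑ k : Fin (N + 1), if j.1 + 2 ≤ k.1 then
        pw r M N a * (g (a ⟨i, by omega⟩) (a ⟨i + 1, by omega⟩) *
          if hd (a k) = tl (a j) then 1 else 0) else 0 := by
    intro a
    have hw := pw_nonneg hr hM N a
    have hga := hg (a ⟨i, by omega⟩) (a ⟨i + 1, by omega⟩)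
    have hnn : ∀ j k : Fin (N + 1), 0 ≤ (if j.1 + 2 ≤ k.1 then
        pw r M N a * (g (a ⟨i, by omega⟩) (a ⟨i + 1, by omega⟩) *
          if hd (a k) = tl (a j) then 1 else 0) else 0) := by
      intro j k
      split_ifs
      · rw [mul_one]; exact mul_nonneg hw hga
      · rw [mul_zero, mul_zero]
      · exact le_refl 0
    by_cases hs : Simp tl hd a
    · rw [if_pos hs, mul_one]
      have := sum_nonneg fun j (_ : j ∈ univ) => sum_nonneg fun k (_ : k ∈ univ) => hnn j k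
      linarith
    · rw [if_neg hs, mul_zero, mul_zero, zero_add]
      unfold Simp at hs
      push Not at hs
      obtain ⟨j, k, hjk, he⟩ := hs
      by_cases h2 : j.1 + 2 ≤ k.1
      · refine le_trans ?_ (single_le_sum (fun j _ => sum_nonneg fun k _ => hnn j k) (mem_univ j))
        refine le_trans ?_ (single_le_sum (fun k _ => hnn j k) (mem_univ k))
        rw [if_pos h2, if_pos he.symm, mul_one]
      · have h3 : k.1 = j.1 ∨ k.1 = j.1 + 1 := by
          have : j.1 ≤ k.1 := hjk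
          omega
        rcases h3 with h3 | h3
        · have : k = j := Fin.ext h3
          rw [this] at he
          exact absurd he (hloop _)
        · have h4 : k = ⟨j.1 + 1, by omega⟩ := Fin.ext h3
          rw [h4] at he
          have h5 : pw r M N a = 0 := pw_eq_zero j.1 (by omega) (hpar _ _ he)
          have h6 := sum_nonneg fun j (_ : j ∈ univ) => sum_nonneg fun k (_ : k ∈ univ) => hnn j k
          exact le_of_eq_of_le (by rw [h5, zero_mul]) h6
  have hsum := sum_le_sum fun a (_ : a ∈ (univ : Finset (Fin (N + 1) → D))) => hpt a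
  rw [sum_corner hr hrow rv hrv hMr hrr g i hi, sum_add_distrib] at hsum
  have hcoll : ∑ a : Fin (N + 1) → D, ∑ j : Fin (N + 1), ∑ k : Fin (N + 1),
      (if j.1 + 2 ≤ k.1 then pw r M N a * (g (a ⟨i, by omega⟩) (a ⟨i + 1, by omega⟩) *
          if hd (a k) = tl (a j) then 1 else 0) else 0) ≤
      (N + 1) ^ 2 * (β * ∑ p, ∑ q, M p q * g p q) := by
    rw [sum_comm]
    have h1 : ∀ j : Fin (N + 1), ∑ a : Fin (N + 1) → D, ∑ k : Fin (N + 1),
        (if j.1 + 2 ≤ k.1 then pw r M N a * (g (a ⟨i, by omega⟩) (a ⟨i + 1, by omega⟩) *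
          if hd (a k) = tl (a j) then 1 else 0) else 0) ≤
        (N + 1) * (β * ∑ p, ∑ q, M p q * g p q) := by
      intro j
      rw [sum_comm]
      have h2 : ∀ k : Fin (N + 1), ∑ a : Fin (N + 1) → D,
          (if j.1 + 2 ≤ k.1 then pw r M N a * (g (a ⟨i, by omega⟩) (a ⟨i + 1, by omega⟩) *
            if hd (a k) = tl (a j) then 1 else 0) else 0) ≤ β * ∑ p, ∑ q, M p q * g p q := by
        intro k
        by_cases hjk : j.1 + 2 ≤ k.1
        · simp only [if_pos hjk]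
          by_cases hik : i + 2 ≤ k.1
          · exact coll_fwd hr hM hrow rv hrv hMr hrr tl hd β hβ g hg i j.1 k.1 hik (by omega)
              (by omega)
          · exact coll_bwd hr hM hrow rv hrv hMr hrr tl hd htl hhd β hβ g hg i j.1 k.1
              (by omega) hi (by omega) (by omega)
        · simp only [if_neg hjk, sum_const_zero]
          exact mul_nonneg hβ0 hS
      refine le_trans (sum_le_sum fun k _ => h2 k) ?_
      rw [sum_const, card_univ, Fintype.card_fin, nsmul_eq_mul]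
      push_cast
      exact le_refl _
    refine le_trans (sum_le_sum fun j _ => h1 j) ?_
    rw [sum_const, card_univ, Fintype.card_fin, nsmul_eq_mul]
    push_cast
    exact le_of_eq (by ring)
  have hfin : (1 - (N + 1) ^ 2 * β) * ∑ p, ∑ q, M p q * g p q =
      ∑ p, ∑ q, M p q * g p q - (N + 1) ^ 2 * (β * ∑ p, ∑ q, M p q * g p q) := by ring
  rw [hfin]
  linarith

/-- The two ends of the path. -/
theorem ends_bound (hr : ∀ a, 0 < r a) (hM : ∀ a b, 0 ≤ M a b) (hrow : ∀ a, ∑ b, M a b = r a)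
    (tl hd : D → V) (β : ℚ)
    (hβ : ∀ a v, ∑ b, (if hd b = v then M a b else 0) ≤ β * r a) {N : ℕ} (hN : 1 ≤ N) (y z : V) :
    ∑ a : Fin (N + 1) → D, pw r M N a * ((if tl (a 0) = y then 1 else 0) *
      (if hd (a (Fin.last N)) = z then 1 else 0)) ≤
        β * ∑ p, (if tl p = y then r p else 0) := by
  obtain ⟨m, rfl⟩ : ∃ m, N = m + 1 := ⟨N - 1, by omega⟩
  have h := sum_fwd hr hM hrow hd β hβ (le_refl (m + 1))
    (fun a : Fin (m + 1) → D => if tl (a 0) = y then 1 else 0)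
    (fun a => by split_ifs <;> norm_num) (fun _ => z)
  refine le_trans (le_of_eq ?_) (le_trans h (le_of_eq ?_))
  · rfl
  · congr 1
    have h2 := sum_tr (r := r) (M := M) hr hrow (Nat.zero_le m)
      (fun a : Fin 1 → D => if tl (a 0) = y then 1 else 0)
    have h3 : ∑ a : Fin (m + 1) → D, pw r M m a * (if tl (a 0) = y then 1 else 0) =
        ∑ a : Fin 1 → D, pw r M 0 a * (if tl (a 0) = y then 1 else 0) := by
      rw [← h2]
      rfl
    rw [h3, sum_zero]
    apply sum_congr rfl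
    intro p _
    rw [pw_zero]
    split_ifs <;> simp

end Markov

end Pool.Agent.Lib.MP_95bb8c_al.GW
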