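import Pool.Agent.Lib.MP_95bb8c_al.GW.Closed
import Pool.Agent.Lib.MP_95bb8c_al.GW.Markov

set_option autoImplicit false
set_option linter.unusedSectionVars false

/-!
# Long loops: from a law of corners to cycles which cover it up to a small error
-/

namespace Pool.Agent.Lib.MP_95bb8c_al.GW

open Finset

variable {V E : Type} [Fintype V] [DecidableEq V] [Fintype E] [DecidableEq E]

theorem lo_mem_cut {s t : E → V} {v : V} {e : E} :
    e ∈ cut s t {v} ↔ ¬ (s e = v ↔ t e = v) := by
  unfold cut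
  simp

theorem lo_tl_rvd (s t : E → V) (a : E × Bool) : tl s t (rvd a) = hd s t a := by
  unfold tl hd rvd
  cases a.2 <;> rfl

theorem lo_hd_rvd (s t : E → V) (a : E × Bool) : hd s t (rvd a) = tl s t a := by
  unfold tl hd rvd
  cases a.2 <;> rfl

theorem lo_rvd_rvd (a : E × Bool) : rvd (rvd a) = a := by
  unfold rvd
  ext
  · rfl
  · simp

theorem lo_ne {s t : E → V} (hl : ∀ e, s e ≠ t e) (a : E × Bool) : tl s t a ≠ hd s t a := by
  unfold tl hd
  cases a.2
  · exact fun h => hl _ h.symm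
  · exact hl _

theorem lo_mem_J {s t : E → V} (hl : ∀ e, s e ≠ t e) (a : E × Bool) :
    a.1 ∈ J s t (tl s t a) (hd s t a) := by
  unfold J
  rw [mem_filter]
  refine ⟨mem_univ _, lo_ne hl a, ?_⟩
  unfold tl hd
  cases a.2
  · exact Or.inr ⟨rfl, rfl⟩
  · exact Or.inl ⟨rfl, rfl⟩

theorem lo_hd_mem_cut {s t : E → V} (hl : ∀ e, s e ≠ t e) (a : E × Bool) :
    a.1 ∈ cut s t {hd s t a} := by
  rw [lo_mem_cut]
  unfold hd
  have := hl a.1
  cases a.2
  · simp [this.symm]
  · simp [this]

theorem lo_tl_mem_cut {s t : E → V} (hl : ∀ e, s e ≠ t e) (a : E × Bool) :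
    a.1 ∈ cut s t {tl s t a} := by
  rw [← lo_hd_rvd]
  exact lo_hd_mem_cut hl (rvd a)

theorem lo_tl_outD {s t : E → V} {v : V} {e : E} (he : e ∈ cut s t {v}) :
    tl s t (outD s v e) = v := by
  rw [lo_mem_cut] at he
  unfold tl outD
  by_cases h : s e = v
  · simp [h]
  · have : t e = v := by tauto
    simp [h, this]

theorem lo_hd_inD {s t : E → V} {v : V} {e : E} (he : e ∈ cut s t {v}) :
    hd s t (inD t v e) = v := by
  rw [lo_mem_cut] at he
  unfold hd inD
  by_cases h : t e = v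
  · simp [h]
  · have : s e = v := by tauto
    simp [h, this]

/-- The darts which leave `v` are the edges at `v`. -/
theorem lo_sum_out {s t : E → V} (hl : ∀ e, s e ≠ t e) (v : V) (F : E × Bool → ℚ) :
    ∑ b : E × Bool, (if tl s t b = v then F b else 0) = ∑ f ∈ cut s t {v}, F (outD s v f) := by
  rw [Fintype.sum_prod_type]
  have h1 : ∀ f : E, ∑ y : Bool, (if tl s t (f, y) = v then F (f, y) else 0) =
      if f ∈ cut s t {v} then F (outD s v f) else 0 := by
    intro f
    rw [Fintype.sum_bool]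
    unfold tl outD
    have h2 := hl f
    by_cases h3 : s f = v
    · have h4 : t f ≠ v := fun h => h2 (h3.trans h.symm)
      have h5 : f ∈ cut s t {v} := by rw [lo_mem_cut]; tauto
      simp [h3, h4, h5]
    · by_cases h4 : t f = v
      · have h5 : f ∈ cut s t {v} := by rw [lo_mem_cut]; tauto
        simp [h3, h4, h5]
      · have h5 : f ∉ cut s t {v} := by rw [lo_mem_cut]; tauto
        simp [h3, h4, h5]
  simp only [h1]
  rw [← sum_filter]
  congr 1
  ext f
  simp

/-- The darts from `v` to `w` are the edges between them. -/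
theorem lo_sum_between {s t : E → V} (hl : ∀ e, s e ≠ t e) (v w : V) (F : E × Bool → ℚ) :
    ∑ b : E × Bool, (if tl s t b = v ∧ hd s t b = w then F b else 0) =
      ∑ f ∈ J s t v w, F (outD s v f) := by
  have h1 : ∀ b : E × Bool, (if tl s t b = v ∧ hd s t b = w then F b else 0) =
      if tl s t b = v then (if hd s t b = w then F b else 0) else 0 := by
    intro b
    by_cases h : tl s t b = v <;> by_cases h' : hd s t b = w <;> simp [h, h']
  simp only [h1]
  rw [lo_sum_out hl, ← sum_filter]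
  apply sum_congr _ fun _ _ => rfl
  ext f
  rw [mem_filter, lo_mem_cut]
  unfold J outD hd
  rw [mem_filter]
  have h2 := hl f
  by_cases h3 : s f = v
  · have h4 : t f ≠ v := fun h => h2 (h3.trans h.symm)
    constructor
    · rintro ⟨-, h5⟩
      simp only [h3, decide_true, if_true] at h5
      exact ⟨mem_univ _, fun h => h4 (h5.trans h.symm), Or.inl ⟨h3, h5⟩⟩
    · rintro ⟨-, h5, h6 | h6⟩
      · refine ⟨fun h => h4 (h.1 h3), ?_⟩
        simp only [h3, decide_true, if_true]
        exact h6.2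
      · exact absurd h6.2 h4
  · constructor
    · rintro ⟨h4, h5⟩
      have h6 : t f = v := by tauto
      simp only [h3, decide_false] at h5
      have h5' : s f = w := h5
      refine ⟨mem_univ _, fun h => ?_, Or.inr ⟨h5', h6⟩⟩
      exact h2 (h5'.trans (h.symm.trans h6.symm))
    · rintro ⟨-, h5, h6 | h6⟩
      · exact absurd h6.1 h3
      · refine ⟨fun h => h3 (h.2 h6.2), ?_⟩
        simp only [h3, decide_false]
        exact h6.1

/-- The stationary law on the darts. -/
def rD (r : E → ℚ) (a : E × Bool) : ℚ := r a.1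

/-- The law of consecutive darts. -/
def MD (s t : E → V) (C : V → E → E → ℚ) (a b : E × Bool) : ℚ :=
  if hd s t a = tl s t b then C (hd s t a) a.1 b.1 else 0

section

variable {s t : E → V} {C : V → E → E → ℚ} {r : E → ℚ}

theorem lo_M_row (hl : ∀ e, s e ≠ t e)
    (hrow : ∀ v, ∀ e ∈ cut s t {v}, ∑ f ∈ cut s t {v}, C v e f = r e) (a : E × Bool) :
    ∑ b, MD s t C a b = rD r a := by
  have h1 : ∀ b, MD s t C a b = if tl s t b = hd s t a then C (hd s t a) a.1 b.1 else 0 := by
    intro b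
    unfold MD
    by_cases h : hd s t a = tl s t b
    · rw [if_pos h, if_pos h.symm]
    · rw [if_neg h, if_neg fun h' => h h'.symm]
  simp only [h1]
  rw [lo_sum_out hl (hd s t a) (fun b => C (hd s t a) a.1 b.1)]
  exact hrow _ _ (lo_hd_mem_cut hl a)

theorem lo_M_rv (hsym : ∀ v e f, C v e f = C v f e) (a b : E × Bool) :
    MD s t C (rvd b) (rvd a) = MD s t C a b := by
  unfold MD
  rw [lo_hd_rvd, lo_tl_rvd]
  by_cases h : hd s t a = tl s t b
  · rw [if_pos h, if_pos h.symm, h]
    exact hsym _ _ _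
  · rw [if_neg h, if_neg fun h' => h h'.symm]

theorem lo_M_nonneg (hC : ∀ v e f, 0 ≤ C v e f) (a b : E × Bool) : 0 ≤ MD s t C a b := by
  unfold MD
  split_ifs
  · exact hC _ _ _
  · exact le_refl 0

theorem lo_M_par (hl : ∀ e, s e ≠ t e)
    (hpar : ∀ u v, ∀ e ∈ J s t u v, ∀ f ∈ J s t u v, C v e f = 0) (a b : E × Bool)
    (h : tl s t a = hd s t b) : MD s t C a b = 0 := by
  unfold MD
  by_cases h2 : hd s t a = tl s t b
  · rw [if_pos h2]
    have h3 := lo_mem_J hl b
    have h4 : b.1 ∈ J s t (tl s t a) (hd s t a) := by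
      rw [← h, ← h2] at h3
      unfold J at h3 ⊢
      rw [mem_filter] at h3 ⊢
      exact ⟨mem_univ _, h3.2.1.symm, h3.2.2.elim (fun x => Or.inr x) (fun x => Or.inl x)⟩
    exact hpar _ _ _ (lo_mem_J hl a) _ h4
  · rw [if_neg h2]

theorem lo_M_step (hl : ∀ e, s e ≠ t e) (β : ℚ)
    (hβ : ∀ v w, ∀ e ∈ cut s t {v}, ∑ f ∈ J s t v w, C v e f ≤ β * r e) (a : E × Bool) (w : V) :
    ∑ b, (if hd s t b = w then MD s t C a b else 0) ≤ β * rD r a := by
  have h1 : ∀ b, (if hd s t b = w then MD s t C a b else 0) =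
      if tl s t b = hd s t a ∧ hd s t b = w then C (hd s t a) a.1 b.1 else 0 := by
    intro b
    unfold MD
    by_cases h : hd s t a = tl s t b
    · by_cases h' : hd s t b = w
      · rw [if_pos h', if_pos h, if_pos ⟨h.symm, h'⟩]
      · rw [if_neg h', if_neg fun x => h' x.2]
    · rw [if_neg h]
      have h3 : ¬ (tl s t b = hd s t a ∧ hd s t b = w) := fun x => h x.1.symm
      rw [if_neg h3]
      split_ifs <;> rfl
  simp only [h1]
  rw [lo_sum_between hl (hd s t a) w (fun b => C (hd s t a) a.1 b.1)]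
  exact hβ _ _ _ (lo_hd_mem_cut hl a)

/-- The closed dart sequence made of the path `a` and the two darts `x`, `y`. -/
def clo {N : ℕ} (k : (Fin (N + 1) → E × Bool) × (E × Bool) × (E × Bool)) :
    Fin (N + 2 + 1) → E × Bool :=
  Fin.snoc (Fin.snoc k.1 k.2.1 : Fin (N + 2) → E × Bool) k.2.2

/-- The darts `x`, `y` close the path `a` through a new vertex. -/
def Closes (s t : E → V) {N : ℕ} (k : (Fin (N + 1) → E × Bool) × (E × Bool) × (E × Bool)) : Prop :=
  Simp (tl s t) (hd s t) k.1 ∧ (∀ j, tl s t (k.1 j) ≠ hd s t k.2.1) ∧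
    tl s t k.2.1 = hd s t (k.1 (Fin.last N)) ∧ tl s t k.2.2 = hd s t k.2.1 ∧
    hd s t k.2.2 = tl s t (k.1 0)

instance (s t : E → V) {N : ℕ} (k : (Fin (N + 1) → E × Bool) × (E × Bool) × (E × Bool)) :
    Decidable (Closes s t k) := by
  unfold Closes
  infer_instance

/-- The weights of the loops. -/
def WL (s t : E → V) (C : V → E → E → ℚ) (r : E → ℚ) (N : ℕ)
    (k : (Fin (N + 1) → E × Bool) × (E × Bool) × (E × Bool)) : ℚ :=
  if Closes s t k then
    pw (rD r) (MD s t C) N k.1 / (2 * N * ((Fintype.card V : ℚ) - (N + 2)) *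
      mq s t (tl s t k.2.1) (hd s t k.2.1) * mq s t (tl s t k.2.2) (hd s t k.2.2))
  else 0

end

section Clo

variable {N : ℕ} (k : (Fin (N + 1) → E × Bool) × (E × Bool) × (E × Bool))

theorem clo_lt (i : Fin (N + 1)) : clo k i.castSucc.castSucc = k.1 i := by
  unfold clo
  rw [Fin.snoc_castSucc, Fin.snoc_castSucc]

theorem clo_x : clo k (Fin.last (N + 1)).castSucc = k.2.1 := by
  unfold clo
  rw [Fin.snoc_castSucc, Fin.snoc_last]

theorem clo_y : clo k (Fin.last (N + 2)) = k.2.2 := by
  unfold clo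
  rw [Fin.snoc_last]

theorem clo_zero : clo k 0 = k.1 0 := by
  have : (0 : Fin (N + 3)) = (0 : Fin (N + 1)).castSucc.castSucc := rfl
  rw [this, clo_lt]

theorem clo_lt_succ (i : Fin N) : clo k (i.castSucc.castSucc.castSucc + 1) = k.1 i.succ := by
  rw [Fin.coeSucc_eq_succ, Fin.succ_castSucc, Fin.succ_castSucc, clo_lt]

theorem clo_last_succ : clo k ((Fin.last N).castSucc.castSucc + 1) = k.2.1 := by
  rw [Fin.coeSucc_eq_succ, Fin.succ_castSucc, Fin.succ_last, clo_x]

theorem clo_x_succ : clo k ((Fin.last (N + 1)).castSucc + 1) = k.2.2 := by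
  rw [Fin.coeSucc_eq_succ, Fin.succ_last, clo_y]

theorem clo_y_succ : clo k (Fin.last (N + 2) + 1) = k.1 0 := by
  rw [Fin.last_add_one, clo_zero]

end Clo

/-- A sum over the places of the closed sequence. -/
theorem sum_clo {N : ℕ} (F : Fin (N + 2 + 1) → ℚ) :
    ∑ i, F i = ∑ i : Fin N, F i.castSucc.castSucc.castSucc + F (Fin.last N).castSucc.castSucc +
      F (Fin.last (N + 1)).castSucc + F (Fin.last (N + 2)) := by
  rw [Fin.sum_univ_castSucc, Fin.sum_univ_castSucc, Fin.sum_univ_castSucc]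

theorem lo_comp {s t : E → V} {C : V → E → E → ℚ} {r : E → ℚ} {N : ℕ}
    {a : Fin (N + 1) → E × Bool} (h : pw (rD r) (MD s t C) N a ≠ 0) (i : Fin N) :
    hd s t (a i.castSucc) = tl s t (a i.succ) := by
  by_contra h2
  apply h
  have h3 : MD s t C (a i.castSucc) (a i.succ) = 0 := by
    unfold MD
    rw [if_neg h2]
  exact pw_eq_zero i.1 (by have := i.2; omega) h3

/-- The loops of positive weight are simple closed dart sequences. -/
theorem lo_closed {s t : E → V} (hl : ∀ e, s e ≠ t e) {C : V → E → E → ℚ} {r : E → ℚ} {N : ℕ}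
    {k : (Fin (N + 1) → E × Bool) × (E × Bool) × (E × Bool)} (h : WL s t C r N k ≠ 0) :
    ClosedSimple s t (clo k) := by
  unfold WL at h
  by_cases hc : Closes s t k
  swap
  · rw [if_neg hc] at h
    exact absurd rfl h
  rw [if_pos hc] at h
  obtain ⟨h1, h2, h3, h4, h5⟩ := hc
  have hp : pw (rD r) (MD s t C) N k.1 ≠ 0 := by
    intro h6
    rw [h6, zero_div] at h
    exact h rfl
  have hcomp := lo_comp hp
  have hinj : ∀ i j : Fin (N + 1), i < j → tl s t (k.1 i) ≠ tl s t (k.1 j) := by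
    intro i j hij
    obtain ⟨m, hm⟩ : ∃ m : Fin N, m.succ = j :=
      Fin.exists_succ_eq.mpr (fun h => by rw [h] at hij; exact absurd hij (Fin.not_lt_zero i))
    rw [← hm, ← hcomp m]
    apply h1
    rw [← hm] at hij
    exact Fin.le_castSucc_iff.mpr hij
  have htl : ∀ i : Fin (N + 2 + 1), (∃ j : Fin (N + 1), i = j.castSucc.castSucc) ∨
      i = (Fin.last (N + 1)).castSucc ∨ i = Fin.last (N + 2) := by
    intro i
    refine Fin.lastCases ?_ (fun i => ?_) i
    · exact Or.inr (Or.inr rfl)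
    · refine Fin.lastCases ?_ (fun i => ?_) i
      · exact Or.inr (Or.inl rfl)
      · exact Or.inl ⟨i, rfl⟩
  constructor
  · intro i
    rcases htl i with ⟨j, rfl⟩ | rfl | rfl
    · rw [clo_lt]
      refine Fin.lastCases ?_ (fun j => ?_) j
      · rw [clo_last_succ, h3]
      · rw [clo_lt_succ]
        exact hcomp j
    · rw [clo_x, clo_x_succ, h4]
    · rw [clo_y, clo_y_succ, h5]
  · have hx : ∀ j : Fin (N + 1), tl s t (k.1 j) ≠ tl s t k.2.1 := by
      intro j
      rw [h3]
      exact h1 _ _ (Fin.le_last j)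
    have hy : ∀ j : Fin (N + 1), tl s t (k.1 j) ≠ tl s t k.2.2 := by
      intro j
      rw [h4]
      exact h2 j
    have hxy : tl s t k.2.1 ≠ tl s t k.2.2 := by
      rw [h4]
      exact lo_ne hl _
    intro i i' he
    have he' : tl s t (clo k i) = tl s t (clo k i') := he
    rcases htl i with ⟨j, rfl⟩ | rfl | rfl <;> rcases htl i' with ⟨j', rfl⟩ | rfl | rfl
    · rw [clo_lt, clo_lt] at he'
      rcases lt_trichotomy j j' with hlt | heq | hgt
      · exact absurd he' (hinj _ _ hlt)
      · rw [heq]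
      · exact absurd he'.symm (hinj _ _ hgt)
    · rw [clo_lt, clo_x] at he'
      exact absurd he' (hx j)
    · rw [clo_lt, clo_y] at he'
      exact absurd he' (hy j)
    · rw [clo_x, clo_lt] at he'
      exact absurd he'.symm (hx j')
    · rfl
    · rw [clo_x, clo_y] at he'
      exact absurd he' hxy
    · rw [clo_y, clo_lt] at he'
      exact absurd he'.symm (hy j')
    · rw [clo_y, clo_x] at he'
      exact absurd he'.symm hxy
    · rfl

/-- The sum over the parallel darts. -/
theorem lo_inner {s t : E → V} (hl : ∀ e, s e ≠ t e) {w z : V} (hm : mq s t w z ≠ 0) (A : ℚ) :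
    ∑ y : E × Bool, (if tl s t y = w ∧ hd s t y = z then A / mq s t (tl s t y) (hd s t y) else 0) =
      A := by
  have h1 : ∀ y : E × Bool,
      (if tl s t y = w ∧ hd s t y = z then A / mq s t (tl s t y) (hd s t y) else 0) =
        if tl s t y = w ∧ hd s t y = z then (fun _ => A / mq s t w z) y else 0 := by
    intro y
    by_cases h : tl s t y = w ∧ hd s t y = z
    · rw [if_pos h, if_pos h, h.1, h.2]
    · rw [if_neg h, if_neg h]
  simp only [h1]
  have h2 := lo_sum_between (s := s) (t := t) hl w z (fun _ => A / mq s t w z)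
  rw [h2, sum_const, nsmul_eq_mul]
  unfold mq at hm ⊢
  field_simp

theorem lo_inj {s t : E → V} {C : V → E → E → ℚ} {r : E → ℚ} {N : ℕ}
    {a : Fin (N + 1) → E × Bool} (hp : pw (rD r) (MD s t C) N a ≠ 0)
    (hs : Simp (tl s t) (hd s t) a) : Function.Injective fun j => tl s t (a j) := by
  have hcomp := lo_comp hp
  have hinj : ∀ i j : Fin (N + 1), i < j → tl s t (a i) ≠ tl s t (a j) := by
    intro i j hij
    obtain ⟨m, hm⟩ : ∃ m : Fin N, m.succ = j :=
      Fin.exists_succ_eq.mpr (fun h => by rw [h] at hij; exact absurd hij (Fin.not_lt_zero i))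
    rw [← hm, ← hcomp m]
    apply hs
    rw [← hm] at hij
    exact Fin.le_castSucc_iff.mpr hij
  intro i j he
  have he' : tl s t (a i) = tl s t (a j) := he
  rcases lt_trichotomy i j with hlt | heq | hgt
  · exact absurd he' (hinj _ _ hlt)
  · exact heq
  · exact absurd he'.symm (hinj _ _ hgt)

/-- The number of new vertices. -/
theorem lo_card {s t : E → V} {C : V → E → E → ℚ} {r : E → ℚ} {N : ℕ}
    {a : Fin (N + 1) → E × Bool} (hp : pw (rD r) (MD s t C) N a ≠ 0)
    (hs : Simp (tl s t) (hd s t) a) :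
    ((univ.filter fun w => w ≠ hd s t (a (Fin.last N)) ∧ ∀ j, tl s t (a j) ≠ w).card : ℚ) =
      (Fintype.card V : ℚ) - (N + 2) := by
  have h1 : (univ.filter fun w => w ≠ hd s t (a (Fin.last N)) ∧ ∀ j, tl s t (a j) ≠ w) =
      (insert (hd s t (a (Fin.last N))) (univ.image fun j => tl s t (a j)))ᶜ := by
    ext w
    simp only [mem_filter, mem_univ, true_and, mem_compl, mem_insert, mem_image, not_or,
      not_exists]
  have h2 : (insert (hd s t (a (Fin.last N))) (univ.image fun j => tl s t (a j))).card =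
      N + 2 := by
    rw [card_insert_of_notMem, card_image_of_injective _ (lo_inj hp hs), card_univ,
      Fintype.card_fin]
    rw [mem_image]
    rintro ⟨j, -, hj⟩
    exact hs j _ (Fin.le_last j) hj
  rw [h1, card_compl, Nat.cast_sub (card_le_univ _), h2]
  push_cast
  ring

theorem WL_of {s t : E → V} {C : V → E → E → ℚ} {r : E → ℚ} {N : ℕ}
    {k : (Fin (N + 1) → E × Bool) × (E × Bool) × (E × Bool)} (h : Closes s t k) :
    WL s t C r N k = pw (rD r) (MD s t C) N k.1 / (2 * N * ((Fintype.card V : ℚ) - (N + 2)) *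
      mq s t (tl s t k.2.1) (hd s t k.2.1) * mq s t (tl s t k.2.2) (hd s t k.2.2)) := by
  unfold WL
  rw [if_pos h]

theorem WL_of_not {s t : E → V} {C : V → E → E → ℚ} {r : E → ℚ} {N : ℕ}
    {k : (Fin (N + 1) → E × Bool) × (E × Bool) × (E × Bool)} (h : ¬ Closes s t k) :
    WL s t C r N k = 0 := by
  unfold WL
  rw [if_neg h]

/-- The sum over the dart `y`. -/
theorem lo_sum_y {s t : E → V} (hl : ∀ e, s e ≠ t e) {C : V → E → E → ℚ} {r : E → ℚ} {N : ℕ}
    (hm : ∀ u v, u ≠ v → mq s t u v ≠ 0) (a : Fin (N + 1) → E × Bool) (x : E × Bool) :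
    ∑ y, WL s t C r N (a, x, y) =
      if Simp (tl s t) (hd s t) a ∧ (∀ j, tl s t (a j) ≠ hd s t x) ∧
        tl s t x = hd s t (a (Fin.last N)) then
        pw (rD r) (MD s t C) N a / (2 * N * ((Fintype.card V : ℚ) - (N + 2)) *
          mq s t (tl s t x) (hd s t x)) else 0 := by
  by_cases h : Simp (tl s t) (hd s t) a ∧ (∀ j, tl s t (a j) ≠ hd s t x) ∧
        tl s t x = hd s t (a (Fin.last N))
  · rw [if_pos h]
    have h1 : ∀ y, WL s t C r N (a, x, y) = if tl s t y = hd s t x ∧ hd s t y = tl s t (a 0) then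
        pw (rD r) (MD s t C) N a / (2 * N * ((Fintype.card V : ℚ) - (N + 2)) *
          mq s t (tl s t x) (hd s t x)) / mq s t (tl s t y) (hd s t y) else 0 := by
      intro y
      by_cases h2 : tl s t y = hd s t x ∧ hd s t y = tl s t (a 0)
      · have h3 : Closes s t (a, x, y) := ⟨h.1, h.2.1, h.2.2, h2.1, h2.2⟩
        rw [WL_of h3, if_pos h2, div_div]
      · have h3 : ¬ Closes s t (a, x, y) := fun h3 => h2 ⟨h3.2.2.2.1, h3.2.2.2.2⟩
        rw [WL_of_not h3, if_neg h2]
    simp only [h1]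
    exact lo_inner hl (hm _ _ (h.2.1 0).symm) _
  · rw [if_neg h]
    apply sum_eq_zero
    intro y _
    have h3 : ¬ Closes s t (a, x, y) := fun h3 => h ⟨h3.1, h3.2.1, h3.2.2.1⟩
    exact WL_of_not h3

/-- The loops which contain a given path. -/
theorem lo_sum_xy {s t : E → V} (hl : ∀ e, s e ≠ t e) {C : V → E → E → ℚ} {r : E → ℚ} {N : ℕ}
    (hN : (N : ℚ) + 2 < Fintype.card V) (hm : ∀ u v, u ≠ v → mq s t u v ≠ 0)
    (a : Fin (N + 1) → E × Bool) :
    ∑ x, ∑ y, WL s t C r N (a, x, y) =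
      pw (rD r) (MD s t C) N a * (if Simp (tl s t) (hd s t) a then 1 else 0) / (2 * N) := by
  simp only [lo_sum_y hl hm]
  by_cases hp : pw (rD r) (MD s t C) N a = 0
  · rw [hp, zero_mul, zero_div]
    apply sum_eq_zero
    intro x _
    rw [zero_div]
    split_ifs <;> rfl
  by_cases hs : Simp (tl s t) (hd s t) a
  swap
  · rw [if_neg hs, mul_zero, zero_div]
    apply sum_eq_zero
    intro x _
    rw [if_neg fun h => hs h.1]
  rw [if_pos hs, mul_one]
  have hK : (Fintype.card V : ℚ) - (N + 2) ≠ 0 := by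
    intro h
    linarith
  have h1 : ∀ x : E × Bool, (if Simp (tl s t) (hd s t) a ∧ (∀ j, tl s t (a j) ≠ hd s t x) ∧
        tl s t x = hd s t (a (Fin.last N)) then
        pw (rD r) (MD s t C) N a / (2 * N * ((Fintype.card V : ℚ) - (N + 2)) *
          mq s t (tl s t x) (hd s t x)) else 0) =
      ∑ w ∈ univ.filter (fun w => w ≠ hd s t (a (Fin.last N)) ∧ ∀ j, tl s t (a j) ≠ w),
        (if tl s t x = hd s t (a (Fin.last N)) ∧ hd s t x = w then
        pw (rD r) (MD s t C) N a / (2 * N * ((Fintype.card V : ℚ) - (N + 2))) /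
          mq s t (tl s t x) (hd s t x) else 0) := by
    intro x
    by_cases h : Simp (tl s t) (hd s t) a ∧ (∀ j, tl s t (a j) ≠ hd s t x) ∧
        tl s t x = hd s t (a (Fin.last N))
    · rw [if_pos h, sum_eq_single (hd s t x)]
      · rw [if_pos ⟨h.2.2, rfl⟩, div_div]
      · intro w _ hw
        rw [if_neg fun h' => hw h'.2.symm]
      · intro h'
        exfalso
        apply h'
        rw [mem_filter]
        refine ⟨mem_univ _, ?_, h.2.1⟩
        rw [← h.2.2]
        exact (lo_ne hl x).symm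
    · rw [if_neg h]
      symm
      apply sum_eq_zero
      intro w hw
      rw [mem_filter] at hw
      rw [if_neg]
      rintro ⟨h2, h3⟩
      apply h
      refine ⟨hs, ?_, h2⟩
      rw [h3]
      exact hw.2.2
  simp only [h1]
  rw [sum_comm]
  have h2 : ∀ w ∈ univ.filter (fun w => w ≠ hd s t (a (Fin.last N)) ∧ ∀ j, tl s t (a j) ≠ w),
      ∑ x : E × Bool, (if tl s t x = hd s t (a (Fin.last N)) ∧ hd s t x = w then
        pw (rD r) (MD s t C) N a / (2 * N * ((Fintype.card V : ℚ) - (N + 2))) /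
          mq s t (tl s t x) (hd s t x) else 0) =
        pw (rD r) (MD s t C) N a / (2 * N * ((Fintype.card V : ℚ) - (N + 2))) := by
    intro w hw
    rw [mem_filter] at hw
    exact lo_inner hl (hm _ _ hw.2.1.symm) _
  rw [sum_congr rfl h2, sum_const, nsmul_eq_mul, lo_card hp hs]
  by_cases hN0 : (N : ℚ) = 0
  · rw [hN0]; simp
  · field_simp

/-- The weight of the loops which pass `p`, `q` at the place `i`. -/
def AL (s t : E → V) (C : V → E → E → ℚ) (r : E → ℚ) (N : ℕ) (i : Fin (N + 2 + 1))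
    (p q : E × Bool) : ℚ :=
  ∑ k, WL s t C r N k * (if clo k i = p ∧ clo k (i + 1) = q then 1 else 0)

section Bounds

variable {s t : E → V} {C : V → E → E → ℚ} {r : E → ℚ} {N : ℕ}

theorem lo_pw_nonneg (hr : ∀ e, 0 < r e) (hC : ∀ v e f, 0 ≤ C v e f)
    (a : Fin (N + 1) → E × Bool) : 0 ≤ pw (rD r) (MD s t C) N a :=
  pw_nonneg (r := rD r) (fun a => hr a.1) (lo_M_nonneg hC) N a

theorem lo_AM (hl : ∀ e, s e ≠ t e) (hN : (N : ℚ) + 2 < Fintype.card V)
    (hm : ∀ u v, u ≠ v → mq s t u v ≠ 0) (i : Fin N) (p q : E × Bool) :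
    AL s t C r N i.castSucc.castSucc.castSucc p q =
      (∑ a : Fin (N + 1) → E × Bool, pw (rD r) (MD s t C) N a *
        ((if a ⟨i.1, by omega⟩ = p ∧ a ⟨i.1 + 1, by omega⟩ = q then 1 else 0) *
          (if Simp (tl s t) (hd s t) a then 1 else 0))) / (2 * N) := by
  unfold AL
  rw [Fintype.sum_prod_type, sum_div]
  apply sum_congr rfl
  intro a _
  rw [Fintype.sum_prod_type]
  have h1 : ∀ x y, WL s t C r N (a, x, y) *
      (if clo (a, x, y) i.castSucc.castSucc.castSucc = p ∧
        clo (a, x, y) (i.castSucc.castSucc.castSucc + 1) = q then 1 else 0) =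
      WL s t C r N (a, x, y) *
        (if a ⟨i.1, by omega⟩ = p ∧ a ⟨i.1 + 1, by omega⟩ = q then 1 else 0) := by
    intro x y
    rw [clo_lt_succ, clo_lt]
    rfl
  simp only [h1, ← sum_mul]
  rw [lo_sum_xy hl hN hm]
  ring

theorem lo_AM_le (hl : ∀ e, s e ≠ t e) (hsym : ∀ v e f, C v e f = C v f e)
    (hC : ∀ v e f, 0 ≤ C v e f) (hr : ∀ e, 0 < r e)
    (hrow : ∀ v, ∀ e ∈ cut s t {v}, ∑ f ∈ cut s t {v}, C v e f = r e)
    (hN : (N : ℚ) + 2 < Fintype.card V)
    (hm : ∀ u v, u ≠ v → mq s t u v ≠ 0) (i : Fin N) (p q : E × Bool) :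
    AL s t C r N i.castSucc.castSucc.castSucc p q ≤ MD s t C p q / (2 * N) := by
  rw [lo_AM hl hN hm]
  apply div_le_div_of_nonneg_right _ (by positivity)
  have h1 := sum_corner (r := rD r) (M := MD s t C) (fun a => hr a.1) (lo_M_row hl hrow) rvd
    lo_rvd_rvd (lo_M_rv hsym) (fun a => rfl) (N := N)
    (fun p' q' => if p' = p ∧ q' = q then 1 else 0) i.1 (by have := i.2; omega)
  have h2 : ∑ p', ∑ q', MD s t C p' q' * (if p' = p ∧ q' = q then 1 else 0) = MD s t C p q := by
    rw [sum_eq_single p, sum_eq_single q]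
    · simp
    · intro b _ hb
      simp [hb]
    · intro h; exact absurd (mem_univ _) h
    · intro b _ hb
      simp [hb]
    · intro h; exact absurd (mem_univ _) h
  rw [h2] at h1
  rw [← h1]
  apply sum_le_sum
  intro a _
  apply mul_le_mul_of_nonneg_left _ (lo_pw_nonneg hr hC a)
  split_ifs <;> norm_num

theorem lo_AM_ge (hl : ∀ e, s e ≠ t e) (hsym : ∀ v e f, C v e f = C v f e)
    (hC : ∀ v e f, 0 ≤ C v e f) (hr : ∀ e, 0 < r e)
    (hrow : ∀ v, ∀ e ∈ cut s t {v}, ∑ f ∈ cut s t {v}, C v e f = r e)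
    (hpar : ∀ u v, ∀ e ∈ J s t u v, ∀ f ∈ J s t u v, C v e f = 0) (β : ℚ) (hβ0 : 0 ≤ β)
    (hβ : ∀ v w, ∀ e ∈ cut s t {v}, ∑ f ∈ J s t v w, C v e f ≤ β * r e)
    (hN : (N : ℚ) + 2 < Fintype.card V)
    (hm : ∀ u v, u ≠ v → mq s t u v ≠ 0) (i : Fin N) (p q : E × Bool) :
    (1 - (N + 1) ^ 2 * β) * MD s t C p q / (2 * N) ≤
      AL s t C r N i.castSucc.castSucc.castSucc p q := by
  rw [lo_AM hl hN hm]
  apply div_le_div_of_nonneg_right _ (by positivity)
  have h1 := simple_bound (r := rD r) (M := MD s t C) (fun a => hr a.1) (lo_M_nonneg hC)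
    (lo_M_row hl hrow) rvd lo_rvd_rvd (lo_M_rv hsym) (fun a => rfl) (tl s t) (hd s t)
    (lo_tl_rvd s t) (lo_hd_rvd s t) (lo_ne hl) (lo_M_par hl hpar) β hβ0 (lo_M_step hl β hβ)
    (N := N) (fun p' q' => if p' = p ∧ q' = q then 1 else 0)
    (fun p' q' => by split_ifs <;> norm_num) i.1 (by have := i.2; omega)
  have h2 : ∑ p', ∑ q', MD s t C p' q' * (if p' = p ∧ q' = q then 1 else 0) = MD s t C p q := by
    rw [sum_eq_single p, sum_eq_single q]
    · simp
    · intro b _ hb
      simp [hb]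
    · intro h; exact absurd (mem_univ _) h
    · intro b _ hb
      simp [hb]
    · intro h; exact absurd (mem_univ _) h
  rw [h2] at h1
  exact h1

/-- The place between the path and the dart `x`. -/
theorem lo_AX_le (hl : ∀ e, s e ≠ t e) (hsym : ∀ v e f, C v e f = C v f e)
    (hC : ∀ v e f, 0 ≤ C v e f) (hr : ∀ e, 0 < r e) (hr1 : ∀ e, r e ≤ 1)
    (hrow : ∀ v, ∀ e ∈ cut s t {v}, ∑ f ∈ cut s t {v}, C v e f = r e)
    (hN0 : 0 < N) (hN : (N : ℚ) + 2 < Fintype.card V) (μ : ℚ) (hμ : 0 < μ)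
    (hlo : ∀ u v, u ≠ v → μ ≤ mq s t u v) (p q : E × Bool) :
    AL s t C r N (Fin.last N).castSucc.castSucc p q ≤
      1 / (((Fintype.card V : ℚ) - (N + 2)) * μ) / (2 * N) := by
  have hm : ∀ u v, u ≠ v → mq s t u v ≠ 0 := fun u v h => (lt_of_lt_of_le hμ (hlo u v h)).ne'
  have hNq : (0 : ℚ) < N := by exact_mod_cast hN0
  have hK : 0 < (Fintype.card V : ℚ) - (N + 2) := by linarith
  unfold AL
  rw [Fintype.sum_prod_type]
  have h1 : ∀ a : Fin (N + 1) → E × Bool, ∑ z : (E × Bool) × (E × Bool),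
      WL s t C r N (a, z) * (if clo (a, z) (Fin.last N).castSucc.castSucc = p ∧
        clo (a, z) ((Fin.last N).castSucc.castSucc + 1) = q then 1 else 0) ≤
      pw (rD r) (MD s t C) N a * ((fun p' => if p' = p then 1 else 0) (a ⟨N, by omega⟩)) *
        (1 / (((Fintype.card V : ℚ) - (N + 2)) * μ) / (2 * N)) := by
    intro a
    rw [Fintype.sum_prod_type]
    have h2 : ∀ x y, WL s t C r N (a, x, y) *
        (if clo (a, x, y) (Fin.last N).castSucc.castSucc = p ∧
          clo (a, x, y) ((Fin.last N).castSucc.castSucc + 1) = q then 1 else 0) =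
        WL s t C r N (a, x, y) * (if a ⟨N, by omega⟩ = p ∧ x = q then 1 else 0) := by
      intro x y
      rw [clo_last_succ, clo_lt]
      rfl
    simp only [h2, ← sum_mul]
    rw [sum_eq_single q]
    · rw [lo_sum_y hl hm]
      have hpw := lo_pw_nonneg (s := s) (t := t) (N := N) hr hC a
      by_cases h3 : a ⟨N, by omega⟩ = p
      · simp only [h3, true_and, if_true, mul_one]
        split_ifs with h4
        · have h5 : 0 < mq s t (tl s t q) (hd s t q) := lt_of_lt_of_le hμ (hlo _ _ (lo_ne hl q))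
          have h6 : μ ≤ mq s t (tl s t q) (hd s t q) := hlo _ _ (lo_ne hl q)
          rw [div_div, mul_one_div]
          apply div_le_div_of_nonneg_left hpw (by positivity)
          calc ((Fintype.card V : ℚ) - (N + 2)) * μ * (2 * N)
              = 2 * N * ((Fintype.card V : ℚ) - (N + 2)) * μ := by ring
            _ ≤ _ := mul_le_mul_of_nonneg_left h6 (by positivity)
        · positivity
      · simp only [h3, false_and, if_false, mul_zero, zero_mul]
        exact le_refl 0
    · intro x _ hx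
      have : ¬ (a ⟨N, by omega⟩ = p ∧ x = q) := fun h => hx h.2
      rw [if_neg this, mul_zero]
    · intro h; exact absurd (mem_univ _) h
  refine le_trans (sum_le_sum fun a _ => h1 a) ?_
  rw [← sum_mul]
  rw [sum_edge (r := rD r) (M := MD s t C) (fun a => hr a.1) (lo_M_row hl hrow) rvd
    lo_rvd_rvd (lo_M_rv hsym) (fun a => rfl) (N := N) (fun p' => if p' = p then 1 else 0) N
    (le_refl N)]
  have h3 : ∑ p', rD r p' * (if p' = p then 1 else 0) = r p.1 := by
    simp [rD]
  rw [h3]
  have h4 : 0 ≤ 1 / (((Fintype.card V : ℚ) - (N + 2)) * μ) / (2 * N) := by positivity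
  calc r p.1 * (1 / (((Fintype.card V : ℚ) - (N + 2)) * μ) / (2 * N))
      ≤ 1 * (1 / (((Fintype.card V : ℚ) - (N + 2)) * μ) / (2 * N)) :=
        mul_le_mul_of_nonneg_right (hr1 _) h4
    _ = _ := one_mul _

/-- The place between the darts `x` and `y`. -/
theorem lo_AXY_le (hl : ∀ e, s e ≠ t e)
    (hC : ∀ v e f, 0 ≤ C v e f) (hr : ∀ e, 0 < r e) (hr1 : ∀ e, r e ≤ 1)
    (hrow : ∀ v, ∀ e ∈ cut s t {v}, ∑ f ∈ cut s t {v}, C v e f = r e) (β : ℚ) (hβ0 : 0 ≤ β)
    (hβ : ∀ v w, ∀ e ∈ cut s t {v}, ∑ f ∈ J s t v w, C v e f ≤ β * r e)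
    (hN0 : 0 < N) (hN : (N : ℚ) + 2 < Fintype.card V) (μ D : ℚ) (hμ : 0 < μ)
    (hlo : ∀ u v, u ≠ v → μ ≤ mq s t u v) (hD : ∀ v, ((cut s t {v}).card : ℚ) ≤ D)
    (p q : E × Bool) :
    AL s t C r N (Fin.last (N + 1)).castSucc p q ≤
      β * D / (((Fintype.card V : ℚ) - (N + 2)) * μ ^ 2) / (2 * N) := by
  have hNq : (0 : ℚ) < N := by exact_mod_cast hN0
  have hK : 0 < (Fintype.card V : ℚ) - (N + 2) := by linarith
  unfold AL
  rw [Fintype.sum_prod_type]
  have h1 : ∀ a : Fin (N + 1) → E × Bool, ∑ z : (E × Bool) × (E × Bool),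
      WL s t C r N (a, z) * (if clo (a, z) (Fin.last (N + 1)).castSucc = p ∧
        clo (a, z) ((Fin.last (N + 1)).castSucc + 1) = q then 1 else 0) ≤
      pw (rD r) (MD s t C) N a * ((if tl s t (a 0) = hd s t q then 1 else 0) *
        (if hd s t (a (Fin.last N)) = tl s t p then 1 else 0)) *
        (1 / (((Fintype.card V : ℚ) - (N + 2)) * μ ^ 2) / (2 * N)) := by
    intro a
    rw [Fintype.sum_prod_type, sum_eq_single p, sum_eq_single q]
    · rw [clo_x_succ, clo_x]
      simp only [and_self, if_true, mul_one]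
      have hpw := lo_pw_nonneg (s := s) (t := t) (N := N) hr hC a
      by_cases h3 : Closes s t (a, p, q)
      · rw [WL_of h3]
        have h4 : hd s t (a (Fin.last N)) = tl s t p := h3.2.2.1.symm
        have h5 : tl s t (a 0) = hd s t q := h3.2.2.2.2.symm
        simp only [h4, h5, if_true, mul_one]
        have h6 : μ ≤ mq s t (tl s t p) (hd s t p) := hlo _ _ (lo_ne hl p)
        have h7 : μ ≤ mq s t (tl s t q) (hd s t q) := hlo _ _ (lo_ne hl q)
        rw [div_div, mul_one_div]
        apply div_le_div_of_nonneg_left hpw (by positivity)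
        calc ((Fintype.card V : ℚ) - (N + 2)) * μ ^ 2 * (2 * N)
            = 2 * N * ((Fintype.card V : ℚ) - (N + 2)) * (μ * μ) := by ring
          _ ≤ 2 * N * ((Fintype.card V : ℚ) - (N + 2)) *
              (mq s t (tl s t p) (hd s t p) * mq s t (tl s t q) (hd s t q)) :=
            mul_le_mul_of_nonneg_left (mul_le_mul h6 h7 hμ.le (le_trans hμ.le h6))
              (by positivity)
          _ = _ := by ring
      · rw [WL_of_not h3]
        apply mul_nonneg (mul_nonneg hpw _) (by positivity)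
        split_ifs <;> norm_num
    · intro y _ hy
      rw [clo_x_succ, clo_x]
      have : ¬ ((a, p, y).2.1 = p ∧ (a, p, y).2.2 = q) := fun h => hy h.2
      rw [if_neg this, mul_zero]
    · intro h; exact absurd (mem_univ _) h
    · intro x _ hx
      apply sum_eq_zero
      intro y _
      rw [clo_x_succ, clo_x]
      have : ¬ ((a, x, y).2.1 = p ∧ (a, x, y).2.2 = q) := fun h => hx h.1
      rw [if_neg this, mul_zero]
    · intro h; exact absurd (mem_univ _) h
  refine le_trans (sum_le_sum fun a _ => h1 a) ?_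
  rw [← sum_mul]
  have h2 := ends_bound (r := rD r) (M := MD s t C) (fun a => hr a.1) (lo_M_nonneg hC)
    (lo_M_row hl hrow) (tl s t) (hd s t) β (lo_M_step hl β hβ) (N := N) hN0 (hd s t q)
    (tl s t p)
  have h3 : ∑ p', (if tl s t p' = hd s t q then rD r p' else 0) ≤ D := by
    rw [lo_sum_out hl (hd s t q) (rD r)]
    refine le_trans ?_ (hD (hd s t q))
    rw [card_eq_sum_ones]
    push_cast
    exact sum_le_sum fun f _ => hr1 _
  have h4 : 0 ≤ 1 / (((Fintype.card V : ℚ) - (N + 2)) * μ ^ 2) / (2 * N) := by positivity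
  refine le_trans (mul_le_mul_of_nonneg_right (le_trans h2 (mul_le_mul_of_nonneg_left h3 hβ0))
    h4) (le_of_eq ?_)
  field_simp

/-- The place between the dart `y` and the path. -/
theorem lo_AY_le (hl : ∀ e, s e ≠ t e) (hsym : ∀ v e f, C v e f = C v f e)
    (hC : ∀ v e f, 0 ≤ C v e f) (hr : ∀ e, 0 < r e) (hr1 : ∀ e, r e ≤ 1)
    (hrow : ∀ v, ∀ e ∈ cut s t {v}, ∑ f ∈ cut s t {v}, C v e f = r e)
    (hN0 : 0 < N) (hN : (N : ℚ) + 2 < Fintype.card V) (μ : ℚ) (hμ : 0 < μ)
    (hlo : ∀ u v, u ≠ v → μ ≤ mq s t u v) (p q : E × Bool) :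
    AL s t C r N (Fin.last (N + 2)) p q ≤
      1 / (((Fintype.card V : ℚ) - (N + 2)) * μ) / (2 * N) := by
  have hm : ∀ u v, u ≠ v → mq s t u v ≠ 0 := fun u v h => (lt_of_lt_of_le hμ (hlo u v h)).ne'
  have hNq : (0 : ℚ) < N := by exact_mod_cast hN0
  have hK : 0 < (Fintype.card V : ℚ) - (N + 2) := by linarith
  unfold AL
  rw [Fintype.sum_prod_type]
  have h1 : ∀ a : Fin (N + 1) → E × Bool, ∑ z : (E × Bool) × (E × Bool),
      WL s t C r N (a, z) * (if clo (a, z) (Fin.last (N + 2)) = p ∧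
        clo (a, z) (Fin.last (N + 2) + 1) = q then 1 else 0) ≤
      pw (rD r) (MD s t C) N a * ((fun p' => if p' = q then 1 else 0) (a ⟨0, by omega⟩)) *
        (1 / (((Fintype.card V : ℚ) - (N + 2)) * μ) / (2 * N)) := by
    intro a
    have hpw := lo_pw_nonneg (s := s) (t := t) (N := N) hr hC a
    rw [Fintype.sum_prod_type]
    have h2 : ∀ x, ∑ y, WL s t C r N (a, x, y) *
        (if clo (a, x, y) (Fin.last (N + 2)) = p ∧
          clo (a, x, y) (Fin.last (N + 2) + 1) = q then 1 else 0) =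
        WL s t C r N (a, x, p) * (if a 0 = q then 1 else 0) := by
      intro x
      rw [sum_eq_single p]
      · rw [clo_y_succ, clo_y]
        simp only [true_and]
      · intro y _ hy
        rw [clo_y_succ, clo_y]
        have : ¬ ((a, x, y).2.2 = p ∧ (a, x, y).1 0 = q) := fun h => hy h.1
        rw [if_neg this, mul_zero]
      · intro h; exact absurd (mem_univ _) h
    simp only [h2, ← sum_mul]
    have h3 : ∑ x, WL s t C r N (a, x, p) ≤ pw (rD r) (MD s t C) N a *
        (1 / (((Fintype.card V : ℚ) - (N + 2)) * μ) / (2 * N)) := by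
      have h5 : 0 < mq s t (tl s t p) (hd s t p) := lt_of_lt_of_le hμ (hlo _ _ (lo_ne hl p))
      have h6 : μ ≤ mq s t (tl s t p) (hd s t p) := hlo _ _ (lo_ne hl p)
      by_cases h4 : hd s t (a (Fin.last N)) = tl s t p
      · have h7 : ∀ x, WL s t C r N (a, x, p) = 0 := by
          intro x
          apply WL_of_not
          intro hc
          have h8 : tl s t x = hd s t (a (Fin.last N)) := hc.2.2.1
          have h9 : tl s t p = hd s t x := hc.2.2.2.1
          exact lo_ne hl x (h8.trans (h4.trans h9))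
        simp only [h7, sum_const_zero]
        positivity
      · have h7 : ∀ x, WL s t C r N (a, x, p) ≤
            if tl s t x = hd s t (a (Fin.last N)) ∧ hd s t x = tl s t p then
              pw (rD r) (MD s t C) N a * (1 / (((Fintype.card V : ℚ) - (N + 2)) * μ) / (2 * N)) /
                mq s t (tl s t x) (hd s t x) else 0 := by
          intro x
          have h10 : 0 < mq s t (tl s t x) (hd s t x) := lt_of_lt_of_le hμ (hlo _ _ (lo_ne hl x))
          by_cases hc : Closes s t (a, x, p)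
          · have h8 : tl s t x = hd s t (a (Fin.last N)) := hc.2.2.1
            have h9 : tl s t p = hd s t x := hc.2.2.2.1
            rw [WL_of hc, if_pos ⟨h8, h9.symm⟩]
            rw [div_div, mul_one_div, div_div]
            apply div_le_div_of_nonneg_left hpw (by positivity)
            calc ((Fintype.card V : ℚ) - (N + 2)) * μ * (2 * N) * mq s t (tl s t x) (hd s t x)
                = (2 * N * ((Fintype.card V : ℚ) - (N + 2)) * mq s t (tl s t x) (hd s t x)) *
                  μ := by ring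
              _ ≤ _ := mul_le_mul_of_nonneg_left h6 (by positivity)
          · rw [WL_of_not hc]
            split_ifs
            · positivity
            · exact le_refl 0
        refine le_trans (sum_le_sum fun x _ => h7 x) (le_of_eq ?_)
        exact lo_inner hl (hm _ _ h4) _
    have h11 : (⟨0, by omega⟩ : Fin (N + 1)) = 0 := rfl
    rw [h11]
    by_cases h12 : a 0 = q
    · simp only [h12, if_true, mul_one]
      exact h3
    · simp only [h12, if_false, mul_zero, zero_mul]
      exact le_refl 0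
  refine le_trans (sum_le_sum fun a _ => h1 a) ?_
  rw [← sum_mul]
  rw [sum_edge (r := rD r) (M := MD s t C) (fun a => hr a.1) (lo_M_row hl hrow) rvd
    lo_rvd_rvd (lo_M_rv hsym) (fun a => rfl) (N := N) (fun p' => if p' = q then 1 else 0) 0
    (Nat.zero_le N)]
  have h3 : ∑ p', rD r p' * (if p' = q then 1 else 0) = r q.1 := by
    simp [rD]
  rw [h3]
  have h4 : 0 ≤ 1 / (((Fintype.card V : ℚ) - (N + 2)) * μ) / (2 * N) := by positivity
  calc r q.1 * (1 / (((Fintype.card V : ℚ) - (N + 2)) * μ) / (2 * N))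
      ≤ 1 * (1 / (((Fintype.card V : ℚ) - (N + 2)) * μ) / (2 * N)) :=
        mul_le_mul_of_nonneg_right (hr1 _) h4
    _ = _ := one_mul _

end Bounds

/-- The edges of a closed sequence. -/
def XL {N : ℕ} (k : (Fin (N + 1) → E × Bool) × (E × Bool) × (E × Bool)) : Finset E :=
  univ.image fun i => (clo k i).1

theorem lo_cov {s t : E → V} (hl : ∀ e, s e ≠ t e) {C : V → E → E → ℚ} {r : E → ℚ} {N : ℕ}
    (v : V) (e f : E) (he : e ∈ cut s t {v}) (hf : f ∈ cut s t {v}) (hef : e ≠ f) :
    ∑ k : (Fin (N + 1) → E × Bool) × (E × Bool) × (E × Bool), WL s t C r N k *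
      (if e ∈ XL k ∧ f ∈ XL k then 1 else 0) =
      ∑ i, (AL s t C r N i (inD t v e) (outD s v f) + AL s t C r N i (inD t v f) (outD s v e)) := by
  unfold AL
  simp only [← sum_add_distrib]
  rw [sum_comm]
  apply sum_congr rfl
  intro k _
  by_cases h : WL s t C r N k = 0
  · simp [h]
  have h1 := closed_pair hl (n := N + 2) (by omega) (lo_closed hl h) v e f he hf hef
  unfold XL
  rw [h1, mul_sum]
  apply sum_congr rfl
  intro i _
  rw [mul_add]

/-- The other end of the edge `e` at `v`. -/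
def lot (s t : E → V) (v : V) (e : E) : V := if s e = v then t e else s e

theorem lot_of_J {s t : E → V} {u v : V} {e : E} (h : e ∈ J s t u v) : lot s t v e = u := by
  unfold J at h
  rw [mem_filter] at h
  obtain ⟨-, h1, h2 | h2⟩ := h
  · unfold lot
    rw [if_neg (by rw [h2.1]; exact h1), h2.1]
  · unfold lot
    rw [if_pos h2.1, h2.2]

theorem J_lot {s t : E → V} (hl : ∀ e, s e ≠ t e) {v : V} {e : E} (h : e ∈ cut s t {v}) :
    e ∈ J s t (lot s t v e) v := by
  rw [lo_mem_cut] at h
  have h1 := hl e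
  unfold J lot
  rw [mem_filter]
  by_cases h2 : s e = v
  · rw [if_pos h2]
    exact ⟨mem_univ _, fun h3 => h1 (h2.trans h3.symm), Or.inr ⟨h2, rfl⟩⟩
  · rw [if_neg h2]
    have h3 : t e = v := by tauto
    exact ⟨mem_univ _, h2, Or.inl ⟨rfl, h3⟩⟩

theorem lo_J_symm {s t : E → V} {u v : V} {e : E} (h : e ∈ J s t u v) : e ∈ J s t v u := by
  unfold J at h ⊢
  rw [mem_filter] at h ⊢
  exact ⟨mem_univ _, h.2.1.symm, h.2.2.elim (fun x => Or.inr ⟨x.1, x.2⟩)
    (fun x => Or.inl ⟨x.1, x.2⟩)⟩

theorem lo_J_cut {s t : E → V} {u v : V} {e : E} (h : e ∈ J s t u v) : e ∈ cut s t {v} := by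
  rw [lo_mem_cut]
  unfold J at h
  rw [mem_filter] at h
  obtain ⟨-, h1, h2 | h2⟩ := h
  · rw [h2.1, h2.2]
    simp [h1]
  · rw [h2.1, h2.2]
    simp [h1]

theorem lo_sum_cut {s t : E → V} (hl : ∀ e, s e ≠ t e) (v : V) (F : E → ℚ) :
    ∑ f ∈ cut s t {v}, F f = ∑ u, ∑ f ∈ J s t u v, F f := by
  have h1 : ∀ u, ∑ f ∈ J s t u v, F f = ∑ f ∈ cut s t {v}, if lot s t v f = u then F f else 0 := by
    intro u
    rw [← sum_filter]
    apply sum_congr _ fun _ _ => rfl
    ext f
    rw [mem_filter]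
    constructor
    · intro h
      exact ⟨lo_J_cut h, lot_of_J h⟩
    · rintro ⟨h2, h3⟩
      rw [← h3]
      exact J_lot hl h2
  simp only [h1]
  rw [sum_comm]
  apply sum_congr rfl
  intro f _
  simp

/-- **B3.** A law of corners with equal row sums at both ends of each edge is covered by long
simple cycles up to a small error. -/
theorem loops {s t : E → V} (hl : ∀ e, s e ≠ t e) (n : ℕ) (hn : 0 < n)
    (hnK : (n : ℚ) + 2 < Fintype.card V) (c : V → E → E → ℚ)
    (hsym : ∀ v e f, c v e f = c v f e) (h0 : ∀ v e f, 0 ≤ c v e f) (r : E → ℚ)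
    (hr : ∀ v w, ∀ q ∈ J s t v w,
      ∑ u, (if u = w then 0 else ∑ p ∈ J s t u v, c v p q) = r q)
    (hr0 : ∀ q, 0 < r q) (hr1 : ∀ q, r q ≤ 1) (B β μ D : ℚ) (hβ0 : 0 ≤ β)
    (hB : ∀ u v w, u ≠ w → ∀ p ∈ J s t u v, ∀ q ∈ J s t v w, c v p q ≤ B)
    (hβ : ∀ u v w, u ≠ w → ∀ p ∈ J s t u v, ∑ q ∈ J s t v w, c v p q ≤ β * r p)
    (hμ : 0 < μ) (hlo : ∀ u v, u ≠ v → μ ≤ mq s t u v)
    (hD : ∀ v, ((cut s t {v}).card : ℚ) ≤ D) :
    ∃ (ι : Type) (_ : Fintype ι) (W : ι → ℚ) (X : ι → Finset E), (∀ i, 0 ≤ W i) ∧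
      (∀ i, W i ≠ 0 → Deg02 s t (X i)) ∧
      (∀ i, W i ≠ 0 → ∀ u v, ∀ e ∈ J s t u v, ∀ f ∈ J s t u v, e ∈ X i → f ∈ X i → e = f) ∧
      ∀ u v w, u ≠ w → ∀ p ∈ J s t u v, ∀ q ∈ J s t v w,
        |(∑ i, W i * (if p ∈ X i ∧ q ∈ X i then 1 else 0)) - c v p q| ≤
          (2 / (((Fintype.card V : ℚ) - (n + 2)) * μ) +
            β * D / (((Fintype.card V : ℚ) - (n + 2)) * μ ^ 2)) / n +
          B * ((n + 1) ^ 2 * β) := by
  have hm : ∀ u v, u ≠ v → mq s t u v ≠ 0 := fun u v h => (lt_of_lt_of_le hμ (hlo u v h)).ne'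
  have hNq : (0 : ℚ) < n := by exact_mod_cast hn
  have hK : 0 < (Fintype.card V : ℚ) - (n + 2) := by linarith
  let C : V → E → E → ℚ := fun v e f => if lot s t v e = lot s t v f then 0 else c v e f
  have hCsym : ∀ v e f, C v e f = C v f e := by
    intro v e f
    show (if lot s t v e = lot s t v f then 0 else c v e f) =
      if lot s t v f = lot s t v e then 0 else c v f e
    by_cases h : lot s t v e = lot s t v f
    · rw [if_pos h, if_pos h.symm]
    · rw [if_neg h, if_neg fun h' => h h'.symm, hsym]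
  have hC0 : ∀ v e f, 0 ≤ C v e f := by
    intro v e f
    show 0 ≤ (if lot s t v e = lot s t v f then 0 else c v e f)
    split_ifs
    · exact le_refl 0
    · exact h0 _ _ _
  have hCpar : ∀ u v, ∀ e ∈ J s t u v, ∀ f ∈ J s t u v, C v e f = 0 := by
    intro u v e he f hf
    show (if lot s t v e = lot s t v f then 0 else c v e f) = 0
    rw [if_pos (by rw [lot_of_J he, lot_of_J hf])]
  have hCJ : ∀ u v w, u ≠ w → ∀ p ∈ J s t u v, ∀ q ∈ J s t v w, C v p q = c v p q := by
    intro u v w huw p hp q hq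
    show (if lot s t v p = lot s t v q then 0 else c v p q) = c v p q
    rw [if_neg (by rw [lot_of_J hp, lot_of_J (lo_J_symm hq)]; exact huw)]
  have hCrow : ∀ v, ∀ e ∈ cut s t {v}, ∑ f ∈ cut s t {v}, C v e f = r e := by
    intro v e he
    rw [lo_sum_cut hl v, ← hr v (lot s t v e) e (lo_J_symm (J_lot hl he))]
    apply sum_congr rfl
    intro u _
    by_cases h : u = lot s t v e
    · rw [if_pos h]
      apply sum_eq_zero
      intro f hf
      show (if lot s t v e = lot s t v f then 0 else c v e f) = 0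
      rw [if_pos (by rw [lot_of_J hf, h])]
    · rw [if_neg h]
      apply sum_congr rfl
      intro f hf
      show (if lot s t v e = lot s t v f then 0 else c v e f) = c v f e
      rw [if_neg (by rw [lot_of_J hf]; exact fun h' => h h'.symm), hsym]
  have hCβ : ∀ v w, ∀ e ∈ cut s t {v}, ∑ f ∈ J s t v w, C v e f ≤ β * r e := by
    intro v w e he
    by_cases h : lot s t v e = w
    · have h1 : ∑ f ∈ J s t v w, C v e f = 0 := by
        apply sum_eq_zero
        intro f hf
        show (if lot s t v e = lot s t v f then 0 else c v e f) = 0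
        rw [if_pos (by rw [lot_of_J (lo_J_symm hf), h])]
      rw [h1]
      exact mul_nonneg hβ0 (hr0 e).le
    · refine le_trans (le_of_eq (sum_congr rfl fun f hf => ?_))
        (hβ (lot s t v e) v w h e (J_lot hl he))
      exact hCJ _ v w h e (J_lot hl he) f hf
  refine ⟨(Fin (n + 1) → E × Bool) × (E × Bool) × (E × Bool), inferInstance, WL s t C r n, XL,
    ?_, ?_, ?_, ?_⟩
  · intro k
    by_cases hc : Closes s t k
    · rw [WL_of hc]
      apply div_nonneg (lo_pw_nonneg hr0 hC0 k.1)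
      have h1 : 0 ≤ mq s t (tl s t k.2.1) (hd s t k.2.1) := by unfold mq; positivity
      have h2 : 0 ≤ mq s t (tl s t k.2.2) (hd s t k.2.2) := by unfold mq; positivity
      positivity
    · rw [WL_of_not hc]
  · intro k hk
    exact closed_deg02 hl (n := n + 2) (by omega) (lo_closed hl hk)
  · intro k hk
    exact closed_nopar hl (n := n + 2) (by omega) (lo_closed hl hk)
  · intro u v w huw p hp q hq
    have hpc : p ∈ cut s t {v} := lo_J_cut hp
    have hqc : q ∈ cut s t {v} := lo_J_cut (lo_J_symm hq)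
    have hpq : p ≠ q := by
      rintro rfl
      exact huw ((lot_of_J hp).symm.trans (lot_of_J (lo_J_symm hq)))
    rw [lo_cov hl v p q hpc hqc hpq, sum_clo]
    have hMpq : MD s t C (inD t v p) (outD s v q) = c v p q := by
      unfold MD
      rw [lo_hd_inD hpc, lo_tl_outD hqc, if_pos rfl]
      exact hCJ u v w huw p hp q hq
    have hMqp : MD s t C (inD t v q) (outD s v p) = c v p q := by
      unfold MD
      rw [lo_hd_inD hqc, lo_tl_outD hpc, if_pos rfl]
      show C v q p = c v p q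
      rw [hCsym]
      exact hCJ u v w huw p hp q hq
    set A := ∑ i : Fin n, (AL s t C r n i.castSucc.castSucc.castSucc (inD t v p) (outD s v q) +
      AL s t C r n i.castSucc.castSucc.castSucc (inD t v q) (outD s v p)) with hA
    have hAle : A ≤ c v p q := by
      have h1 : ∀ i : Fin n, AL s t C r n i.castSucc.castSucc.castSucc (inD t v p) (outD s v q) +
          AL s t C r n i.castSucc.castSucc.castSucc (inD t v q) (outD s v p) ≤ c v p q / n := by
        intro i
        have h2 := lo_AM_le hl hCsym hC0 hr0 hCrow hnK hm i (inD t v p) (outD s v q)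
        have h3 := lo_AM_le hl hCsym hC0 hr0 hCrow hnK hm i (inD t v q) (outD s v p)
        rw [hMpq] at h2
        rw [hMqp] at h3
        refine le_trans (add_le_add h2 h3) (le_of_eq ?_)
        field_simp
        ring
      refine le_trans (sum_le_sum fun i _ => h1 i) (le_of_eq ?_)
      rw [sum_const, card_univ, Fintype.card_fin, nsmul_eq_mul]
      field_simp
    have hAge : (1 - (n + 1) ^ 2 * β) * c v p q ≤ A := by
      have h1 : ∀ i : Fin n, (1 - (n + 1) ^ 2 * β) * c v p q / n ≤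
          AL s t C r n i.castSucc.castSucc.castSucc (inD t v p) (outD s v q) +
          AL s t C r n i.castSucc.castSucc.castSucc (inD t v q) (outD s v p) := by
        intro i
        have h2 := lo_AM_ge hl hCsym hC0 hr0 hCrow hCpar β hβ0 hCβ hnK hm i (inD t v p)
          (outD s v q)
        have h3 := lo_AM_ge hl hCsym hC0 hr0 hCrow hCpar β hβ0 hCβ hnK hm i (inD t v q)
          (outD s v p)
        rw [hMpq] at h2
        rw [hMqp] at h3
        refine le_trans (le_of_eq ?_) (add_le_add h2 h3)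
        field_simp
        ring
      refine le_trans (le_of_eq ?_) (sum_le_sum fun i _ => h1 i)
      rw [sum_const, card_univ, Fintype.card_fin, nsmul_eq_mul]
      field_simp
    have hALnn : ∀ i p q, 0 ≤ AL s t C r n i p q := by
      intro i p q
      unfold AL
      apply sum_nonneg
      intro k _
      apply mul_nonneg
      · by_cases hc : Closes s t k
        · rw [WL_of hc]
          apply div_nonneg (lo_pw_nonneg hr0 hC0 k.1)
          have h1 : 0 ≤ mq s t (tl s t k.2.1) (hd s t k.2.1) := by unfold mq; positivity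
          have h2 : 0 ≤ mq s t (tl s t k.2.2) (hd s t k.2.2) := by unfold mq; positivity
          positivity
        · rw [WL_of_not hc]
      · split_ifs <;> norm_num
    have x1 := lo_AX_le hl hCsym hC0 hr0 hr1 hCrow hn hnK μ hμ hlo (inD t v p) (outD s v q)
    have x2 := lo_AX_le hl hCsym hC0 hr0 hr1 hCrow hn hnK μ hμ hlo (inD t v q) (outD s v p)
    have y1 := lo_AXY_le hl hC0 hr0 hr1 hCrow β hβ0 hCβ hn hnK μ D hμ hlo hD (inD t v p)
      (outD s v q)
    have y2 := lo_AXY_le hl hC0 hr0 hr1 hCrow β hβ0 hCβ hn hnK μ D hμ hlo hD (inD t v q)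
      (outD s v p)
    have z1 := lo_AY_le hl hCsym hC0 hr0 hr1 hCrow hn hnK μ hμ hlo (inD t v p) (outD s v q)
    have z2 := lo_AY_le hl hCsym hC0 hr0 hr1 hCrow hn hnK μ hμ hlo (inD t v q) (outD s v p)
    have n1 := hALnn (Fin.last n).castSucc.castSucc (inD t v p) (outD s v q)
    have n2 := hALnn (Fin.last n).castSucc.castSucc (inD t v q) (outD s v p)
    have n3 := hALnn (Fin.last (n + 1)).castSucc (inD t v p) (outD s v q)
    have n4 := hALnn (Fin.last (n + 1)).castSucc (inD t v q) (outD s v p)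
    have n5 := hALnn (Fin.last (n + 2)) (inD t v p) (outD s v q)
    have n6 := hALnn (Fin.last (n + 2)) (inD t v q) (outD s v p)
    have hcB := hB u v w huw p hp q hq
    have hc0 := h0 v p q
    have e1 : 1 / (((Fintype.card V : ℚ) - (n + 2)) * μ) / (2 * n) +
        1 / (((Fintype.card V : ℚ) - (n + 2)) * μ) / (2 * n) +
        (β * D / (((Fintype.card V : ℚ) - (n + 2)) * μ ^ 2) / (2 * n) +
          β * D / (((Fintype.card V : ℚ) - (n + 2)) * μ ^ 2) / (2 * n)) +
        (1 / (((Fintype.card V : ℚ) - (n + 2)) * μ) / (2 * n) +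
        1 / (((Fintype.card V : ℚ) - (n + 2)) * μ) / (2 * n)) =
        (2 / (((Fintype.card V : ℚ) - (n + 2)) * μ) +
            β * D / (((Fintype.card V : ℚ) - (n + 2)) * μ ^ 2)) / n := by
      field_simp
      ring
    have hg : 0 ≤ ((n : ℚ) + 1) ^ 2 * β := mul_nonneg (by positivity) hβ0
    have e2 : ((n : ℚ) + 1) ^ 2 * β * c v p q ≤ B * ((n + 1) ^ 2 * β) := by
      rw [mul_comm B]
      exact mul_le_mul_of_nonneg_left hcB hg
    have hB0 : 0 ≤ B * (((n : ℚ) + 1) ^ 2 * β) := le_trans (mul_nonneg hg hc0) e2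
    rw [abs_le]
    constructor
    · have e3 : (1 - ((n : ℚ) + 1) ^ 2 * β) * c v p q =
        c v p q - ((n : ℚ) + 1) ^ 2 * β * c v p q := by ring
      rw [e3] at hAge
      rw [← e1]
      linarith
    · rw [← e1]
      linarith

end Pool.Agent.Lib.MP_95bb8c_al.GW
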