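import Pool.Agent.Lib.MP_95bb8c_al.GW.DdEdge

set_option autoImplicit false
set_option linter.unusedSectionVars false

/-!
# The corners of a law of even sets without parallel edges, added up at one edge
-/

namespace Pool.Agent.Lib.MP_95bb8c_al.GW

open Finset

section Graph

variable {V E : Type} [Fintype V] [DecidableEq V] [Fintype E] [DecidableEq E]

theorem b7_mem_cut {s t : E → V} {u v : V} {e : E} (he : e ∈ J s t u v) :
    e ∈ cut s t {v} := by
  simp only [J, mem_filter, mem_univ, true_and] at he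
  rw [mem_cut, mem_singleton, mem_singleton]
  obtain ⟨h1, h2 | h2⟩ := he
  · intro h
    exact h1 (h2.1.symm.trans (h.mpr h2.2))
  · intro h
    exact h1 (h2.2.symm.trans (h.mp h2.1))

theorem b7_other {s t : E → V} {v : V} {e : E} (he : e ∈ cut s t {v}) :
    ∃ u, e ∈ J s t u v := by
  rw [mem_cut, mem_singleton, mem_singleton] at he
  by_cases h : s e = v
  · exact ⟨t e, mem_filter.mpr ⟨mem_univ e, fun h' => he ⟨fun _ => h', fun _ => h⟩,
      Or.inr ⟨h, rfl⟩⟩⟩
  · by_cases h' : t e = v
    · exact ⟨s e, mem_filter.mpr ⟨mem_univ e, h, Or.inl ⟨rfl, h'⟩⟩⟩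
    · exact absurd ⟨fun k => absurd k h, fun k => absurd k h'⟩ he

theorem b7_unique {s t : E → V} {u u' v : V} {e : E} (he : e ∈ J s t u v)
    (he' : e ∈ J s t u' v) : u = u' := by
  simp only [J, mem_filter, mem_univ, true_and] at he he'
  obtain ⟨h1, h2 | h2⟩ := he <;> obtain ⟨h3, h4 | h4⟩ := he'
  · exact h2.1.symm.trans h4.1
  · exact absurd (h2.1.symm.trans h4.1) h1
  · exact absurd (h4.1.symm.trans h2.1) h3
  · exact h2.2.symm.trans h4.2

/-- In a set of edges with all degrees `0` or `2` and without parallel edges, each edge `q` which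
joins `v` and `w` has exactly one neighbour at `v`, and it leads to a vertex other than `w`. -/
theorem b7_one {s t : E → V} {A : Finset E} (hA : Deg02 s t A)
    (hA1 : ∀ u v, ∀ e ∈ J s t u v, ∀ f ∈ J s t u v, e ∈ A → f ∈ A → e = f)
    {v w : V} {q : E} (hq : q ∈ J s t v w) :
    (∑ u, if u = w then (0 : ℚ) else
      ∑ p ∈ J s t u v, (if p ∈ A ∧ q ∈ A then (1 : ℚ) else 0)) =
      if q ∈ A then (1 : ℚ) else 0 := by
  by_cases hqA : q ∈ A
  · rw [if_pos hqA]
    have hq' : q ∈ J s t w v := by rw [g5_J_symm]; exact hq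
    have hqc : q ∈ A ∩ cut s t {v} := mem_inter.mpr ⟨hqA, b7_mem_cut hq'⟩
    have hc : (A ∩ cut s t {v}).card = 2 := by
      rcases hA v with h | h
      · rw [card_eq_zero] at h
        rw [h] at hqc
        exact absurd hqc (notMem_empty q)
      · exact h
    obtain ⟨a, b, hab, hABe⟩ := card_eq_two.mp hc
    obtain ⟨p0, hp0q, hp0⟩ : ∃ p0, p0 ≠ q ∧ ∀ p, p ∈ A ∩ cut s t {v} ↔ (p = q ∨ p = p0) := by
      rw [hABe, mem_insert, mem_singleton] at hqc
      rcases hqc with h | h
      · refine ⟨b, fun hb => hab (h.symm.trans hb.symm), fun p => ?_⟩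
        rw [hABe, mem_insert, mem_singleton, h]
      · refine ⟨a, fun ha => hab (ha.trans h), fun p => ?_⟩
        rw [hABe, mem_insert, mem_singleton, h]
        exact or_comm
    have hp0m := (hp0 p0).mpr (Or.inr rfl)
    rw [mem_inter] at hp0m
    obtain ⟨u0, hu0⟩ := b7_other hp0m.2
    have hu0w : u0 ≠ w := by
      intro h
      rw [h] at hu0
      exact hp0q (hA1 w v p0 hu0 q hq' hp0m.1 hqA)
    have key : ∀ u, u ≠ w → ∀ p ∈ J s t u v, p ∈ A → p = p0 := by
      intro u hu p hp hpA
      have h1 := (hp0 p).mp (mem_inter.mpr ⟨hpA, b7_mem_cut hp⟩)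
      rcases h1 with h1 | h1
      · rw [h1] at hp
        exact absurd (b7_unique hp hq') hu
      · exact h1
    rw [sum_eq_single u0, if_neg hu0w, sum_eq_single p0, if_pos ⟨hp0m.1, hqA⟩]
    · intro p hp hne
      rw [if_neg]
      intro h
      exact hne (key u0 hu0w p hp h.1)
    · intro h
      exact absurd hu0 h
    · intro u _ hne
      by_cases huw : u = w
      · rw [if_pos huw]
      · rw [if_neg huw]
        refine sum_eq_zero fun p hp => ?_
        rw [if_neg]
        intro h
        have h2 := key u huw p hp h.1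
        rw [h2] at hp
        exact hne (b7_unique hp hu0)
    · intro h
      exact absurd (mem_univ u0) h
  · rw [if_neg hqA]
    refine sum_eq_zero fun u _ => ?_
    by_cases huw : u = w
    · rw [if_pos huw]
    · rw [if_neg huw]
      refine sum_eq_zero fun p _ => ?_
      rw [if_neg]
      exact fun h => hqA h.2

/-- The corners at `v` which contain `q`, where `q` joins `v` and `w`, added up. -/
theorem rows {s t : E → V} (_hl : ∀ e, s e ≠ t e) {ι : Type} [Fintype ι] (W : ι → ℚ)
    (X : ι → Finset E) (hX : ∀ i, W i ≠ 0 → Deg02 s t (X i))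
    (hX1 : ∀ i, W i ≠ 0 → ∀ u v, ∀ e ∈ J s t u v, ∀ f ∈ J s t u v, e ∈ X i → f ∈ X i → e = f) :
    ∀ v w, ∀ q ∈ J s t v w,
      (∑ u, if u = w then (0 : ℚ) else
        ∑ p ∈ J s t u v, ∑ i, W i * (if p ∈ X i ∧ q ∈ X i then 1 else 0)) =
        ∑ i, W i * (if q ∈ X i then 1 else 0) := by
  intro v w q hq
  have h1 : ∀ u, (if u = w then (0 : ℚ) else
      ∑ p ∈ J s t u v, ∑ i, W i * (if p ∈ X i ∧ q ∈ X i then 1 else 0)) =
      ∑ i, W i * (if u = w then (0 : ℚ) else
        ∑ p ∈ J s t u v, (if p ∈ X i ∧ q ∈ X i then 1 else 0)) := by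
    intro u
    by_cases huw : u = w
    · rw [if_pos huw]
      symm
      refine sum_eq_zero fun i _ => ?_
      rw [if_pos huw, mul_zero]
    · rw [if_neg huw, sum_comm]
      refine sum_congr rfl fun i _ => ?_
      rw [if_neg huw, mul_sum]
  rw [sum_congr rfl fun u _ => h1 u, sum_comm]
  refine sum_congr rfl fun i _ => ?_
  rw [← mul_sum]
  by_cases hW : W i = 0
  · rw [hW, zero_mul, zero_mul]
  · rw [b7_one (hX i hW) (hX1 i hW) hq]

end Graph

end Pool.Agent.Lib.MP_95bb8c_al.GW
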