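import Pool.Agent.Lib.MP_95bb8c_al.GW.Defs

set_option autoImplicit false
set_option linter.unusedSectionVars false

/-!
# Nearly uniform multiplicities: bounds for the demand
-/

namespace Pool.Agent.Lib.MP_95bb8c_al.GW

open Finset

section Graph
variable {V E : Type} [Fintype V] [DecidableEq V] [Fintype E] [DecidableEq E]

/-- The number of edges at `v` is the sum of the multiplicities. -/
theorem g6_card_cut_eq {s t : E → V} (hl : ∀ e, s e ≠ t e) (v : V) :
    ((cut s t {v}).card : ℚ) = ∑ u, mq s t u v := by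
  have h : (cut s t {v}).card = ∑ u, (J s t u v).card := by
    rw [Finset.card_eq_sum_card_fiberwise (s := cut s t {v}) (t := (univ : Finset V))
      (f := fun e => if s e = v then t e else s e) (fun _ _ => Finset.mem_coe.2 (mem_univ _))]
    refine Finset.sum_congr rfl fun u _ => ?_
    congr 1
    ext e
    simp only [cut, J, Finset.mem_filter, Finset.mem_univ, true_and, Finset.mem_singleton]
    constructor
    · rintro ⟨h1, h2⟩
      by_cases hs : s e = v
      · rw [if_pos hs] at h2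
        refine ⟨fun huv => hl e (by rw [hs, h2, huv]), Or.inr ⟨hs, h2⟩⟩
      · rw [if_neg hs] at h2
        have ht : t e = v := by
          by_contra ht
          exact h1 ⟨fun h => absurd h hs, fun h => absurd h ht⟩
        exact ⟨fun huv => hs (h2.trans huv), Or.inl ⟨h2, ht⟩⟩
    · rintro ⟨huv, ⟨h1, h2⟩ | ⟨h1, h2⟩⟩
      · have hs : s e ≠ v := fun h => huv (h1.symm.trans h)
        exact ⟨fun h => hs (h.2 h2), by rw [if_neg hs, h1]⟩
      · have ht : t e ≠ v := fun h => huv (h2.symm.trans h)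
        exact ⟨fun h => ht (h.1 h1), by rw [if_pos h1, h2]⟩
  unfold mq
  rw [h]
  push_cast
  rfl

theorem g6_mq_self (s t : E → V) (v : V) : mq s t v v = 0 := by
  simp [mq, J]

theorem g6_mq_nonneg (s t : E → V) (u v : V) : 0 ≤ mq s t u v := by
  unfold mq; positivity

/-- Bounds for the degrees. -/
theorem g6_deg_bounds {s t : E → V} (hl : ∀ e, s e ≠ t e) (m₀ M : ℚ)
    (hlo : ∀ u v, u ≠ v → m₀ ≤ mq s t u v) (hhi : ∀ u v, u ≠ v → mq s t u v ≤ M) (v : V) :
    ((Fintype.card V : ℚ) - 1) * m₀ ≤ ((cut s t {v}).card : ℚ) ∧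
      ((cut s t {v}).card : ℚ) ≤ ((Fintype.card V : ℚ) - 1) * M := by
  have hc : ((univ.erase v).card : ℚ) = (Fintype.card V : ℚ) - 1 := by
    rw [Finset.card_erase_of_mem (mem_univ v), Finset.card_univ, Nat.cast_sub]
    · simp
    · exact Fintype.card_pos_iff.2 ⟨v⟩
  have hs : ((cut s t {v}).card : ℚ) = ∑ u ∈ univ.erase v, mq s t u v := by
    rw [g6_card_cut_eq hl, ← Finset.add_sum_erase univ _ (mem_univ v), g6_mq_self, zero_add]
  rw [hs, ← hc]
  constructor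
  · have := Finset.card_nsmul_le_sum (univ.erase v) (fun u => mq s t u v) m₀
      (fun u hu => hlo u v (Finset.ne_of_mem_erase hu))
    simpa [nsmul_eq_mul] using this
  · have := Finset.sum_le_card_nsmul (univ.erase v) (fun u => mq s t u v) M
      (fun u hu => hhi u v (Finset.ne_of_mem_erase hu))
    simpa [nsmul_eq_mul] using this

theorem g6_Kx_nonneg {s t : E → V} (κ : V → E → E → ℚ) (hκ : ∀ v e f, 0 ≤ κ v e f) (z u w : V) :
    0 ≤ Kx s t κ z u w :=
  Finset.sum_nonneg fun _ _ => Finset.sum_nonneg fun _ _ => hκ _ _ _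

theorem g6_Kx_le {s t : E → V} (κ : V → E → E → ℚ) (hκ : ∀ v e f, 0 ≤ κ v e f) (ρ : V → ℚ)
    (hrow : ∀ v w, ∀ q ∈ J s t v w,
      ∑ u, (if u = w then 0 else ∑ p ∈ J s t u v, κ v p q) = ρ v)
    (z u w : V) (huw : u ≠ w) : Kx s t κ z u w ≤ mq s t z w * ρ z := by
  unfold Kx mq
  rw [Finset.sum_comm]
  have h : ∀ q ∈ J s t z w, ∑ p ∈ J s t u z, κ z p q ≤ ρ z := by
    intro q hq
    rw [← hrow z w q hq]
    have h1 : ∀ x ∈ (univ : Finset V), 0 ≤ (if x = w then 0 else ∑ p ∈ J s t x z, κ z p q) := by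
      intro x _
      split_ifs
      · exact le_refl 0
      · exact Finset.sum_nonneg fun _ _ => hκ _ _ _
    have h2 := Finset.single_le_sum h1 (mem_univ u)
    rw [if_neg huw] at h2
    exact h2
  have := Finset.sum_le_card_nsmul _ _ _ h
  simpa [nsmul_eq_mul] using this

theorem g6_mq_symm (s t : E → V) (u v : V) : mq s t u v = mq s t v u := by
  unfold mq J
  congr 2
  ext e
  simp only [Finset.mem_filter, Finset.mem_univ, true_and]
  constructor
  · rintro ⟨h, h1 | h1⟩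
    · exact ⟨h.symm, Or.inr h1⟩
    · exact ⟨h.symm, Or.inl h1⟩
  · rintro ⟨h, h1 | h1⟩
    · exact ⟨h.symm, Or.inr h1⟩
    · exact ⟨h.symm, Or.inl h1⟩

/-- The sum over the vertices different from `u`, `v`, `w` has `card V - 3` terms. -/
theorem g6_sum4_le {u v w : V} (huv : u ≠ v) (hvw : v ≠ w) (huw : u ≠ w) (f : V → ℚ) (c : ℚ)
    (h : ∀ z, z ≠ u → z ≠ v → z ≠ w → f z ≤ c) :
    sum4 u v w f ≤ ((Fintype.card V : ℚ) - 3) * c := by
  have hsub : ({u, v, w} : Finset V).card = 3 := Finset.card_eq_three.2 ⟨u, v, w, huv, huw, hvw, rfl⟩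
  have hc : (({u, v, w} : Finset V)ᶜ.card : ℚ) = (Fintype.card V : ℚ) - 3 := by
    rw [Finset.card_compl, hsub, Nat.cast_sub]
    · norm_num
    · rw [← hsub]; exact Finset.card_le_univ _
  have hs : sum4 u v w f = ∑ z ∈ ({u, v, w} : Finset V)ᶜ, f z := by
    unfold sum4
    rw [Finset.sum_ite, Finset.sum_const_zero, zero_add]
    refine Finset.sum_congr ?_ fun _ _ => rfl
    ext z
    simp
  rw [hs, ← hc]
  have := Finset.sum_le_card_nsmul (({u, v, w} : Finset V)ᶜ) f c (by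
    intro z hz
    simp only [Finset.mem_compl, Finset.mem_insert, Finset.mem_singleton, not_or] at hz
    exact h z hz.1 hz.2.1 hz.2.2)
  simpa [nsmul_eq_mul] using this

theorem g6_sum4_nonneg {u v w : V} (f : V → ℚ) (h : ∀ z, 0 ≤ f z) : 0 ≤ sum4 u v w f := by
  unfold sum4
  refine Finset.sum_nonneg fun z _ => ?_
  split_ifs
  · exact le_refl 0
  · exact h z

theorem dd_sizes {s t : E → V} (hl : ∀ e, s e ≠ t e) (hK : 6 ≤ Fintype.card V) (k : ℚ)
    (hk : k = (Fintype.card V : ℚ) - 2) (D : ℕ) (hD : ∀ v, (cut s t {v}).card ≤ D)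
    (hD' : ∃ v, (cut s t {v}).card = D)
    (m₀ : ℚ) (hm₀ : 1 ≤ m₀) (hlo : ∀ u v, u ≠ v → m₀ ≤ mq s t u v)
    (hhi : ∀ u v, u ≠ v → mq s t u v ≤ (1 + 1 / (25 * Fintype.card V)) * m₀)
    (κ : V → E → E → ℚ) (hκ : ∀ v e f, 0 ≤ κ v e f) (ρ : V → ℚ)
    (hρ : ∀ v, ρ v = ((D : ℚ) - (cut s t {v}).card) / ((D : ℚ) - 1))
    (hrow : ∀ v w, ∀ q ∈ J s t v w,
      ∑ u, (if u = w then 0 else ∑ p ∈ J s t u v, κ v p q) = ρ v) :
    ∃ a Δ : ℚ, 0 ≤ Δ ∧ 40 * Δ ≤ 3 * a ∧ ∀ u v w, u ≠ v → v ≠ w → u ≠ w →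
      a ≤ dd s t k (1 / ((D : ℚ) - 1)) κ ρ u v w ∧
        dd s t k (1 / ((D : ℚ) - 1)) κ ρ u v w ≤ a + Δ := by
  set K : ℚ := (Fintype.card V : ℚ) with hKdef
  have hK6 : (6 : ℚ) ≤ K := by rw [hKdef]; exact_mod_cast hK
  set ε : ℚ := 1 / (25 * K) with hε
  have hKpos : 0 < K := by linarith
  have hεpos : 0 < ε := by rw [hε]; positivity
  have hεK : ε * K = 1 / 25 := by rw [hε]; field_simp
  have hε6 : ε ≤ 1 / 150 := by
    rw [hε]; rw [div_le_div_iff₀ (by positivity) (by norm_num)]; linarith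
  have hkpos : 0 < k := by rw [hk]; linarith
  have hm0 : 0 < m₀ := by linarith
  have hdeg := g6_deg_bounds hl m₀ ((1 + ε) * m₀) hlo hhi
  obtain ⟨v₀, hv₀⟩ := hD'
  have hDlo : (K - 1) * m₀ ≤ (D : ℚ) := by rw [← hv₀]; exact (hdeg v₀).1
  have hDhi : (D : ℚ) ≤ (K - 1) * ((1 + ε) * m₀) := by rw [← hv₀]; exact (hdeg v₀).2
  have hD1 : 0 < (D : ℚ) - 1 := by nlinarith
  -- the defects
  have hdef : ∀ v, 0 ≤ ((D : ℚ) - (cut s t {v}).card) ∧
      ((D : ℚ) - (cut s t {v}).card) ≤ (K - 1) * ε * m₀ := by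
    intro v
    have h1 : ((cut s t {v}).card : ℚ) ≤ D := by exact_mod_cast hD v
    refine ⟨by linarith, ?_⟩
    have := (hdeg v).1
    nlinarith
  -- products (D - 1) ρ
  have hρ' : ∀ v, ((D : ℚ) - 1) * ρ v = (D : ℚ) - (cut s t {v}).card := by
    intro v; rw [hρ v]; field_simp
  have hρ0 : ∀ v, 0 ≤ ρ v := by
    intro v; rw [hρ v]; exact div_nonneg (hdef v).1 hD1.le
  set B : ℚ := (K - 1) * ε * m₀ * ((1 + ε) * m₀) with hB
  have hB0 : 0 ≤ B := by rw [hB]; have : 0 ≤ K - 1 := by linarith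
                         positivity
  have hterm : ∀ x y z : V, y ≠ z → ((D : ℚ) - 1) * (ρ x * mq s t y z) ≤ B := by
    intro x y z hyz
    rw [← mul_assoc, hρ' x, hB]
    exact mul_le_mul (hdef x).2 (hhi y z hyz) (g6_mq_nonneg s t y z)
      (by have : 0 ≤ K - 1 := by linarith
          positivity)
  have hterm0 : ∀ x y z : V, 0 ≤ ρ x * mq s t y z := fun x y z =>
    mul_nonneg (hρ0 x) (g6_mq_nonneg s t y z)
  have hmain : ∀ u v w, u ≠ v → v ≠ w → u ≠ w →
      m₀ * m₀ - (K - 1) * B / k ≤ ((D : ℚ) - 1) * dd s t k (1 / ((D : ℚ) - 1)) κ ρ u v w ∧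
        ((D : ℚ) - 1) * dd s t k (1 / ((D : ℚ) - 1)) κ ρ u v w ≤
          ((1 + ε) * m₀) * ((1 + ε) * m₀) := by
    intro u v w huv hvw huw
    have hsum0 : 0 ≤ sum4 u v w (fun z => Kx s t κ z u w) :=
      g6_sum4_nonneg _ fun z => g6_Kx_nonneg κ hκ z u w
    have hsum1 : ((D : ℚ) - 1) * sum4 u v w (fun z => Kx s t κ z u w) ≤ (K - 3) * B := by
      have h1 : sum4 u v w (fun z => Kx s t κ z u w) ≤ (K - 3) * (B / ((D : ℚ) - 1)) := by
        refine g6_sum4_le huv hvw huw _ _ fun z _ _ hzw => ?_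
        rw [le_div_iff₀ hD1]
        have h2 := g6_Kx_le κ hκ ρ hrow z u w huw
        have h3 := hterm z z w hzw
        nlinarith
      calc ((D : ℚ) - 1) * sum4 u v w (fun z => Kx s t κ z u w)
          ≤ ((D : ℚ) - 1) * ((K - 3) * (B / ((D : ℚ) - 1))) :=
            mul_le_mul_of_nonneg_left h1 hD1.le
        _ = (K - 3) * B := by field_simp
    have hexp : ((D : ℚ) - 1) * dd s t k (1 / ((D : ℚ) - 1)) κ ρ u v w =
        mq s t u v * mq s t v w - (((D : ℚ) - 1) * (ρ u * mq s t u v) +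
          ((D : ℚ) - 1) * (ρ w * mq s t v w) +
          ((D : ℚ) - 1) * sum4 u v w (fun z => Kx s t κ z u w)) / k := by
      unfold dd
      field_simp
      ring
    have hu := hterm u u v huv
    have hw := hterm w v w hvw
    have hu0 := mul_nonneg hD1.le (hterm0 u u v)
    have hw0 := mul_nonneg hD1.le (hterm0 w v w)
    have hs0 := mul_nonneg hD1.le hsum0
    rw [hexp]
    constructor
    · have h1 : m₀ * m₀ ≤ mq s t u v * mq s t v w :=
        mul_le_mul (hlo u v huv) (hlo v w hvw) hm0.le (g6_mq_nonneg _ _ _ _)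
      have h2 : (((D : ℚ) - 1) * (ρ u * mq s t u v) + ((D : ℚ) - 1) * (ρ w * mq s t v w) +
          ((D : ℚ) - 1) * sum4 u v w (fun z => Kx s t κ z u w)) / k ≤ (K - 1) * B / k := by
        apply div_le_div_of_nonneg_right _ hkpos.le
        linarith
      linarith
    · have h1 : mq s t u v * mq s t v w ≤ ((1 + ε) * m₀) * ((1 + ε) * m₀) :=
        mul_le_mul (hhi u v huv) (hhi v w hvw) (g6_mq_nonneg _ _ _ _) (by positivity)
      have h2 : 0 ≤ (((D : ℚ) - 1) * (ρ u * mq s t u v) + ((D : ℚ) - 1) * (ρ w * mq s t v w) +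
          ((D : ℚ) - 1) * sum4 u v w (fun z => Kx s t κ z u w)) / k :=
        div_nonneg (by linarith) hkpos.le
      linarith
  -- constants
  set q : ℚ := (K - 1) * (K - 1) / k with hq
  have hqK : q ≤ K + 1 / 4 := by
    rw [hq, div_le_iff₀ hkpos, hk]; nlinarith
  have hq0 : 0 ≤ q := by rw [hq]; exact div_nonneg (mul_self_nonneg _) hkpos.le
  have hBq : (K - 1) * B / k = ε * (1 + ε) * q * (m₀ * m₀) := by
    rw [hB, hq]; field_simp
  refine ⟨(m₀ * m₀ - (K - 1) * B / k) / ((D : ℚ) - 1),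
    (((1 + ε) * m₀) * ((1 + ε) * m₀) - (m₀ * m₀ - (K - 1) * B / k)) / ((D : ℚ) - 1), ?_, ?_, ?_⟩
  · apply div_nonneg _ hD1.le
    rw [hBq]
    have : 0 ≤ ε * (1 + ε) * q * (m₀ * m₀) := by positivity
    nlinarith [mul_pos hm0 hm0, mul_pos hεpos (mul_pos hm0 hm0)]
  · rw [← mul_div_assoc, ← mul_div_assoc]
    apply div_le_div_of_nonneg_right _ hD1.le
    rw [hBq]
    have hεq : ε * q ≤ 1 / 25 + 1 / 600 := by
      have h1 : ε * q ≤ ε * (K + 1 / 4) := mul_le_mul_of_nonneg_left hqK hεpos.le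
      have h2 : ε * (K + 1 / 4) = ε * K + ε / 4 := by ring
      rw [h2, hεK] at h1
      linarith
    have hεq0 : 0 ≤ ε * q := mul_nonneg hεpos.le hq0
    have h3 : ε * (1 + ε) * q ≤ (1 / 25 + 1 / 600) * (1 + 1 / 150) := by
      have : ε * (1 + ε) * q = (ε * q) * (1 + ε) := by ring
      rw [this]
      exact mul_le_mul hεq (by linarith) (by linarith) (by norm_num)
    have h4 : ε * ε ≤ 1 / 150 * (1 / 150) := mul_le_mul hε6 hε6 hεpos.le (by norm_num)
    have hmm : 0 < m₀ * m₀ := mul_pos hm0 hm0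
    have h5 : 40 * ((1 + ε) * (1 + ε) - 1) + 43 * (ε * (1 + ε) * q) ≤ 3 := by nlinarith
    have h6 : 3 * (m₀ * m₀ - ε * (1 + ε) * q * (m₀ * m₀)) -
        40 * ((1 + ε) * m₀ * ((1 + ε) * m₀) - (m₀ * m₀ - ε * (1 + ε) * q * (m₀ * m₀))) =
        (3 - (40 * ((1 + ε) * (1 + ε) - 1) + 43 * (ε * (1 + ε) * q))) * (m₀ * m₀) := by ring
    have h7 : 0 ≤ (3 - (40 * ((1 + ε) * (1 + ε) - 1) + 43 * (ε * (1 + ε) * q))) * (m₀ * m₀) :=
      mul_nonneg (by linarith) hmm.le
    linarith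
  · intro u v w huv hvw huw
    obtain ⟨h1, h2⟩ := hmain u v w huv hvw huw
    constructor
    · rw [div_le_iff₀ hD1]; linarith
    · rw [← add_div, le_div_iff₀ hD1]
      linarith

end Graph

end Pool.Agent.Lib.MP_95bb8c_al.GW
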