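import Pool.Agent.Lib.MP_95bb8c_al.GW.Correction
import Pool.Agent.Lib.MP_95bb8c_al.GW.Loops
import Pool.Agent.Lib.MP_95bb8c_al.GW.CoverGen
import Pool.Agent.Lib.MP_95bb8c_al.GW.Rows
import Pool.Agent.Lib.MP_95bb8c_al.GW.Sizes
import Pool.Agent.Lib.MP_95bb8c_al.GW.Kappa

set_option autoImplicit false
set_option linter.unusedSectionVars false

/-!
# Multiplicities within a constant factor, large rank: the law on cycles

The demand `lam + κ` minus a reserve is met, up to a small error, by long loops (random walks closed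
by two edges through a new vertex); the error and the reserve are met exactly by triangles and
4-cycles.
-/

namespace Pool.Agent.Lib.MP_95bb8c_al.GW

open Finset

section Graph
variable {V E : Type} [Fintype V] [DecidableEq V] [Fintype E] [DecidableEq E]

private theorem b10_J {s t : E → V} (hl : ∀ e, s e ≠ t e) {v w : V} {q : E}
    (hq : q ∈ J s t v w) : q ∈ cut s t {v} ∧ oth s t v q = w ∧
      mq s t (s q) (t q) = mq s t v w := by
  have hq' := hq
  rw [J_comm] at hq'
  have h1 := oth_of_mem_J hl hq'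
  refine ⟨h1.1, h1.2, ?_⟩
  unfold J at hq
  rw [Finset.mem_filter] at hq
  rcases hq.2.2 with ⟨h2, h3⟩ | ⟨h2, h3⟩
  · rw [h2, h3]
  · rw [h2, h3, g6_mq_symm]

/-- The main theorem on the level of graphs. -/
theorem bal_core {s t : E → V} (hl : ∀ e, s e ≠ t e) (hK10 : 10 ≤ Fintype.card V)
    (C μ : ℚ) (hC : 1 ≤ C) (hμ1 : 1 ≤ μ) (hlo : ∀ u v, u ≠ v → μ ≤ mq s t u v)
    (hhi : ∀ u v, u ≠ v → mq s t u v ≤ C * μ)
    (D : ℕ) (hD : ∀ v, (cut s t {v}).card ≤ D) (hD' : ∃ v, (cut s t {v}).card = D)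
    (κ : V → E → E → ℚ) (hκ0 : ∀ v e f, 0 ≤ κ v e f) (hκs : ∀ v e f, κ v e f = κ v f e)
    (hκp : ∀ u v, ∀ e ∈ J s t u v, ∀ f ∈ J s t u v, κ v e f = 0) (ρ : V → ℚ)
    (hρ : ∀ v, ρ v = ((D : ℚ) - (cut s t {v}).card) / ((D : ℚ) - 1))
    (hrow : ∀ v w, ∀ q ∈ J s t v w,
      ∑ u, (if u = w then 0 else ∑ p ∈ J s t u v, κ v p q) = ρ v)
    (hκB : ∀ v e f, κ v e f ≤ 4 / (Fintype.card V * μ))
    (N : ℕ) (hN : 0 < N) (h2N : 2 * ((N : ℚ) + 2) ≤ Fintype.card V)
    (h4C : 4 * C ≤ (Fintype.card V : ℚ) - 2)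
    (hnum : 300 * C ^ 3 * (60 * C ^ 2 / N + 196 * C * ((N : ℚ) + 1) ^ 2 / Fintype.card V) ≤ 1) :
    ∃ (L : List (Finset E)) (M : ℕ), 0 < M ∧ (∀ X ∈ L, IsCycle s t X) ∧
      ∀ v, ∀ e ∈ cut s t {v}, ∀ f ∈ cut s t {v},
        ((L.countP fun X => e ∈ X ∧ f ∈ X : ℕ) : ℚ) =
          M * (if e = f then 1 else 1 / ((D : ℚ) - 1) + κ v e f) := by
  classical
  obtain ⟨K, hKdef⟩ : ∃ K : ℚ, K = (Fintype.card V : ℚ) := ⟨_, rfl⟩
  rw [← hKdef] at hκB h2N h4C hnum
  have hK10q : (10 : ℚ) ≤ K := by rw [hKdef]; exact_mod_cast hK10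
  have hK0 : 0 < K := by linarith
  have hμ : 0 < μ := by linarith
  have hC0 : 0 < C := by linarith
  have hNq : (1 : ℚ) ≤ N := by exact_mod_cast hN
  have hKμ : 0 < K * μ := mul_pos hK0 hμ
  -- degrees
  have hdeg := g6_deg_bounds hl μ (C * μ) hlo hhi
  rw [← hKdef] at hdeg
  obtain ⟨v₀, hv₀⟩ := hD'
  have hDlo : (K - 1) * μ ≤ (D : ℚ) := by rw [← hv₀]; exact (hdeg v₀).1
  have hDhi : (D : ℚ) ≤ (K - 1) * (C * μ) := by rw [← hv₀]; exact (hdeg v₀).2
  have hD1 : (K - 2) * μ ≤ (D : ℚ) - 1 := by nlinarith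
  have hK2μ : 0 < (K - 2) * μ := mul_pos (by linarith) hμ
  have hD0 : 0 < (D : ℚ) - 1 := by linarith
  obtain ⟨lam, hlamdef⟩ : ∃ lam : ℚ, lam = 1 / ((D : ℚ) - 1) := ⟨_, rfl⟩
  have hlam0 : 0 < lam := by rw [hlamdef]; exact div_pos one_pos hD0
  have hlamD : lam * ((D : ℚ) - 1) = 1 := by rw [hlamdef]; field_simp
  have hρ1 : ∀ v, ρ v ≤ 1 := by
    intro v
    rw [hρ v, div_le_one hD0]
    have := (hdeg v).1
    nlinarith
  have hlamρ : ∀ v, lam * ((cut s t {v}).card : ℚ) + ρ v = 1 + lam := by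
    intro v
    rw [hρ v, hlamdef]
    field_simp
    ring
  -- the reserve
  obtain ⟨θ, hθdef⟩ : ∃ θ : ℚ, θ = μ / (2 * C * K) := ⟨_, rfl⟩
  have hθ0 : 0 < θ := by rw [hθdef]; positivity
  have hlamθ : 2 * θ / (μ * μ) ≤ lam := by
    rw [hθdef, hlamdef, div_le_div_iff₀ (by positivity) hD0]
    have h1 : (D : ℚ) - 1 ≤ K * (C * μ) := by nlinarith [mul_pos hC0 hμ]
    have h2 : 2 * (μ / (2 * C * K)) * ((D : ℚ) - 1) ≤ 2 * (μ / (2 * C * K)) * (K * (C * μ)) :=
      mul_le_mul_of_nonneg_left h1 (by positivity)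
    refine le_trans h2 (le_of_eq ?_)
    field_simp
  have hmm : ∀ u v v' w, u ≠ v → v' ≠ w → μ * μ ≤ mq s t u v * mq s t v' w := by
    intro u v v' w h1 h2
    exact mul_le_mul (hlo u v h1) (hlo v' w h2) hμ.le (g6_mq_nonneg _ _ _ _)
  have hθle : ∀ u v v' w, u ≠ v → v' ≠ w → θ / (mq s t u v * mq s t v' w) ≤ θ / (μ * μ) := by
    intro u v v' w h1 h2
    exact div_le_div_of_nonneg_left hθ0.le (by positivity) (hmm u v v' w h1 h2)
  have hθlam : θ / (μ * μ) ≤ lam := by
    have h1 : 0 ≤ θ / (μ * μ) := by positivity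
    have h2 : 2 * θ / (μ * μ) = 2 * (θ / (μ * μ)) := by ring
    linarith
  -- the demand of the loops
  let c : V → E → E → ℚ := fun v e f =>
    if e ∈ cut s t {v} ∧ f ∈ cut s t {v} ∧ oth s t v e ≠ oth s t v f then
      lam + κ v e f - θ / (mq s t (oth s t v e) v * mq s t v (oth s t v f)) else 0
  have hcJ : ∀ u v w, u ≠ w → ∀ p ∈ J s t u v, ∀ q ∈ J s t v w,
      c v p q = lam + κ v p q - θ / (mq s t u v * mq s t v w) := by
    intro u v w huw p hp q hq
    have h1 := oth_of_mem_J hl hp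
    have h2 := b10_J hl hq
    show (if p ∈ cut s t {v} ∧ q ∈ cut s t {v} ∧ oth s t v p ≠ oth s t v q then
      lam + κ v p q - θ / (mq s t (oth s t v p) v * mq s t v (oth s t v q)) else 0) = _
    rw [if_pos ⟨h1.1, h2.1, by rw [h1.2, h2.2.1]; exact huw⟩, h1.2, h2.2.1]
  have hcsym : ∀ v e f, c v e f = c v f e := by
    intro v e f
    show (if e ∈ cut s t {v} ∧ f ∈ cut s t {v} ∧ oth s t v e ≠ oth s t v f then
      lam + κ v e f - θ / (mq s t (oth s t v e) v * mq s t v (oth s t v f)) else 0) =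
      (if f ∈ cut s t {v} ∧ e ∈ cut s t {v} ∧ oth s t v f ≠ oth s t v e then
      lam + κ v f e - θ / (mq s t (oth s t v f) v * mq s t v (oth s t v e)) else 0)
    by_cases h : e ∈ cut s t {v} ∧ f ∈ cut s t {v} ∧ oth s t v e ≠ oth s t v f
    · rw [if_pos h, if_pos ⟨h.2.1, h.1, h.2.2.symm⟩, hκs v e f,
        g6_mq_symm s t (oth s t v e) v, g6_mq_symm s t v (oth s t v f),
        mul_comm (mq s t v (oth s t v e))]
    · rw [if_neg h, if_neg (fun h' => h ⟨h'.2.1, h'.1, h'.2.2.symm⟩)]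
  have hc0 : ∀ v e f, 0 ≤ c v e f := by
    intro v e f
    show 0 ≤ (if e ∈ cut s t {v} ∧ f ∈ cut s t {v} ∧ oth s t v e ≠ oth s t v f then
      lam + κ v e f - θ / (mq s t (oth s t v e) v * mq s t v (oth s t v f)) else 0)
    by_cases h : e ∈ cut s t {v} ∧ f ∈ cut s t {v} ∧ oth s t v e ≠ oth s t v f
    · rw [if_pos h]
      have h1 := (mem_J_oth hl h.1).1
      have h2 := (mem_J_oth hl h.2.1).1
      have h3 := hθle (oth s t v e) v v (oth s t v f) h1 h2.symm
      have h4 := hκ0 v e f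
      linarith
    · rw [if_neg h]
  -- its rows
  let r : E → ℚ := fun q =>
    1 + lam - lam * mq s t (s q) (t q) - (K - 2) * (θ / mq s t (s q) (t q))
  have hrJ : ∀ v w, ∀ q ∈ J s t v w, r q =
      1 + lam - lam * mq s t v w - (K - 2) * (θ / mq s t v w) := by
    intro v w q hq
    show 1 + lam - lam * mq s t (s q) (t q) - (K - 2) * (θ / mq s t (s q) (t q)) = _
    rw [(b10_J hl hq).2.2]
  have hJne : ∀ {u v : V} {e : E}, e ∈ J s t u v → u ≠ v := by
    intro u v e he
    unfold J at he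
    rw [Finset.mem_filter] at he
    exact he.2.1
  have hJself : ∀ v : V, J s t v v = ∅ := by
    intro v
    rw [Finset.eq_empty_iff_forall_notMem]
    intro e he
    exact hJne he rfl
  have hrows : ∀ v w, ∀ q ∈ J s t v w,
      ∑ u, (if u = w then 0 else ∑ p ∈ J s t u v, c v p q) = r q := by
    intro v w q hq
    have hvw : v ≠ w := hJne hq
    rw [hrJ v w q hq]
    have h1 : ∀ u, (if u = w then 0 else ∑ p ∈ J s t u v, c v p q) =
        lam * mq s t u v - (if u = w then lam * mq s t w v else 0) +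
        (if u = w then 0 else ∑ p ∈ J s t u v, κ v p q) -
        (if u = v ∨ u = w then 0 else θ / mq s t v w) := by
      intro u
      by_cases huw : u = w
      · rw [if_pos huw, if_pos huw, if_pos huw, if_pos (Or.inr huw), huw]
        ring
      · rw [if_neg huw, if_neg huw, if_neg huw]
        by_cases huv : u = v
        · rw [if_pos (Or.inl huv), huv, hJself, g6_mq_self]
          simp
        · rw [if_neg (by rintro (h | h); exacts [huv h, huw h])]
          rw [Finset.sum_congr rfl (fun p hp => hcJ u v w huw p hp q hq), Finset.sum_sub_distrib,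
            Finset.sum_add_distrib, Finset.sum_const, Finset.sum_const, nsmul_eq_mul,
            nsmul_eq_mul]
          have h2 : ((J s t u v).card : ℚ) = mq s t u v := rfl
          rw [h2]
          have h3 : mq s t u v ≠ 0 := by
            have := hlo u v huv
            intro h0
            linarith
          have h4 : mq s t v w ≠ 0 := by
            have := hlo v w hvw
            intro h0
            linarith
          field_simp
          ring
    rw [Finset.sum_congr rfl (fun u _ => h1 u), Finset.sum_sub_distrib, Finset.sum_add_distrib,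
      Finset.sum_sub_distrib, ← Finset.mul_sum, ← g6_card_cut_eq hl v, hrow v w q hq]
    have h5 : ∑ u, (if u = w then lam * mq s t w v else 0) = lam * mq s t w v := by simp
    have h6 : ∑ u, (if u = v ∨ u = w then 0 else θ / mq s t v w) =
        (K - 2) * (θ / mq s t v w) := by
      rw [hKdef]
      exact g4_const (θ / mq s t v w) hvw
    rw [h5, h6, g6_mq_symm s t w v]
    have h7 := hlamρ v
    linarith
  have hr14 : ∀ q, 1 / 4 ≤ r q := by
    intro q
    show 1 / 4 ≤ 1 + lam - lam * mq s t (s q) (t q) - (K - 2) * (θ / mq s t (s q) (t q))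
    have h1 := hlo _ _ (hl q)
    have h2 := hhi _ _ (hl q)
    have h3 : lam * mq s t (s q) (t q) ≤ 1 / 4 := by
      have h4 : lam * mq s t (s q) (t q) ≤ lam * (C * μ) := mul_le_mul_of_nonneg_left h2 hlam0.le
      have h5 : 4 * (C * μ) ≤ (D : ℚ) - 1 := by nlinarith
      have h6 : lam * (4 * (C * μ)) ≤ lam * ((D : ℚ) - 1) := mul_le_mul_of_nonneg_left h5 hlam0.le
      rw [hlamD] at h6
      linarith
    have h7 : (K - 2) * (θ / mq s t (s q) (t q)) ≤ 1 / 2 := by
      have h8 : θ / mq s t (s q) (t q) ≤ θ / μ := div_le_div_of_nonneg_left hθ0.le hμ h1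
      have h9 : θ / μ = 1 / (2 * C * K) := by rw [hθdef]; field_simp
      rw [h9] at h8
      have h10 : (K - 2) * (θ / mq s t (s q) (t q)) ≤ (K - 2) * (1 / (2 * C * K)) :=
        mul_le_mul_of_nonneg_left h8 (by linarith)
      refine le_trans h10 ?_
      rw [mul_one_div, div_le_div_iff₀ (by positivity) (by norm_num)]
      nlinarith
    linarith
  have hr1 : ∀ q, r q ≤ 1 := by
    intro q
    show 1 + lam - lam * mq s t (s q) (t q) - (K - 2) * (θ / mq s t (s q) (t q)) ≤ 1
    have h1 := hlo _ _ (hl q)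
    have h2 : lam * 1 ≤ lam * mq s t (s q) (t q) :=
      mul_le_mul_of_nonneg_left (le_trans hμ1 h1) hlam0.le
    have h3 : 0 ≤ (K - 2) * (θ / mq s t (s q) (t q)) :=
      mul_nonneg (by linarith) (div_nonneg hθ0.le (g6_mq_nonneg _ _ _ _))
    linarith
  -- bounds
  have hlamB : lam ≤ 3 / (K * μ) := by
    rw [hlamdef, div_le_div_iff₀ hD0 hKμ]
    nlinarith
  have hB : ∀ u v w, u ≠ w → ∀ p ∈ J s t u v, ∀ q ∈ J s t v w, c v p q ≤ 7 / (K * μ) := by
    intro u v w huw p hp q hq
    rw [hcJ u v w huw p hp q hq]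
    have h1 : 0 ≤ θ / (mq s t u v * mq s t v w) :=
      div_nonneg hθ0.le (mul_nonneg (g6_mq_nonneg _ _ _ _) (g6_mq_nonneg _ _ _ _))
    have h2 := hκB v p q
    have h3 : 7 / (K * μ) = 3 / (K * μ) + 4 / (K * μ) := by ring
    linarith
  have hβ : ∀ u v w, u ≠ w → ∀ p ∈ J s t u v, ∑ q ∈ J s t v w, c v p q ≤ 28 * C / K * r p := by
    intro u v w huw p hp
    by_cases hvw : v = w
    · rw [hvw, hJself, Finset.sum_empty]
      have := hr14 p
      positivity
    · have h1 := Finset.sum_le_card_nsmul (J s t v w) (fun q => c v p q) (7 / (K * μ))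
        (fun q hq => hB u v w huw p hp q hq)
      rw [nsmul_eq_mul] at h1
      have h2 : ((J s t v w).card : ℚ) * (7 / (K * μ)) ≤ C * μ * (7 / (K * μ)) :=
        mul_le_mul_of_nonneg_right (hhi v w hvw) (by positivity)
      have h3 : C * μ * (7 / (K * μ)) = 28 * C / K * (1 / 4) := by field_simp; ring
      have h4 : 28 * C / K * (1 / 4) ≤ 28 * C / K * r p :=
        mul_le_mul_of_nonneg_left (hr14 p) (by positivity)
      linarith
  -- the loops
  obtain ⟨ι, hι, W, X, hW, hX, hX1, hcov⟩ := loops hl N hN (by rw [← hKdef]; linarith) c hcsym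
    hc0 r hrows (fun q => lt_of_lt_of_le (by norm_num) (hr14 q)) hr1 (7 / (K * μ)) (28 * C / K) μ
    ((K - 1) * (C * μ)) (by positivity) hB hβ hμ hlo (fun v => (hdeg v).2)
  rw [← hKdef] at hcov
  -- the error
  let e : V → E → E → ℚ := fun v p q =>
    c v p q - ∑ i, W i * (if p ∈ X i ∧ q ∈ X i then 1 else 0)
  have hesym : ∀ v p q, e v p q = e v q p := by
    intro v p q
    show c v p q - ∑ i, W i * (if p ∈ X i ∧ q ∈ X i then 1 else 0) =
      c v q p - ∑ i, W i * (if q ∈ X i ∧ p ∈ X i then 1 else 0)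
    rw [hcsym v p q]
    congr 1
    apply Finset.sum_congr rfl
    intro i _
    simp only [and_comm]
  have herow : ∀ v w, ∀ q ∈ J s t v w,
      ∑ u, (if u = w then 0 else ∑ p ∈ J s t u v, e v p q) =
        r q - ∑ i, W i * (if q ∈ X i then 1 else 0) := by
    intro v w q hq
    rw [← rows hl W X hX hX1 v w q hq, ← hrows v w q hq, ← Finset.sum_sub_distrib]
    apply Finset.sum_congr rfl
    intro u _
    by_cases huw : u = w
    · rw [if_pos huw, if_pos huw, if_pos huw, sub_zero]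
    · rw [if_neg huw, if_neg huw, if_neg huw, ← Finset.sum_sub_distrib]
  obtain ⟨δ, hδdef⟩ : ∃ δ : ℚ, δ = 60 * C ^ 2 / N + 196 * C * ((N : ℚ) + 1) ^ 2 / K := ⟨_, rfl⟩
  have hδ0 : 0 ≤ δ := by rw [hδdef]; positivity
  have herr : ∀ u v w, u ≠ w → ∀ p ∈ J s t u v, ∀ q ∈ J s t v w,
      |e v p q| ≤ δ / (Fintype.card V * μ) := by
    intro u v w huw p hp q hq
    rw [← hKdef]
    have h1 := hcov u v w huw p hp q hq
    have h2 : |e v p q| =
        |(∑ i, W i * (if p ∈ X i ∧ q ∈ X i then 1 else 0)) - c v p q| := by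
      rw [abs_sub_comm]
    rw [h2]
    refine le_trans h1 ?_
    have hKN : K / 2 ≤ K - ((N : ℚ) + 2) := by linarith
    have hKN0 : 0 < K - ((N : ℚ) + 2) := by linarith
    have h3 : 2 / ((K - ((N : ℚ) + 2)) * μ) ≤ 4 / (K * μ) := by
      rw [div_le_div_iff₀ (by positivity) hKμ]
      nlinarith
    have h4 : 28 * C / K * ((K - 1) * (C * μ)) / ((K - ((N : ℚ) + 2)) * μ ^ 2) ≤
        56 * C ^ 2 / (K * μ) := by
      have h5 : 28 * C / K * ((K - 1) * (C * μ)) ≤ 28 * C ^ 2 * μ := by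
        rw [div_mul_eq_mul_div, div_le_iff₀ hK0]
        have : 0 ≤ 28 * C ^ 2 * μ := by positivity
        nlinarith
      rw [div_le_div_iff₀ (by positivity) hKμ]
      have h6 : 28 * C / K * ((K - 1) * (C * μ)) * (K * μ) ≤ 28 * C ^ 2 * μ * (K * μ) :=
        mul_le_mul_of_nonneg_right h5 hKμ.le
      have h7 : 56 * C ^ 2 * (K / 2 * μ ^ 2) ≤ 56 * C ^ 2 * ((K - ((N : ℚ) + 2)) * μ ^ 2) :=
        mul_le_mul_of_nonneg_left (mul_le_mul_of_nonneg_right hKN (by positivity)) (by positivity)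
      refine le_trans h6 (le_trans (le_of_eq ?_) h7)
      ring
    have h8 : (2 / ((K - ((N : ℚ) + 2)) * μ) +
        28 * C / K * ((K - 1) * (C * μ)) / ((K - ((N : ℚ) + 2)) * μ ^ 2)) / N ≤
        60 * C ^ 2 / (K * μ) / N := by
      apply div_le_div_of_nonneg_right _ (by linarith)
      have h9 : 60 * C ^ 2 / (K * μ) = 4 * C ^ 2 / (K * μ) + 56 * C ^ 2 / (K * μ) := by ring
      have h10 : 4 / (K * μ) ≤ 4 * C ^ 2 / (K * μ) := by
        apply div_le_div_of_nonneg_right _ hKμ.le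
        nlinarith
      rw [h9]
      linarith
    refine le_trans (add_le_add_left h8 _) (le_of_eq ?_)
    rw [hδdef]
    field_simp
    ring
  -- the correction
  obtain ⟨WT, WQ, hWT, hWQ, hH⟩ := correction hl hK10 C μ δ hC hμ hlo hhi e hesym
    (fun q => r q - ∑ i, W i * (if q ∈ X i then 1 else 0)) herow hδ0 herr
    (by rw [hδdef]; exact hnum)
  obtain ⟨L, M, hM, hL1, hL2⟩ := cover_gen hl lam hlam0.le κ hκs WT hWT WQ hWQ W hW X hX hX1
    (by
      intro c' _
      rw [hH c']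
      refine g3_corner_congr _ _ c' fun u v w huv hvw huw p hp q hq => ?_
      show c v p q - ∑ i, W i * (if p ∈ X i ∧ q ∈ X i then 1 else 0) +
        μ / (2 * C * (Fintype.card V : ℚ)) / (mq s t u v * mq s t v w) =
        lam + κ v p q - ∑ i, W i * (if p ∈ X i ∧ q ∈ X i then 1 else 0)
      rw [hcJ u v w huw p hp q hq, ← hKdef, ← hθdef]
      ring) hκp
    (by
      intro v e₀ he₀
      have h2 := (mem_J_oth hl he₀).2
      have h2' := h2
      rw [J_comm] at h2'
      have h1 : κ v e₀ e₀ = 0 := hκp _ v e₀ h2' e₀ h2'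
      have h3 := hrow v _ e₀ h2
      have h4 : ∑ f ∈ cut s t {v}, κ v e₀ f = ρ v := by
        rw [← h3]
        have h5 : ∑ f ∈ cut s t {v}, κ v e₀ f = ∑ u, ∑ p ∈ J s t u v, κ v e₀ p := by
          rw [← Finset.sum_fiberwise_of_maps_to (s := cut s t {v}) (t := univ)
            (g := fun e => oth s t v e) (fun _ _ => Finset.mem_univ _)]
          apply Finset.sum_congr rfl
          intro u _
          apply Finset.sum_congr _ (fun _ _ => rfl)
          ext x
          rw [Finset.mem_filter]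
          constructor
          · rintro ⟨h6, h7⟩
            have h8 := (mem_J_oth hl h6).2
            rw [h7, J_comm] at h8
            exact h8
          · intro hx
            exact oth_of_mem_J hl hx
        rw [h5]
        apply Finset.sum_congr rfl
        intro u _
        by_cases huw : u = oth s t v e₀
        · rw [if_pos huw, huw]
          apply Finset.sum_eq_zero
          intro p hp
          exact hκp _ v e₀ h2' p hp
        · rw [if_neg huw]
          apply Finset.sum_congr rfl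
          intro p _
          exact hκs v e₀ p
      rw [Finset.sum_add_distrib, Finset.sum_const, Finset.card_erase_of_mem he₀, nsmul_eq_mul]
      have h6 : ∑ f ∈ (cut s t {v}).erase e₀, κ v e₀ f = ρ v := by
        rw [← h4, ← Finset.add_sum_erase _ _ he₀, h1, zero_add]
      have h7 : 1 ≤ (cut s t {v}).card := Finset.card_pos.2 ⟨e₀, he₀⟩
      rw [h6, Nat.cast_sub h7, Nat.cast_one]
      have h8 := hlamρ v
      linarith)
  refine ⟨L, M, hM, hL1, ?_⟩
  rw [← hlamdef]
  exact hL2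

end Graph

end Pool.Agent.Lib.MP_95bb8c_al.GW
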