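import Pool.Agent.Lib.MP_95bb8c_al.GW.Defs

set_option autoImplicit false
set_option linter.unusedSectionVars false

/-!
# Almost all cyclically reduced words have nearly uniform pair counts
-/

namespace Pool.Agent.Lib.MP_95bb8c_al.GW

open Finset

section walk

variable {α : Type*} [Fintype α] [DecidableEq α]

private theorem g11_walk (M : Matrix α α ℝ) : ∀ (m : ℕ) (G : α → α → ℝ),
    (∑ w : Fin (m + 1) → α, (∏ i : Fin m, M (w i.castSucc) (w i.succ)) *
      G (w 0) (w (Fin.last m))) = ∑ a, ∑ b, (M ^ m) a b * G a b := by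
  intro m
  induction m with
  | zero =>
    intro G
    rw [← (Equiv.funUnique (Fin 1) α).symm.sum_comp]
    refine Finset.sum_congr rfl fun a _ => ?_
    simp [Matrix.one_apply]
  | succ m ih =>
    intro G
    rw [← (Fin.consEquiv (fun _ : Fin (m + 2) => α)).sum_comp, Fintype.sum_prod_type]
    have h1 : ∀ x : α, (∑ w : Fin (m + 1) → α,
        (∏ i : Fin (m + 1), M ((Fin.consEquiv (fun _ : Fin (m + 2) => α)) (x, w) i.castSucc)
          ((Fin.consEquiv (fun _ : Fin (m + 2) => α)) (x, w) i.succ)) *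
        G ((Fin.consEquiv (fun _ : Fin (m + 2) => α)) (x, w) 0)
          ((Fin.consEquiv (fun _ : Fin (m + 2) => α)) (x, w) (Fin.last (m + 1)))) =
        ∑ a, ∑ b, (M ^ m) a b * (M x a * G x b) := by
      intro x
      rw [← ih (fun a b => M x a * G x b)]
      refine Finset.sum_congr rfl fun w _ => ?_
      rw [Fin.prod_univ_succ]
      have e1 : ∀ i : Fin m, (Fin.consEquiv (fun _ : Fin (m + 2) => α)) (x, w)
          (Fin.castSucc (Fin.succ i)) = w i.castSucc := by
        intro i
        rw [← Fin.succ_castSucc]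
        simp [Fin.consEquiv]
      simp only [e1]
      have e2 : (Fin.consEquiv (fun _ : Fin (m + 2) => α)) (x, w) (Fin.last (m + 1)) =
          w (Fin.last m) := by
        rw [← Fin.succ_last]
        simp [Fin.consEquiv]
      rw [e2]
      simp [Fin.consEquiv]
      ring
    rw [Finset.sum_congr rfl fun x _ => h1 x]
    refine Finset.sum_congr rfl fun x _ => ?_
    rw [Finset.sum_comm]
    refine Finset.sum_congr rfl fun b _ => ?_
    rw [pow_succ', Matrix.mul_apply, Finset.sum_mul]
    refine Finset.sum_congr rfl fun a _ => ?_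
    ring

/-- closed walks and the trace -/
private theorem g11_trace (M : Matrix α α ℝ) (m : ℕ) :
    (∑ w : Fin (m + 1) → α, ∏ i : Fin (m + 1), M (w i) (w (nx i))) =
      ∑ a, (M ^ (m + 1)) a a := by
  have h := g11_walk M m (fun a b => M b a)
  have h1 : ∀ w : Fin (m + 1) → α, (∏ i : Fin (m + 1), M (w i) (w (nx i))) =
      (∏ i : Fin m, M (w i.castSucc) (w i.succ)) * M (w (Fin.last m)) (w 0) := by
    intro w
    rw [Fin.prod_univ_castSucc]
    have e1 : ∀ i : Fin m, (nx (Fin.castSucc i) : Fin (m + 1)) = i.succ := by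
      intro i
      apply Fin.ext
      simp only [nx, Fin.val_castSucc, Fin.val_succ]
      exact Nat.mod_eq_of_lt (by omega)
    have e2 : (nx (Fin.last m) : Fin (m + 1)) = 0 := by
      apply Fin.ext
      simp [nx]
    rw [e2]
    congr 1
    exact Finset.prod_congr rfl fun i _ => by rw [e1]
  rw [Finset.sum_congr rfl fun w _ => h1 w, h]
  refine Finset.sum_congr rfl fun a _ => ?_
  rw [pow_succ, Matrix.mul_apply]

/-- a positive supersolution bounds the powers -/
private theorem g11_pow_le (M : Matrix α α ℝ) (hM : ∀ x y, 0 ≤ M x y) (h : α → ℝ) (μ : ℝ)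
    (hμ : 0 ≤ μ) (hle : ∀ x, ∑ y, M x y * h y ≤ μ * h x) :
    ∀ (m : ℕ) (x : α), ∑ y, (M ^ m) x y * h y ≤ μ ^ m * h x := by
  intro m
  induction m with
  | zero => intro x; simp [Matrix.one_apply]
  | succ m ih =>
    intro x
    calc ∑ y, (M ^ (m + 1)) x y * h y = ∑ z, M x z * ∑ y, (M ^ m) z y * h y := by
          simp only [pow_succ', Matrix.mul_apply, Finset.sum_mul, Finset.mul_sum]
          rw [Finset.sum_comm]
          refine Finset.sum_congr rfl fun z _ => Finset.sum_congr rfl fun y _ => ?_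
          ring
      _ ≤ ∑ z, M x z * (μ ^ m * h z) :=
          Finset.sum_le_sum fun z _ => mul_le_mul_of_nonneg_left (ih z) (hM x z)
      _ = μ ^ m * ∑ z, M x z * h z := by
          rw [Finset.mul_sum]
          refine Finset.sum_congr rfl fun z _ => ?_
          ring
      _ ≤ μ ^ m * (μ * h x) := mul_le_mul_of_nonneg_left (hle x) (pow_nonneg hμ m)
      _ = μ ^ (m + 1) * h x := by ring

private theorem g11_pow_nonneg (M : Matrix α α ℝ) (hM : ∀ x y, 0 ≤ M x y) :
    ∀ (m : ℕ) (x y : α), 0 ≤ (M ^ m) x y := by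
  intro m
  induction m with
  | zero =>
    intro x y
    rw [pow_zero, Matrix.one_apply]
    split_ifs <;> norm_num
  | succ m ih =>
    intro x y
    rw [pow_succ', Matrix.mul_apply]
    exact Finset.sum_nonneg fun z _ => mul_nonneg (hM x z) (ih z y)

private theorem g11_trace_le (M : Matrix α α ℝ) (hM : ∀ x y, 0 ≤ M x y) (h : α → ℝ) (μ : ℝ)
    (hμ : 0 ≤ μ) (hpos : ∀ x, 0 < h x) (hle : ∀ x, ∑ y, M x y * h y ≤ μ * h x) (m : ℕ) :
    ∑ a, (M ^ m) a a ≤ Fintype.card α * μ ^ m := by
  calc ∑ a, (M ^ m) a a ≤ ∑ _a : α, μ ^ m := by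
        refine Finset.sum_le_sum fun a _ => ?_
        have h1 := g11_pow_le M hM h μ hμ hle m a
        have h2 : (M ^ m) a a * h a ≤ ∑ y, (M ^ m) a y * h y :=
          Finset.single_le_sum (f := fun y => (M ^ m) a y * h y)
            (fun y _ => mul_nonneg (g11_pow_nonneg M hM m a y) (hpos y).le) (Finset.mem_univ a)
        exact le_of_mul_le_mul_right (h2.trans h1) (hpos a)
    _ = Fintype.card α * μ ^ m := by simp

end walk

section words

variable {n : ℕ}

/-- the transfer matrix -/
private def g11_M (a b : Letter n) (t : ℝ) : Matrix (Letter n) (Letter n) ℝ :=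
  fun x y => if y = bar x then 0 else if x = a ∧ y = b then t else 1

private theorem g11_M_nonneg (a b : Letter n) {t : ℝ} (ht : 0 ≤ t) (x y : Letter n) :
    0 ≤ g11_M a b t x y := by
  unfold g11_M
  split_ifs <;> [exact le_refl _; exact ht; norm_num]

open Classical in
private theorem g11_prod (a b : Letter n) (t : ℝ) {N : ℕ} (w : Fin N → Letter n) :
    (∏ i : Fin N, g11_M a b t (w i) (w (nx i))) = if CR w then t ^ (X w a b) else 0 := by
  by_cases h : CR w
  · rw [if_pos h]
    have h1 : ∀ i ∈ (univ : Finset (Fin N)), g11_M a b t (w i) (w (nx i)) =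
        if w i = a ∧ w (nx i) = b then t else 1 := by
      intro i _
      unfold g11_M
      rw [if_neg (h i)]
    rw [Finset.prod_congr rfl h1, Finset.prod_ite, Finset.prod_const, Finset.prod_const_one,
      mul_one]
    unfold X
    congr 2
  · rw [if_neg h]
    unfold CR at h
    push Not at h
    obtain ⟨i, hi⟩ := h
    apply Finset.prod_eq_zero (Finset.mem_univ i)
    unfold g11_M
    rw [if_pos hi]

open Classical in
/-- the generating function of the pair counts is a trace -/
private theorem g11_gen (a b : Letter n) (t : ℝ) (m : ℕ) :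
    (∑ w : Fin (m + 1) → Letter n, if CR w then t ^ (X w a b) else 0) =
      ∑ x, ((g11_M a b t) ^ (m + 1)) x x := by
  rw [← g11_trace]
  refine Finset.sum_congr rfl fun w _ => ?_
  rw [g11_prod]

private theorem g11_card : (Fintype.card (Letter n) : ℝ) = 2 * n := by
  simp [Letter]
  ring

private theorem g11_bar_inj {x y : Letter n} : bar x = y ↔ x = bar y := by
  constructor
  · intro h; rw [← h, bar_bar]
  · intro h; rw [h, bar_bar]

/-- row sums with a function -/
private theorem g11_row (a b : Letter n) (hab : b ≠ bar a) (t : ℝ) (h : Letter n → ℝ)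
    (x : Letter n) : ∑ y, g11_M a b t x y * h y =
      (∑ y, h y) - h (bar x) + (t - 1) * (if x = a then h b else 0) := by
  have h1 : ∀ y, g11_M a b t x y * h y = h y - (if y = bar x then h y else 0) +
      (if y = b then (if x = a then (t - 1) * h b else 0) else 0) := by
    intro y
    unfold g11_M
    by_cases hy : y = bar x
    · rw [if_pos hy, if_pos hy]
      by_cases hyb : y = b
      · have hxa : x ≠ a := by
          intro hxa
          apply hab
          rw [← hyb, hy, hxa]
        rw [if_pos hyb, if_neg hxa]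
        ring
      · rw [if_neg hyb]
        ring
    · rw [if_neg hy, if_neg hy]
      by_cases hyb : y = b
      · by_cases hxa : x = a
        · rw [if_pos ⟨hxa, hyb⟩, if_pos hyb, if_pos hxa, hyb]
          ring
        · rw [if_neg (fun h => hxa h.1), if_pos hyb, if_neg hxa]
          ring
      · rw [if_neg (fun h => hyb h.2), if_neg hyb]
        ring
  rw [Finset.sum_congr rfl fun y _ => h1 y, Finset.sum_add_distrib, Finset.sum_sub_distrib,
    Finset.sum_ite_eq' univ (bar x), Finset.sum_ite_eq' univ b]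
  simp only [Finset.mem_univ, if_true]
  split_ifs <;> ring

private theorem g11_sum_ite (a : Letter n) (c : ℝ) :
    (∑ y : Letter n, if y = a then c else 0) = c := by
  rw [Finset.sum_ite_eq' univ a]
  simp

/-- the first order correction of the eigenvector -/
private noncomputable def g11_g (K q : ℝ) (a x : Letter n) : ℝ :=
  (if x = a then q / (q ^ 2 - 1) else 0) - (if x = bar a then 1 / (q ^ 2 - 1) else 0) -
    1 / K ^ 2

private theorem g11_g_bound {K q : ℝ} (hK : 4 ≤ K) (hq : q = K - 1) (a x : Letter n) :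
    -(1 / 2) ≤ g11_g K q a x ∧ g11_g K q a x ≤ 1 / 2 := by
  have hq3 : 3 ≤ q := by linarith
  have h1 : 0 < q ^ 2 - 1 := by nlinarith
  have h2 : q / (q ^ 2 - 1) ≤ 3 / 8 := by
    rw [div_le_div_iff₀ h1 (by norm_num)]
    nlinarith
  have h2' : 0 ≤ q / (q ^ 2 - 1) := by positivity
  have h3 : 1 / (q ^ 2 - 1) ≤ 1 / 8 := by
    rw [div_le_div_iff₀ h1 (by norm_num)]
    nlinarith
  have h3' : 0 ≤ 1 / (q ^ 2 - 1) := by positivity
  have h4 : 1 / K ^ 2 ≤ 1 / 16 := by
    rw [div_le_div_iff₀ (by positivity) (by norm_num)]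
    nlinarith
  have h4' : 0 ≤ 1 / K ^ 2 := by positivity
  unfold g11_g
  split_ifs <;> constructor <;> linarith

private theorem g11_g_eq {K q : ℝ} (hK : 4 ≤ K) (hq : q = K - 1) (a x : Letter n) :
    q * g11_g K q a x + g11_g K q a (bar x) = (if x = a then 1 else 0) - 1 / K := by
  have hq3 : 3 ≤ q := by linarith
  have h1 : 0 < q ^ 2 - 1 := by nlinarith
  have hK0 : K ≠ 0 := by linarith
  have hb1 : (bar x = a) = (x = bar a) := propext g11_bar_inj
  have hb2 : (bar x = bar a) = (x = a) := propext (g11_bar_inj.trans (by rw [bar_bar]))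
  unfold g11_g
  simp only [hb1, hb2]
  have key : q * (1 / K ^ 2) + 1 / K ^ 2 = 1 / K := by
    rw [hq]
    field_simp
    ring
  by_cases hxa : x = a
  · have hxb : x ≠ bar a := by
      intro h
      exact bar_ne a (h.symm.trans hxa)
    rw [if_pos hxa, if_neg hxb, if_neg hxb, if_pos hxa, if_pos hxa]
    have e : q * (q / (q ^ 2 - 1)) - 1 / (q ^ 2 - 1) = 1 := by
      field_simp
    linarith
  · by_cases hxb : x = bar a
    · rw [if_neg hxa, if_pos hxb, if_pos hxb, if_neg hxa, if_neg hxa]
      have e : q * (1 / (q ^ 2 - 1)) = q / (q ^ 2 - 1) := by ring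
      linarith
    · rw [if_neg hxa, if_neg hxb, if_neg hxb, if_neg hxa, if_neg hxa]
      linarith

private theorem g11_g_sum {K q : ℝ} (hn : 1 < n) (hKn : K = 2 * n) (hq : q = K - 1)
    (a : Letter n) : ∑ x, g11_g K q a x = 0 := by
  have hn' : (2 : ℝ) ≤ n := by exact_mod_cast hn
  have hK : 4 ≤ K := by linarith
  have hq3 : 3 ≤ q := by linarith
  have h1 : 0 < q ^ 2 - 1 := by nlinarith
  unfold g11_g
  rw [Finset.sum_sub_distrib, Finset.sum_sub_distrib, g11_sum_ite, g11_sum_ite,
    Finset.sum_const, nsmul_eq_mul, Finset.card_univ, g11_card, ← hKn]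
  have hK0 : K ≠ 0 := by linarith
  have e1 : q ^ 2 - 1 = (q - 1) * K := by rw [hq]; ring
  have hq1 : q - 1 ≠ 0 := by intro h; linarith
  rw [e1]
  field_simp
  ring

private theorem g11_super (hn : 1 < n) {a b : Letter n} (hab : b ≠ bar a) {K q s η₁ : ℝ}
    (hKn : K = 2 * n) (hq : q = K - 1) (hs : 0 < s) (hη : 0 < η₁) (hη1 : η₁ ≤ 1)
    (hsη : s * K ≤ η₁) :
    ∃ h : Letter n → ℝ, (∀ x, 0 < h x) ∧
      ∀ x, ∑ y, g11_M a b (1 + s) x y * h y ≤ (q + s * (1 + η₁) / K) * h x := by
  have hn' : (2 : ℝ) ≤ n := by exact_mod_cast hn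
  have hK : 4 ≤ K := by linarith
  have hs1 : s ≤ 1 := by nlinarith
  refine ⟨fun x => 1 + s * g11_g K q a x, fun x => ?_, fun x => ?_⟩
  · have := (g11_g_bound hK hq a x).1
    nlinarith
  · rw [g11_row a b hab]
    have e1 : (∑ y : Letter n, (1 + s * g11_g K q a y)) = K := by
      rw [Finset.sum_add_distrib, ← Finset.mul_sum, g11_g_sum hn hKn hq, Finset.sum_const,
        nsmul_eq_mul, Finset.card_univ, g11_card, ← hKn]
      ring
    rw [e1]
    have e2 := g11_g_eq hK hq a x
    have hx := g11_g_bound hK hq a x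
    have hb := g11_g_bound hK hq a b
    have hK0 : 0 < K := by linarith
    have e3 : (q + s * (1 + η₁) / K) * (1 + s * g11_g K q a x) =
        q + s * (q * g11_g K q a x) + s * (1 + η₁) / K +
          s ^ 2 * ((1 + η₁) / K * g11_g K q a x) := by ring
    rw [e3]
    have e4 : q * g11_g K q a x = (if x = a then 1 else 0) - 1 / K - g11_g K q a (bar x) := by
      linarith
    rw [e4]
    have h5 : (1 + η₁) / K ≤ 1 / 2 := by
      rw [div_le_div_iff₀ hK0 (by norm_num)]
      linarith
    have h5' : 0 ≤ (1 + η₁) / K := by positivity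
    have h6 : -(1 / 4) ≤ (1 + η₁) / K * g11_g K q a x := by
      nlinarith [hx.1, hx.2]
    have h7 : s * η₁ / K = s * (η₁ / K) := by ring
    have h8 : s ≤ η₁ / K := by
      rw [le_div_iff₀ hK0]
      exact hsη
    have h9 : s * (1 + η₁) / K = s * (1 / K) + s * (η₁ / K) := by ring
    rw [h9]
    have h10 : 0 ≤ s ^ 2 := by positivity
    have h11 : s * s ≤ s * (η₁ / K) := mul_le_mul_of_nonneg_left h8 hs.le
    by_cases hxa : x = a
    · rw [if_pos hxa, if_pos hxa]
      have h12 : s ^ 2 * ((1 + η₁) / K * g11_g K q a x) ≥ s ^ 2 * (-(1 / 4)) :=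
        mul_le_mul_of_nonneg_left h6 h10
      have h13 : s ^ 2 * g11_g K q a b ≤ s ^ 2 * (1 / 2) :=
        mul_le_mul_of_nonneg_left hb.2 h10
      nlinarith
    · rw [if_neg hxa, if_neg hxa]
      have h12 : s ^ 2 * ((1 + η₁) / K * g11_g K q a x) ≥ s ^ 2 * (-(1 / 4)) :=
        mul_le_mul_of_nonneg_left h6 h10
      nlinarith

open Classical in
private theorem g11_count (hn : 1 < n) {a b : Letter n} (hab : b ≠ bar a) {K q s η₁ : ℝ}
    (hKn : K = 2 * n) (hq : q = K - 1) (hs : 0 < s) (hη : 0 < η₁) (hη1 : η₁ ≤ 1)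
    (hsη : s * K ≤ η₁) (m : ℕ) (y : ℝ) :
    ((univ.filter fun w : Fin (m + 1) → Letter n => CR w ∧ y ≤ (X w a b : ℝ)).card : ℝ) *
      (1 + s) ^ y ≤ K * (q + s * (1 + η₁) / K) ^ (m + 1) := by
  have hn' : (2 : ℝ) ≤ n := by exact_mod_cast hn
  have hK : 4 ≤ K := by linarith
  obtain ⟨h, hpos, hle⟩ := g11_super hn hab hKn hq hs hη hη1 hsη
  have hμ : 0 ≤ q + s * (1 + η₁) / K := by
    have : 0 ≤ s * (1 + η₁) / K := by positivity
    linarith
  have h1 := g11_trace_le (g11_M a b (1 + s)) (g11_M_nonneg a b (by linarith)) h _ hμ hpos hle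
    (m + 1)
  rw [g11_card, ← hKn, ← g11_gen] at h1
  refine le_trans ?_ h1
  rw [← nsmul_eq_mul, ← Finset.sum_const, Finset.sum_filter]
  refine Finset.sum_le_sum fun w _ => ?_
  by_cases hw : CR w
  · by_cases hy : y ≤ (X w a b : ℝ)
    · rw [if_pos ⟨hw, hy⟩, if_pos hw, ← Real.rpow_natCast]
      exact Real.rpow_le_rpow_of_exponent_le (by linarith) hy
    · rw [if_neg (fun h => hy h.2), if_pos hw]
      positivity
  · rw [if_neg (fun h => hw h.1), if_neg hw]

/-- the exponential rate -/
private theorem g11_rate {K q y₀ : ℝ} (hK : 4 ≤ K) (hq : q = K - 1) (hy : 1 / (K * q) < y₀) :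
    ∃ s η₁ r : ℝ, 0 < s ∧ 0 < η₁ ∧ η₁ ≤ 1 ∧ s * K ≤ η₁ ∧ 0 < r ∧ r < q ∧
      q + s * (1 + η₁) / K = r * (1 + s) ^ y₀ := by
  have hq3 : 3 ≤ q := by linarith
  have hK0 : 0 < K := by linarith
  have hq0 : 0 < q := by linarith
  set Z := y₀ * (K * q) - 1 with hZ
  have hZpos : 0 < Z := by
    rw [div_lt_iff₀ (by positivity)] at hy
    linarith
  set ζ := min Z 1 with hζ
  have hζpos : 0 < ζ := lt_min hZpos one_pos
  have hζ1 : ζ ≤ 1 := min_le_right _ _
  have hζZ : ζ ≤ Z := min_le_left _ _
  set η₁ := ζ / 4 with hη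
  set s := η₁ / K with hs
  have hηpos : 0 < η₁ := by positivity
  have hspos : 0 < s := by positivity
  have hsK : s * K = η₁ := by rw [hs]; field_simp
  have hy0 : 0 < y₀ := lt_trans (by positivity) hy
  have hs4 : s ≤ ζ / 16 := by
    have : s * 4 ≤ s * K := mul_le_mul_of_nonneg_left hK hspos.le
    linarith
  have hlog : s / (1 + s) ≤ Real.log (1 + s) := by
    have := Real.one_sub_inv_le_log_of_pos (show 0 < 1 + s by linarith)
    have e : 1 - (1 + s)⁻¹ = s / (1 + s) := by field_simp; ring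
    linarith
  have hpow : 1 + s / (1 + s) * y₀ ≤ (1 + s) ^ y₀ := by
    rw [Real.rpow_def_of_pos (by linarith)]
    have h1 := Real.add_one_le_exp (Real.log (1 + s) * y₀)
    have h2 : s / (1 + s) * y₀ ≤ Real.log (1 + s) * y₀ :=
      mul_le_mul_of_nonneg_right hlog hy0.le
    linarith
  have hkey : q + s * (1 + η₁) / K < q * (1 + s / (1 + s) * y₀) := by
    have h1 : (1 + η₁) * (1 + s) < y₀ * (K * q) := by
      have : (1 + η₁) * (1 + s) < 1 + ζ := by nlinarith
      linarith
    have h2 : s * (1 + η₁) / K < q * (s / (1 + s) * y₀) := by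
      rw [div_lt_iff₀ hK0]
      have e : q * (s / (1 + s) * y₀) * K = s * (y₀ * (K * q)) / (1 + s) := by ring
      rw [e, lt_div_iff₀ (by linarith)]
      have := mul_lt_mul_of_pos_left h1 hspos
      linarith
    linarith
  have hppos : 0 < (1 + s) ^ y₀ := Real.rpow_pos_of_pos (by linarith) _
  have hμ : 0 < q + s * (1 + η₁) / K := by positivity
  refine ⟨s, η₁, (q + s * (1 + η₁) / K) / (1 + s) ^ y₀, hspos, hηpos, by linarith, hsK.le,
    by positivity, ?_, ?_⟩
  · rw [div_lt_iff₀ hppos]
    have := mul_le_mul_of_nonneg_left hpow hq0.le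
    linarith
  · field_simp

open Classical in
/-- the number of cyclically reduced words -/
private theorem g11_lower (hn : 1 < n) {K q : ℝ} (hKn : K = 2 * n) (hq : q = K - 1) (m : ℕ) :
    q ^ m ≤ ((univ.filter fun w : Fin (m + 2) → Letter n => CR w).card : ℝ) := by
  have hn' : (2 : ℝ) ≤ n := by exact_mod_cast hn
  have hK : 4 ≤ K := by linarith
  have h0 : 0 < n := by omega
  set a : Letter n := (⟨0, h0⟩, true) with ha
  set A := g11_M a a (1 : ℝ) with hA
  have hAnn : ∀ x y, 0 ≤ A x y := g11_M_nonneg a a zero_le_one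
  have e0 : ((univ.filter fun w : Fin (m + 2) → Letter n => CR w).card : ℝ) =
      ∑ x, (A ^ (m + 2)) x x := by
    have h := g11_gen a a (1 : ℝ) (m + 1)
    rw [← h]
    simp only [one_pow]
    rw [← Finset.sum_filter, Finset.sum_const, nsmul_eq_mul, mul_one]
  have hA1 : ∀ x y, A x y = if y = bar x then 0 else 1 := by
    intro x y
    rw [hA]
    unfold g11_M
    split_ifs <;> rfl
  have hsq : ∀ x y, 1 ≤ (A ^ 2) x y := by
    intro x y
    have hcard : ((univ : Finset (Letter n)) \ {bar x, bar y}).Nonempty := by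
      rw [← Finset.card_pos, Finset.card_sdiff_of_subset (Finset.subset_univ _)]
      have h1 : ({bar x, bar y} : Finset (Letter n)).card ≤ 2 := Finset.card_le_two
      have h2 : (univ : Finset (Letter n)).card = 2 * n := by
        rw [Finset.card_univ]
        simp [Letter]
        ring
      omega
    obtain ⟨z, hz⟩ := hcard
    rw [Finset.mem_sdiff, Finset.mem_insert, Finset.mem_singleton, not_or] at hz
    rw [pow_two, Matrix.mul_apply]
    have h1 : A x z * A z y = 1 := by
      rw [hA1, hA1, if_neg hz.2.1, if_neg]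
      · norm_num
      · intro h
        exact hz.2.2 (by rw [h, bar_bar])
    rw [← h1]
    exact Finset.single_le_sum (f := fun z => A x z * A z y)
      (fun z _ => mul_nonneg (hAnn x z) (hAnn z y)) (Finset.mem_univ z)
  have hcol1 : ∀ z, ∑ y, A y z = q := by
    intro z
    have h1 : ∀ y, A y z = 1 - (if y = bar z then 1 else 0) := by
      intro y
      rw [hA1]
      by_cases h : z = bar y
      · rw [if_pos h, if_pos (by rw [h, bar_bar])]
        ring
      · rw [if_neg h, if_neg (fun h' => h (by rw [h', bar_bar]))]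
        ring
    rw [Finset.sum_congr rfl fun y _ => h1 y, Finset.sum_sub_distrib, g11_sum_ite,
      Finset.sum_const, nsmul_eq_mul, Finset.card_univ, g11_card, ← hKn, hq]
    ring
  have hcol : ∀ (k : ℕ) (x : Letter n), ∑ y, (A ^ k) y x = q ^ k := by
    intro k
    induction k with
    | zero => intro x; simp [Matrix.one_apply]
    | succ k ih =>
      intro x
      simp only [pow_succ', Matrix.mul_apply]
      rw [Finset.sum_comm]
      have : ∀ z, ∑ y, A y z * (A ^ k) z x = q * (A ^ k) z x := by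
        intro z
        rw [← Finset.sum_mul, hcol1]
      rw [Finset.sum_congr rfl fun z _ => this z, ← Finset.mul_sum, ih]
  rw [e0]
  have h1 : ∀ x, q ^ m ≤ (A ^ (m + 2)) x x := by
    intro x
    rw [add_comm m 2, pow_add, Matrix.mul_apply, ← hcol m x]
    refine Finset.sum_le_sum fun y _ => ?_
    have h2 := g11_pow_nonneg A hAnn m y x
    nlinarith [hsq x y]
  calc q ^ m ≤ (A ^ (m + 2)) a a := h1 a
    _ ≤ ∑ x, (A ^ (m + 2)) x x := Finset.single_le_sum (f := fun x => (A ^ (m + 2)) x x)
        (fun x _ => g11_pow_nonneg A hAnn (m + 2) x x) (Finset.mem_univ a)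

/-- the pair counts of a cyclically reduced word sum to its length -/
private theorem g11_total {N : ℕ} {w : Fin N → Letter n} (hw : CR w) :
    (∑ p ∈ (univ : Finset (Letter n × Letter n)).filter (fun p => p.2 ≠ bar p.1),
      X w p.1 p.2) = N := by
  have h1 : (∑ p ∈ (univ : Finset (Letter n × Letter n)).filter (fun p => p.2 ≠ bar p.1),
      X w p.1 p.2) = (univ : Finset (Fin N)).card := by
    rw [Finset.card_eq_sum_card_fiberwise (f := fun i => (w i, w (nx i)))
      (t := (univ : Finset (Letter n × Letter n)).filter (fun p => p.2 ≠ bar p.1))]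
    · refine Finset.sum_congr rfl fun p _ => ?_
      unfold X
      congr 1
      ext i
      simp only [Finset.mem_filter, Finset.mem_univ, true_and]
      constructor
      · rintro ⟨h1, h2⟩
        rw [h1, h2]
      · intro h
        rw [← h]
        exact ⟨rfl, rfl⟩
    · intro i _
      simp only [Finset.coe_filter, Finset.mem_univ, true_and, Set.mem_ofPred_eq]
      exact hw i
  rw [h1]
  simp

private theorem g11_pairs :
    (((univ : Finset (Letter n × Letter n)).filter (fun p => p.2 ≠ bar p.1)).card : ℝ) =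
      2 * n * (2 * n - 1) := by
  have h1 : ((univ : Finset (Letter n × Letter n)).filter (fun p => p.2 = bar p.1)).card =
      (univ : Finset (Letter n)).card := by
    refine Finset.card_bij (fun p _ => p.1) (fun p _ => Finset.mem_univ _) ?_ ?_
    · intro p hp p' hp' h
      rw [Finset.mem_filter] at hp hp'
      have h0 : p.1 = p'.1 := h
      have h2 : p.2 = p'.2 := by rw [hp.2, hp'.2, h0]
      exact Prod.ext h0 h2
    · intro x _
      exact ⟨(x, bar x), by simp, rfl⟩
  have h2 := Finset.card_filter_add_card_filter_not (s := (univ : Finset (Letter n × Letter n)))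
    (p := fun p => p.2 = bar p.1)
  rw [h1] at h2
  have h3 : ((univ : Finset (Letter n)).card : ℝ) = 2 * n := by
    rw [Finset.card_univ]; exact g11_card
  have h4 : ((univ : Finset (Letter n × Letter n)).card : ℝ) = (2 * n) * (2 * n) := by
    rw [Finset.card_univ, Fintype.card_prod, Nat.cast_mul, g11_card]
  have h5 : ((univ : Finset (Letter n)).card : ℝ) +
      (((univ : Finset (Letter n × Letter n)).filter (fun p => ¬ p.2 = bar p.1)).card : ℝ) =
      ((univ : Finset (Letter n × Letter n)).card : ℝ) := by exact_mod_cast h2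
  have h6 : (((univ : Finset (Letter n × Letter n)).filter (fun p => p.2 ≠ bar p.1)).card : ℝ) =
      (((univ : Finset (Letter n × Letter n)).filter (fun p => ¬ p.2 = bar p.1)).card : ℝ) := rfl
  rw [h6]
  rw [h3, h4] at h5
  linarith

/-- upper bounds for all pairs give two-sided bounds -/
private theorem g11_two_sided (hn : 1 < n) {N : ℕ} {w : Fin N → Letter n} (hw : CR w) {η : ℝ}
    (hη : 0 < η) (hup : ∀ a b : Letter n, b ≠ bar a →
      (X w a b : ℝ) < (1 / (2 * n * (2 * n - 1)) + η / (2 * n * (2 * n - 1))) * N)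
    (a b : Letter n) (hab : b ≠ bar a) :
    |(X w a b : ℝ) - N / (2 * n * (2 * n - 1))| ≤ η * N := by
  have hn' : (2 : ℝ) ≤ n := by exact_mod_cast hn
  set P : ℝ := 2 * n * (2 * n - 1) with hP
  have hP12 : 12 ≤ P := by rw [hP]; nlinarith
  have hP0 : 0 < P := by linarith
  have hN : (0 : ℝ) ≤ N := by positivity
  set F := (univ : Finset (Letter n × Letter n)).filter (fun p => p.2 ≠ bar p.1) with hF
  have hmem : (a, b) ∈ F := by simp [hF, hab]
  have htot : (∑ p ∈ F, (X w p.1 p.2 : ℝ)) = N := by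
    have := g11_total hw
    exact_mod_cast this
  have hsplit : (X w a b : ℝ) + ∑ p ∈ F.erase (a, b), (X w p.1 p.2 : ℝ) = N := by
    rw [← htot, ← Finset.add_sum_erase F (fun p => (X w p.1 p.2 : ℝ)) hmem]
  have hrest : ∑ p ∈ F.erase (a, b), (X w p.1 p.2 : ℝ) ≤
      (P - 1) * ((1 / P + η / P) * N) := by
    have h1 : ∑ p ∈ F.erase (a, b), (X w p.1 p.2 : ℝ) ≤
        ∑ _p ∈ F.erase (a, b), ((1 / P + η / P) * N) := by
      refine Finset.sum_le_sum fun p hp => ?_
      have hp' := Finset.mem_of_mem_erase hp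
      rw [hF, Finset.mem_filter] at hp'
      exact (hup p.1 p.2 hp'.2).le
    rw [Finset.sum_const, nsmul_eq_mul, Finset.card_erase_of_mem hmem] at h1
    have h2 : (1 : ℕ) ≤ F.card := Finset.card_pos.2 ⟨_, hmem⟩
    rw [Nat.cast_sub h2, hF, g11_pairs, ← hP, Nat.cast_one] at h1
    exact h1
  have e1 : (P - 1) * ((1 / P + η / P) * N) = N - N / P + η * N - η * N / P := by
    field_simp
    ring
  have e2 : (1 / P + η / P) * N = N / P + η * N / P := by ring
  have hub := hup a b hab
  rw [e2] at hub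
  rw [e1] at hrest
  have h3 : 0 ≤ η * N / P := by positivity
  have h4 : η * N / P ≤ η * N := by
    rw [div_le_iff₀ hP0]
    have : 0 ≤ η * N := by positivity
    nlinarith
  rw [abs_le]
  constructor <;> linarith

theorem almost_uniform (hn : 1 < n) (η ε : ℝ) (hη : 0 < η) (hε : 0 < ε) :
    ∃ N₀ : ℕ, ∀ N ≥ N₀, (Nat.card {w : Fin N → Letter n // CR w ∧ ∃ a b : Letter n,
      b ≠ bar a ∧ η * N < |(X w a b : ℝ) - N / (2 * n * (2 * n - 1))|} : ℝ) ≤
        ε * Nat.card {w : Fin N → Letter n // CR w} := by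
  classical
  have hn' : (2 : ℝ) ≤ n := by exact_mod_cast hn
  obtain ⟨K, hKn⟩ : ∃ K : ℝ, K = 2 * n := ⟨_, rfl⟩
  obtain ⟨q, hq⟩ : ∃ q : ℝ, q = K - 1 := ⟨_, rfl⟩
  have hK : 4 ≤ K := by linarith
  have hq3 : 3 ≤ q := by linarith
  have hKq : K * q = 2 * n * (2 * n - 1) := by rw [hq, hKn]
  have hKq0 : 0 < K * q := by positivity
  set y₀ : ℝ := 1 / (2 * n * (2 * n - 1)) + η / (2 * n * (2 * n - 1)) with hy₀
  have hy : 1 / (K * q) < y₀ := by
    rw [hy₀, hKq]
    have : 0 < η / (2 * n * (2 * n - 1)) := by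
      rw [← hKq]; positivity
    linarith
  obtain ⟨s, η₁, r, hs, hη₁, hη₁1, hsK, hr0, hrq, hr⟩ := g11_rate hK hq hy
  have hlt : r / q < 1 := by
    rw [div_lt_one (by linarith)]
    exact hrq
  have hrq0 : 0 ≤ r / q := by positivity
  obtain ⟨N₁, hN₁⟩ := exists_pow_lt_of_lt_one (show 0 < ε / (K ^ 3 * q ^ 2) by positivity) hlt
  refine ⟨max N₁ 2, fun N hN => ?_⟩
  have hN1 : N₁ ≤ N := le_trans (le_max_left _ _) hN
  have hN2 : 2 ≤ N := le_trans (le_max_right _ _) hN
  obtain ⟨m, rfl⟩ : ∃ m, N = m + 2 := ⟨N - 2, by omega⟩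
  have hcr : (Nat.card {w : Fin (m + 2) → Letter n // CR w} : ℝ) =
      ((univ.filter fun w : Fin (m + 2) → Letter n => CR w).card : ℝ) := by
    rw [Nat.card_eq_fintype_card, Fintype.card_subtype]
  have hbad : (Nat.card {w : Fin (m + 2) → Letter n // CR w ∧ ∃ a b : Letter n,
      b ≠ bar a ∧ η * (m + 2 : ℕ) <
        |(X w a b : ℝ) - (m + 2 : ℕ) / (2 * n * (2 * n - 1))|} : ℝ) =
      ((univ.filter fun w : Fin (m + 2) → Letter n => CR w ∧ ∃ a b : Letter n,
      b ≠ bar a ∧ η * (m + 2 : ℕ) <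
        |(X w a b : ℝ) - (m + 2 : ℕ) / (2 * n * (2 * n - 1))|).card : ℝ) := by
    rw [Nat.card_eq_fintype_card, Fintype.card_subtype]
  rw [hcr, hbad]
  have hsub : (univ.filter fun w : Fin (m + 2) → Letter n => CR w ∧ ∃ a b : Letter n,
      b ≠ bar a ∧ η * (m + 2 : ℕ) <
        |(X w a b : ℝ) - (m + 2 : ℕ) / (2 * n * (2 * n - 1))|) ⊆
      ((univ : Finset (Letter n × Letter n)).filter (fun p => p.2 ≠ bar p.1)).biUnion
        (fun p => univ.filter fun w : Fin (m + 2) → Letter n =>
          CR w ∧ y₀ * (m + 2 : ℕ) ≤ (X w p.1 p.2 : ℝ)) := by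
    intro w hw
    rw [Finset.mem_filter] at hw
    obtain ⟨_, hcrw, a, b, hab, hlt'⟩ := hw
    by_contra hcon
    rw [Finset.mem_biUnion] at hcon
    push Not at hcon
    have hup : ∀ a b : Letter n, b ≠ bar a →
        (X w a b : ℝ) < (1 / (2 * n * (2 * n - 1)) + η / (2 * n * (2 * n - 1))) *
          (m + 2 : ℕ) := by
      intro a' b' hab'
      by_contra h
      push Not at h
      exact hcon (a', b') (by simp [hab']) (by
        rw [Finset.mem_filter]
        exact ⟨Finset.mem_univ _, hcrw, h⟩)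
    exact absurd (g11_two_sided hn hcrw hη hup a b hab) (not_le.2 hlt')
  have hone : ∀ p ∈ (univ : Finset (Letter n × Letter n)).filter (fun p => p.2 ≠ bar p.1),
      ((univ.filter fun w : Fin (m + 2) → Letter n =>
        CR w ∧ y₀ * (m + 2 : ℕ) ≤ (X w p.1 p.2 : ℝ)).card : ℝ) ≤ K * r ^ (m + 2) := by
    intro p hp
    have h1 := g11_count hn (Finset.mem_filter.1 hp).2 hKn hq hs hη₁ hη₁1 hsK (m + 1)
      (y₀ * (m + 2 : ℕ))
    rw [hr, mul_pow, Real.rpow_mul (by linarith), Real.rpow_natCast] at h1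
    have h2 : 0 < ((1 + s) ^ y₀) ^ (m + 2) := by
      have : 0 < (1 + s) ^ y₀ := Real.rpow_pos_of_pos (by linarith) _
      positivity
    have h3 : K * (r ^ (m + 1 + 1) * ((1 + s) ^ y₀) ^ (m + 1 + 1)) =
        (K * r ^ (m + 2)) * ((1 + s) ^ y₀) ^ (m + 2) := by ring
    rw [h3] at h1
    exact le_of_mul_le_mul_right h1 h2
  have hcard : ((univ.filter fun w : Fin (m + 2) → Letter n => CR w ∧ ∃ a b : Letter n,
      b ≠ bar a ∧ η * (m + 2 : ℕ) <
        |(X w a b : ℝ) - (m + 2 : ℕ) / (2 * n * (2 * n - 1))|).card : ℝ) ≤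
      (K * q) * (K * r ^ (m + 2)) := by
    calc _ ≤ (((((univ : Finset (Letter n × Letter n)).filter
            (fun p => p.2 ≠ bar p.1)).biUnion
          (fun p => univ.filter fun w : Fin (m + 2) → Letter n =>
            CR w ∧ y₀ * (m + 2 : ℕ) ≤ (X w p.1 p.2 : ℝ))).card : ℕ) : ℝ) := by
          exact_mod_cast Finset.card_le_card hsub
      _ ≤ ∑ p ∈ (univ : Finset (Letter n × Letter n)).filter (fun p => p.2 ≠ bar p.1),
          ((univ.filter fun w : Fin (m + 2) → Letter n =>
            CR w ∧ y₀ * (m + 2 : ℕ) ≤ (X w p.1 p.2 : ℝ)).card : ℝ) := by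
          exact_mod_cast Finset.card_biUnion_le
      _ ≤ ∑ _p ∈ (univ : Finset (Letter n × Letter n)).filter (fun p => p.2 ≠ bar p.1),
          K * r ^ (m + 2) := Finset.sum_le_sum hone
      _ = (K * q) * (K * r ^ (m + 2)) := by
          rw [Finset.sum_const, nsmul_eq_mul, g11_pairs, hKq]
  have hlow := g11_lower hn hKn hq m
  refine hcard.trans (le_trans ?_ (mul_le_mul_of_nonneg_left hlow hε.le))
  have h1 : (r / q) ^ (m + 2) < ε / (K ^ 3 * q ^ 2) :=
    lt_of_le_of_lt (pow_le_pow_of_le_one hrq0 hlt.le hN1) hN₁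
  rw [div_pow, div_lt_div_iff₀ (by positivity) (by positivity)] at h1
  have h2 : K * q * (K * r ^ (m + 2)) ≤ K ^ 3 * r ^ (m + 2) := by
    have h3 : q ≤ K := by linarith
    have h4 : 0 < K * K * r ^ (m + 2) := by positivity
    nlinarith
  have h5 : K ^ 3 * r ^ (m + 2) ≤ ε * q ^ m := by
    have hq2 : 0 < q ^ 2 := by positivity
    have h6 : (K ^ 3 * r ^ (m + 2)) * q ^ 2 ≤ (ε * q ^ m) * q ^ 2 := by
      have e : ε * q ^ (m + 2) = (ε * q ^ m) * q ^ 2 := by ring
      linarith
    exact le_of_mul_le_mul_right h6 hq2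
  linarith

end words

end Pool.Agent.Lib.MP_95bb8c_al.GW
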