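import Pool.Agent.Lib.MP_95bb8c_al.GW.Darts
import Pool.Agent.Lib.MP_95bb8c_al.Cycles

set_option autoImplicit false
set_option linter.unusedSectionVars false

/-!
# Closed sequences of darts with distinct tails
-/

namespace Pool.Agent.Lib.MP_95bb8c_al.GW

open Finset

variable {V E : Type} [Fintype V] [DecidableEq V] [Fintype E] [DecidableEq E]

theorem b2_mem_cut {s t : E → V} (hl : ∀ e, s e ≠ t e) (a : E × Bool) (v : V) :
    a.1 ∈ cut s t {v} ↔ tl s t a = v ∨ hd s t a = v := by
  obtain ⟨e, β⟩ := a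
  simp only [cut, Finset.mem_filter, Finset.mem_univ, true_and, Finset.mem_singleton]
  have hle := hl e
  cases β <;> simp only [tl, hd, if_true, Bool.false_eq_true, if_false]
  · constructor
    · intro h
      by_contra hc
      push Not at hc
      exact h ⟨fun h1 => absurd h1 hc.2, fun h1 => absurd h1 hc.1⟩
    · rintro (h | h) hc
      · exact hle ((hc.2 h).trans h.symm)
      · exact hle (h.trans (hc.1 h).symm)
  · constructor
    · intro h
      by_contra hc
      push Not at hc
      exact h ⟨fun h1 => absurd h1 hc.1, fun h1 => absurd h1 hc.2⟩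
    · rintro (h | h) hc
      · exact hle (h.trans (hc.1 h).symm)
      · exact hle ((hc.2 h).trans h.symm)

theorem b2_tl_ne_hd {s t : E → V} (hl : ∀ e, s e ≠ t e) (a : E × Bool) :
    tl s t a ≠ hd s t a := by
  obtain ⟨e, β⟩ := a
  cases β <;> simp only [tl, hd, if_true, Bool.false_eq_true, if_false]
  · exact (hl e).symm
  · exact hl e

theorem b2_inD {s t : E → V} (hl : ∀ e, s e ≠ t e) {v : V} {e : E} (he : e ∈ cut s t {v})
    (a : E × Bool) : a = inD t v e ↔ a.1 = e ∧ hd s t a = v := by
  obtain ⟨f, β⟩ := a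
  constructor
  · intro h
    have h1 : f = e := congrArg Prod.fst h
    subst h1
    refine ⟨rfl, ?_⟩
    have h2 : β = decide (t f = v) := congrArg Prod.snd h
    rcases (b2_mem_cut hl (f, true) v).1 he with h3 | h3
    · simp only [tl, if_true] at h3
      have h4 : t f ≠ v := fun h4 => hl f (h3.trans h4.symm)
      rw [h2]
      simp [hd, h4, h3]
    · simp only [hd, if_true] at h3
      rw [h2]
      simp [hd, h3]
  · rintro ⟨h1, h2⟩
    simp only at h1
    subst h1
    cases β
    · simp only [hd, Bool.false_eq_true, if_false] at h2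
      have h4 : t f ≠ v := fun h4 => hl f (h2.trans h4.symm)
      simp [inD, h4]
    · simp only [hd, if_true] at h2
      simp [inD, h2]

theorem b2_outD {s t : E → V} (hl : ∀ e, s e ≠ t e) {v : V} {e : E} (he : e ∈ cut s t {v})
    (a : E × Bool) : a = outD s v e ↔ a.1 = e ∧ tl s t a = v := by
  obtain ⟨f, β⟩ := a
  constructor
  · intro h
    have h1 : f = e := congrArg Prod.fst h
    subst h1
    refine ⟨rfl, ?_⟩
    have h2 : β = decide (s f = v) := congrArg Prod.snd h
    rcases (b2_mem_cut hl (f, true) v).1 he with h3 | h3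
    · simp only [tl, if_true] at h3
      rw [h2]
      simp [tl, h3]
    · simp only [hd, if_true] at h3
      have h4 : s f ≠ v := fun h4 => hl f (h4.trans h3.symm)
      rw [h2]
      simp [tl, h4, h3]
  · rintro ⟨h1, h2⟩
    simp only at h1
    subst h1
    cases β
    · simp only [tl, Bool.false_eq_true, if_false] at h2
      have h4 : s f ≠ v := fun h4 => hl f (h4.trans h2.symm)
      simp [outD, h4]
    · simp only [tl, if_true] at h2
      simp [outD, h2]

theorem b2_two_ne {n : ℕ} (hn : 2 ≤ n) (i : Fin (n + 1)) : i + 1 + 1 ≠ i := by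
  intro h
  have h1 : (1 : Fin (n + 1)) + 1 = 0 := by
    have := congrArg (fun x => x - i) h
    simpa [add_assoc, add_sub_cancel_left] using this
  have h2 := congrArg Fin.val h1
  rw [Fin.val_add] at h2
  have h3 : ((1 : Fin (n + 1)) : ℕ) = 1 := by
    rw [Fin.val_one']
    exact Nat.mod_eq_of_lt (by omega)
  rw [h3, Nat.mod_eq_of_lt (by omega)] at h2
  simp at h2

/-- The index of a dart of the sequence is determined by the pair of its ends. -/
theorem b2_index {s t : E → V} {n : ℕ} (hn : 2 ≤ n) {b : Fin (n + 1) → E × Bool}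
    (hb : ClosedSimple s t b) {i j : Fin (n + 1)} {u v : V}
    (hi : (tl s t (b i) = u ∧ hd s t (b i) = v) ∨ (tl s t (b i) = v ∧ hd s t (b i) = u))
    (hj : (tl s t (b j) = u ∧ hd s t (b j) = v) ∨ (tl s t (b j) = v ∧ hd s t (b j) = u)) :
    i = j := by
  have key : ∀ {i j : Fin (n + 1)} {u v : V}, tl s t (b i) = u → hd s t (b i) = v →
      tl s t (b j) = v → hd s t (b j) = u → i = j := by
    intro i j u v h1 h2 h3 h4
    exfalso
    rw [hb.1] at h2 h4
    have h5 : i + 1 = j := hb.2 (h2.trans h3.symm)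
    have h6 : j + 1 = i := hb.2 (h4.trans h1.symm)
    rw [← h5] at h6
    exact b2_two_ne hn i h6
  rcases hi with ⟨h1, h2⟩ | ⟨h1, h2⟩ <;> rcases hj with ⟨h3, h4⟩ | ⟨h3, h4⟩
  · exact hb.2 (h1.trans h3.symm)
  · exact key h1 h2 h3 h4
  · exact key h1 h2 h3 h4
  · exact hb.2 (h1.trans h3.symm)

theorem b2_edge_inj {s t : E → V} {n : ℕ} (hn : 2 ≤ n)
    {b : Fin (n + 1) → E × Bool} (hb : ClosedSimple s t b) {i j : Fin (n + 1)}
    (h : (b i).1 = (b j).1) : i = j := by
  refine b2_index hn hb (u := tl s t (b i)) (v := hd s t (b i)) (Or.inl ⟨rfl, rfl⟩) ?_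
  rcases hbi : b i with ⟨e, β⟩
  rcases hbj : b j with ⟨f, γ⟩
  rw [hbi, hbj] at h
  simp only at h
  subst h
  cases β <;> cases γ <;> simp [tl, hd]

/-- The edges of the sequence at the tail of `b k`. -/
theorem b2_at {s t : E → V} (hl : ∀ e, s e ≠ t e) {n : ℕ}
    {b : Fin (n + 1) → E × Bool} (hb : ClosedSimple s t b) (k : Fin (n + 1)) (e : E) :
    (e ∈ univ.image (fun i => (b i).1) ∧ e ∈ cut s t {tl s t (b k)}) ↔
      e = (b (k - 1)).1 ∨ e = (b k).1 := by
  constructor
  · rintro ⟨h1, h2⟩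
    obtain ⟨i, -, rfl⟩ := Finset.mem_image.1 h1
    rcases (b2_mem_cut hl (b i) _).1 h2 with h3 | h3
    · right; rw [hb.2 h3]
    · left
      rw [hb.1] at h3
      have h4 : i + 1 = k := hb.2 h3
      rw [← h4, add_sub_cancel_right]
  · rintro (rfl | rfl)
    · refine ⟨Finset.mem_image.2 ⟨k - 1, mem_univ _, rfl⟩, (b2_mem_cut hl _ _).2 (Or.inr ?_)⟩
      rw [hb.1, sub_add_cancel]
    · exact ⟨Finset.mem_image.2 ⟨k, mem_univ _, rfl⟩, (b2_mem_cut hl _ _).2 (Or.inl rfl)⟩

theorem b2_not_at {s t : E → V} (hl : ∀ e, s e ≠ t e) {n : ℕ}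
    {b : Fin (n + 1) → E × Bool} (hb : ClosedSimple s t b) {v : V}
    (hv : ∀ k, tl s t (b k) ≠ v) {e : E} (he : e ∈ univ.image fun i => (b i).1) :
    e ∉ cut s t {v} := by
  obtain ⟨i, -, rfl⟩ := Finset.mem_image.1 he
  intro h
  rcases (b2_mem_cut hl (b i) _).1 h with h3 | h3
  · exact hv i h3
  · rw [hb.1] at h3
    exact hv _ h3

theorem b2_sub_ne {n : ℕ} (hn : 2 ≤ n) (k : Fin (n + 1)) : k - 1 ≠ k := by
  intro h
  have h1 : k - 1 + 1 = k + 1 := congrArg (· + 1) h
  rw [sub_add_cancel] at h1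
  have h2 : k + 1 + 1 = k := by rw [← h1, ← h1]
  exact b2_two_ne hn k h2

theorem closed_deg02 {s t : E → V} (hl : ∀ e, s e ≠ t e) {n : ℕ} (hn : 2 ≤ n)
    {b : Fin (n + 1) → E × Bool} (hb : ClosedSimple s t b) :
    Deg02 s t (univ.image fun i => (b i).1) := by
  intro v
  by_cases hv : ∃ k, tl s t (b k) = v
  · obtain ⟨k, rfl⟩ := hv
    right
    have h : (univ.image fun i => (b i).1) ∩ cut s t {tl s t (b k)} =
        {(b (k - 1)).1, (b k).1} := by
      ext e
      rw [Finset.mem_inter, Finset.mem_insert, Finset.mem_singleton]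
      exact b2_at hl hb k e
    rw [h, Finset.card_pair]
    intro h1
    exact b2_sub_ne hn k (b2_edge_inj hn hb h1)
  · left
    push Not at hv
    rw [Finset.card_eq_zero, Finset.eq_empty_iff_forall_notMem]
    intro e he
    obtain ⟨h1, h2⟩ := Finset.mem_inter.1 he
    exact b2_not_at hl hb hv h1 h2

theorem closed_nopar {s t : E → V} (hl : ∀ e, s e ≠ t e) {n : ℕ} (hn : 2 ≤ n)
    {b : Fin (n + 1) → E × Bool} (hb : ClosedSimple s t b) (u v : V) :
    ∀ e ∈ J s t u v, ∀ f ∈ J s t u v, e ∈ univ.image (fun i => (b i).1) →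
      f ∈ univ.image (fun i => (b i).1) → e = f := by
  have _ := hl
  intro e he f hf heX hfX
  obtain ⟨i, -, rfl⟩ := Finset.mem_image.1 heX
  obtain ⟨j, -, rfl⟩ := Finset.mem_image.1 hfX
  have key : ∀ a : E × Bool, a.1 ∈ J s t u v →
      (tl s t a = u ∧ hd s t a = v) ∨ (tl s t a = v ∧ hd s t a = u) := by
    rintro ⟨g, β⟩ hg
    have h := (Finset.mem_filter.1 hg).2.2
    simp only at h
    cases β <;> simp only [tl, hd, if_true, Bool.false_eq_true, if_false]
    · rcases h with ⟨h1, h2⟩ | ⟨h1, h2⟩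
      · exact Or.inr ⟨h2, h1⟩
      · exact Or.inl ⟨h2, h1⟩
    · rcases h with ⟨h1, h2⟩ | ⟨h1, h2⟩
      · exact Or.inl ⟨h1, h2⟩
      · exact Or.inr ⟨h1, h2⟩
  rw [b2_index hn hb (key _ he) (key _ hf)]

theorem closed_pair {s t : E → V} (hl : ∀ e, s e ≠ t e) {n : ℕ} (hn : 2 ≤ n)
    {b : Fin (n + 1) → E × Bool} (hb : ClosedSimple s t b) (v : V) (e f : E)
    (he : e ∈ cut s t {v}) (hf : f ∈ cut s t {v}) (hef : e ≠ f) :
    (if e ∈ univ.image (fun i => (b i).1) ∧ f ∈ univ.image (fun i => (b i).1) then 1 else 0 : ℚ) =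
      ∑ i, ((if b i = inD t v e ∧ b (i + 1) = outD s v f then 1 else 0) +
        (if b i = inD t v f ∧ b (i + 1) = outD s v e then 1 else 0)) := by
  have _ := hn
  by_cases hv : ∃ k, tl s t (b k) = v
  · obtain ⟨k, hk⟩ := hv
    rw [Finset.sum_eq_single (k - 1)]
    · rw [sub_add_cancel]
      have h1 : b (k - 1) = inD t v e ↔ (b (k - 1)).1 = e := by
        rw [b2_inD hl he]
        refine ⟨fun h => h.1, fun h => ⟨h, ?_⟩⟩
        rw [hb.1, sub_add_cancel, hk]
      have h2 : b (k - 1) = inD t v f ↔ (b (k - 1)).1 = f := by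
        rw [b2_inD hl hf]
        refine ⟨fun h => h.1, fun h => ⟨h, ?_⟩⟩
        rw [hb.1, sub_add_cancel, hk]
      have h3 : b k = outD s v e ↔ (b k).1 = e := by
        rw [b2_outD hl he]
        exact ⟨fun h => h.1, fun h => ⟨h, hk⟩⟩
      have h4 : b k = outD s v f ↔ (b k).1 = f := by
        rw [b2_outD hl hf]
        exact ⟨fun h => h.1, fun h => ⟨h, hk⟩⟩
      simp only [h1, h2, h3, h4]
      have h5 : e ∈ univ.image (fun i => (b i).1) ↔ e = (b (k - 1)).1 ∨ e = (b k).1 := by
        rw [← b2_at hl hb k e, hk]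
        exact ⟨fun h => ⟨h, he⟩, fun h => h.1⟩
      have h6 : f ∈ univ.image (fun i => (b i).1) ↔ f = (b (k - 1)).1 ∨ f = (b k).1 := by
        rw [← b2_at hl hb k f, hk]
        exact ⟨fun h => ⟨h, hf⟩, fun h => h.1⟩
      simp only [h5, h6]
      generalize (b (k - 1)).1 = x
      generalize (b k).1 = y
      by_cases hex : x = e
      · subst hex
        by_cases hfy : y = f
        · subst hfy
          rw [if_pos ⟨Or.inl rfl, Or.inr rfl⟩, if_pos ⟨rfl, rfl⟩, if_neg (fun h => hef h.1)]
          norm_num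
        · rw [if_neg, if_neg (fun h => hfy h.2), if_neg (fun h => hef h.1)]
          · norm_num
          · rintro ⟨-, h | h⟩
            · exact hef h.symm
            · exact hfy h.symm
      · by_cases hxf : x = f
        · subst hxf
          by_cases hey : y = e
          · subst hey
            rw [if_pos ⟨Or.inr rfl, Or.inl rfl⟩, if_neg (fun h => hex h.1), if_pos ⟨rfl, rfl⟩]
            norm_num
          · rw [if_neg, if_neg (fun h => hex h.1), if_neg (fun h => hey h.2)]
            · norm_num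
            · rintro ⟨h | h, -⟩
              · exact hex h.symm
              · exact hey h.symm
        · rw [if_neg, if_neg (fun h => hex h.1), if_neg (fun h => hxf h.1)]
          · norm_num
          · rintro ⟨h | h, h' | h'⟩
            · exact hex h.symm
            · exact hex h.symm
            · exact hxf h'.symm
            · exact hef (h.trans h'.symm)
    · intro i _ hi
      have h1 : ¬ (b i = inD t v e ∧ b (i + 1) = outD s v f) := by
        rintro ⟨h, -⟩
        have h2 := ((b2_inD hl he _).1 h).2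
        rw [hb.1, ← hk] at h2
        apply hi
        rw [← hb.2 h2, add_sub_cancel_right]
      have h2 : ¬ (b i = inD t v f ∧ b (i + 1) = outD s v e) := by
        rintro ⟨h, -⟩
        have h2 := ((b2_inD hl hf _).1 h).2
        rw [hb.1, ← hk] at h2
        apply hi
        rw [← hb.2 h2, add_sub_cancel_right]
      rw [if_neg h1, if_neg h2]
      norm_num
    · intro h
      exact absurd (mem_univ _) h
  · push Not at hv
    rw [if_neg (fun h => b2_not_at hl hb hv h.1 he)]
    symm
    apply Finset.sum_eq_zero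
    intro i _
    have h1 : ¬ (b i = inD t v e ∧ b (i + 1) = outD s v f) := by
      rintro ⟨h, -⟩
      have h2 := ((b2_inD hl he _).1 h).2
      rw [hb.1] at h2
      exact hv _ h2
    have h2 : ¬ (b i = inD t v f ∧ b (i + 1) = outD s v e) := by
      rintro ⟨h, -⟩
      have h2 := ((b2_inD hl hf _).1 h).2
      rw [hb.1] at h2
      exact hv _ h2
    rw [if_neg h1, if_neg h2]
    norm_num

end Pool.Agent.Lib.MP_95bb8c_al.GW
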