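import Pool.Agent.Lib.MP_95bb8c_al.GW.Signed
import Pool.Agent.Lib.MP_95bb8c_al.GW.TypeLevel
import Pool.Agent.Lib.MP_95bb8c_al.GW.DdEdge

set_option autoImplicit false
set_option linter.unusedSectionVars false

/-!
# Nearly uniform lists: exact correction of a small error
-/

namespace Pool.Agent.Lib.MP_95bb8c_al.GW

open Finset

variable {V E : Type} [Fintype V] [DecidableEq V] [Fintype E] [DecidableEq E]

theorem b6_Rs_comm (s t : E → V) (r : E → ℚ) (u v : V) : Rs s t r u v = Rs s t r v u := by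
  unfold Rs
  rw [g3_J_comm]

theorem b6_swap (u v : V) (F : V → V → ℚ) :
    sum3 u v (fun w => sum4 u v w fun z => F z w) =
      sum3 u v (fun z => sum4 u v z fun w => F z w) := by
  have e1 : sum3 u v (fun w => sum4 u v w fun z => F z w) =
      ∑ w, ∑ z, (if w = u ∨ w = v then (0 : ℚ) else
        if z = u ∨ z = v ∨ z = w then 0 else F z w) := by
    unfold sum3 sum4
    refine sum_congr rfl fun w _ => ?_
    by_cases hw : w = u ∨ w = v
    · simp [hw]
    · simp only [if_neg hw]
  have e2 : sum3 u v (fun z => sum4 u v z fun w => F z w) =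
      ∑ z, ∑ w, (if z = u ∨ z = v then (0 : ℚ) else
        if w = u ∨ w = v ∨ w = z then 0 else F z w) := by
    unfold sum3 sum4
    refine sum_congr rfl fun w _ => ?_
    by_cases hw : w = u ∨ w = v
    · simp [hw]
    · simp only [if_neg hw]
  rw [e1, e2, sum_comm]
  refine sum_congr rfl fun z _ => sum_congr rfl fun w _ => ?_
  by_cases hz : z = u ∨ z = v
  · rw [if_pos hz]
    by_cases hw : w = u ∨ w = v
    · rw [if_pos hw]
    · rw [if_neg hw, if_pos (by tauto)]
  · rw [if_neg hz]
    by_cases hw : w = u ∨ w = v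
    · rw [if_pos hw, if_pos (by tauto)]
    · rw [if_neg hw]
      by_cases hzw : z = w
      · rw [if_pos (by tauto), if_pos (by tauto)]
      · have hwz : w ≠ z := fun h => hzw h.symm
        rw [if_neg (by tauto), if_neg (by tauto)]

theorem b6_sum3_congr (u v : V) (f g : V → ℚ) (h : ∀ z, z ≠ u → z ≠ v → f z = g z) :
    sum3 u v f = sum3 u v g := by
  unfold sum3
  refine sum_congr rfl fun z _ => ?_
  by_cases hz : z = u ∨ z = v
  · rw [if_pos hz, if_pos hz]
  · rw [if_neg hz, if_neg hz]
    push Not at hz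
    exact h z hz.1 hz.2

theorem b6_sum3_add (u v : V) (f g : V → ℚ) :
    sum3 u v (fun w => f w + g w) = sum3 u v f + sum3 u v g := by
  unfold sum3
  rw [← sum_add_distrib]
  refine sum_congr rfl fun z _ => ?_
  by_cases hz : z = u ∨ z = v
  · simp [hz]
  · simp [hz]

theorem b6_row {s t : E → V} (e : V → E → E → ℚ) (hsym : ∀ v p q, e v p q = e v q p) (r : E → ℚ)
    (hrow : ∀ v w, ∀ q ∈ J s t v w,
      ∑ u, (if u = w then 0 else ∑ p ∈ J s t u v, e v p q) = r q) (z u : V) :
    ∑ w, (if w = u then 0 else Kx s t e z u w) = Rs s t r u z := by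
  have h1 : ∀ w, (if w = u then (0 : ℚ) else Kx s t e z u w) =
      ∑ p ∈ J s t u z, (if w = u then (0 : ℚ) else ∑ q ∈ J s t w z, e z q p) := by
    intro w
    by_cases hw : w = u
    · simp [hw]
    · simp only [if_neg hw]
      unfold Kx
      rw [g3_J_comm s t z w]
      exact sum_congr rfl fun p _ => sum_congr rfl fun q _ => hsym z p q
  rw [sum_congr rfl fun w _ => h1 w, sum_comm]
  unfold Rs
  refine sum_congr rfl fun p hp => ?_
  exact hrow z u p (g3_J_comm s t u z ▸ hp)

theorem b6_Kx_self (s t : E → V) (e : V → E → E → ℚ) (z u : V) : Kx s t e z u z = 0 := by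
  unfold Kx
  rw [g3_J_self]
  simp

/-- The type demand of the error. -/
def b6d (s t : E → V) (k : ℚ) (e : V → E → E → ℚ) (r : E → ℚ) (u v w : V) : ℚ :=
  -(sum4 u v w (fun z => Kx s t e z u w) / k) +
    sum4 u v w (fun z => Rs s t r z u + Rs s t r w z) / (k * (k - 1))

theorem b6d_symm {s t : E → V} (k : ℚ) (e : V → E → E → ℚ) (hsym : ∀ v p q, e v p q = e v q p)
    (r : E → ℚ) (u v w : V) : b6d s t k e r u v w = b6d s t k e r w v u := by
  have h4 : ∀ f g : V → ℚ, (∀ z, f z = g z) → sum4 u v w f = sum4 w v u g := by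
    intro f g h
    unfold sum4
    refine sum_congr rfl fun z _ => ?_
    by_cases hz : z = u ∨ z = v ∨ z = w
    · rw [if_pos hz, if_pos (by tauto)]
    · rw [if_neg hz, if_neg (by tauto), h z]
  unfold b6d
  rw [h4 (fun z => Kx s t e z u w) (fun z => Kx s t e z w u) fun z => g5_Kx_symm s t e hsym z u w,
    h4 (fun z => Rs s t r z u + Rs s t r w z) (fun z => Rs s t r z w + Rs s t r u z) fun z => by
      rw [b6_Rs_comm s t r z u, b6_Rs_comm s t r w z]
      ring]

theorem b6_S1 {s t : E → V} (e : V → E → E → ℚ) (hsym : ∀ v p q, e v p q = e v q p) (r : E → ℚ)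
    (hrow : ∀ v w, ∀ q ∈ J s t v w,
      ∑ u, (if u = w then 0 else ∑ p ∈ J s t u v, e v p q) = r q) (u v : V) (huv : u ≠ v) :
    sum3 u v (fun w => sum4 u v w fun z => Kx s t e z u w) =
      sum3 u v (fun z => Rs s t r u z) - sum3 u v (fun z => Kx s t e z u v) := by
  rw [b6_swap u v (fun z w => Kx s t e z u w), ← g5_sum3_sub]
  refine b6_sum3_congr u v _ _ fun z hzu hzv => ?_
  rw [← b6_row e hsym r hrow z u]
  have h3 : ∀ w, (if w = u ∨ w = v ∨ w = z then (0 : ℚ) else Kx s t e z u w) =
      (if w = u then 0 else Kx s t e z u w) - (if w = v then Kx s t e z u v else 0) := by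
    intro w
    by_cases hwu : w = u
    · have : w ≠ v := fun h => huv (hwu.symm.trans h)
      rw [if_pos (Or.inl hwu), if_pos hwu, if_neg this]
      ring
    · by_cases hwv : w = v
      · rw [if_pos (Or.inr (Or.inl hwv)), if_neg hwu, if_pos hwv, hwv]
        ring
      · by_cases hwz : w = z
        · rw [if_pos (Or.inr (Or.inr hwz)), if_neg hwu, if_neg hwv, hwz, b6_Kx_self]
          ring
        · rw [if_neg (by tauto), if_neg hwu, if_neg hwv]
          ring
  unfold sum4
  rw [sum_congr rfl fun w _ => h3 w, sum_sub_distrib]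
  simp

theorem b6_S2 {s t : E → V} (r : E → ℚ) (u v : V) (huv : u ≠ v) :
    sum3 u v (fun w => sum4 u v w fun z => Rs s t r z u + Rs s t r w z) =
      ((Fintype.card V : ℚ) - 3) * sum3 u v (fun z => Rs s t r z u) +
        sum3 u v (fun w => sum4 u v w fun z => Rs s t r w z) := by
  have h1 : sum3 u v (fun w => sum4 u v w fun z => Rs s t r z u + Rs s t r w z) =
      sum3 u v (fun w => sum4 u v w fun z => Rs s t r z u) +
        sum3 u v (fun w => sum4 u v w fun z => Rs s t r w z) := by
    rw [← b6_sum3_add]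
    refine b6_sum3_congr u v _ _ fun w _ _ => ?_
    rw [← g3_sum4_add]
  rw [h1, b6_swap u v (fun z _ => Rs s t r z u), ← g5_sum3_mul]
  congr 1
  refine b6_sum3_congr u v _ _ fun z hzu hzv => ?_
  exact g3_sum4_const huv hzv.symm hzu.symm _

theorem b6d_edge {s t : E → V} (k : ℚ) (hk : k = (Fintype.card V : ℚ) - 2)
    (hK : 4 ≤ Fintype.card V) (e : V → E → E → ℚ)
    (hsym : ∀ v p q, e v p q = e v q p) (r : E → ℚ)
    (hrow : ∀ v w, ∀ q ∈ J s t v w,
      ∑ u, (if u = w then 0 else ∑ p ∈ J s t u v, e v p q) = r q) (u v : V) (huv : u ≠ v) :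
    sum3 u v (fun w => b6d s t k e r u v w) = sum3 u v (fun w => b6d s t k e r v u w) := by
  have h4 : (4 : ℚ) ≤ (Fintype.card V : ℚ) := by exact_mod_cast hK
  have hk0 : k ≠ 0 := by
    intro h
    rw [h] at hk
    linarith
  have hk1 : k - 1 ≠ 0 := by
    intro h
    rw [hk] at h
    linarith
  have hk3 : (Fintype.card V : ℚ) - 3 = k - 1 := by rw [hk]; ring
  have split : ∀ a b : V, a ≠ b → sum3 a b (fun w => b6d s t k e r a b w) =
      -((sum3 a b (fun z => Rs s t r a z) - sum3 a b (fun z => Kx s t e z a b)) / k) +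
        ((k - 1) * sum3 a b (fun z => Rs s t r z a) +
          sum3 a b (fun w => sum4 a b w fun z => Rs s t r w z)) / (k * (k - 1)) := by
    intro a b hab
    have e1 : sum3 a b (fun w => b6d s t k e r a b w) =
        sum3 a b (fun w => sum4 a b w fun z => Rs s t r z a + Rs s t r w z) / (k * (k - 1)) -
          sum3 a b (fun w => sum4 a b w fun z => Kx s t e z a w) / k := by
      rw [← g5_sum3_div, ← g5_sum3_div, ← g5_sum3_sub]
      refine b6_sum3_congr a b _ _ fun w _ _ => ?_
      unfold b6d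
      ring
    rw [e1, b6_S1 e hsym r hrow a b hab, b6_S2 r a b hab, hk3]
    ring
  rw [split u v huv, g5_sum3_comm u v (fun w => b6d s t k e r v u w), split v u huv.symm,
    g5_sum3_comm v u, g5_sum3_comm v u, g5_sum3_comm v u, g5_sum3_comm v u]
  have h1 : sum3 u v (fun z => Kx s t e z v u) = sum3 u v (fun z => Kx s t e z u v) :=
    b6_sum3_congr u v _ _ fun z _ _ => g5_Kx_symm s t e hsym z v u
  have h2 : sum3 u v (fun w => sum4 v u w fun z => Rs s t r w z) =
      sum3 u v (fun w => sum4 u v w fun z => Rs s t r w z) := by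
    refine b6_sum3_congr u v _ _ fun w _ _ => ?_
    unfold sum4
    refine sum_congr rfl fun z _ => ?_
    by_cases hz : z = u ∨ z = v ∨ z = w
    · rw [if_pos hz, if_pos (by tauto)]
    · rw [if_neg hz, if_neg (by tauto)]
  have h3 : ∀ a : V, sum3 u v (fun z => Rs s t r a z) = sum3 u v (fun z => Rs s t r z a) :=
    fun a => b6_sum3_congr u v _ _ fun z _ _ => b6_Rs_comm s t r a z
  rw [h1, h2, h3 u, h3 v]
  field_simp
  ring

theorem b6_sum4_abs {u v w : V} (huv : u ≠ v) (hvw : v ≠ w) (huw : u ≠ w) (f : V → ℚ) (c : ℚ)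
    (h : ∀ z, z ≠ u → z ≠ v → z ≠ w → |f z| ≤ c) :
    |sum4 u v w f| ≤ ((Fintype.card V : ℚ) - 3) * c := by
  rw [← g3_sum4_const huv hvw huw c]
  unfold sum4
  refine (abs_sum_le_sum_abs _ _).trans (sum_le_sum fun z _ => ?_)
  by_cases hz : z = u ∨ z = v ∨ z = w
  · rw [if_pos hz, if_pos hz, abs_zero]
  · rw [if_neg hz, if_neg hz]
    push Not at hz
    exact h z hz.1 hz.2.1 hz.2.2

/-- The exact correction of a small error. -/
theorem correction {s t : E → V} (_hl : ∀ e, s e ≠ t e) (hK : 10 ≤ Fintype.card V)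
    (C μ δ : ℚ) (hC : 1 ≤ C) (hμ : 0 < μ) (hlo : ∀ u v, u ≠ v → μ ≤ mq s t u v)
    (hhi : ∀ u v, u ≠ v → mq s t u v ≤ C * μ)
    (e : V → E → E → ℚ) (hsym : ∀ v p q, e v p q = e v q p) (r : E → ℚ)
    (hrow : ∀ v w, ∀ q ∈ J s t v w,
      ∑ u, (if u = w then 0 else ∑ p ∈ J s t u v, e v p q) = r q)
    (hδ : 0 ≤ δ) (he : ∀ u v w, u ≠ w → ∀ p ∈ J s t u v, ∀ q ∈ J s t v w,
      |e v p q| ≤ δ / (Fintype.card V * μ))
    (hδ1 : 300 * C ^ 3 * δ ≤ 1) :
    ∃ (WT : V → V → V → E → E → E → ℚ) (WQ : V → V → V → V → E → E → E → E → ℚ),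
      (∀ u v w, ∀ p ∈ J s t u v, ∀ q ∈ J s t v w, ∀ r ∈ J s t w u, 0 ≤ WT u v w p q r) ∧
      (∀ u v w z, u ≠ w → v ≠ z → ∀ p ∈ J s t u v, ∀ q ∈ J s t v w, ∀ r ∈ J s t w z,
        ∀ x ∈ J s t z u, 0 ≤ WQ u v w z p q r x) ∧
      ∀ c : V → E → E → ℚ, totT s t WT c + totQ s t WQ c =
        corner s t (fun u v w p q => e v p q +
          μ / (2 * C * Fintype.card V) / (mq s t u v * mq s t v w)) c := by
  set K : ℚ := (Fintype.card V : ℚ) with hKdef
  have hK10 : (10 : ℚ) ≤ K := by rw [hKdef]; exact_mod_cast hK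
  have hK0 : 0 < K := by linarith
  have hC0 : 0 < C := by linarith
  obtain ⟨k, hk⟩ : ∃ k : ℚ, k = K - 2 := ⟨_, rfl⟩
  have hk0 : 0 < k := by linarith
  have hk1 : 0 < k - 1 := by linarith
  have hm : ∀ u v, u ≠ v → mq s t u v ≠ 0 := fun u v h => by
    have := hlo u v h
    intro h0
    linarith
  have hm0 : ∀ u v, 0 ≤ mq s t u v := fun u v => by
    unfold mq
    exact Nat.cast_nonneg _
  -- the basic quantities
  obtain ⟨X, hX⟩ : ∃ X : ℚ, X = C ^ 2 * μ * δ / K := ⟨_, rfl⟩
  obtain ⟨P, hP⟩ : ∃ P : ℚ, P = μ / (C * K) := ⟨_, rfl⟩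
  have hX0 : 0 ≤ X := by rw [hX]; positivity
  have hP0 : 0 < P := by rw [hP]; positivity
  have hXP : 300 * X ≤ P := by
    have h1 : 300 * X = (300 * C ^ 3 * δ) * P := by
      rw [hX, hP]
      field_simp
    rw [h1]
    exact mul_le_of_le_one_left hP0.le hδ1
  have hKμ : 0 < K * μ := by positivity
  -- the error times two multiplicities
  have heX : ∀ u v w, u ≠ w → ∀ p ∈ J s t u v, ∀ q ∈ J s t v w,
      |e v p q| * (mq s t u v * mq s t v w) ≤ X := by
    intro u v w huw p hp q hq
    have huv := g3_ne_of_mem hp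
    have hvw := g3_ne_of_mem hq
    have h1 := he u v w huw p hp q hq
    have h2 : mq s t u v * mq s t v w ≤ (C * μ) * (C * μ) :=
      mul_le_mul (hhi u v huv) (hhi v w hvw) (hm0 v w) (by positivity)
    have h3 : |e v p q| * (mq s t u v * mq s t v w) ≤ δ / (K * μ) * ((C * μ) * (C * μ)) :=
      mul_le_mul h1 h2 (mul_nonneg (hm0 _ _) (hm0 _ _)) (by positivity)
    have h4 : δ / (K * μ) * ((C * μ) * (C * μ)) = X := by
      rw [hX]
      field_simp
    linarith
  -- the row sums
  have hr : ∀ v w, ∀ q ∈ J s t v w, |r q| ≤ C * δ := by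
    intro v w q hq
    rw [← hrow v w q hq]
    have h1 : ∀ u : V, |if u = w then (0 : ℚ) else ∑ p ∈ J s t u v, e v p q| ≤ C * δ / K := by
      intro u
      by_cases huw : u = w
      · rw [if_pos huw, abs_zero]
        positivity
      · rw [if_neg huw]
        by_cases huv : u = v
        · rw [huv, g3_J_self, sum_empty, abs_zero]
          positivity
        · have h2 : |∑ p ∈ J s t u v, e v p q| ≤ ∑ p ∈ J s t u v, δ / (K * μ) :=
            (abs_sum_le_sum_abs _ _).trans (sum_le_sum fun p hp => he u v w huw p hp q hq)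
          rw [sum_const, nsmul_eq_mul] at h2
          have h3 : ((J s t u v).card : ℚ) * (δ / (K * μ)) ≤ C * μ * (δ / (K * μ)) :=
            mul_le_mul_of_nonneg_right (hhi u v huv) (by positivity)
          have h4 : C * μ * (δ / (K * μ)) = C * δ / K := by
            field_simp
          linarith
    calc |∑ u, if u = w then (0 : ℚ) else ∑ p ∈ J s t u v, e v p q|
        ≤ ∑ u : V, |if u = w then (0 : ℚ) else ∑ p ∈ J s t u v, e v p q| :=
          abs_sum_le_sum_abs _ _
      _ ≤ ∑ _u : V, C * δ / K := sum_le_sum fun u _ => h1 u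
      _ = C * δ := by
          rw [sum_const, card_univ, nsmul_eq_mul, ← hKdef]
          field_simp
  have hRs : ∀ u v, u ≠ v → |Rs s t r u v| ≤ K * X := by
    intro u v huv
    have h2 : |Rs s t r u v| ≤ ∑ p ∈ J s t u v, C * δ :=
      (abs_sum_le_sum_abs _ _).trans (sum_le_sum fun p hp => hr u v p hp)
    rw [sum_const, nsmul_eq_mul] at h2
    have h3 : ((J s t u v).card : ℚ) * (C * δ) ≤ C * μ * (C * δ) :=
      mul_le_mul_of_nonneg_right (hhi u v huv) (by positivity)
    have h4 : C * μ * (C * δ) = K * X := by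
      rw [hX]
      field_simp
    linarith
  have hKx : ∀ z u w, z ≠ u → z ≠ w → u ≠ w → |Kx s t e z u w| ≤ X := by
    intro z u w hzu hzw huw
    have h2 : |Kx s t e z u w| ≤ ∑ p ∈ J s t u z, ∑ q ∈ J s t z w, δ / (K * μ) := by
      unfold Kx
      refine (abs_sum_le_sum_abs _ _).trans (sum_le_sum fun p hp => ?_)
      refine (abs_sum_le_sum_abs _ _).trans (sum_le_sum fun q hq => ?_)
      exact he u z w huw p hp q hq
    simp only [sum_const, nsmul_eq_mul] at h2
    have h3 : ((J s t u z).card : ℚ) * (((J s t z w).card : ℚ) * (δ / (K * μ))) ≤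
        (C * μ) * ((C * μ) * (δ / (K * μ))) := by
      have h5 : (((J s t z w).card : ℚ)) ≤ C * μ := hhi z w hzw
      have h6 : (((J s t u z).card : ℚ)) ≤ C * μ := hhi u z hzu.symm
      have h7 : 0 ≤ δ / (K * μ) := by positivity
      have h8 : (0 : ℚ) ≤ ((J s t z w).card : ℚ) := Nat.cast_nonneg _
      exact mul_le_mul h6 (mul_le_mul_of_nonneg_right h5 h7) (mul_nonneg h8 h7) (by positivity)
    have h4 : (C * μ) * ((C * μ) * (δ / (K * μ))) = X := by
      rw [hX]
      field_simp
    linarith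
  -- the type demand
  have hdb : ∀ u v w, u ≠ v → v ≠ w → u ≠ w → |b6d s t k e r u v w| ≤ 4 * X := by
    intro u v w huv hvw huw
    have h1 := b6_sum4_abs huv hvw huw (fun z => Kx s t e z u w) X
      (fun z hzu _ hzw => hKx z u w hzu hzw huw)
    have h2 := b6_sum4_abs huv hvw huw (fun z => Rs s t r z u + Rs s t r w z) (K * X + K * X)
      (fun z hzu _ hzw => (abs_add_le _ _).trans (add_le_add (hRs z u hzu) (hRs w z hzw.symm)))
    rw [← hKdef] at h1 h2
    have hk3 : K - 3 = k - 1 := by rw [hk]; ring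
    rw [hk3] at h1 h2
    unfold b6d
    have h3 : |-(sum4 u v w (fun z => Kx s t e z u w) / k)| ≤ X := by
      rw [abs_neg, abs_div, abs_of_pos hk0, div_le_iff₀ hk0]
      nlinarith
    have h4 : |sum4 u v w (fun z => Rs s t r z u + Rs s t r w z) / (k * (k - 1))| ≤ 3 * X := by
      have hkk : 0 < k * (k - 1) := by positivity
      rw [abs_div, abs_of_pos hkk, div_le_iff₀ hkk]
      have h5 : 2 * K ≤ 3 * k := by linarith
      calc |sum4 u v w fun z => Rs s t r z u + Rs s t r w z| ≤ (k - 1) * (K * X + K * X) := h2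
        _ = (k - 1) * X * (2 * K) := by ring
        _ ≤ (k - 1) * X * (3 * k) := mul_le_mul_of_nonneg_left h5 (by positivity)
        _ = 3 * X * (k * (k - 1)) := by ring
    calc |-(sum4 u v w (fun z => Kx s t e z u w) / k) +
          sum4 u v w (fun z => Rs s t r z u + Rs s t r w z) / (k * (k - 1))|
        ≤ |-(sum4 u v w (fun z => Kx s t e z u w) / k)| +
          |sum4 u v w (fun z => Rs s t r z u + Rs s t r w z) / (k * (k - 1))| := abs_add_le _ _
      _ ≤ X + 3 * X := add_le_add h3 h4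
      _ = 4 * X := by ring
  obtain ⟨T1, Y1, hT1, hY1, hTr, hYr, hTY⟩ := type_level_signed (by omega) (b6d s t k e r)
    (fun u v w => b6d_symm k e hsym r u v w)
    (fun u v huv => b6d_edge k hk (by omega) e hsym r hrow u v huv) (4 * X) hdb (by positivity)
  rw [← hKdef] at hY1
  have hk3 : K - 3 = k - 1 := by rw [hk]; ring
  rw [hk3] at hY1
  -- the weights
  refine ⟨WTof s t k e (fun u v w => P / 12 + T1 u v w),
    WQs s t k e r (fun u v w z => P / (16 * (k - 1)) + Y1 u v w z), ?_, ?_, ?_⟩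
  · intro u v w p hp q hq x hx
    have huv := g3_ne_of_mem hp
    have hvw := g3_ne_of_mem hq
    have hwu := g3_ne_of_mem hx
    have m1 : 0 < mq s t u v := lt_of_lt_of_le hμ (hlo u v huv)
    have m2 : 0 < mq s t v w := lt_of_lt_of_le hμ (hlo v w hvw)
    have m3 : 0 < mq s t w u := lt_of_lt_of_le hμ (hlo w u hwu)
    have h1 := heX u v w hwu.symm p hp q hq
    have h2 := (abs_le.mp (hT1 u v w huv hvw hwu.symm)).1
    have h3 : -X ≤ e v p q * (mq s t u v * mq s t v w) := by
      have h4 : |e v p q * (mq s t u v * mq s t v w)| ≤ X := by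
        rw [abs_mul, abs_of_pos (by positivity : 0 < mq s t u v * mq s t v w)]
        exact h1
      exact (abs_le.mp h4).1
    have h5 : WTof s t k e (fun u v w => P / 12 + T1 u v w) u v w p q x =
        (e v p q * (mq s t u v * mq s t v w) + k * (P / 12 + T1 u v w)) /
          (k * (mq s t u v * mq s t v w * mq s t w u)) := by
      unfold WTof
      field_simp
    rw [h5]
    apply div_nonneg _ (by positivity)
    nlinarith
  · intro u v w z huw hvz p hp q hq x hx y hy
    have huv := g3_ne_of_mem hp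
    have hvw := g3_ne_of_mem hq
    have hwz := g3_ne_of_mem hx
    have hzu := g3_ne_of_mem hy
    have m1 : 0 < mq s t u v := lt_of_lt_of_le hμ (hlo u v huv)
    have m2 : 0 < mq s t v w := lt_of_lt_of_le hμ (hlo v w hvw)
    have m3 : 0 < mq s t w z := lt_of_lt_of_le hμ (hlo w z hwz)
    have m4 : 0 < mq s t z u := lt_of_lt_of_le hμ (hlo z u hzu)
    have h1 := heX u v w huw p hp q hq
    have h3 : -X ≤ e v p q * (mq s t u v * mq s t v w) := by
      have h4 : |e v p q * (mq s t u v * mq s t v w)| ≤ X := by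
        rw [abs_mul, abs_of_pos (by positivity : 0 < mq s t u v * mq s t v w)]
        exact h1
      exact (abs_le.mp h4).1
    have h6 : (k - 1) * Y1 u v w z ≥ -(28 / 3 * X) := by
      have h7 := hY1 u v w z huv hvw hwz hzu huw hvz
      have h8 : -|Y1 u v w z| ≤ Y1 u v w z := neg_abs_le _
      have h9 : (k - 1) * -|Y1 u v w z| ≤ (k - 1) * Y1 u v w z :=
        mul_le_mul_of_nonneg_left h8 hk1.le
      nlinarith
    have h10 : r p * mq s t u v ≤ K * X := by
      have h11 : r p ≤ C * δ := (abs_le.mp (hr u v p hp)).2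
      have h12 : r p * mq s t u v ≤ C * δ * (C * μ) :=
        (mul_le_mul_of_nonneg_right h11 m1.le).trans
          (mul_le_mul_of_nonneg_left (hhi u v huv) (by positivity))
      have h13 : C * δ * (C * μ) = K * X := by
        rw [hX]
        field_simp
      linarith
    have h5 : WQs s t k e r (fun u v w z => P / (16 * (k - 1)) + Y1 u v w z) u v w z p q x y =
        ((k - 1) * (e v p q * (mq s t u v * mq s t v w)) +
          k * (P / 16 + (k - 1) * Y1 u v w z) - r p * mq s t u v) /
          (k * (k - 1) * (mq s t u v * mq s t v w * mq s t w z * mq s t z u)) := by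
      unfold WQs WQof WEof
      field_simp
    rw [h5]
    apply div_nonneg _ (by positivity)
    have h14 : (k - 1) * -X ≤ (k - 1) * (e v p q * (mq s t u v * mq s t v w)) :=
      mul_le_mul_of_nonneg_left h3 hk1.le
    have h15 : k * (P / 16 - 28 / 3 * X) ≤ k * (P / 16 + (k - 1) * Y1 u v w z) :=
      mul_le_mul_of_nonneg_left (by linarith) hk0.le
    have h16 : K * X ≤ 5 / 4 * k * X := by
      apply mul_le_mul_of_nonneg_right _ hX0
      linarith
    have h17 : (k - 1) * X ≤ k * X := mul_le_mul_of_nonneg_right (by linarith) hX0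
    have h18 : k * (300 * X) ≤ k * P := mul_le_mul_of_nonneg_left hXP hk0.le
    have h19 : 0 ≤ k * X := by positivity
    nlinarith
  · intro c
    have hAθ : ∀ u v : V, μ / (2 * C * K) = P / 2 := by
      intro _ _
      rw [hP]
      field_simp
    have h1 := functional_signed k hk (by omega) hm e hsym r hrow (fun _ _ _ => P / 2)
      (fun u v w => P / 12 + T1 u v w) (fun u v w => by rw [hTr u v w])
      (fun u v w z => P / (16 * (k - 1)) + Y1 u v w z) (fun u v w z => by rw [hYr u v w z])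
      (fun u v w huv hvw huw => by
        have h2 := hTY u v w huv hvw huw
        rw [g3_sum4_add, g3_sum4_const huv hvw huw, ← hKdef, hk3]
        unfold b6d at h2
        have h3 : 4 * ((k - 1) * (P / (16 * (k - 1)))) = P / 4 := by
          field_simp
          ring
        linear_combination h2 + h3) c
    rw [h1]
    refine g3_corner_congr _ _ c fun u v w _ _ _ p _ q _ => ?_
    rw [hAθ u v]

end Pool.Agent.Lib.MP_95bb8c_al.GW
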