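import Pool.Agent.Lib.MP_95bb8c_al.GW.Defs

set_option autoImplicit false
set_option linter.unusedSectionVars false

/-!
# From the cost identity for all symmetric costs to a list of cycles
-/

namespace Pool.Agent.Lib.MP_95bb8c_al.GW

open Finset

variable {V E : Type} [Fintype V] [DecidableEq V] [Fintype E] [DecidableEq E]

theorem g1_mem_J {s t : E → V} {u v : V} {p : E} : p ∈ J s t u v ↔
    u ≠ v ∧ ((s p = u ∧ t p = v) ∨ (s p = v ∧ t p = u)) := by
  simp [J]

theorem g1_J_ne {s t : E → V} {u v : V} {p : E} (h : p ∈ J s t u v) : u ≠ v :=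
  (g1_mem_J.mp h).1

theorem g1_J_symm {s t : E → V} {u v : V} {p : E} (h : p ∈ J s t u v) : p ∈ J s t v u := by
  rw [g1_mem_J] at h ⊢
  exact ⟨h.1.symm, h.2.symm⟩

theorem g1_ends {s t : E → V} {u v a b : V} {p : E} (h : p ∈ J s t u v) (h' : p ∈ J s t a b) :
    (u = a ∧ v = b) ∨ (u = b ∧ v = a) := by
  rw [g1_mem_J] at h h'
  rcases h with ⟨-, ⟨h1, h2⟩ | ⟨h1, h2⟩⟩ <;> rcases h' with ⟨-, ⟨h3, h4⟩ | ⟨h3, h4⟩⟩
  · exact Or.inl ⟨h1.symm.trans h3, h2.symm.trans h4⟩
  · exact Or.inr ⟨h1.symm.trans h3, h2.symm.trans h4⟩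
  · exact Or.inr ⟨h2.symm.trans h4, h1.symm.trans h3⟩
  · exact Or.inl ⟨h2.symm.trans h4, h1.symm.trans h3⟩

theorem g1_mem_cut {s t : E → V} {u v y : V} {p : E} (h : p ∈ J s t u v) :
    p ∈ cut s t {y} ↔ (y = u ∨ y = v) := by
  rw [g1_mem_J] at h
  simp only [cut, Finset.mem_filter, Finset.mem_univ, true_and, Finset.mem_singleton]
  obtain ⟨huv, ⟨h1, h2⟩ | ⟨h1, h2⟩⟩ := h
  · rw [h1, h2]
    constructor
    · intro h
      by_contra hc
      push Not at hc
      exact h ⟨fun h3 => absurd h3.symm hc.1, fun h3 => absurd h3.symm hc.2⟩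
    · rintro (rfl | rfl) h
      · exact huv (h.mp rfl).symm
      · exact huv (h.mpr rfl)
  · rw [h1, h2]
    constructor
    · intro h
      by_contra hc
      push Not at hc
      exact h ⟨fun h3 => absurd h3.symm hc.2, fun h3 => absurd h3.symm hc.1⟩
    · rintro (rfl | rfl) h
      · exact huv (h.mpr rfl).symm
      · exact huv (h.mp rfl)

/-- Each edge at `v` joins `v` to some other vertex. -/
theorem g1_exists_J {s t : E → V} (hl : ∀ e, s e ≠ t e) {v : V} {e : E}
    (he : e ∈ cut s t {v}) : ∃ u, e ∈ J s t u v := by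
  simp only [cut, Finset.mem_filter, Finset.mem_univ, true_and, Finset.mem_singleton] at he
  by_cases h : s e = v
  · exact ⟨t e, g1_mem_J.mpr ⟨fun h' => hl e (h.trans h'.symm), Or.inr ⟨h, rfl⟩⟩⟩
  · have h' : t e = v := by
      by_contra h2
      exact he ⟨fun h3 => absurd h3 h, fun h3 => absurd h3 h2⟩
    exact ⟨s e, g1_mem_J.mpr ⟨h, Or.inl ⟨rfl, h'⟩⟩⟩

theorem g1_ne {s t : E → V} {u v w : V} {p q : E} (hp : p ∈ J s t u v) (hq : q ∈ J s t v w)
    (huw : u ≠ w) : p ≠ q := by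
  rintro rfl
  rcases g1_ends hp hq with ⟨h1, h2⟩ | ⟨h1, -⟩
  · exact g1_J_ne hp h1
  · exact huw h1

/-- The cost of one corner. -/
def g1c (v : V) (e f : E) : V → E → E → ℚ := fun v' e' f' =>
  if v' = v ∧ ((e' = e ∧ f' = f) ∨ (e' = f ∧ f' = e)) then 1 else 0

theorem g1c_symm (v : V) (e f : E) (v' : V) (e' f' : E) :
    g1c v e f v' e' f' = g1c v e f v' f' e' := by
  unfold g1c
  congr 1
  apply propext
  constructor
  · rintro ⟨h, h1 | h1⟩
    · exact ⟨h, Or.inr ⟨h1.2, h1.1⟩⟩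
    · exact ⟨h, Or.inl ⟨h1.2, h1.1⟩⟩
  · rintro ⟨h, h1 | h1⟩
    · exact ⟨h, Or.inr ⟨h1.2, h1.1⟩⟩
    · exact ⟨h, Or.inl ⟨h1.2, h1.1⟩⟩

/-- The corner is determined by its two edges. -/
theorem g1_corner {s t : E → V} {a v b u v' w : V} {e f p q : E} (he : e ∈ J s t a v)
    (hf : f ∈ J s t v b) (hab : a ≠ b) (hp : p ∈ J s t u v') (hq : q ∈ J s t v' w)
    (h : (p = e ∧ q = f) ∨ (p = f ∧ q = e)) : v' = v := by
  by_contra hne
  rcases h with ⟨rfl, rfl⟩ | ⟨rfl, rfl⟩
  · rcases g1_ends hp he with ⟨-, h1⟩ | ⟨-, h1⟩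
    · exact hne h1
    · rcases g1_ends hq hf with ⟨h2, -⟩ | ⟨h2, -⟩
      · exact hne h2
      · exact hab (h1.symm.trans h2)
  · rcases g1_ends hp hf with ⟨-, h1⟩ | ⟨-, h1⟩
    · rcases g1_ends hq he with ⟨h2, -⟩ | ⟨h2, -⟩
      · exact hab (h2.symm.trans h1)
      · exact hne h2
    · exact hne h1

theorem g1c_eq {s t : E → V} {a v b u v' w : V} {e f p q : E} (he : e ∈ J s t a v)
    (hf : f ∈ J s t v b) (hab : a ≠ b) (hp : p ∈ J s t u v') (hq : q ∈ J s t v' w) :
    g1c v e f v' p q = if (p = e ∧ q = f) ∨ (p = f ∧ q = e) then 1 else 0 := by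
  unfold g1c
  by_cases h : (p = e ∧ q = f) ∨ (p = f ∧ q = e)
  · rw [if_pos ⟨g1_corner he hf hab hp hq h, h⟩, if_pos h]
  · rw [if_neg fun h' => h h'.2, if_neg h]

/-- Edges with a common end which are not parallel are not disjoint. -/
theorem g1_opp {s t : E → V} {a v b u v' w z : V} {e f p r : E} (he : e ∈ J s t a v)
    (hf : f ∈ J s t v b) (hp : p ∈ J s t u v') (hr : r ∈ J s t w z)
    (h1 : u ≠ w) (h2 : u ≠ z) (h3 : v' ≠ w) (h4 : v' ≠ z) :
    ¬ ((p = e ∧ r = f) ∨ (p = f ∧ r = e)) := by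
  rintro (⟨rfl, rfl⟩ | ⟨rfl, rfl⟩)
  · rcases g1_ends hp he with ⟨-, h5⟩ | ⟨h5, -⟩ <;>
      rcases g1_ends hr hf with ⟨h6, -⟩ | ⟨-, h6⟩
    · exact h3 (h5.trans h6.symm)
    · exact h4 (h5.trans h6.symm)
    · exact h1 (h5.trans h6.symm)
    · exact h2 (h5.trans h6.symm)
  · rcases g1_ends hp hf with ⟨h5, -⟩ | ⟨-, h5⟩ <;>
      rcases g1_ends hr he with ⟨-, h6⟩ | ⟨h6, -⟩
    · exact h2 (h5.trans h6.symm)
    · exact h1 (h5.trans h6.symm)
    · exact h4 (h5.trans h6.symm)
    · exact h3 (h5.trans h6.symm)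

theorem g1_tri {s t : E → V} {a v b u v' w : V} {e f p q r : E} (he : e ∈ J s t a v)
    (hf : f ∈ J s t v b) (hab : a ≠ b) (hp : p ∈ J s t u v') (hq : q ∈ J s t v' w)
    (hr : r ∈ J s t w u) :
    g1c v e f v' p q + g1c v e f w q r + g1c v e f u r p =
      if e ∈ ({p, q, r} : Finset E) ∧ f ∈ ({p, q, r} : Finset E) then 1 else 0 := by
  have hef : e ≠ f := g1_ne he hf hab
  have huv := g1_J_ne hp
  have hvw := g1_J_ne hq
  have hwu := g1_J_ne hr
  have hpq : p ≠ q := g1_ne hp hq hwu.symm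
  have hqr : q ≠ r := g1_ne hq hr huv.symm
  have hrp : r ≠ p := g1_ne hr hp hvw.symm
  rw [g1c_eq he hf hab hp hq, g1c_eq he hf hab hq hr, g1c_eq he hf hab hr hp]
  simp only [Finset.mem_insert, Finset.mem_singleton]
  by_cases h1 : e = p
  · subst h1
    by_cases h2 : f = q
    · subst h2; simp [hef, hef.symm, hqr, hqr.symm, hrp, hrp.symm]
    · by_cases h3 : f = r
      · subst h3; simp [hef, hef.symm, hpq, hpq.symm, hqr, hqr.symm]
      · simp [hef, hef.symm, hpq, hpq.symm, hrp, hrp.symm, h2, h3, Ne.symm h2, Ne.symm h3]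
  · by_cases h4 : e = q
    · subst h4
      by_cases h2 : f = p
      · subst h2; simp [hef, hef.symm, hqr, hqr.symm, hrp, hrp.symm]
      · by_cases h3 : f = r
        · subst h3; simp [hef, hef.symm, hpq, hpq.symm, hrp, hrp.symm]
        · simp [hef, hef.symm, hpq, hpq.symm, hqr, hqr.symm, h2, h3, Ne.symm h2, Ne.symm h3]
    · by_cases h5 : e = r
      · subst h5
        by_cases h2 : f = p
        · subst h2; simp [hef, hef.symm, hpq, hpq.symm, hqr, hqr.symm]
        · by_cases h3 : f = q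
          · subst h3; simp [hef, hef.symm, hpq, hpq.symm, hrp, hrp.symm]
          · simp [hef, hef.symm, hrp, hrp.symm, hqr, hqr.symm, h2, h3, Ne.symm h2, Ne.symm h3]
      · simp [h1, h4, h5, Ne.symm h1, Ne.symm h4, Ne.symm h5]

theorem g1_quad {s t : E → V} {a v b u v' w z : V} {e f p q r x : E} (he : e ∈ J s t a v)
    (hf : f ∈ J s t v b) (hab : a ≠ b) (huw : u ≠ w) (hvz : v' ≠ z) (hp : p ∈ J s t u v')
    (hq : q ∈ J s t v' w) (hr : r ∈ J s t w z) (hx : x ∈ J s t z u) :
    g1c v e f v' p q + g1c v e f w q r + g1c v e f z r x + g1c v e f u x p =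
      if e ∈ ({p, q, r, x} : Finset E) ∧ f ∈ ({p, q, r, x} : Finset E) then 1 else 0 := by
  have hef : e ≠ f := g1_ne he hf hab
  have huv := g1_J_ne hp
  have hvw := g1_J_ne hq
  have hwz := g1_J_ne hr
  have hzu := g1_J_ne hx
  have hpq : p ≠ q := g1_ne hp hq huw
  have hqr : q ≠ r := g1_ne hq hr hvz
  have hrx : r ≠ x := g1_ne hr hx huw.symm
  have hxp : x ≠ p := g1_ne hx hp hvz.symm
  have hpr : p ≠ r := by
    rintro rfl
    rcases g1_ends hp hr with ⟨h, -⟩ | ⟨h, -⟩
    · exact huw h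
    · exact hzu h.symm
  have hqx : q ≠ x := by
    rintro rfl
    rcases g1_ends hq hx with ⟨h, -⟩ | ⟨h, -⟩
    · exact hvz h
    · exact huv h.symm
  have ho1 := g1_opp he hf hp hr huw hzu.symm hvw hvz
  have ho2 := g1_opp he hf hq hx hvz huv.symm hwz huw.symm
  rw [g1c_eq he hf hab hp hq, g1c_eq he hf hab hq hr, g1c_eq he hf hab hr hx,
    g1c_eq he hf hab hx hp]
  simp only [Finset.mem_insert, Finset.mem_singleton]
  have n1 := hpq.symm
  have n2 := hqr.symm
  have n3 := hrx.symm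
  have n4 := hxp.symm
  have n5 := hpr.symm
  have n6 := hqx.symm
  have n7 := hef.symm
  by_cases h1 : e = p
  · subst h1
    by_cases h2 : f = q
    · subst h2; simp [*]
    · by_cases h3 : f = x
      · subst h3; simp [*]
      · by_cases h4 : f = r
        · exact absurd (Or.inl ⟨rfl, h4.symm⟩) ho1
        · simp [*, Ne.symm h2, Ne.symm h3, Ne.symm h4]
  · by_cases h2 : e = q
    · subst h2
      by_cases h3 : f = p
      · subst h3; simp [*]
      · by_cases h4 : f = r
        · subst h4; simp [*]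
        · by_cases h5 : f = x
          · exact absurd (Or.inl ⟨rfl, h5.symm⟩) ho2
          · simp [*, Ne.symm h3, Ne.symm h4, Ne.symm h5]
    · by_cases h3 : e = r
      · subst h3
        by_cases h4 : f = q
        · subst h4; simp [*]
        · by_cases h5 : f = x
          · subst h5; simp [*]
          · by_cases h6 : f = p
            · exact absurd (Or.inr ⟨h6.symm, rfl⟩) ho1
            · simp [*, Ne.symm h4, Ne.symm h5, Ne.symm h6]
      · by_cases h4 : e = x
        · subst h4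
          by_cases h5 : f = r
          · subst h5; simp [*]
          · by_cases h6 : f = p
            · subst h6; simp [*]
            · by_cases h7 : f = q
              · exact absurd (Or.inr ⟨h7.symm, rfl⟩) ho2
              · simp [*, Ne.symm h5, Ne.symm h6, Ne.symm h7]
        · simp [*, Ne.symm h1, Ne.symm h2, Ne.symm h3, Ne.symm h4]

/-! ### Degrees of triangles and 4-cycles -/

theorem g1_card {s t : E → V} (X : Finset E) (y : V) :
    (X ∩ cut s t {y}).card = ∑ e ∈ X, if e ∈ cut s t {y} then 1 else 0 := by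
  rw [← Finset.filter_mem_eq_inter, Finset.card_filter]

theorem g1_deg_two {s t : E → V} {u v : V} {p q : E} (hp : p ∈ J s t u v) (hq : q ∈ J s t u v)
    (hpq : p ≠ q) : Deg02 s t {p, q} := by
  intro y
  rw [g1_card, Finset.sum_pair hpq]
  simp only [g1_mem_cut hp, g1_mem_cut hq]
  by_cases h : y = u ∨ y = v
  · right; simp [h]
  · left; simp [h]

theorem g1_deg_tri {s t : E → V} {u v w : V} {p q r : E} (hp : p ∈ J s t u v)
    (hq : q ∈ J s t v w) (hr : r ∈ J s t w u) : Deg02 s t {p, q, r} := by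
  have huv := g1_J_ne hp
  have hvw := g1_J_ne hq
  have hwu := g1_J_ne hr
  have hpq : p ≠ q := g1_ne hp hq hwu.symm
  have hqr : q ≠ r := g1_ne hq hr huv.symm
  have hrp : r ≠ p := g1_ne hr hp hvw.symm
  intro y
  rw [g1_card, Finset.sum_insert (by simp [hpq, hrp.symm]), Finset.sum_pair hqr]
  simp only [g1_mem_cut hp, g1_mem_cut hq, g1_mem_cut hr]
  by_cases h1 : y = u
  · subst h1; right; simp [huv, hwu.symm]
  · by_cases h2 : y = v
    · subst h2; right; simp [h1, hvw]
    · by_cases h3 : y = w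
      · subst h3; right; simp [h1, h2]
      · left; simp [h1, h2, h3]

theorem g1_deg_quad {s t : E → V} {u v w z : V} {p q r x : E} (huw : u ≠ w) (hvz : v ≠ z)
    (hp : p ∈ J s t u v) (hq : q ∈ J s t v w) (hr : r ∈ J s t w z) (hx : x ∈ J s t z u) :
    Deg02 s t {p, q, r, x} := by
  have huv := g1_J_ne hp
  have hvw := g1_J_ne hq
  have hwz := g1_J_ne hr
  have hzu := g1_J_ne hx
  have hpq : p ≠ q := g1_ne hp hq huw
  have hqr : q ≠ r := g1_ne hq hr hvz
  have hrx : r ≠ x := g1_ne hr hx huw.symm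
  have hxp : x ≠ p := g1_ne hx hp hvz.symm
  have hpr : p ≠ r := by
    rintro rfl
    rcases g1_ends hp hr with ⟨h, -⟩ | ⟨h, -⟩
    · exact huw h
    · exact hzu h.symm
  have hqx : q ≠ x := by
    rintro rfl
    rcases g1_ends hq hx with ⟨h, -⟩ | ⟨h, -⟩
    · exact hvz h
    · exact huv h.symm
  intro y
  rw [g1_card, Finset.sum_insert (by simp [hpq, hpr, hxp.symm]),
    Finset.sum_insert (by simp [hqr, hqx]), Finset.sum_pair hrx]
  simp only [g1_mem_cut hp, g1_mem_cut hq, g1_mem_cut hr, g1_mem_cut hx]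
  by_cases h1 : y = u
  · subst h1; right; simp [huv, huw, hzu.symm]
  · by_cases h2 : y = v
    · subst h2; right; simp [h1, hvw, hvz]
    · by_cases h3 : y = w
      · subst h3; right; simp [h1, h2, hwz]
      · by_cases h4 : y = z
        · subst h4; right; simp [h1, h2, h3]
        · left; simp [h1, h2, h3, h4]

/-! ### The sums -/

theorem g1_sum_mem (A : Finset E) (g : E → ℚ) :
    ∑ p ∈ A, g p = ∑ p, if p ∈ A then g p else 0 := by
  rw [Finset.sum_ite_mem, Finset.univ_inter]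

theorem g1_ite_sum {ι : Type} (S : Finset ι) (P : Prop) [Decidable P] (g : ι → ℚ) :
    (if P then ∑ i ∈ S, g i else 0) = ∑ i ∈ S, if P then g i else 0 := by
  split_ifs
  · rfl
  · rw [Finset.sum_const_zero]

theorem g1_totT (s t : E → V) (WT : V → V → V → E → E → E → ℚ) (c : V → E → E → ℚ) :
    totT s t WT c = ∑ i : V × V × V × E × E × E,
      if i.2.2.2.1 ∈ J s t i.1 i.2.1 ∧ i.2.2.2.2.1 ∈ J s t i.2.1 i.2.2.1 ∧
        i.2.2.2.2.2 ∈ J s t i.2.2.1 i.1 then
        WT i.1 i.2.1 i.2.2.1 i.2.2.2.1 i.2.2.2.2.1 i.2.2.2.2.2 *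
          (c i.2.1 i.2.2.2.1 i.2.2.2.2.1 + c i.2.2.1 i.2.2.2.2.1 i.2.2.2.2.2 +
            c i.1 i.2.2.2.2.2 i.2.2.2.1) else 0 := by
  unfold totT
  simp only [Fintype.sum_prod_type]
  refine Finset.sum_congr rfl fun u _ => Finset.sum_congr rfl fun v _ =>
    Finset.sum_congr rfl fun w _ => ?_
  rw [g1_sum_mem]
  refine Finset.sum_congr rfl fun p _ => ?_
  rw [g1_sum_mem, g1_ite_sum]
  refine Finset.sum_congr rfl fun q _ => ?_
  rw [g1_sum_mem, g1_ite_sum, g1_ite_sum]
  refine Finset.sum_congr rfl fun r _ => ?_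
  by_cases h1 : p ∈ J s t u v <;> by_cases h2 : q ∈ J s t v w <;>
    by_cases h3 : r ∈ J s t w u <;> simp [h1, h2, h3]

theorem g1_totQ (s t : E → V) (WQ : V → V → V → V → E → E → E → E → ℚ)
    (c : V → E → E → ℚ) :
    totQ s t WQ c = ∑ i : V × V × V × V × E × E × E × E,
      if (i.1 ≠ i.2.2.1 ∧ i.2.1 ≠ i.2.2.2.1) ∧ i.2.2.2.2.1 ∈ J s t i.1 i.2.1 ∧
        i.2.2.2.2.2.1 ∈ J s t i.2.1 i.2.2.1 ∧ i.2.2.2.2.2.2.1 ∈ J s t i.2.2.1 i.2.2.2.1 ∧
        i.2.2.2.2.2.2.2 ∈ J s t i.2.2.2.1 i.1 then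
        WQ i.1 i.2.1 i.2.2.1 i.2.2.2.1 i.2.2.2.2.1 i.2.2.2.2.2.1 i.2.2.2.2.2.2.1
          i.2.2.2.2.2.2.2 *
          (c i.2.1 i.2.2.2.2.1 i.2.2.2.2.2.1 + c i.2.2.1 i.2.2.2.2.2.1 i.2.2.2.2.2.2.1 +
            c i.2.2.2.1 i.2.2.2.2.2.2.1 i.2.2.2.2.2.2.2 +
              c i.1 i.2.2.2.2.2.2.2 i.2.2.2.2.1) else 0 := by
  unfold totQ
  simp only [Fintype.sum_prod_type]
  refine Finset.sum_congr rfl fun u _ => Finset.sum_congr rfl fun v _ =>
    Finset.sum_congr rfl fun w _ => Finset.sum_congr rfl fun z _ => ?_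
  have h0 : ∀ A : ℚ, (if u = w ∨ v = z then 0 else A) = if u ≠ w ∧ v ≠ z then A else 0 := by
    intro A
    by_cases h1 : u = w <;> by_cases h2 : v = z <;> simp [h1, h2]
  rw [h0, g1_sum_mem, g1_ite_sum]
  refine Finset.sum_congr rfl fun p _ => ?_
  rw [g1_sum_mem, g1_ite_sum, g1_ite_sum]
  refine Finset.sum_congr rfl fun q _ => ?_
  rw [g1_sum_mem, g1_ite_sum, g1_ite_sum, g1_ite_sum]
  refine Finset.sum_congr rfl fun r _ => ?_
  rw [g1_sum_mem, g1_ite_sum, g1_ite_sum, g1_ite_sum, g1_ite_sum]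
  refine Finset.sum_congr rfl fun x _ => ?_
  by_cases h : u ≠ w ∧ v ≠ z <;> by_cases h1 : p ∈ J s t u v <;> by_cases h2 : q ∈ J s t v w <;>
    by_cases h3 : r ∈ J s t w z <;> by_cases h4 : x ∈ J s t z u <;> simp [h, h1, h2, h3, h4]

/-- The corner sum of the cost of one corner. -/
theorem g1_corner_sum {s t : E → V} {a v b : V} {e f : E} (he : e ∈ J s t a v)
    (hf : f ∈ J s t v b) (hab : a ≠ b) (G : V → E → E → ℚ) (hG : G v f e = G v e f) :
    corner s t (fun _ v _ p q => G v p q) (g1c v e f) = 2 * G v e f := by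
  have hef : e ≠ f := g1_ne he hf hab
  have hterm : ∀ u v' w, (if u = w then 0 else ∑ p ∈ J s t u v', ∑ q ∈ J s t v' w,
      G v' p q * g1c v e f v' p q) =
      (if u = a then if v' = v then if w = b then G v e f else 0 else 0 else 0) +
        (if u = b then if v' = v then if w = a then G v f e else 0 else 0 else 0) := by
    intro u v' w
    by_cases huw : u = w
    · subst huw
      rw [if_pos rfl]
      by_cases h1 : u = a
      · subst h1; simp [hab]
      · by_cases h2 : u = b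
        · subst h2; simp [h1]
        · simp [h1, h2]
    rw [if_neg huw]
    by_cases h1 : u = a ∧ v' = v ∧ w = b
    · obtain ⟨rfl, rfl, rfl⟩ := h1
      rw [Finset.sum_eq_single_of_mem e he, Finset.sum_eq_single_of_mem f hf]
      · simp [g1c, huw, hab]
      · intro q _ hqf
        simp [g1c, hqf, hef]
      · intro p hp hpe
        refine Finset.sum_eq_zero fun q hq => ?_
        have hpf : p ≠ f := by
          rintro rfl
          rcases g1_ends hp hf with ⟨h, -⟩ | ⟨h, -⟩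
          · exact g1_J_ne he h
          · exact hab h
        simp [g1c, hpe, hpf]
    · by_cases h2 : u = b ∧ v' = v ∧ w = a
      · obtain ⟨rfl, rfl, rfl⟩ := h2
        rw [Finset.sum_eq_single_of_mem f (g1_J_symm hf),
          Finset.sum_eq_single_of_mem e (g1_J_symm he)]
        · simp [g1c, huw, hab]
        · intro q _ hqe
          simp [g1c, hqe, hef.symm]
        · intro p hp hpf
          refine Finset.sum_eq_zero fun q hq => ?_
          have hpe : p ≠ e := by
            rintro rfl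
            rcases g1_ends hp he with ⟨h, -⟩ | ⟨h, -⟩
            · exact hab h.symm
            · exact g1_J_ne hf h.symm
          simp [g1c, hpe, hpf]
      · have hR : (if u = a then if v' = v then if w = b then G v e f else 0 else 0 else 0) +
            (if u = b then if v' = v then if w = a then G v f e else 0 else 0 else 0) = 0 := by
          have h3 : (if u = a then if v' = v then if w = b then G v e f else 0 else 0 else 0)
              = 0 := by
            by_cases h4 : u = a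
            · by_cases h5 : v' = v
              · by_cases h6 : w = b
                · exact absurd ⟨h4, h5, h6⟩ h1
                · simp [h6]
              · simp [h5]
            · simp [h4]
          have h3' : (if u = b then if v' = v then if w = a then G v f e else 0 else 0 else 0)
              = 0 := by
            by_cases h4 : u = b
            · by_cases h5 : v' = v
              · by_cases h6 : w = a
                · exact absurd ⟨h4, h5, h6⟩ h2
                · simp [h6]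
              · simp [h5]
            · simp [h4]
          rw [h3, h3', add_zero]
        rw [hR]
        refine Finset.sum_eq_zero fun p hp => Finset.sum_eq_zero fun q hq => ?_
        rw [g1c_eq he hf hab hp hq]
        have hn : ¬ ((p = e ∧ q = f) ∨ (p = f ∧ q = e)) := by
          intro h
          have hv := g1_corner he hf hab hp hq h
          subst hv
          rcases h with ⟨rfl, rfl⟩ | ⟨rfl, rfl⟩
          · apply h1
            refine ⟨?_, rfl, ?_⟩
            · rcases g1_ends hp he with ⟨h, -⟩ | ⟨-, h⟩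
              · exact h
              · exact absurd h.symm (g1_J_ne he)
            · rcases g1_ends hq hf with ⟨-, h⟩ | ⟨h, -⟩
              · exact h
              · exact absurd h (g1_J_ne hf)
          · apply h2
            refine ⟨?_, rfl, ?_⟩
            · rcases g1_ends hp hf with ⟨-, h⟩ | ⟨h, -⟩
              · exact absurd h.symm (by
                  intro h'
                  exact g1_J_ne hf h'.symm)
              · exact h
            · rcases g1_ends hq he with ⟨h, -⟩ | ⟨-, h⟩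
              · exact absurd h.symm (g1_J_ne he)
              · exact h
        rw [if_neg hn, mul_zero]
  unfold corner
  simp only [hterm, Finset.sum_add_distrib, Finset.sum_ite_eq', Finset.mem_univ, if_true]
  rw [hG]
  simp only [← g1_ite_sum, Finset.sum_ite_eq', Finset.mem_univ, if_true]
  ring

/-! ### Parallel pairs -/

theorem g1_npar {s t : E → V} {u v' w a v : V} {p q : E} (hp : p ∈ J s t u v')
    (hq : q ∈ J s t v' w) (huw : u ≠ w) (h1 : p ∈ J s t a v) (h2 : q ∈ J s t a v) : False := by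
  have hav := g1_J_ne h1
  rcases g1_ends hp h1 with ⟨h3, h4⟩ | ⟨h3, h4⟩ <;> rcases g1_ends hq h2 with ⟨h5, h6⟩ | ⟨h5, h6⟩
  · exact hav (h5.symm.trans h4)
  · exact huw (h3.trans h6.symm)
  · exact huw (h3.trans h6.symm)
  · exact hav (h4.symm.trans h5)

theorem g1_npar' {s t : E → V} {u v' w z a v : V} {p r : E} (hp : p ∈ J s t u v')
    (hr : r ∈ J s t w z) (h1 : u ≠ w) (h2 : u ≠ z) (h3 : p ∈ J s t a v) (h4 : r ∈ J s t a v) :
    False := by
  rcases g1_ends hp h3 with ⟨h5, h6⟩ | ⟨h5, h6⟩ <;> rcases g1_ends hr h4 with ⟨h7, h8⟩ | ⟨h7, h8⟩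
  · exact h1 (h5.trans h7.symm)
  · exact h2 (h5.trans h8.symm)
  · exact h2 (h5.trans h8.symm)
  · exact h1 (h5.trans h7.symm)

theorem g1_tri_par {s t : E → V} {u v' w a v : V} {p q r e f : E} (hef : e ≠ f)
    (he : e ∈ J s t a v) (hf : f ∈ J s t a v) (hp : p ∈ J s t u v')
    (hq : q ∈ J s t v' w) (hr : r ∈ J s t w u) :
    ¬ (e ∈ ({p, q, r} : Finset E) ∧ f ∈ ({p, q, r} : Finset E)) := by
  have huv := g1_J_ne hp
  have hvw := g1_J_ne hq
  have hwu := g1_J_ne hr
  simp only [Finset.mem_insert, Finset.mem_singleton]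
  rintro ⟨rfl | rfl | rfl, rfl | rfl | rfl⟩
  · exact hef rfl
  · exact g1_npar hp hq hwu.symm he hf
  · exact g1_npar hr hp hvw.symm hf he
  · exact g1_npar hp hq hwu.symm hf he
  · exact hef rfl
  · exact g1_npar hq hr huv.symm he hf
  · exact g1_npar hr hp hvw.symm he hf
  · exact g1_npar hq hr huv.symm hf he
  · exact hef rfl

theorem g1_quad_par {s t : E → V} {u v' w z a v : V} {p q r x e f : E} (hef : e ≠ f)
    (he : e ∈ J s t a v) (hf : f ∈ J s t a v) (huw : u ≠ w) (hvz : v' ≠ z) (hp : p ∈ J s t u v')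
    (hq : q ∈ J s t v' w) (hr : r ∈ J s t w z) (hx : x ∈ J s t z u) :
    ¬ (e ∈ ({p, q, r, x} : Finset E) ∧ f ∈ ({p, q, r, x} : Finset E)) := by
  have huv := g1_J_ne hp
  have hvw := g1_J_ne hq
  have hwz := g1_J_ne hr
  have hzu := g1_J_ne hx
  simp only [Finset.mem_insert, Finset.mem_singleton]
  rintro ⟨rfl | rfl | rfl | rfl, rfl | rfl | rfl | rfl⟩
  · exact hef rfl
  · exact g1_npar hp hq huw he hf
  · exact g1_npar' hp hr huw hzu.symm he hf
  · exact g1_npar hx hp hvz.symm hf he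
  · exact g1_npar hp hq huw hf he
  · exact hef rfl
  · exact g1_npar hq hr hvz he hf
  · exact g1_npar' hq hx hvz huv.symm he hf
  · exact g1_npar' hp hr huw hzu.symm hf he
  · exact g1_npar hq hr hvz hf he
  · exact hef rfl
  · exact g1_npar hr hx huw.symm he hf
  · exact g1_npar hx hp hvz.symm he hf
  · exact g1_npar' hq hx hvz huv.symm hf he
  · exact g1_npar hr hx huw.symm hf he
  · exact hef rfl

/-- **G1.** From the cost identity to a list of cycles. -/
theorem cover {s t : E → V} (hl : ∀ e, s e ≠ t e) (lam : ℚ) (hlam : 0 ≤ lam)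
    (κ : V → E → E → ℚ) (hsym : ∀ v e f, κ v e f = κ v f e)
    (WT : V → V → V → E → E → E → ℚ)
    (hWT : ∀ u v w, ∀ p ∈ J s t u v, ∀ q ∈ J s t v w, ∀ r ∈ J s t w u, 0 ≤ WT u v w p q r)
    (WQ : V → V → V → V → E → E → E → E → ℚ)
    (hWQ : ∀ u v w z, u ≠ w → v ≠ z → ∀ p ∈ J s t u v, ∀ q ∈ J s t v w, ∀ r ∈ J s t w z,
      ∀ x ∈ J s t z u, 0 ≤ WQ u v w z p q r x)
    (hH : ∀ c : V → E → E → ℚ, (∀ v e f, c v e f = c v f e) →
      totT s t WT c + totQ s t WQ c = corner s t (fun _ v _ p q => lam + κ v p q) c)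
    (hpar : ∀ u v, ∀ e ∈ J s t u v, ∀ f ∈ J s t u v, κ v e f = 0)
    (hrow : ∀ v, ∀ e ∈ cut s t {v}, ∑ f ∈ (cut s t {v}).erase e, (lam + κ v e f) = 1) :
    ∃ (L : List (Finset E)) (N : ℕ), 0 < N ∧ (∀ C ∈ L, IsCycle s t C) ∧
      ∀ v, ∀ e ∈ cut s t {v}, ∀ f ∈ cut s t {v},
        ((L.countP fun C => e ∈ C ∧ f ∈ C : ℕ) : ℚ) =
          N * (if e = f then 1 else lam + κ v e f) := by
  classical
  let W1 : V × V × V × E × E × E → ℚ := fun i =>
    if i.2.2.2.1 ∈ J s t i.1 i.2.1 ∧ i.2.2.2.2.1 ∈ J s t i.2.1 i.2.2.1 ∧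
      i.2.2.2.2.2 ∈ J s t i.2.2.1 i.1 then
      WT i.1 i.2.1 i.2.2.1 i.2.2.2.1 i.2.2.2.2.1 i.2.2.2.2.2 / 2 else 0
  let W2 : V × V × V × V × E × E × E × E → ℚ := fun i =>
    if (i.1 ≠ i.2.2.1 ∧ i.2.1 ≠ i.2.2.2.1) ∧ i.2.2.2.2.1 ∈ J s t i.1 i.2.1 ∧
      i.2.2.2.2.2.1 ∈ J s t i.2.1 i.2.2.1 ∧ i.2.2.2.2.2.2.1 ∈ J s t i.2.2.1 i.2.2.2.1 ∧
      i.2.2.2.2.2.2.2 ∈ J s t i.2.2.2.1 i.1 then
      WQ i.1 i.2.1 i.2.2.1 i.2.2.2.1 i.2.2.2.2.1 i.2.2.2.2.2.1 i.2.2.2.2.2.2.1
        i.2.2.2.2.2.2.2 / 2 else 0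
  let W3 : E × E → ℚ := fun i =>
    if i.1 ≠ i.2 ∧ ∃ u v, i.1 ∈ J s t u v ∧ i.2 ∈ J s t u v then lam / 2 else 0
  let X1 : V × V × V × E × E × E → Finset E := fun i => {i.2.2.2.1, i.2.2.2.2.1, i.2.2.2.2.2}
  let X2 : V × V × V × V × E × E × E × E → Finset E := fun i =>
    {i.2.2.2.2.1, i.2.2.2.2.2.1, i.2.2.2.2.2.2.1, i.2.2.2.2.2.2.2}
  let X3 : E × E → Finset E := fun i => {i.1, i.2}
  let W : (V × V × V × E × E × E) ⊕ (V × V × V × V × E × E × E × E) ⊕ (E × E) → ℚ :=
    Sum.elim W1 (Sum.elim W2 W3)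
  let X : (V × V × V × E × E × E) ⊕ (V × V × V × V × E × E × E × E) ⊕ (E × E) → Finset E :=
    Sum.elim X1 (Sum.elim X2 X3)
  have hW : ∀ k, 0 ≤ W k := by
    rintro (i | i | i)
    · change 0 ≤ W1 i
      simp only [W1]
      split_ifs with h
      · exact div_nonneg (hWT _ _ _ _ h.1 _ h.2.1 _ h.2.2) (by norm_num)
      · exact le_rfl
    · change 0 ≤ W2 i
      simp only [W2]
      split_ifs with h
      · exact div_nonneg (hWQ _ _ _ _ h.1.1 h.1.2 _ h.2.1 _ h.2.2.1 _ h.2.2.2.1 _ h.2.2.2.2)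
          (by norm_num)
      · exact le_rfl
    · change 0 ≤ W3 i
      simp only [W3]
      split_ifs with h
      · exact div_nonneg hlam (by norm_num)
      · exact le_rfl
  have hX : ∀ k, W k ≠ 0 → Deg02 s t (X k) := by
    rintro (i | i | i) hi
    · change W1 i ≠ 0 at hi
      change Deg02 s t (X1 i)
      simp only [W1] at hi
      split_ifs at hi with h
      · exact g1_deg_tri h.1 h.2.1 h.2.2
      · exact absurd rfl hi
    · change W2 i ≠ 0 at hi
      change Deg02 s t (X2 i)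
      simp only [W2] at hi
      split_ifs at hi with h
      · exact g1_deg_quad h.1.1 h.1.2 h.2.1 h.2.2.1 h.2.2.2.1 h.2.2.2.2
      · exact absurd rfl hi
    · change W3 i ≠ 0 at hi
      change Deg02 s t (X3 i)
      simp only [W3] at hi
      split_ifs at hi with h
      · obtain ⟨h1, u, v, h2, h3⟩ := h
        exact g1_deg_two h2 h3 h1
      · exact absurd rfl hi
  obtain ⟨L, N, hN, hL, hLc⟩ := OE.list_of_law hl W hW X hX
  refine ⟨L, N, hN, hL, fun v e he f hf => ?_⟩
  rw [hLc v e he f hf]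
  congr 1
  -- the pair weights
  have key : ∀ e ∈ cut s t {v}, ∀ f ∈ cut s t {v}, e ≠ f →
      ∑ k, W k * (if e ∈ X k ∧ f ∈ X k then (1 : ℚ) else 0) = lam + κ v e f := by
    intro e he f hf hef
    obtain ⟨a, hea⟩ := g1_exists_J hl he
    obtain ⟨b, hfb⟩ := g1_exists_J hl hf
    have hsplit : ∑ k, W k * (if e ∈ X k ∧ f ∈ X k then (1 : ℚ) else 0) =
        ∑ i, W1 i * (if e ∈ X1 i ∧ f ∈ X1 i then (1 : ℚ) else 0) +
          (∑ i, W2 i * (if e ∈ X2 i ∧ f ∈ X2 i then (1 : ℚ) else 0) +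
            ∑ i, W3 i * (if e ∈ X3 i ∧ f ∈ X3 i then (1 : ℚ) else 0)) := by
      rw [Fintype.sum_sum_type, Fintype.sum_sum_type]
      rfl
    rw [hsplit]
    by_cases hab : a = b
    · subst hab
      have h1 : ∑ i, W1 i * (if e ∈ X1 i ∧ f ∈ X1 i then (1 : ℚ) else 0) = 0 := by
        refine Finset.sum_eq_zero fun i _ => ?_
        simp only [W1, X1]
        split_ifs with h h'
        · exact absurd h' (g1_tri_par hef hea hfb h.1 h.2.1 h.2.2)
        · simp
        · simp
        · simp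
      have h2 : ∑ i, W2 i * (if e ∈ X2 i ∧ f ∈ X2 i then (1 : ℚ) else 0) = 0 := by
        refine Finset.sum_eq_zero fun i _ => ?_
        simp only [W2, X2]
        split_ifs with h h'
        · exact absurd h' (g1_quad_par hef hea hfb h.1.1 h.1.2 h.2.1 h.2.2.1 h.2.2.2.1
            h.2.2.2.2)
        · simp
        · simp
        · simp
      have h3 : ∑ i, W3 i * (if e ∈ X3 i ∧ f ∈ X3 i then (1 : ℚ) else 0) = lam := by
        have h4 : ∀ i : E × E, W3 i * (if e ∈ X3 i ∧ f ∈ X3 i then (1 : ℚ) else 0) =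
            (if i = (e, f) then lam / 2 else 0) + (if i = (f, e) then lam / 2 else 0) := by
          rintro ⟨p, q⟩
          simp only [W3, X3, Finset.mem_insert, Finset.mem_singleton, Prod.mk.injEq]
          by_cases h5 : p = e ∧ q = f
          · obtain ⟨rfl, rfl⟩ := h5
            rw [if_pos ⟨hef, a, v, hea, hfb⟩]
            simp [hef]
          · by_cases h6 : p = f ∧ q = e
            · obtain ⟨rfl, rfl⟩ := h6
              rw [if_pos ⟨hef.symm, a, v, hfb, hea⟩]
              simp [hef.symm]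
            · rw [if_neg h5, if_neg h6]
              have h7 : ¬ ((e = p ∨ e = q) ∧ (f = p ∨ f = q)) := by
                rintro ⟨rfl | rfl, rfl | rfl⟩
                · exact hef rfl
                · exact h5 ⟨rfl, rfl⟩
                · exact h6 ⟨rfl, rfl⟩
                · exact hef rfl
              rw [if_neg h7]
              simp
        simp only [h4, Finset.sum_add_distrib, Finset.sum_ite_eq', Finset.mem_univ, if_true]
        ring
      rw [h1, h2, h3, hpar a v e hea f hfb]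
      ring
    · have hfb' := g1_J_symm hfb
      have h1 : ∑ i, W1 i * (if e ∈ X1 i ∧ f ∈ X1 i then (1 : ℚ) else 0) =
          totT s t WT (g1c v e f) / 2 := by
        rw [g1_totT, Finset.sum_div]
        refine Finset.sum_congr rfl fun i _ => ?_
        simp only [W1, X1]
        by_cases h : i.2.2.2.1 ∈ J s t i.1 i.2.1 ∧ i.2.2.2.2.1 ∈ J s t i.2.1 i.2.2.1 ∧
          i.2.2.2.2.2 ∈ J s t i.2.2.1 i.1
        · rw [if_pos h, if_pos h, g1_tri hea hfb' hab h.1 h.2.1 h.2.2]
          ring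
        · rw [if_neg h, if_neg h]
          simp
      have h2 : ∑ i, W2 i * (if e ∈ X2 i ∧ f ∈ X2 i then (1 : ℚ) else 0) =
          totQ s t WQ (g1c v e f) / 2 := by
        rw [g1_totQ, Finset.sum_div]
        refine Finset.sum_congr rfl fun i _ => ?_
        simp only [W2, X2]
        by_cases h : (i.1 ≠ i.2.2.1 ∧ i.2.1 ≠ i.2.2.2.1) ∧ i.2.2.2.2.1 ∈ J s t i.1 i.2.1 ∧
          i.2.2.2.2.2.1 ∈ J s t i.2.1 i.2.2.1 ∧ i.2.2.2.2.2.2.1 ∈ J s t i.2.2.1 i.2.2.2.1 ∧
          i.2.2.2.2.2.2.2 ∈ J s t i.2.2.2.1 i.1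
        · rw [if_pos h, if_pos h, g1_quad hea hfb' hab h.1.1 h.1.2 h.2.1 h.2.2.1 h.2.2.2.1
            h.2.2.2.2]
          ring
        · rw [if_neg h, if_neg h]
          simp
      have h3 : ∑ i, W3 i * (if e ∈ X3 i ∧ f ∈ X3 i then (1 : ℚ) else 0) = 0 := by
        refine Finset.sum_eq_zero fun i _ => ?_
        simp only [W3, X3]
        split_ifs with h h'
        · exfalso
          obtain ⟨h4, u, w, h5, h6⟩ := h
          simp only [Finset.mem_insert, Finset.mem_singleton] at h'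
          have h7 : e ∈ J s t u w ∧ f ∈ J s t u w := by
            rcases h' with ⟨h7 | h7, h8 | h8⟩ <;> rw [h7, h8] <;>
              first | exact ⟨h5, h6⟩ | exact ⟨h6, h5⟩ | exact ⟨h5, h5⟩ | exact ⟨h6, h6⟩
          exact g1_npar hea hfb' hab h7.1 h7.2
        · simp
        · simp
        · simp
      rw [h1, h2, h3, add_zero, ← add_div, hH _ (g1c_symm v e f),
        g1_corner_sum hea hfb' hab (fun v e f => lam + κ v e f) (by rw [hsym])]
      ring
  by_cases hef : e = f
  · subst hef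
    rw [if_pos rfl]
    refine Eq.trans ?_ (hrow v e he)
    have h1 : ∀ f ∈ (cut s t {v}).erase e, lam + κ v e f =
        ∑ k, W k * (if e ∈ X k ∧ f ∈ X k then (1 : ℚ) else 0) := fun f hf =>
      (key e he f (Finset.mem_of_mem_erase hf) (Finset.ne_of_mem_erase hf).symm).symm
    rw [Finset.sum_congr rfl h1, Finset.sum_comm]
    refine Finset.sum_congr rfl fun k _ => ?_
    rw [← Finset.mul_sum]
    by_cases hk : W k = 0
    · rw [hk, zero_mul, zero_mul]
    congr 1
    by_cases hek : e ∈ X k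
    · have h2 := hX k hk v
      have h3 : e ∈ X k ∩ cut s t {v} := Finset.mem_inter.mpr ⟨hek, he⟩
      have h4 : (X k ∩ cut s t {v}).card = 2 := by
        rcases h2 with h2 | h2
        · rw [Finset.card_eq_zero] at h2
          rw [h2] at h3
          exact absurd h3 (Finset.notMem_empty _)
        · exact h2
      have h5 : ∑ f ∈ (cut s t {v}).erase e, (if e ∈ X k ∧ f ∈ X k then (1 : ℚ) else 0) =
          ((X k ∩ cut s t {v}).erase e).card := by
        rw [Finset.card_eq_sum_ones, Nat.cast_sum, ← Finset.sum_filter]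
        refine Finset.sum_congr ?_ fun _ _ => by simp
        ext f
        simp only [Finset.mem_filter, Finset.mem_erase, Finset.mem_inter]
        tauto
      rw [h5, Finset.card_erase_of_mem h3, h4]
      simp [hek]
    · simp [hek]
  · rw [if_neg hef]
    exact key e he f hf hef

end Pool.Agent.Lib.MP_95bb8c_al.GW
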