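import Pool.Agent.Lib.MP_95bb8c_al.GW.Defs

set_option autoImplicit false
set_option linter.unusedSectionVars false

/-!
# Darts (directed edges) of a multigraph: definitions
-/

namespace Pool.Agent.Lib.MP_95bb8c_al.GW

open Finset

variable {V E : Type} [Fintype V] [DecidableEq V] [Fintype E] [DecidableEq E]

/-- The tail of the dart `a`: `(e, true)` goes from `s e` to `t e`, `(e, false)` back. -/
def tl (s t : E → V) (a : E × Bool) : V := if a.2 then s a.1 else t a.1

/-- The head of the dart `a`. -/
def hd (s t : E → V) (a : E × Bool) : V := if a.2 then t a.1 else s a.1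

/-- The reversed dart. -/
def rvd (a : E × Bool) : E × Bool := (a.1, !a.2)

/-- The dart of the edge `e` at `v` which leaves `v`. -/
def outD (s : E → V) (v : V) (e : E) : E × Bool := (e, decide (s e = v))

/-- The dart of the edge `e` at `v` which arrives at `v`. -/
def inD (t : E → V) (v : V) (e : E) : E × Bool := (e, decide (t e = v))

/-- A closed sequence of darts with distinct tails (the indices are cyclic). -/
def ClosedSimple (s t : E → V) {n : ℕ} (b : Fin (n + 1) → E × Bool) : Prop :=
  (∀ i, hd s t (b i) = tl s t (b (i + 1))) ∧ Function.Injective fun i => tl s t (b i)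

end Pool.Agent.Lib.MP_95bb8c_al.GW
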