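import Pool.Agent.Lib.MP_95bb8c_al.OE.ListOf
import Pool.Agent.Lib.MP_95bb8c_al.Whitehead

set_option autoImplicit false
set_option linter.unusedSectionVars false

/-!
# Nearly uniform lists: definitions

The weights on triangles and 4-cycles of a multigraph which cover each pair of edges at a vertex
with a prescribed weight.
-/

namespace Pool.Agent.Lib.MP_95bb8c_al.GW

open Finset

section Graph

variable {V E : Type} [Fintype V] [DecidableEq V] [Fintype E] [DecidableEq E]

/-- The edges which join `u` and `v` (none if `u = v`). -/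
def J (s t : E → V) (u v : V) : Finset E :=
  univ.filter fun e => u ≠ v ∧ ((s e = u ∧ t e = v) ∨ (s e = v ∧ t e = u))

/-- The number of edges which join `u` and `v`. -/
def mq (s t : E → V) (u v : V) : ℚ := ((J s t u v).card : ℚ)

/-- The sum of `F * c` over the ordered corners `(u, v, w; p, q)`: `p` joins `u` and `v`, `q` joins
`v` and `w`, and `u`, `w` are different. -/
def corner (s t : E → V) (F : V → V → V → E → E → ℚ) (c : V → E → E → ℚ) : ℚ :=
  ∑ u, ∑ v, ∑ w, if u = w then 0 else
    ∑ p ∈ J s t u v, ∑ q ∈ J s t v w, F u v w p q * c v p q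

/-- The total cost of the triangles with weights `WT`. -/
def totT (s t : E → V) (WT : V → V → V → E → E → E → ℚ) (c : V → E → E → ℚ) : ℚ :=
  ∑ u, ∑ v, ∑ w, ∑ p ∈ J s t u v, ∑ q ∈ J s t v w, ∑ r ∈ J s t w u,
    WT u v w p q r * (c v p q + c w q r + c u r p)

/-- The total cost of the 4-cycles with weights `WQ`. -/
def totQ (s t : E → V) (WQ : V → V → V → V → E → E → E → E → ℚ) (c : V → E → E → ℚ) : ℚ :=
  ∑ u, ∑ v, ∑ w, ∑ z, if u = w ∨ v = z then 0 else
    ∑ p ∈ J s t u v, ∑ q ∈ J s t v w, ∑ r ∈ J s t w z, ∑ x ∈ J s t z u,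
      WQ u v w z p q r x * (c v p q + c w q r + c z r x + c u x p)

/-- The sum over the vertices different from `u`, `v`, `w`. -/
def sum4 (u v w : V) (f : V → ℚ) : ℚ := ∑ z, if z = u ∨ z = v ∨ z = w then 0 else f z

/-- The sum over the vertices different from `u`, `v`. -/
def sum3 (u v : V) (f : V → ℚ) : ℚ := ∑ z, if z = u ∨ z = v then 0 else f z

/-- The sum of `κ z` over the corners at `z` with ends `u`, `w`. -/
def Kx (s t : E → V) (κ : V → E → E → ℚ) (z u w : V) : ℚ :=
  ∑ p ∈ J s t u z, ∑ q ∈ J s t z w, κ z p q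

/-- The demand of the corners `(u, v, w)` (centre `v`) which is left for the uniform cycles;
`k` is the number of vertices minus two. -/
def dd (s t : E → V) (k lam : ℚ) (κ : V → E → E → ℚ) (ρ : V → ℚ) (u v w : V) : ℚ :=
  lam * mq s t u v * mq s t v w - ρ u * mq s t u v / k - ρ w * mq s t v w / k -
    sum4 u v w (fun z => Kx s t κ z u w) / k

/-- The weights of the triangles. -/
def WTof (s t : E → V) (k : ℚ) (κ : V → E → E → ℚ) (T : V → V → V → ℚ)
    (u v w : V) (p q _r : E) : ℚ :=
  κ v p q / (k * mq s t w u) + T u v w / (mq s t u v * mq s t v w * mq s t w u)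

/-- The weights of the 4-cycles. -/
def WQof (s t : E → V) (k : ℚ) (κ : V → E → E → ℚ) (Y : V → V → V → V → ℚ)
    (u v w z : V) (p q _r _x : E) : ℚ :=
  κ v p q / (k * mq s t w z * mq s t z u) +
    Y u v w z / (mq s t u v * mq s t v w * mq s t w z * mq s t z u)

end Graph

section Words

variable {n : ℕ}

/-- The list `U` is polygonal (in the graph form of the problem): the Whitehead graph has a list of
cycles, one of length at least three, which is invariant under the connecting maps. -/
def Polygonal (U : List (List (Letter n))) : Prop :=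
  ∃ L : List (Finset (Pos U)),
    (∀ C ∈ L, IsCycle (src U) (tgt U) C) ∧
    (∃ C ∈ L, 3 ≤ C.card) ∧
    ∀ v : Letter n, ∀ e ∈ star U v, ∀ f ∈ star U v,
      (L.countP fun C => e ∈ C ∧ f ∈ C) =
        (L.countP fun C => conMap U v e ∈ C ∧ conMap U v f ∈ C)

/-- The list is minimal and diskbusting (in the graph form of the problem). -/
def MinDisk (U : List (List (Letter n))) : Prop :=
  Conn (src U) (tgt U) ∧ ∀ v, lam U v (bar v) = (star U v).card

/-- The number of edges of the Whitehead graph between `u` and `v`. -/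
def mult (U : List (List (Letter n))) (u v : Letter n) : ℕ := (J (src U) (tgt U) u v).card

/-- The multiplicities of the Whitehead graph agree up to one percent. -/
def Near (U : List (List (Letter n))) : Prop :=
  ∀ u v u' v' : Letter n, u ≠ v → u' ≠ v' → 100 * mult U u v ≤ 101 * mult U u' v'

/-- The multiplicities of the Whitehead graph agree up to a factor `C`. -/
def Bal (C : ℕ) (U : List (List (Letter n))) : Prop :=
  ∀ u v u' v' : Letter n, u ≠ v → u' ≠ v' → mult U u v ≤ C * mult U u' v'

/-- The next index, cyclically. -/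
def nx {N : ℕ} (i : Fin N) : Fin N :=
  ⟨(i.1 + 1) % N, Nat.mod_lt _ (Nat.lt_of_le_of_lt (Nat.zero_le _) i.2)⟩

/-- The word `w` is cyclically reduced. -/
def CR {N : ℕ} (w : Fin N → Letter n) : Prop := ∀ i, w (nx i) ≠ bar (w i)

/-- The number of places at which `w` has `a` followed by `b`, cyclically. -/
def X {N : ℕ} (w : Fin N → Letter n) (a b : Letter n) : ℕ :=
  (univ.filter fun i => w i = a ∧ w (nx i) = b).card

end Words

end Pool.Agent.Lib.MP_95bb8c_al.GW
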