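import Pool.Agent.Lib.MP_95bb8c_al.GW.Kappa

set_option autoImplicit false
set_option linter.unusedSectionVars false

/-!
# The special weights under the weakest hypothesis

If no edge type takes more than half of a vertex (at the letters with nonzero weights), there are
weights which are concentrated on pairs of edges of different types at both ends of the letter.
-/

namespace Pool.Agent.Lib.MP_95bb8c_al.GW

open Finset

section Hall

variable {α β γ : Type} [Fintype α] [DecidableEq α] [DecidableEq β] [DecidableEq γ]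

private theorem r0_mixed (f : α → β) (g : α → γ)
    (hf : ∀ b, 2 * (univ.filter fun y => f y = b).card ≤ Fintype.card α)
    (hg : ∀ c, 2 * (univ.filter fun y => g y = c).card ≤ Fintype.card α) (b : β) (c : γ)
    (A T : Finset α) (hA : ∀ x ∈ A, f x = b ∨ g x = c) (hT : ∀ y ∈ T, f y = b ∧ g y = c) :
    A.card + T.card ≤ Fintype.card α := by
  have h1 : A ⊆ (univ.filter fun y => f y = b) ∪ (univ.filter fun y => g y = c) := by
    intro x hx
    rw [Finset.mem_union, Finset.mem_filter, Finset.mem_filter]
    rcases hA x hx with h | h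
    · exact Or.inl ⟨Finset.mem_univ _, h⟩
    · exact Or.inr ⟨Finset.mem_univ _, h⟩
  have h2 : T ⊆ (univ.filter fun y => f y = b) ∩ (univ.filter fun y => g y = c) := by
    intro x hx
    rw [Finset.mem_inter, Finset.mem_filter, Finset.mem_filter]
    exact ⟨⟨Finset.mem_univ _, (hT x hx).1⟩, ⟨Finset.mem_univ _, (hT x hx).2⟩⟩
  have h3 := Finset.card_le_card h1
  have h4 := Finset.card_le_card h2
  have h5 := Finset.card_union_add_card_inter (univ.filter fun y => f y = b)
    (univ.filter fun y => g y = c)
  have h6 := hf b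
  have h7 := hg c
  omega

private theorem r0_same (f : α → β)
    (hf : ∀ b, 2 * (univ.filter fun y => f y = b).card ≤ Fintype.card α) (b : β)
    (A T : Finset α) (hA : ∀ x ∈ A, f x = b) (hT : ∀ y ∈ T, f y = b) :
    A.card + T.card ≤ Fintype.card α := by
  have h1 : A ⊆ (univ.filter fun y => f y = b) := by
    intro x hx
    rw [Finset.mem_filter]
    exact ⟨Finset.mem_univ _, hA x hx⟩
  have h2 : T ⊆ (univ.filter fun y => f y = b) := by
    intro x hx
    rw [Finset.mem_filter]
    exact ⟨Finset.mem_univ _, hT x hx⟩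
  have h3 := Finset.card_le_card h1
  have h4 := Finset.card_le_card h2
  have h6 := hf b
  omega

private theorem r0_card (f : α → β) (g : α → γ)
    (hf : ∀ b, 2 * (univ.filter fun y => f y = b).card ≤ Fintype.card α)
    (hg : ∀ c, 2 * (univ.filter fun y => g y = c).card ≤ Fintype.card α) (A T : Finset α)
    (hA : A.Nonempty) (hT : ∀ y ∈ T, ∀ x ∈ A, f y = f x ∨ g y = g x) :
    A.card + T.card ≤ Fintype.card α := by
  by_cases h : ∃ x1 ∈ A, ∃ x2 ∈ A, f x1 ≠ f x2 ∧ g x1 ≠ g x2
  · obtain ⟨x1, hx1, x2, hx2, hf12, hg12⟩ := h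
    have hT2 : ∀ y ∈ T, (f y = f x1 ∧ g y = g x2) ∨ (f y = f x2 ∧ g y = g x1) := by
      intro y hy
      rcases hT y hy x1 hx1 with h1 | h1
      · rcases hT y hy x2 hx2 with h2 | h2
        · exact absurd (h1.symm.trans h2) hf12
        · exact Or.inl ⟨h1, h2⟩
      · rcases hT y hy x2 hx2 with h2 | h2
        · exact Or.inr ⟨h2, h1⟩
        · exact absurd (h1.symm.trans h2) hg12
    by_cases h1 : ∃ y ∈ T, f y = f x1 ∧ g y = g x2
    · obtain ⟨y1, hy1, hy1f, hy1g⟩ := h1
      have hA1 : ∀ x ∈ A, f x = f x1 ∨ g x = g x2 := by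
        intro x hx
        rcases hT y1 hy1 x hx with h3 | h3
        · exact Or.inl (h3.symm.trans hy1f)
        · exact Or.inr (h3.symm.trans hy1g)
      by_cases h2 : ∃ y ∈ T, f y = f x2 ∧ g y = g x1
      · obtain ⟨y2, hy2, hy2f, hy2g⟩ := h2
        have hA2 : ∀ x ∈ A, f x = f x2 ∨ g x = g x1 := by
          intro x hx
          rcases hT y2 hy2 x hx with h3 | h3
          · exact Or.inl (h3.symm.trans hy2f)
          · exact Or.inr (h3.symm.trans hy2g)
        have hdis : Disjoint A T := by
          rw [Finset.disjoint_left]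
          intro x hxA hxT
          rcases hT2 x hxT with ⟨h3, h4⟩ | ⟨h3, h4⟩
          · rcases hA2 x hxA with h5 | h5
            · exact hf12 (h3.symm.trans h5)
            · exact hg12 (h5.symm.trans h4)
          · rcases hA1 x hxA with h5 | h5
            · exact hf12 (h5.symm.trans h3)
            · exact hg12 (h4.symm.trans h5)
        rw [← Finset.card_union_of_disjoint hdis]
        exact Finset.card_le_univ _
      · refine r0_mixed f g hf hg (f x1) (g x2) A T hA1 ?_
        intro y hy
        rcases hT2 y hy with h3 | h3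
        · exact h3
        · exact absurd ⟨y, hy, h3⟩ h2
    · by_cases h2 : ∃ y ∈ T, f y = f x2 ∧ g y = g x1
      · obtain ⟨y2, hy2, hy2f, hy2g⟩ := h2
        have hA2 : ∀ x ∈ A, f x = f x2 ∨ g x = g x1 := by
          intro x hx
          rcases hT y2 hy2 x hx with h3 | h3
          · exact Or.inl (h3.symm.trans hy2f)
          · exact Or.inr (h3.symm.trans hy2g)
        refine r0_mixed f g hf hg (f x2) (g x1) A T hA2 ?_
        intro y hy
        rcases hT2 y hy with h3 | h3
        · exact absurd ⟨y, hy, h3⟩ h1
        · exact h3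
      · have h3 : T = ∅ := by
          rw [Finset.eq_empty_iff_forall_notMem]
          intro y hy
          rcases hT2 y hy with h4 | h4
          · exact h1 ⟨y, hy, h4⟩
          · exact h2 ⟨y, hy, h4⟩
        rw [h3, Finset.card_empty, add_zero]
        exact Finset.card_le_univ _
  · have hno : ∀ x1 ∈ A, ∀ x2 ∈ A, f x1 = f x2 ∨ g x1 = g x2 := by
      intro x1 h1 x2 h2
      by_contra h3
      rw [not_or] at h3
      exact h ⟨x1, h1, x2, h2, h3.1, h3.2⟩
    obtain ⟨x0, hx0⟩ := hA
    by_cases h1 : ∃ x ∈ A, f x ≠ f x0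
    · obtain ⟨x1, hx1, hne⟩ := h1
      have hg1 : g x1 = g x0 := (hno x1 hx1 x0 hx0).resolve_left hne
      refine r0_same g hg (g x0) A T ?_ ?_
      · intro x hx
        by_contra h2
        have h3 := (hno x hx x0 hx0).resolve_right h2
        have h4 := (hno x hx x1 hx1).resolve_right (fun h5 => h2 (h5.trans hg1))
        exact hne (h4.symm.trans h3)
      · intro y hy
        by_contra h2
        have h3 := (hT y hy x0 hx0).resolve_right h2
        have h4 := (hT y hy x1 hx1).resolve_right (fun h5 => h2 (h5.trans hg1))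
        exact hne (h4.symm.trans h3)
    · have hfA : ∀ x ∈ A, f x = f x0 := by
        intro x hx
        by_contra h2
        exact h1 ⟨x, hx, h2⟩
      by_cases h2 : ∃ x ∈ A, g x ≠ g x0
      · obtain ⟨x1, hx1, hne⟩ := h2
        refine r0_same f hf (f x0) A T hfA ?_
        intro y hy
        by_contra h2
        have h3 := (hT y hy x0 hx0).resolve_left h2
        have h4 := (hT y hy x1 hx1).resolve_left (fun h5 => h2 (h5.trans (hfA x1 hx1)))
        exact hne (h4.symm.trans h3)
      · have hgA : ∀ x ∈ A, g x = g x0 := by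
          intro x hx
          by_contra h3
          exact h2 ⟨x, hx, h3⟩
        rw [add_comm]
        exact r0_mixed f g hf hg (f x0) (g x0) T A (fun y hy => hT y hy x0 hx0)
          (fun x hx => ⟨hfA x hx, hgA x hx⟩)

/-- Hall: if each class of `f` and each class of `g` has at most half of `α`, there is a
permutation which changes the class of every element for both maps. -/
theorem hall_half (f : α → β) (g : α → γ)
    (hf : ∀ b, 2 * (univ.filter fun y => f y = b).card ≤ Fintype.card α)
    (hg : ∀ c, 2 * (univ.filter fun y => g y = c).card ≤ Fintype.card α) :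
    ∃ σ : Equiv.Perm α, ∀ x, f (σ x) ≠ f x ∧ g (σ x) ≠ g x := by
  have key : ∀ A : Finset α,
      A.card ≤ (A.biUnion fun x => univ.filter fun y => ¬ (f y = f x ∨ g y = g x)).card := by
    intro A
    rcases A.eq_empty_or_nonempty with h | h
    · rw [h]; simp
    have h1 := r0_card f g hf hg A
      (univ \ (A.biUnion fun x => univ.filter fun y => ¬ (f y = f x ∨ g y = g x))) h (by
        intro y hy x hx
        by_contra h2
        rw [Finset.mem_sdiff] at hy
        apply hy.2
        rw [Finset.mem_biUnion]
        exact ⟨x, hx, by rw [Finset.mem_filter]; exact ⟨Finset.mem_univ _, h2⟩⟩)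
    have h2 := Finset.card_sdiff_add_card_eq_card (Finset.subset_univ
      (A.biUnion fun x => univ.filter fun y => ¬ (f y = f x ∨ g y = g x)))
    rw [Finset.card_univ] at h2
    omega
  obtain ⟨σ, hσ, hσ2⟩ := (Finset.all_card_le_biUnion_card_iff_exists_injective _).1 key
  have hb : Function.Bijective σ := Finite.injective_iff_bijective.1 hσ
  refine ⟨Equiv.ofBijective σ hb, ?_⟩
  intro x
  have h := hσ2 x
  rw [Finset.mem_filter, not_or] at h
  exact h.2

end Hall

private theorem r0_one {α : Type} {S : Finset α} {P : α → Prop} [DecidablePred P] {f₀ : α}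
    (h0 : f₀ ∈ S) (h1 : P f₀) (h2 : ∀ f ∈ S, P f → f = f₀) :
    ∑ f ∈ S, (if P f then (1 : ℚ) else 0) = 1 := by
  rw [Finset.sum_eq_single_of_mem f₀ h0]
  · rw [if_pos h1]
  · intro f hf hne
    rw [if_neg (fun h => hne (h2 f hf h))]

section Words

variable {n : ℕ} {U : List (List (Letter n))}

/-- The edge at the positive letter which is connected to the edge `e` at `v`. -/
private def bas (v : Letter n) (e : Pos U) : Pos U := if v.2 = true then e else conMap U v e

private theorem bas_mem (hU : CycRed U) {v : Letter n} {e : Pos U} (he : e ∈ star U v) :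
    bas v e ∈ star U (v.1, true) := by
  obtain ⟨a, b⟩ := v
  unfold bas
  cases b
  · rw [if_neg (by simp)]
    exact conMap_mem hU (a, false) e he
  · rw [if_pos rfl]
    exact he

private theorem bas_inj (hU : CycRed U) {v : Letter n} {e f : Pos U} (he : e ∈ star U v)
    (hf : f ∈ star U v) (h : bas v e = bas v f) : e = f := by
  obtain ⟨a, b⟩ := v
  unfold bas at h
  cases b
  · rw [if_neg (by simp), if_neg (by simp)] at h
    exact conMap_inj hU (a, false) e he f hf h
  · rw [if_pos rfl, if_pos rfl] at h
    exact h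

private theorem bas_surj (hU : CycRed U) (v : Letter n) {x : Pos U}
    (hx : x ∈ star U (v.1, true)) : ∃ e ∈ star U v, bas v e = x := by
  obtain ⟨a, b⟩ := v
  cases b
  · refine ⟨conMap U (a, true) x, conMap_mem hU (a, true) x hx, ?_⟩
    unfold bas
    rw [if_neg (by simp)]
    exact conMap_conMap hU (a, true) hx
  · exact ⟨x, hx, if_pos rfl⟩

private theorem bas_con (hU : CycRed U) {v : Letter n} {e : Pos U} (he : e ∈ star U v) :
    bas (bar v) (conMap U v e) = bas v e := by
  obtain ⟨a, b⟩ := v
  unfold bas bar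
  cases b
  · simp
  · simp only [Bool.not_true]
    rw [if_neg (by simp), if_pos trivial]
    exact conMap_conMap hU (a, true) he

/-- As `exists_kappa`, under the weakest hypothesis. -/
theorem exists_kappa_half (hU : CycRed U) (ρ : Fin n → ℚ)
    (hρ : ∀ a, 0 ≤ ρ a)
    (h2 : ∀ u v : Letter n, u ≠ v → ρ v.1 ≠ 0 → 2 * mult U v u ≤ occ U v.1) :
    ∃ κ : Letter n → Pos U → Pos U → ℚ, (∀ v e f, 0 ≤ κ v e f) ∧
      (∀ v e f, κ v e f = κ v f e) ∧
      (∀ u v, ∀ e ∈ J (src U) (tgt U) u v, ∀ f ∈ J (src U) (tgt U) u v, κ v e f = 0) ∧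
      (∀ v, ∀ e ∈ star U v, ∑ f ∈ star U v, κ v e f = ρ v.1) ∧
      ∀ v, ∀ e ∈ star U v, ∀ f ∈ star U v,
        κ (bar v) (conMap U v e) (conMap U v f) = κ v e f := by
  classical
  have hl := no_loop hU
  have hall : ∀ a : Fin n, ∃ σ : Equiv.Perm {e : Pos U // e ∈ star U (a, true)},
      ρ a ≠ 0 → ∀ x, oth (src U) (tgt U) (a, true) (σ x).1 ≠ oth (src U) (tgt U) (a, true) x.1 ∧
        oth (src U) (tgt U) (a, false) (conMap U (a, true) (σ x).1) ≠
          oth (src U) (tgt U) (a, false) (conMap U (a, true) x.1) := by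
    intro a
    by_cases hρa : ρ a = 0
    · exact ⟨1, fun h => absurd hρa h⟩
    have h5 : Fintype.card {e : Pos U // e ∈ star U (a, true)} = occ U a := by
      rw [Fintype.card_coe]
      exact dg_eq hU (a, true)
    suffices h : ∃ σ : Equiv.Perm {e : Pos U // e ∈ star U (a, true)},
        ∀ x, oth (src U) (tgt U) (a, true) (σ x).1 ≠ oth (src U) (tgt U) (a, true) x.1 ∧
          oth (src U) (tgt U) (a, false) (conMap U (a, true) (σ x).1) ≠
            oth (src U) (tgt U) (a, false) (conMap U (a, true) x.1) by
      obtain ⟨σ, hσ⟩ := h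
      exact ⟨σ, fun _ => hσ⟩
    refine hall_half (fun x : {e : Pos U // e ∈ star U (a, true)} =>
      oth (src U) (tgt U) (a, true) x.1)
      (fun x => oth (src U) (tgt U) (a, false) (conMap U (a, true) x.1)) ?_ ?_
    · intro b
      rw [h5]
      by_cases hb : b = (a, true)
      · rw [Finset.filter_eq_empty_iff.2]
        · simp
        · intro x _ hx
          exact (mem_J_oth hl x.2).1 (hx.trans hb)
      · refine le_trans (Nat.mul_le_mul_left 2 ?_) (h2 b (a, true) hb hρa)
        unfold mult
        refine Finset.card_le_card_of_injOn (fun y => y.1) ?_ ?_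
        · intro y hy
          have hy2 : oth (src U) (tgt U) (a, true) y.1 = b := by
            simpa using hy
          have h7 := (mem_J_oth hl y.2).2
          rw [hy2] at h7
          exact h7
        · intro y _ z _ hyz
          exact Subtype.ext hyz
    · intro b
      rw [h5]
      have h8 : bar (a, true) = (a, false) := rfl
      by_cases hb : b = (a, false)
      · rw [Finset.filter_eq_empty_iff.2]
        · simp
        · intro x _ hx
          have h9 := (mem_J_oth hl (conMap_mem hU (a, true) x.1 x.2)).1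
          rw [h8] at h9
          exact h9 (hx.trans hb)
      · refine le_trans (Nat.mul_le_mul_left 2 ?_) (h2 b (a, false) hb hρa)
        unfold mult
        refine Finset.card_le_card_of_injOn (fun y => conMap U (a, true) y.1) ?_ ?_
        · intro y hy
          have hy2 : oth (src U) (tgt U) (a, false) (conMap U (a, true) y.1) = b := by
            simpa using hy
          have h7 := (mem_J_oth hl (conMap_mem hU (a, true) y.1 y.2)).2
          rw [h8] at h7
          rw [hy2] at h7
          exact h7
        · intro y _ z _ hyz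
          exact Subtype.ext (conMap_inj hU (a, true) y.1 y.2 z.1 z.2 hyz)
  choose σ hσ1 using hall
  -- extended to all positions
  let S : Fin n → Pos U → Pos U :=
    fun a x => if h : x ∈ star U (a, true) then (σ a ⟨x, h⟩).1 else x
  have hS : ∀ a x (h : x ∈ star U (a, true)), S a x = (σ a ⟨x, h⟩).1 := by
    intro a x h
    exact dif_pos h
  have hSmem : ∀ a x, x ∈ star U (a, true) → S a x ∈ star U (a, true) := by
    intro a x h
    rw [hS a x h]
    exact (σ a ⟨x, h⟩).2
  have hSinj : ∀ a x y, x ∈ star U (a, true) → y ∈ star U (a, true) →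
      S a x = S a y → x = y := by
    intro a x y hx hy h
    rw [hS a x hx, hS a y hy] at h
    have h1 := (σ a).injective (Subtype.ext h)
    exact congrArg Subtype.val h1
  have hSsurj : ∀ a y, y ∈ star U (a, true) → ∃ x ∈ star U (a, true), S a x = y := by
    intro a y hy
    refine ⟨((σ a).symm ⟨y, hy⟩).1, ((σ a).symm ⟨y, hy⟩).2, ?_⟩
    rw [hS a _ ((σ a).symm ⟨y, hy⟩).2]
    have h1 : σ a ((σ a).symm ⟨y, hy⟩) = ⟨y, hy⟩ := Equiv.apply_symm_apply _ _
    exact congrArg Subtype.val h1
  have hSne : ∀ a x, ρ a ≠ 0 → x ∈ star U (a, true) →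
      oth (src U) (tgt U) (a, true) (S a x) ≠ oth (src U) (tgt U) (a, true) x ∧
        oth (src U) (tgt U) (a, false) (conMap U (a, true) (S a x)) ≠
          oth (src U) (tgt U) (a, false) (conMap U (a, true) x) := by
    intro a x hρa h
    rw [hS a x h]
    exact hσ1 a hρa ⟨x, h⟩
  -- the weights
  let κ : Letter n → Pos U → Pos U → ℚ := fun v e f =>
    if e ∈ star U v ∧ f ∈ star U v then ρ v.1 / 2 *
      ((if S v.1 (bas v e) = bas v f then (1 : ℚ) else 0) +
        (if S v.1 (bas v f) = bas v e then (1 : ℚ) else 0)) else 0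
  have hκin : ∀ v e f, e ∈ star U v → f ∈ star U v → κ v e f = ρ v.1 / 2 *
      ((if S v.1 (bas v e) = bas v f then (1 : ℚ) else 0) +
        (if S v.1 (bas v f) = bas v e then (1 : ℚ) else 0)) := by
    intro v e f he hf
    exact if_pos ⟨he, hf⟩
  have hκout : ∀ v e f, ¬ (e ∈ star U v ∧ f ∈ star U v) → κ v e f = 0 := by
    intro v e f h
    exact if_neg h
  have hcoef : ∀ a, 0 ≤ ρ a / 2 := fun a => div_nonneg (hρ a) (by norm_num)
  have hind : ∀ P : Prop, [Decidable P] → (0 : ℚ) ≤ (if P then 1 else 0) := by
    intro P _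
    split_ifs <;> norm_num
  refine ⟨κ, ?_, ?_, ?_, ?_, ?_⟩
  · intro v e f
    by_cases h : e ∈ star U v ∧ f ∈ star U v
    · rw [hκin v e f h.1 h.2]
      exact mul_nonneg (hcoef _) (add_nonneg (hind _) (hind _))
    · rw [hκout v e f h]
  · intro v e f
    by_cases h : e ∈ star U v ∧ f ∈ star U v
    · rw [hκin v e f h.1 h.2, hκin v f e h.2 h.1, add_comm]
    · rw [hκout v e f h, hκout v f e (fun h' => h h'.symm)]
  · intro u v e he f hf
    have he1 := oth_of_mem_J hl he
    have hf1 := oth_of_mem_J hl hf
    -- the permutation does not join two parallel edges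
    have key : ρ v.1 ≠ 0 → ∀ e f : Pos U, e ∈ star U v → f ∈ star U v →
        oth (src U) (tgt U) v e = oth (src U) (tgt U) v f → S v.1 (bas v e) ≠ bas v f := by
      clear hκin hκout
      intro hρv e f he hf hef h
      have h1 := hSne v.1 (bas v e) hρv (bas_mem hU he)
      rw [h] at h1
      obtain ⟨a, b⟩ := v
      cases b
      · apply h1.2
        have h2 : conMap U (a, true) (bas (a, false) e) = e := by
          unfold bas
          rw [if_neg (by simp)]
          exact conMap_conMap hU (a, false) he
        have h3 : conMap U (a, true) (bas (a, false) f) = f := by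
          unfold bas
          rw [if_neg (by simp)]
          exact conMap_conMap hU (a, false) hf
        show oth (src U) (tgt U) (a, false) (conMap U (a, true) (bas (a, false) f)) =
          oth (src U) (tgt U) (a, false) (conMap U (a, true) (bas (a, false) e))
        rw [h2, h3]
        exact hef.symm
      · apply h1.1
        have h2 : bas (a, true) e = e := if_pos rfl
        have h3 : bas (a, true) f = f := if_pos rfl
        rw [h2, h3]
        exact hef.symm
    by_cases hρv : ρ v.1 = 0
    · rw [hκin v e f he1.1 hf1.1, hρv, zero_div, zero_mul]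
    rw [hκin v e f he1.1 hf1.1, if_neg (key hρv e f he1.1 hf1.1 (he1.2.trans hf1.2.symm)),
      if_neg (key hρv f e hf1.1 he1.1 (hf1.2.trans he1.2.symm)), add_zero, mul_zero]
  · intro v e he
    rw [Finset.sum_congr rfl (fun f hf => hκin v e f he hf), ← Finset.mul_sum,
      Finset.sum_add_distrib]
    have h1 : ∑ f ∈ star U v, (if S v.1 (bas v e) = bas v f then (1 : ℚ) else 0) = 1 := by
      obtain ⟨f₀, hf0, hf1⟩ := bas_surj hU v (hSmem v.1 _ (bas_mem hU he))
      exact r0_one hf0 hf1.symm
        (fun f hf h => bas_inj hU hf hf0 (h.symm.trans hf1.symm))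
    have h2 : ∑ f ∈ star U v, (if S v.1 (bas v f) = bas v e then (1 : ℚ) else 0) = 1 := by
      obtain ⟨x, hx, hx1⟩ := hSsurj v.1 _ (bas_mem hU he)
      obtain ⟨f₀, hf0, hf1⟩ := bas_surj hU v hx
      refine r0_one hf0 (by rw [hf1]; exact hx1) ?_
      intro f hf h
      apply bas_inj hU hf hf0
      apply hSinj v.1 _ _ (bas_mem hU hf) (bas_mem hU hf0)
      rw [h, hf1, hx1]
    rw [h1, h2]
    ring
  · intro v e he f hf
    have he1 : conMap U v e ∈ star U (bar v) := conMap_mem hU v e he
    have hf1 : conMap U v f ∈ star U (bar v) := conMap_mem hU v f hf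
    rw [hκin v e f he hf, hκin (bar v) _ _ he1 hf1]
    rw [bas_con hU he, bas_con hU hf]
    rfl

end Words

end Pool.Agent.Lib.MP_95bb8c_al.GW
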