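import Pool.Agent.Lib.MP_95bb8c_al.GW.PMFamily

set_option autoImplicit false
set_option linter.unusedSectionVars false

/-!
# Nearly regular type weights

The correction which makes the weights regular, and two points of the perfect matching polytope.
-/

namespace Pool.Agent.Lib.MP_95bb8c_al.GW

open Finset

section Types
variable {V : Type} [Fintype V] [DecidableEq V]

/-- The row sum. -/
def dgt (m : V → V → ℚ) (v : V) : ℚ := ∑ u, (if u = v then 0 else m u v)

/-- The hypotheses at the level of types (`K` = number of vertices). -/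
structure NRH (m : V → V → ℚ) (D δ : ℚ) : Prop where
  symm : ∀ u v, m u v = m v u
  card : 6 ≤ Fintype.card V
  D0 : 0 < D
  δ0 : 0 < δ
  δ1 : δ ≤ 1
  lo : ∀ u v, u ≠ v → δ * D ≤ m u v
  hi : ∀ v, dgt m v ≤ D
  near : ∀ v, 20 * (Fintype.card V : ℚ) ^ 3 * (D - dgt m v) ≤ δ ^ 2 * D
  odd : ∀ S : Finset V, Odd S.card → 3 ≤ S.card → S.card + 3 ≤ Fintype.card V →
    (1 + δ) * D ≤ ∑ u ∈ S, ∑ v ∈ univ \ S, m u v
  even : Even (Fintype.card V)

/-- The correction which makes `m` regular. -/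
def bb (m : V → V → ℚ) (D : ℚ) (v : V) : ℚ :=
  ((D - dgt m v) - (∑ w, (D - dgt m w)) / (2 * (Fintype.card V : ℚ) - 2)) /
    ((Fintype.card V : ℚ) - 2)

/-- The regular type weights, `y'` of the plan. -/
def yy (m : V → V → ℚ) (D : ℚ) (u v : V) : ℚ := (m u v + bb m D u + bb m D v) / D

/-- `eta` of the plan. -/
def ee (V : Type) [Fintype V] (δ : ℚ) : ℚ := 2 * δ / (Fintype.card V : ℚ)

theorem r2_K {m : V → V → ℚ} {D δ : ℚ} (h : NRH m D δ) : (6 : ℚ) ≤ (Fintype.card V : ℚ) := by
  exact_mod_cast h.card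

/-- The bound of the correction. -/
theorem r2_bb {m : V → V → ℚ} {D δ : ℚ} (h : NRH m D δ) (v : V) :
    20 * (Fintype.card V : ℚ) ^ 3 * (((Fintype.card V : ℚ) - 2) * bb m D v) ≤ δ ^ 2 * D ∧
      -(δ ^ 2 * D) ≤ 20 * (Fintype.card V : ℚ) ^ 3 * (((Fintype.card V : ℚ) - 2) * bb m D v) := by
  have hK := r2_K h
  set K : ℚ := (Fintype.card V : ℚ) with hKd
  set E : ℚ := ∑ w, (D - dgt m w) with hE
  have hK2 : K - 2 ≠ 0 := by
    intro h0
    linarith
  have hb : (K - 2) * bb m D v = (D - dgt m v) - E / (2 * K - 2) := by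
    unfold bb
    rw [mul_div_cancel₀ _ hK2]
  have hE0 : 0 ≤ E := sum_nonneg fun w _ => sub_nonneg.mpr (h.hi w)
  have hE1 : 20 * K ^ 3 * E ≤ K * (δ ^ 2 * D) := by
    rw [hE, mul_sum]
    calc ∑ w, 20 * K ^ 3 * (D - dgt m w) ≤ ∑ _w : V, δ ^ 2 * D := sum_le_sum fun w _ => h.near w
      _ = K * (δ ^ 2 * D) := by
        rw [sum_const, card_univ, nsmul_eq_mul]
  have hK3 : 0 < K ^ 3 := by positivity
  have h2K : 0 < 2 * K - 2 := by linarith
  have hδD : 0 ≤ δ ^ 2 * D := mul_nonneg (sq_nonneg δ) h.D0.le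
  have hq0 : 0 ≤ E / (2 * K - 2) := div_nonneg hE0 h2K.le
  have hq1 : 20 * K ^ 3 * (E / (2 * K - 2)) ≤ δ ^ 2 * D := by
    rw [← mul_div_assoc, div_le_iff₀ h2K]
    nlinarith
  have hv0 : 0 ≤ D - dgt m v := sub_nonneg.mpr (h.hi v)
  have hv1 := h.near v
  rw [← hKd] at hv1
  rw [hb]
  constructor
  · have : 0 ≤ 20 * K ^ 3 * (E / (2 * K - 2)) := by positivity
    linarith [mul_sub (20 * K ^ 3) (D - dgt m v) (E / (2 * K - 2))]
  · have : 0 ≤ 20 * K ^ 3 * (D - dgt m v) := by positivity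
    linarith [mul_sub (20 * K ^ 3) (D - dgt m v) (E / (2 * K - 2))]

theorem r2_yy_symm {m : V → V → ℚ} {D δ : ℚ} (h : NRH m D δ) (u v : V) :
    yy m D u v = yy m D v u := by
  unfold yy
  rw [h.symm u v]
  ring

/-- The distance of `m` and `D y'`. -/
theorem r2_diff {m : V → V → ℚ} {D δ : ℚ} (h : NRH m D δ) (u v : V) :
    10 * (Fintype.card V : ℚ) ^ 3 * ((Fintype.card V : ℚ) - 2) * (m u v - D * yy m D u v) ≤
        δ ^ 2 * D ∧
      -(δ ^ 2 * D) ≤
        10 * (Fintype.card V : ℚ) ^ 3 * ((Fintype.card V : ℚ) - 2) * (m u v - D * yy m D u v) := by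
  have h1 := r2_bb h u
  have h2 := r2_bb h v
  have hy : m u v - D * yy m D u v = -(bb m D u + bb m D v) := by
    unfold yy
    rw [mul_div_cancel₀ _ h.D0.ne']
    ring
  rw [hy]
  constructor <;> linarith

/-- A lower bound for the regular weights. -/
theorem r2_lo {m : V → V → ℚ} {D δ : ℚ} (h : NRH m D δ) (u v : V) :
    m u v / D - δ ^ 2 / (10 * (Fintype.card V : ℚ) ^ 3 * ((Fintype.card V : ℚ) - 2)) ≤
      yy m D u v := by
  have hK := r2_K h
  have h1 := (r2_diff h u v).1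
  set K : ℚ := (Fintype.card V : ℚ) with hKd
  have hc : 0 < 10 * K ^ 3 * (K - 2) := by
    have : 0 < K - 2 := by linarith
    positivity
  have hD := h.D0
  have h2 : (m u v - D * yy m D u v) / D ≤ δ ^ 2 / (10 * K ^ 3 * (K - 2)) := by
    rw [div_le_div_iff₀ hD hc]
    linarith
  have h3 : (m u v - D * yy m D u v) / D = m u v / D - yy m D u v := by
    rw [sub_div, mul_div_cancel_left₀ _ hD.ne']
  linarith

theorem r2_row {m : V → V → ℚ} {D δ : ℚ} (h : NRH m D δ) (v : V) :
    ∑ u, (if u = v then 0 else yy m D u v) = 1 := by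
  have hK := r2_K h
  have hD := h.D0
  set K : ℚ := (Fintype.card V : ℚ) with hKd
  set E : ℚ := ∑ w, (D - dgt m w) with hE
  have hK2 : K - 2 ≠ 0 := by
    intro h0
    linarith
  have h2K : 2 * K - 2 ≠ 0 := by
    intro h0
    linarith
  have hB : ∑ w, bb m D w = E / (2 * K - 2) := by
    have : ∑ w, bb m D w = (E - K * (E / (2 * K - 2))) / (K - 2) := by
      unfold bb
      rw [← sum_div, sum_sub_distrib, sum_const, card_univ, nsmul_eq_mul]
    have hq : E = (2 * K - 2) * (E / (2 * K - 2)) := (mul_div_cancel₀ E h2K).symm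
    rw [this, div_eq_iff hK2]
    linarith
  have hb : (K - 2) * bb m D v = (D - dgt m v) - E / (2 * K - 2) := by
    unfold bb
    rw [mul_div_cancel₀ _ hK2]
  have h1 : ∀ u, (if u = v then (0 : ℚ) else yy m D u v) =
      ((if u = v then 0 else m u v) + (bb m D u + bb m D v) -
        (if u = v then 2 * bb m D v else 0)) / D := by
    intro u
    by_cases huv : u = v
    · rw [if_pos huv, if_pos huv, if_pos huv, huv]
      ring
    · rw [if_neg huv, if_neg huv, if_neg huv]
      unfold yy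
      ring
  rw [sum_congr rfl fun u _ => h1 u, ← sum_div, sum_sub_distrib, sum_add_distrib,
    sum_add_distrib, sum_ite_eq' univ v, if_pos (mem_univ v), sum_const, card_univ,
    nsmul_eq_mul, hB]
  rw [div_eq_one_iff_eq hD.ne']
  change dgt m v + (E / (2 * K - 2) + K * bb m D v) - 2 * bb m D v = D
  linarith

/-- The sum of the regular weights over a cut is at least that of `m / D`, up to an error. -/
theorem r2_cut {m : V → V → ℚ} {D δ : ℚ} (h : NRH m D δ) (S : Finset V) :
    (∑ u ∈ S, ∑ v ∈ univ \ S, m u v) / D -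
      (S.card : ℚ) * ((Fintype.card V : ℚ) - S.card) *
        (δ ^ 2 / (10 * (Fintype.card V : ℚ) ^ 3 * ((Fintype.card V : ℚ) - 2))) ≤
      ∑ u ∈ S, ∑ v ∈ univ \ S, yy m D u v := by
  set x : ℚ := δ ^ 2 / (10 * (Fintype.card V : ℚ) ^ 3 * ((Fintype.card V : ℚ) - 2)) with hx
  have hc : ((univ \ S).card : ℚ) = (Fintype.card V : ℚ) - S.card := by
    rw [card_sdiff_of_subset (subset_univ S), card_univ, Nat.cast_sub (card_le_univ S)]
  have h1 : ∑ u ∈ S, ∑ v ∈ univ \ S, (m u v / D - x) ≤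
      ∑ u ∈ S, ∑ v ∈ univ \ S, yy m D u v :=
    sum_le_sum fun u _ => sum_le_sum fun v _ => r2_lo h u v
  have h2 : ∑ u ∈ S, ∑ v ∈ univ \ S, (m u v / D - x) =
      (∑ u ∈ S, ∑ v ∈ univ \ S, m u v) / D - (S.card : ℚ) * ((Fintype.card V : ℚ) - S.card) * x := by
    rw [sum_div, ← hc]
    have : ∀ u ∈ S, ∑ v ∈ univ \ S, (m u v / D - x) =
        (∑ v ∈ univ \ S, m u v) / D - ((univ \ S).card : ℚ) * x := by
      intro u _
      rw [sum_sub_distrib, ← sum_div, sum_const, nsmul_eq_mul]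
    rw [sum_congr rfl this, sum_sub_distrib, sum_const, nsmul_eq_mul]
    ring
  linarith

/-- The cut sums of an odd set for the regular weights. -/
theorem r2_odd {m : V → V → ℚ} {D δ : ℚ} (h : NRH m D δ) (S : Finset V) (hS : Odd S.card) :
    S.card = 1 ∨ S.card + 1 = Fintype.card V ∨
      (1 + δ / 2 ≤ ∑ u ∈ S, ∑ v ∈ univ \ S, yy m D u v) := by
  have hle : S.card ≤ Fintype.card V := card_le_univ S
  obtain ⟨a, ha⟩ := hS
  obtain ⟨b, hb⟩ := h.even
  by_cases h1 : S.card = 1
  · exact Or.inl h1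
  by_cases h2 : S.card + 1 = Fintype.card V
  · exact Or.inr (Or.inl h2)
  refine Or.inr (Or.inr ?_)
  have h3 : 3 ≤ S.card := by omega
  have h4 : S.card + 3 ≤ Fintype.card V := by omega
  have h5 := h.odd S ⟨a, ha⟩ h3 h4
  have h6 := r2_cut h S
  have hK := r2_K h
  have hD := h.D0
  have hδ0 := h.δ0
  have hδ1 := h.δ1
  set K : ℚ := (Fintype.card V : ℚ) with hKd
  set s : ℚ := (S.card : ℚ) with hs
  have h7 : 1 + δ ≤ (∑ u ∈ S, ∑ v ∈ univ \ S, m u v) / D := by
    rw [le_div_iff₀ hD]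
    exact h5
  have hp : s * (K - s) ≤ K ^ 2 / 4 := by nlinarith [sq_nonneg (K - 2 * s)]
  have hK2 : 0 < K - 2 := by linarith
  have hc : 0 < 10 * K ^ 3 * (K - 2) := by positivity
  have h8 : s * (K - s) * (δ ^ 2 / (10 * K ^ 3 * (K - 2))) ≤ δ / 2 := by
    have hx0 : 0 ≤ δ ^ 2 / (10 * K ^ 3 * (K - 2)) := by positivity
    refine (mul_le_mul_of_nonneg_right hp hx0).trans ?_
    rw [← mul_div_assoc, div_le_iff₀ hc]
    have h9 : δ ^ 2 ≤ δ := by nlinarith
    have h10 : K ^ 2 / 4 * δ ^ 2 ≤ K ^ 2 / 4 * δ :=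
      mul_le_mul_of_nonneg_left h9 (by positivity)
    refine h10.trans ?_
    have h11 : (1 : ℚ) ≤ K * (K - 2) := by nlinarith
    have h12 : K ^ 2 * δ * 1 ≤ K ^ 2 * δ * (K * (K - 2)) :=
      mul_le_mul_of_nonneg_left h11 (by positivity)
    have h13 : 0 ≤ K ^ 2 * δ * (K * (K - 2)) := by positivity
    have h14 : δ / 2 * (10 * K ^ 3 * (K - 2)) = 5 * (K ^ 2 * δ * (K * (K - 2))) := by ring
    rw [h14]
    linarith
  linarith

theorem r2_pos {m : V → V → ℚ} {D δ : ℚ} (h : NRH m D δ) (u v : V) (huv : u ≠ v) :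
    ee V δ / ((Fintype.card V : ℚ) - 1) ≤ yy m D u v := by
  have hK := r2_K h
  have hD := h.D0
  have hδ0 := h.δ0
  have hδ1 := h.δ1
  have h1 := r2_lo h u v
  unfold ee
  set K : ℚ := (Fintype.card V : ℚ) with hKd
  have h2 : δ ≤ m u v / D := by
    rw [le_div_iff₀ hD]
    exact h.lo u v huv
  have hK2 : 0 < K - 2 := by linarith
  have hK1 : 0 < K - 1 := by linarith
  have hK0 : 0 < K := by linarith
  have hc : 0 < 10 * K ^ 3 * (K - 2) := by positivity
  have h3 : δ ^ 2 / (10 * K ^ 3 * (K - 2)) ≤ δ / 2 := by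
    rw [div_le_iff₀ hc]
    have h9 : δ ^ 2 ≤ δ := by nlinarith
    have h11 : (1 : ℚ) ≤ K ^ 3 * (K - 2) := by
      have h12 : (1 : ℚ) ≤ K ^ 3 := one_le_pow₀ (by linarith)
      have h13 : (1 : ℚ) ≤ K - 2 := by linarith
      nlinarith
    have h14 : δ / 2 * (10 * K ^ 3 * (K - 2)) = 5 * (δ * (K ^ 3 * (K - 2))) := by ring
    rw [h14]
    have h15 : δ * 1 ≤ δ * (K ^ 3 * (K - 2)) := mul_le_mul_of_nonneg_left h11 hδ0.le
    linarith
  have h4 : 2 * δ / K / (K - 1) ≤ δ / 2 := by
    rw [div_div, div_le_iff₀ (by positivity)]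
    have h16 : (4 : ℚ) ≤ K * (K - 1) := by nlinarith
    have h17 : δ * 4 ≤ δ * (K * (K - 1)) := mul_le_mul_of_nonneg_left h16 hδ0.le
    linarith
  linarith

theorem r2_const_row (x : ℚ) (v : V) :
    ∑ u : V, (if u = v then (0 : ℚ) else x) = ((Fintype.card V : ℚ) - 1) * x := by
  have h1 : ∀ u : V, (if u = v then (0 : ℚ) else x) = x - (if u = v then x else 0) := by
    intro u
    by_cases huv : u = v
    · rw [if_pos huv, if_pos huv, sub_self]
    · rw [if_neg huv, if_neg huv, sub_zero]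
  rw [sum_congr rfl fun u _ => h1 u, sum_sub_distrib, sum_ite_eq' univ v, if_pos (mem_univ v),
    sum_const, card_univ, nsmul_eq_mul]
  ring

theorem r2_singleton (y : V → V → ℚ) (hs : ∀ u v, y u v = y v u)
    (hr : ∀ v, ∑ u, (if u = v then 0 else y u v) = 1) (S : Finset V) (hS : S.card = 1) :
    ∑ u ∈ S, ∑ v ∈ univ \ S, y u v = 1 := by
  obtain ⟨a, rfl⟩ := card_eq_one.mp hS
  rw [sum_singleton, ← hr a]
  rw [← sum_sdiff (subset_univ ({a} : Finset V)) (f := fun u => if u = a then 0 else y u a),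
    sum_singleton, if_pos rfl, add_zero]
  refine sum_congr rfl fun v hv => ?_
  rw [mem_sdiff, mem_singleton] at hv
  rw [if_neg hv.2, hs a v]

theorem r2_compl (y : V → V → ℚ) (hs : ∀ u v, y u v = y v u)
    (hr : ∀ v, ∑ u, (if u = v then 0 else y u v) = 1) (S : Finset V)
    (hS : S.card + 1 = Fintype.card V) :
    ∑ u ∈ S, ∑ v ∈ univ \ S, y u v = 1 := by
  have h1 : (univ \ S).card = 1 := by
    rw [card_sdiff_of_subset (subset_univ S), card_univ]
    omega
  have h2 := r2_singleton y hs hr (univ \ S) h1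
  have h3 : univ \ (univ \ S) = S := by
    rw [sdiff_sdiff_right_self]
    exact univ_inter S
  rw [h3, sum_comm] at h2
  rw [← h2]
  exact sum_congr rfl fun u _ => sum_congr rfl fun v _ => hs u v

/-- The shifted regular weights `(y' + c) / (1 + (K - 1) c)`. -/
theorem r2_pmt {m : V → V → ℚ} {D δ : ℚ} (h : NRH m D δ) (c : ℚ)
    (hpos : 0 < 1 + ((Fintype.card V : ℚ) - 1) * c)
    (hnn : ∀ u v, u ≠ v → 0 ≤ yy m D u v + c)
    (hodd : ∀ s : ℚ, 1 ≤ s → s + 1 ≤ (Fintype.card V : ℚ) →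
      ((Fintype.card V : ℚ) - 1) * c ≤ δ / 2 + s * ((Fintype.card V : ℚ) - s) * c) :
    PMT (fun u v => (yy m D u v + c) / (1 + ((Fintype.card V : ℚ) - 1) * c)) := by
  have hs : ∀ u v, (yy m D u v + c) / (1 + ((Fintype.card V : ℚ) - 1) * c) =
      (yy m D v u + c) / (1 + ((Fintype.card V : ℚ) - 1) * c) := by
    intro u v
    rw [r2_yy_symm h u v]
  have hr : ∀ v, ∑ u, (if u = v then 0 else
      (yy m D u v + c) / (1 + ((Fintype.card V : ℚ) - 1) * c)) = 1 := by
    intro v
    have h1 : ∀ u, (if u = v then (0 : ℚ) else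
        (yy m D u v + c) / (1 + ((Fintype.card V : ℚ) - 1) * c)) =
        ((if u = v then 0 else yy m D u v) + (if u = v then 0 else c)) /
          (1 + ((Fintype.card V : ℚ) - 1) * c) := by
      intro u
      by_cases huv : u = v
      · rw [if_pos huv, if_pos huv, if_pos huv, add_zero, zero_div]
      · rw [if_neg huv, if_neg huv, if_neg huv]
    rw [sum_congr rfl fun u _ => h1 u, ← sum_div, sum_add_distrib, r2_row h v,
      r2_const_row c v]
    exact div_self hpos.ne'
  refine ⟨hs, ?_, hr, ?_⟩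
  · intro u v huv
    exact div_nonneg (hnn u v huv) hpos.le
  · intro S hS
    rcases r2_odd h S hS with h1 | h1 | h1
    · exact (r2_singleton _ hs hr S h1).ge
    · exact (r2_compl _ hs hr S h1).ge
    · by_cases hS1 : S.card = 1
      · exact (r2_singleton _ hs hr S hS1).ge
      by_cases hS2 : S.card + 1 = Fintype.card V
      · exact (r2_compl _ hs hr S hS2).ge
      have hle : S.card ≤ Fintype.card V := card_le_univ S
      obtain ⟨a, ha⟩ := hS
      obtain ⟨b, hb⟩ := h.even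
      have hs1 : (1 : ℚ) ≤ (S.card : ℚ) := by
        have : 1 ≤ S.card := by omega
        exact_mod_cast this
      have hs2 : (S.card : ℚ) + 1 ≤ (Fintype.card V : ℚ) := by
        have : S.card + 1 ≤ Fintype.card V := by omega
        exact_mod_cast this
      have h2 := hodd (S.card : ℚ) hs1 hs2
      have hc : ((univ \ S).card : ℚ) = (Fintype.card V : ℚ) - S.card := by
        rw [card_sdiff_of_subset (subset_univ S), card_univ, Nat.cast_sub (card_le_univ S)]
      have h3 : ∑ u ∈ S, ∑ v ∈ univ \ S,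
          (yy m D u v + c) / (1 + ((Fintype.card V : ℚ) - 1) * c) =
          ((∑ u ∈ S, ∑ v ∈ univ \ S, yy m D u v) +
            (S.card : ℚ) * ((Fintype.card V : ℚ) - S.card) * c) /
            (1 + ((Fintype.card V : ℚ) - 1) * c) := by
        have h4 : ∀ u ∈ S, ∑ v ∈ univ \ S,
            (yy m D u v + c) / (1 + ((Fintype.card V : ℚ) - 1) * c) =
            ((∑ v ∈ univ \ S, yy m D u v) + ((Fintype.card V : ℚ) - S.card) * c) /
              (1 + ((Fintype.card V : ℚ) - 1) * c) := by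
          intro u _
          rw [← sum_div, sum_add_distrib, sum_const, nsmul_eq_mul, hc]
        rw [sum_congr rfl h4, ← sum_div, sum_add_distrib, sum_const, nsmul_eq_mul]
        ring
      rw [h3, le_div_iff₀ hpos]
      linarith

theorem nrh_pmt1 {m : V → V → ℚ} {D δ : ℚ} (h : NRH m D δ) :
    PMT (fun u v => (yy m D u v - ee V δ / ((Fintype.card V : ℚ) - 1)) / (1 - ee V δ)) := by
  have hK := r2_K h
  have hδ0 := h.δ0
  have hδ1 := h.δ1
  have hK1 : (Fintype.card V : ℚ) - 1 ≠ 0 := by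
    intro h0
    linarith
  have hK1' : 0 < (Fintype.card V : ℚ) - 1 := by linarith
  have hK0 : 0 < (Fintype.card V : ℚ) := by linarith
  have he : ((Fintype.card V : ℚ) - 1) * (-(ee V δ / ((Fintype.card V : ℚ) - 1))) = -ee V δ := by
    rw [mul_neg, mul_div_cancel₀ _ hK1]
  have hee : ee V δ < 1 := by
    unfold ee
    rw [div_lt_one hK0]
    linarith
  have hee0 : 0 < ee V δ := by
    unfold ee
    positivity
  have h1 := r2_pmt h (-(ee V δ / ((Fintype.card V : ℚ) - 1))) (by rw [he]; linarith)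
    (fun u v huv => by
      have := r2_pos h u v huv
      linarith)
    (fun s hs1 hs2 => by
      rw [he]
      have h2 : s * ((Fintype.card V : ℚ) - s) ≤ (Fintype.card V : ℚ) ^ 2 / 4 := by
        nlinarith [sq_nonneg ((Fintype.card V : ℚ) - 2 * s)]
      have h3 : s * ((Fintype.card V : ℚ) - s) * (ee V δ / ((Fintype.card V : ℚ) - 1)) ≤
          (Fintype.card V : ℚ) ^ 2 / 4 * (ee V δ / ((Fintype.card V : ℚ) - 1)) :=
        mul_le_mul_of_nonneg_right h2 (by positivity)
      have h4 : (Fintype.card V : ℚ) ^ 2 / 4 * (ee V δ / ((Fintype.card V : ℚ) - 1)) ≤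
          δ / 2 + ee V δ := by
        rw [← mul_div_assoc, div_le_iff₀ hK1']
        unfold ee
        have h5 : (Fintype.card V : ℚ) ^ 2 / 4 * (2 * δ / (Fintype.card V : ℚ)) =
            (Fintype.card V : ℚ) * δ / 2 := by
          field_simp
          ring
        rw [h5]
        have h6 : (δ / 2 + 2 * δ / (Fintype.card V : ℚ)) * ((Fintype.card V : ℚ) - 1) =
            δ * ((Fintype.card V : ℚ) - 1) / 2 + (2 * δ - 2 * δ / (Fintype.card V : ℚ)) := by
          field_simp
        rw [h6]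
        have h7 : 2 * δ / (Fintype.card V : ℚ) ≤ δ := by
          rw [div_le_iff₀ hK0]
          nlinarith
        linarith
      have h8 : s * ((Fintype.card V : ℚ) - s) * (-(ee V δ / ((Fintype.card V : ℚ) - 1))) =
          -(s * ((Fintype.card V : ℚ) - s) * (ee V δ / ((Fintype.card V : ℚ) - 1))) := by ring
      rw [h8]
      linarith)
  rw [he] at h1
  simp only [← sub_eq_add_neg] at h1
  exact h1

theorem nrh_pmt2 {m : V → V → ℚ} {D δ : ℚ} (h : NRH m D δ) :
    PMT (fun u v => (yy m D u v + ee V δ / ((Fintype.card V : ℚ) - 1)) / (1 + ee V δ)) := by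
  have hK := r2_K h
  have hδ0 := h.δ0
  have hδ1 := h.δ1
  have hK1 : (Fintype.card V : ℚ) - 1 ≠ 0 := by
    intro h0
    linarith
  have hK1' : 0 < (Fintype.card V : ℚ) - 1 := by linarith
  have hK0 : 0 < (Fintype.card V : ℚ) := by linarith
  have he : ((Fintype.card V : ℚ) - 1) * (ee V δ / ((Fintype.card V : ℚ) - 1)) = ee V δ := by
    rw [mul_div_cancel₀ _ hK1]
  have hee0 : 0 < ee V δ := by
    unfold ee
    positivity
  have hc0 : 0 < ee V δ / ((Fintype.card V : ℚ) - 1) := by positivity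
  have h1 := r2_pmt h (ee V δ / ((Fintype.card V : ℚ) - 1)) (by rw [he]; linarith)
    (fun u v huv => by
      have := r2_pos h u v huv
      linarith)
    (fun s hs1 hs2 => by
      have h2 : (Fintype.card V : ℚ) - 1 ≤ s * ((Fintype.card V : ℚ) - s) := by nlinarith
      have h3 := mul_le_mul_of_nonneg_right h2 hc0.le
      linarith)
  rw [he] at h1
  exact h1

theorem nrh_close {m : V → V → ℚ} {D δ : ℚ} (h : NRH m D δ) (u v : V) (huv : u ≠ v) :
    10 * (Fintype.card V : ℚ) ^ 3 * ((Fintype.card V : ℚ) - 2) * |m u v - D * yy m D u v| ≤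
      δ ^ 2 * D ∧ 0 ≤ yy m D u v ∧ yy m D u v ≤ 1 := by
  have hK := r2_K h
  have hδ0 := h.δ0
  have h1 := r2_diff h u v
  have hc : 0 ≤ 10 * (Fintype.card V : ℚ) ^ 3 * ((Fintype.card V : ℚ) - 2) := by
    have : 0 ≤ (Fintype.card V : ℚ) - 2 := by linarith
    positivity
  have hnn : ∀ a b, a ≠ b → 0 ≤ yy m D a b := by
    intro a b hab
    have h2 := r2_pos h a b hab
    have h3 : 0 ≤ ee V δ / ((Fintype.card V : ℚ) - 1) := by
      unfold ee
      have : 0 ≤ (Fintype.card V : ℚ) - 1 := by linarith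
      positivity
    linarith
  refine ⟨?_, hnn u v huv, ?_⟩
  · have h3 : 10 * (Fintype.card V : ℚ) ^ 3 * ((Fintype.card V : ℚ) - 2) *
        |m u v - D * yy m D u v| = |10 * (Fintype.card V : ℚ) ^ 3 * ((Fintype.card V : ℚ) - 2) *
        (m u v - D * yy m D u v)| := by
      rw [abs_mul, abs_of_nonneg hc]
    rw [h3, abs_le]
    exact ⟨h1.2, h1.1⟩
  · rw [← r2_row h v]
    have h2 : (if u = v then (0 : ℚ) else yy m D u v) ≤
        ∑ w, (if w = v then 0 else yy m D w v) := by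
      refine single_le_sum (f := fun w => if w = v then (0 : ℚ) else yy m D w v) ?_ (mem_univ u)
      intro w _
      by_cases hw : w = v
      · change 0 ≤ (if w = v then (0 : ℚ) else yy m D w v)
        rw [if_pos hw]
      · change 0 ≤ (if w = v then (0 : ℚ) else yy m D w v)
        rw [if_neg hw]
        exact hnn w v hw
    rw [if_neg huv] at h2
    exact h2

end Types

end Pool.Agent.Lib.MP_95bb8c_al.GW
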