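import Pool.Agent.Lib.MP_95bb8c_al.GW.CoverGen
import Pool.Agent.Lib.MP_95bb8c_al.GW.Three
import Pool.Agent.Lib.MP_95bb8c_al.GW.Functional
import Pool.Agent.Lib.MP_95bb8c_al.GW.TypeLevel
import Pool.Agent.Lib.MP_95bb8c_al.GW.DdEdge
import Pool.Agent.Lib.MP_95bb8c_al.GW.NearReg
import Pool.Agent.Lib.MP_95bb8c_al.GW.KappaHalf

set_option autoImplicit false
set_option linter.unusedSectionVars false

/-!
# Nearly regular lists are polygonal
-/

namespace Pool.Agent.Lib.MP_95bb8c_al.GW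

open Finset

section Graph

variable {V E : Type} [Fintype V] [DecidableEq V] [Fintype E] [DecidableEq E]

theorem r3_dgt {s t : E → V} (hl : ∀ e, s e ≠ t e) (v : V) :
    dgt (mq s t) v = ((cut s t {v}).card : ℚ) := by
  rw [g5_deg hl]
  unfold dgt
  refine Finset.sum_congr rfl fun u _ => ?_
  by_cases h : u = v
  · rw [if_pos h, h, g5_mq_self]
  · rw [if_neg h, g5_mq_symm]

theorem r3_mq_nonneg (s t : E → V) (u v : V) : 0 ≤ mq s t u v := by
  unfold mq
  positivity

theorem r3_mq_le {s t : E → V} (hl : ∀ e, s e ≠ t e) (u v : V) :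
    mq s t u v ≤ ((cut s t {u}).card : ℚ) := by
  rw [g5_deg hl]
  exact Finset.single_le_sum (f := fun w => mq s t u w) (fun w _ => r3_mq_nonneg s t u w)
    (Finset.mem_univ v)

theorem r3_Kx_nonneg {s t : E → V} {κ : V → E → E → ℚ} (hκ : ∀ v e f, 0 ≤ κ v e f) (z u w : V) :
    0 ≤ Kx s t κ z u w :=
  Finset.sum_nonneg fun p _ => Finset.sum_nonneg fun q _ => hκ z p q

theorem r3_Kx_le {s t : E → V} {κ : V → E → E → ℚ} (hκ : ∀ v e f, 0 ≤ κ v e f)
    (hsym : ∀ v e f, κ v e f = κ v f e) (ρ : V → ℚ)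
    (hrow : ∀ v w, ∀ q ∈ J s t v w,
      ∑ u, (if u = w then 0 else ∑ p ∈ J s t u v, κ v p q) = ρ v) (z u w : V) (huw : u ≠ w) :
    Kx s t κ z u w ≤ ρ z * mq s t u z := by
  rw [← g5_row κ hsym ρ hrow z u]
  have h1 : Kx s t κ z u w = (if w = u then 0 else Kx s t κ z u w) := by
    rw [if_neg huw.symm]
  rw [h1]
  exact Finset.single_le_sum (f := fun w => if w = u then 0 else Kx s t κ z u w)
    (fun w _ => by
      split_ifs
      · exact le_rfl
      · exact r3_Kx_nonneg hκ z u w) (Finset.mem_univ w)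

/-- The bounds for the demand. -/
theorem r3_bounds {s t : E → V} (hl : ∀ e, s e ≠ t e) (D : ℕ) (hD2 : 2 ≤ D) {δ : ℚ}
    (h : NRH (mq s t) D δ) (κ : V → E → E → ℚ) (hκ : ∀ v e f, 0 ≤ κ v e f)
    (hsym : ∀ v e f, κ v e f = κ v f e) (ρ : V → ℚ)
    (hρ : ∀ v, ρ v = ((D : ℚ) - (cut s t {v}).card) / ((D : ℚ) - 1))
    (hrow : ∀ v w, ∀ q ∈ J s t v w,
      ∑ u, (if u = w then 0 else ∑ p ∈ J s t u v, κ v p q) = ρ v)
    (K lam e q : ℚ) (hK : K = Fintype.card V) (hlam : lam = 1 / ((D : ℚ) - 1))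
    (hq : q = lam * D ^ 2 * δ ^ 2 / (20 * K ^ 3 * (K - 2)))
    (u v w : V) (huv : u ≠ v) (hvw : v ≠ w) (huw : u ≠ w) :
    lam * D ^ 2 * e ^ 2 - 7 * q ≤ dd s t (K - 2) lam κ ρ u v w -
        lam * D ^ 2 * (yy (mq s t) D u v * yy (mq s t) D v w - e ^ 2) ∧
      dd s t (K - 2) lam κ ρ u v w -
        lam * D ^ 2 * (yy (mq s t) D u v * yy (mq s t) D v w - e ^ 2) ≤
        lam * D ^ 2 * e ^ 2 + 4 * q := by
  have hK6 : (6 : ℚ) ≤ K := by rw [hK]; exact_mod_cast h.card
  have hDq : (2 : ℚ) ≤ D := by exact_mod_cast hD2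
  have hD1 : (0 : ℚ) < (D : ℚ) - 1 := by linarith
  have hlam0 : 0 < lam := by rw [hlam]; exact div_pos one_pos hD1
  have hk0 : 0 < K - 2 := by linarith
  have hc0 : 0 < 20 * K ^ 3 * (K - 2) := by positivity
  have hδ := h.δ0
  -- the unit
  set g : ℚ := δ ^ 2 * D / (20 * K ^ 3 * (K - 2)) with hg
  have hg0 : 0 ≤ g := by positivity
  have hqg : q = lam * D * g := by
    rw [hq, hg]
    field_simp
  -- multiplicities
  have hm : ∀ a b, mq s t a b ≤ D := by
    intro a b
    refine (r3_mq_le hl a b).trans ?_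
    rw [← r3_dgt hl]
    exact h.hi a
  have hclose : ∀ a b, a ≠ b → |mq s t a b - D * yy (mq s t) D a b| ≤ 2 * g ∧
      0 ≤ (D : ℚ) * yy (mq s t) D a b ∧ D * yy (mq s t) D a b ≤ D := by
    intro a b hab
    obtain ⟨h1, h2, h3⟩ := nrh_close h a b hab
    refine ⟨?_, mul_nonneg (by linarith) h2, ?_⟩
    · rw [← hK] at h1
      have h4 : 2 * g = δ ^ 2 * D / (10 * K ^ 3 * (K - 2)) := by
        rw [hg]
        field_simp
        norm_num
      rw [h4, le_div_iff₀ (by positivity)]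
      linarith
    · calc (D : ℚ) * yy (mq s t) D a b ≤ D * 1 :=
            mul_le_mul_of_nonneg_left h3 (by linarith)
        _ = D := mul_one _
  -- the product term
  obtain ⟨a1, a2, a3⟩ := hclose u v huv
  obtain ⟨b1, b2, b3⟩ := hclose v w hvw
  have hm1 := hm u v
  have hm2 := hm v w
  have hn1 := r3_mq_nonneg s t u v
  have hn2 := r3_mq_nonneg s t v w
  set x1 := mq s t u v with hx1
  set x2 := mq s t v w with hx2
  set X1 := (D : ℚ) * yy (mq s t) D u v with hX1
  set X2 := (D : ℚ) * yy (mq s t) D v w with hX2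
  have hprod : |x1 * x2 - X1 * X2| ≤ 4 * (D * g) := by
    have e1 : x1 * x2 - X1 * X2 = (x1 - X1) * x2 + X1 * (x2 - X2) := by ring
    rw [e1]
    refine (abs_add_le _ _).trans ?_
    rw [abs_mul, abs_mul, abs_of_nonneg hn2, abs_of_nonneg a2]
    have e2 : |x1 - X1| * x2 ≤ 2 * g * D :=
      mul_le_mul a1 hm2 hn2 (by linarith)
    have e3 : X1 * |x2 - X2| ≤ D * (2 * g) :=
      mul_le_mul a3 b1 (abs_nonneg _) (by linarith)
    linarith
  -- the spill
  have hρ0 : ∀ z, 0 ≤ ρ z := by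
    intro z
    rw [hρ]
    refine div_nonneg ?_ hD1.le
    have := h.hi z
    rw [r3_dgt hl] at this
    linarith
  have hρ1 : ∀ z, ρ z ≤ lam * (g * (K - 2)) := by
    intro z
    rw [hρ, hlam]
    have h1 := h.near z
    rw [r3_dgt hl, ← hK] at h1
    have h2 : g * (K - 2) = δ ^ 2 * D / (20 * K ^ 3) := by
      rw [hg]
      field_simp
    rw [h2, one_div, div_eq_inv_mul]
    refine mul_le_mul_of_nonneg_left ?_ (by positivity)
    rw [le_div_iff₀ (by positivity)]
    linarith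
  have hsp : ∀ z a b, ρ z * mq s t a b / (K - 2) ≤ q := by
    intro z a b
    rw [div_le_iff₀ hk0, hqg]
    calc ρ z * mq s t a b ≤ (lam * (g * (K - 2))) * D :=
          mul_le_mul (hρ1 z) (hm a b) (r3_mq_nonneg s t a b) (by positivity)
      _ = lam * D * g * (K - 2) := by ring
  have hsp0 : ∀ z a b, 0 ≤ ρ z * mq s t a b / (K - 2) := fun z a b =>
    div_nonneg (mul_nonneg (hρ0 z) (r3_mq_nonneg s t a b)) hk0.le
  have hs4 : 0 ≤ sum4 u v w (fun z => Kx s t κ z u w) / (K - 2) := by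
    refine div_nonneg (Finset.sum_nonneg fun z _ => ?_) hk0.le
    split_ifs
    · exact le_rfl
    · exact r3_Kx_nonneg hκ z u w
  have hs4' : sum4 u v w (fun z => Kx s t κ z u w) / (K - 2) ≤ q := by
    rw [div_le_iff₀ hk0, hqg]
    have h1 : sum4 u v w (fun z => Kx s t κ z u w) ≤
        ∑ z, lam * (g * (K - 2)) * mq s t u z := by
      unfold sum4
      refine Finset.sum_le_sum fun z _ => ?_
      have h2 : 0 ≤ lam * (g * (K - 2)) * mq s t u z :=
        mul_nonneg (by positivity) (r3_mq_nonneg s t u z)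
      split_ifs
      · exact h2
      · refine (r3_Kx_le hκ hsym ρ hrow z u w huw).trans ?_
        exact mul_le_mul_of_nonneg_right (hρ1 z) (r3_mq_nonneg s t u z)
    rw [← Finset.mul_sum, ← g5_deg hl] at h1
    refine h1.trans ?_
    have h2 : ((cut s t {u}).card : ℚ) ≤ D := by
      rw [← r3_dgt hl]
      exact h.hi u
    calc lam * (g * (K - 2)) * ((cut s t {u}).card : ℚ) ≤ lam * (g * (K - 2)) * D :=
          mul_le_mul_of_nonneg_left h2 (by positivity)
      _ = lam * D * g * (K - 2) := by ring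
  -- conclusion
  have hdd : dd s t (K - 2) lam κ ρ u v w -
        lam * D ^ 2 * (yy (mq s t) D u v * yy (mq s t) D v w - e ^ 2) =
      lam * D ^ 2 * e ^ 2 + lam * (x1 * x2 - X1 * X2) - ρ u * mq s t u v / (K - 2) -
        ρ w * mq s t v w / (K - 2) - sum4 u v w (fun z => Kx s t κ z u w) / (K - 2) := by
    unfold dd
    rw [hX1, hX2, hx1, hx2]
    ring
  rw [hdd]
  have hp1 := mul_le_mul_of_nonneg_left (abs_le.mp hprod).1 hlam0.le
  have hp2 := mul_le_mul_of_nonneg_left (abs_le.mp hprod).2 hlam0.le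
  have hq4 : lam * (4 * (D * g)) = 4 * q := by rw [hqg]; ring
  have hq4' : lam * -(4 * (D * g)) = -(4 * q) := by rw [hqg]; ring
  rw [hq4] at hp2
  rw [hq4'] at hp1
  constructor
  · linarith [hsp u u v, hsp w v w]
  · linarith [hsp0 u u v, hsp0 w v w]

theorem r3_sum3 {z : V → V → ℚ} (hz : PMT z) {u v : V} (huv : u ≠ v) :
    sum3 u v (fun w => z v w) = 1 - z u v := by
  have h1 := hz.row v
  have h2 : ∀ w, (if w = v then 0 else z w v) = (if w = v then 0 else z v w) := by
    intro w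
    rw [hz.symm]
  rw [Finset.sum_congr rfl (fun w _ => h2 w)] at h1
  rw [← h1]
  unfold sum3
  rw [← Finset.sum_erase_add _ _ (Finset.mem_univ u), ← Finset.sum_erase_add (a := u) _
    (fun w => if w = v then 0 else z v w) (Finset.mem_univ u)]
  rw [if_pos (Or.inl rfl), if_neg huv, add_zero, hz.symm v u, add_sub_cancel_right]
  refine Finset.sum_congr rfl fun w hw => ?_
  have h3 := Finset.ne_of_mem_erase hw
  by_cases h4 : w = v
  · rw [if_pos (Or.inr h4), if_pos h4]
  · rw [if_neg (by tauto), if_neg h4]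

theorem r3_sum3_prod {y z : V → V → ℚ} (hy : PMT y) (hz : PMT z) {u v : V} (huv : u ≠ v) :
    sum3 u v (fun w => y u v * z v w + z u v * y v w) =
      sum3 u v (fun w => y v u * z u w + z v u * y u w) := by
  have h1 : ∀ a b : V, a ≠ b → sum3 a b (fun w => y a b * z b w + z a b * y b w) =
      y a b * (1 - z a b) + z a b * (1 - y a b) := by
    intro a b hab
    have h2 := g5_sum3_mul a b (y a b) (fun w => z b w)
    have h3 := g5_sum3_mul a b (z a b) (fun w => y b w)
    rw [r3_sum3 hz hab] at h2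
    rw [r3_sum3 hy hab] at h3
    rw [← h2, ← h3]
    unfold sum3
    rw [← Finset.sum_add_distrib]
    refine Finset.sum_congr rfl fun w _ => ?_
    split_ifs
    · rw [add_zero]
    · rfl
  have h2 := h1 u v huv
  have h3 := h1 v u huv.symm
  rw [g5_sum3_comm v u] at h3
  rw [h2, h3, hy.symm v u, hz.symm v u]

/-- **The law.** -/
theorem nr_law {s t : E → V} (hl : ∀ e, s e ≠ t e) (D : ℕ) (hD2 : 2 ≤ D) {δ : ℚ}
    (h : NRH (mq s t) D δ) (κ : V → E → E → ℚ) (hκ : ∀ v e f, 0 ≤ κ v e f)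
    (hsym : ∀ v e f, κ v e f = κ v f e)
    (hpar : ∀ u v, ∀ e ∈ J s t u v, ∀ f ∈ J s t u v, κ v e f = 0) (ρ : V → ℚ)
    (hρ : ∀ v, ρ v = ((D : ℚ) - (cut s t {v}).card) / ((D : ℚ) - 1))
    (hrow : ∀ v w, ∀ q ∈ J s t v w,
      ∑ u, (if u = w then 0 else ∑ p ∈ J s t u v, κ v p q) = ρ v)
    (hrow' : ∀ v, ∀ e ∈ cut s t {v}, ∑ f ∈ (cut s t {v}).erase e,
      (1 / ((D : ℚ) - 1) + κ v e f) = 1) :
    ∃ (L : List (Finset E)) (N : ℕ), 0 < N ∧ (∀ C ∈ L, IsCycle s t C) ∧
      ∀ v, ∀ e ∈ cut s t {v}, ∀ f ∈ cut s t {v},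
        ((L.countP fun C => e ∈ C ∧ f ∈ C : ℕ) : ℚ) =
          N * (if e = f then 1 else 1 / ((D : ℚ) - 1) + κ v e f) := by
  obtain ⟨K, hK⟩ : ∃ K : ℚ, K = Fintype.card V := ⟨_, rfl⟩
  obtain ⟨lam, hlam⟩ : ∃ lam : ℚ, lam = 1 / ((D : ℚ) - 1) := ⟨_, rfl⟩
  have hK6 : (6 : ℚ) ≤ K := by rw [hK]; exact_mod_cast h.card
  have hDq : (2 : ℚ) ≤ D := by exact_mod_cast hD2
  have hD1 : (0 : ℚ) < (D : ℚ) - 1 := by linarith
  have hlam0 : 0 < lam := by rw [hlam]; exact div_pos one_pos hD1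
  have hk0 : 0 < K - 2 := by linarith
  have hδ := h.δ0
  have hδ1 := h.δ1
  have hmpos : ∀ u v, u ≠ v → 0 < mq s t u v := fun u v huv =>
    lt_of_lt_of_le (mul_pos hδ (by linarith)) (h.lo u v huv)
  obtain ⟨η, hη⟩ : ∃ η : ℚ, η = ee V δ := ⟨_, rfl⟩
  have hη' : η = 2 * δ / K := by rw [hη, hK]; rfl
  have hη0 : 0 < η := by rw [hη']; exact div_pos (by linarith) (by linarith)
  have hη1 : η < 1 := by
    rw [hη', div_lt_one (by linarith)]
    linarith
  set e : ℚ := η / (K - 1) with he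
  have hy := nrh_pmt1 h
  have hz := nrh_pmt2 h
  rw [← hK, ← hη] at hy hz
  set y : V → V → ℚ := fun u v => (yy (mq s t) D u v - η / (K - 1)) / (1 - η) with hydef
  set z : V → V → ℚ := fun u v => (yy (mq s t) D u v + η / (K - 1)) / (1 + η) with hzdef
  set θ : ℚ := lam * D ^ 2 * (1 - η ^ 2) / 2 with hθ
  have hθ0 : 0 ≤ θ := by
    rw [hθ]
    have h1 : 0 ≤ 1 - η ^ 2 := by nlinarith
    positivity
  have hprod : ∀ u v w, θ * (y u v * z v w + z u v * y v w) =
      lam * D ^ 2 * (yy (mq s t) D u v * yy (mq s t) D v w - e ^ 2) := by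
    intro u v w
    rw [hθ, hydef, hzdef, he]
    have h1 : (1 : ℚ) - η ≠ 0 := by linarith
    have h2 : (1 : ℚ) + η ≠ 0 := by linarith
    have h3 : K - 1 ≠ 0 := by linarith
    field_simp
    ring
  obtain ⟨ι, hι, W0, X0, hW0, hX0, hX1, hcov⟩ := pm_family hl hmpos y z hy hz θ hθ0
  -- the remaining demand
  obtain ⟨q, hq⟩ : ∃ q : ℚ, q = lam * D ^ 2 * δ ^ 2 / (20 * K ^ 3 * (K - 2)) := ⟨_, rfl⟩
  have hb := r3_bounds hl D hD2 h κ hκ hsym ρ hρ hrow K lam e q hK hlam hq
  have hq0 : 0 < q := by rw [hq]; positivity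
  have hnum : 17 * (11 * q) ≤ 3 * (lam * D ^ 2 * e ^ 2 - 7 * q) := by
    have h1 : lam * D ^ 2 * e ^ 2 = q * (80 * K * (K - 2) / (K - 1) ^ 2) := by
      rw [he, hη', hq]
      have h3 : K - 1 ≠ 0 := by linarith
      have h4 : K - 2 ≠ 0 := by linarith
      have h5 : K ≠ 0 := by linarith
      field_simp
      ring
    have h2 : (75 : ℚ) ≤ 80 * K * (K - 2) / (K - 1) ^ 2 := by
      rw [le_div_iff₀ (by nlinarith)]
      nlinarith
    rw [h1]
    nlinarith
  obtain ⟨T, Y, hT0, hY0, hTc, hYc, hTY⟩ := type_level (le_trans (by norm_num) h.card)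
    (fun u v w => dd s t (K - 2) lam κ ρ u v w - θ * (y u v * z v w + z u v * y v w))
    (fun u v w => by
      rw [dd_symm _ _ κ hsym, hy.symm u v, hy.symm v w, hz.symm u v, hz.symm v w]
      ring)
    (fun u v huv => by
      rw [g5_sum3_sub, g5_sum3_sub, g5_sum3_mul, g5_sum3_mul, r3_sum3_prod hy hz huv,
        dd_edge hl _ _ (by rw [hK]) κ hsym ρ hrow (by
          intro w
          rw [hρ w, hlam]
          have : (D : ℚ) - 1 ≠ 0 := by linarith
          field_simp
          ring) u v huv])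
    (lam * D ^ 2 * e ^ 2 - 7 * q) (11 * q)
    (fun u v w h1 h2 h3 => by
      obtain ⟨h4, h5⟩ := hb u v w h1 h2 h3
      rw [hprod]
      exact ⟨h4, by linarith⟩) (by linarith) hnum
  have hmq : ∀ u v : V, 0 ≤ mq s t u v := r3_mq_nonneg s t
  refine cover_gen hl (1 / ((D : ℚ) - 1)) (by rw [← hlam]; exact hlam0.le) κ hsym
    (WTof s t (K - 2) κ T) ?_ (WQof s t (K - 2) κ Y) ?_ W0 hW0 X0 hX0 hX1 ?_ hpar hrow'
  · intro u v w p hp q hq r hr
    unfold WTof
    exact add_nonneg (div_nonneg (hκ _ _ _) (mul_nonneg hk0.le (hmq _ _)))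
      (div_nonneg (hT0 u v w (g1_J_ne hp) (g1_J_ne hq) (g1_J_ne hr).symm)
        (mul_nonneg (mul_nonneg (hmq _ _) (hmq _ _)) (hmq _ _)))
  · intro u v w z huw hvz p hp q hq r hr x hx
    unfold WQof
    exact add_nonneg (div_nonneg (hκ _ _ _)
      (mul_nonneg (mul_nonneg hk0.le (hmq _ _)) (hmq _ _)))
      (div_nonneg (hY0 u v w z (g1_J_ne hp) (g1_J_ne hq) (g1_J_ne hr) (g1_J_ne hx) huw hvz)
        (mul_nonneg (mul_nonneg (mul_nonneg (hmq _ _) (hmq _ _)) (hmq _ _)) (hmq _ _)))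
  · intro c _
    rw [functional_gen (K - 2) κ (by rw [hK]) (le_trans (by norm_num) h.card)
      (fun u v huv => (hmpos u v huv).ne') hsym (fun v _ => ρ v) hrow
      (fun u v w => lam * mq s t u v * mq s t v w - θ * (y u v * z v w + z u v * y v w)) T hTc Y
      hYc (by
        intro u v w h1 h2 h3
        rw [hTY u v w h1 h2 h3]
        unfold dd
        ring) c]
    refine g3_corner_congr _ _ c fun u v w h1 h2 h3 p hp q hq => ?_
    rw [hcov u v w h3 p hp q hq, ← hlam]
    have h4 := (hmpos u v h1).ne'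
    have h5 := (hmpos v w h2).ne'
    field_simp
    ring

end Graph

section Words

variable {n : ℕ}

/-- **Nearly regular lists are polygonal**, rational form. -/
theorem near_regular (hn : 3 ≤ n) {U : List (List (Letter n))} (hU : CycRed U) (D : ℕ)
    (hD0 : 0 < D) (δ : ℚ) (hδ : 0 < δ) (hocc : ∀ a, occ U a ≤ D)
    (hlo : ∀ u v : Letter n, u ≠ v → δ * D ≤ mult U u v)
    (hhalf : ∀ u v : Letter n, u ≠ v → occ U v.1 < D → 2 * mult U u v ≤ occ U v.1)
    (hodd : ∀ S : Finset (Letter n), Odd S.card → 3 ≤ S.card → S.card + 3 ≤ 2 * n →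
      (1 + δ) * D ≤ (cut (src U) (tgt U) S).card)
    (hnear : ∀ a, 160 * (n : ℚ) ^ 3 * ((D : ℚ) - occ U a) ≤ δ ^ 2 * D) : Polygonal U := by
  classical
  have hl := no_loop hU
  have hcV : Fintype.card (Letter n) = 2 * n := by
    rw [Fintype.card_prod, Fintype.card_fin, Fintype.card_bool, mul_comm]
  have hDq0 : (0 : ℚ) < D := by exact_mod_cast hD0
  have hdeg : ∀ v : Letter n, ((cut (src U) (tgt U) {v}).card : ℚ) = occ U v.1 := by
    intro v
    have h1 := dg_eq hU v
    unfold dg at h1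
    rw [h1]
  have hlo' : ∀ u v : Letter n, u ≠ v → δ * D ≤ mq (src U) (tgt U) u v := fun u v huv => hlo u v huv
  have hpos : ∀ u v : Letter n, u ≠ v → 0 < (J (src U) (tgt U) u v).card := by
    intro u v huv
    have h1 : (0 : ℚ) < mult U u v := lt_of_lt_of_le (mul_pos hδ hDq0) (hlo u v huv)
    exact_mod_cast h1
  -- `D` is at least the number of the other vertices
  have hrowsum : ∀ v : Letter n, ∀ c : ℚ, (∀ u, u ≠ v → c ≤ mq (src U) (tgt U) u v) →
      5 * c ≤ D := by
    intro v c hc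
    have hc' : ∀ u ∈ univ.erase v, c ≤ mq (src U) (tgt U) u v := by
      intro u hu
      exact hc u (Finset.ne_of_mem_erase hu)
    have h1 := Finset.card_nsmul_le_sum _ _ _ hc'
    rw [Finset.card_erase_of_mem (Finset.mem_univ v), Finset.card_univ, hcV, nsmul_eq_mul] at h1
    have h2 : ∑ u ∈ univ.erase v, mq (src U) (tgt U) u v ≤ D := by
      have h3 : ((cut (src U) (tgt U) {v}).card : ℚ) ≤ D := by
        rw [hdeg]
        exact_mod_cast hocc v.1
      refine le_trans ?_ h3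
      rw [g5_deg hl]
      refine (Finset.sum_le_sum_of_subset_of_nonneg (Finset.subset_univ _)
        (fun w _ _ => r3_mq_nonneg _ _ _ _)).trans (le_of_eq ?_)
      exact Finset.sum_congr rfl fun u _ => g5_mq_symm _ _ u v
    by_cases hc0 : 0 ≤ c
    · have h4 : (5 : ℚ) ≤ ((2 * n - 1 : ℕ) : ℚ) := by
        exact_mod_cast (by omega : 5 ≤ 2 * n - 1)
      have h5 := mul_le_mul_of_nonneg_right h4 hc0
      linarith
    · linarith
  let o : Fin n := ⟨0, by omega⟩
  have hD : 2 ≤ D := by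
    have h1 := hrowsum (o, true) 1 (by
      intro u hu
      have h2 := hpos u (o, true) hu
      unfold mq
      exact_mod_cast h2)
    have h3 : 5 ≤ D := by exact_mod_cast (by linarith : (5 : ℚ) ≤ D)
    omega
  have hδ1 : δ ≤ 1 := by
    have h1 := hrowsum (o, true) (δ * D) (fun u hu => hlo' u _ hu)
    by_contra h2
    rw [not_le] at h2
    nlinarith
  have hDq : (2 : ℚ) ≤ D := by exact_mod_cast hD
  have hNRH : NRH (mq (src U) (tgt U)) (D : ℚ) δ := by
    refine ⟨g5_mq_symm _ _, by rw [hcV]; omega, by linarith, hδ, hδ1, hlo', ?_, ?_, ?_, ?_⟩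
    · intro v
      rw [r3_dgt hl, hdeg]
      exact_mod_cast hocc v.1
    · intro v
      rw [r3_dgt hl, hdeg, hcV]
      have h1 := hnear v.1
      push_cast
      linarith
    · intro S hS h3 h4
      rw [hcV] at h4
      have h1 : ((cut (src U) (tgt U) S).card : ℚ) =
          ∑ u ∈ S, ∑ v ∈ univ \ S, mq (src U) (tgt U) u v := by
        have h5 := r1_cut_sum hl S (fun _ => (1 : ℚ))
        simp only [Finset.sum_const, nsmul_eq_mul, mul_one] at h5
        exact h5
      rw [← h1]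
      exact hodd S hS h3 h4
    · rw [hcV]
      exact even_two_mul n
  -- the special weights
  let ρ : Fin n → ℚ := fun a => ((D : ℚ) - occ U a) / ((D : ℚ) - 1)
  have hρ : ∀ a, 0 ≤ ρ a := by
    intro a
    refine div_nonneg ?_ (by linarith)
    have h1 : (occ U a : ℚ) ≤ D := by exact_mod_cast hocc a
    linarith
  obtain ⟨κ, hκ0, hκs, hκp, hκr, hκc⟩ := exists_kappa_half hU ρ hρ
    (fun u v huv hρv => by
      have h1 := hhalf u v huv (by
        rcases Nat.lt_or_ge (occ U v.1) D with h3 | h3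
        · exact h3
        · exfalso
          apply hρv
          have h4 : occ U v.1 = D := le_antisymm (hocc v.1) h3
          show ((D : ℚ) - occ U v.1) / ((D : ℚ) - 1) = 0
          rw [h4, sub_self, zero_div])
      have h2 : mult U v u = mult U u v := by
        unfold mult
        rw [J_comm]
      rw [h2]
      exact h1)
  have hrow : ∀ v w : Letter n, ∀ q ∈ J (src U) (tgt U) v w,
      ∑ u, (if u = w then 0 else ∑ p ∈ J (src U) (tgt U) u v, κ v p q) = ρ v.1 := by
    intro v w q hq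
    have hq1 : q ∈ star U v := by
      rw [J_comm] at hq
      exact (oth_of_mem_J hl hq).1
    rw [← hκr v q hq1]
    unfold star
    rw [r1_star_sum hl]
    apply Finset.sum_congr rfl
    intro u _
    by_cases huw : u = w
    · rw [if_pos huw, huw]
      symm
      apply Finset.sum_eq_zero
      intro p hp
      rw [J_comm] at hq
      exact hκp w v q hq p hp
    · rw [if_neg huw]
      apply Finset.sum_congr rfl
      intro p _
      exact hκs v p q
  have hρ' : ∀ v : Letter n, ρ v.1 =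
      ((D : ℚ) - (cut (src U) (tgt U) {v}).card) / ((D : ℚ) - 1) := by
    intro v
    rw [hdeg v]
  obtain ⟨L, N, hN, hL1, hL2⟩ := nr_law hl D hD hNRH κ hκ0 hκs hκp (fun v => ρ v.1) hρ' hrow
    (by
      intro v e he
      have h1 : κ v e e = 0 := by
        have h2 := (mem_J_oth hl he).2
        rw [J_comm] at h2
        exact hκp _ v e h2 e h2
      have h3 := hκr v e he
      unfold star at h3
      rw [Finset.sum_add_distrib, Finset.sum_const, Finset.card_erase_of_mem he, nsmul_eq_mul]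
      have h4 : ∑ f ∈ (cut (src U) (tgt U) {v}).erase e, κ v e f = ρ v.1 := by
        rw [← h3, ← Finset.add_sum_erase _ _ he, h1, zero_add]
      rw [h4, hρ' v]
      have h5 : 1 ≤ (cut (src U) (tgt U) {v}).card := Finset.card_pos.2 ⟨e, he⟩
      rw [Nat.cast_sub h5]
      have : (D : ℚ) - 1 ≠ 0 := by linarith
      field_simp
      push_cast
      ring)
  refine ⟨L, hL1, ?_, ?_⟩
  · -- a long cycle
    let i1 : Fin n := ⟨1, by omega⟩
    have ho1 : o ≠ i1 := by
      intro h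
      have := congrArg Fin.val h
      simp [o, i1] at this
    have huv : ((o, true) : Letter n) ≠ (o, false) := by simp
    have hvw : ((o, false) : Letter n) ≠ (i1, true) := by simp
    have huw : ((o, true) : Letter n) ≠ (i1, true) := by
      intro h
      exact ho1 (congrArg Prod.fst h)
    obtain ⟨e, he⟩ := Finset.card_pos.1 (hpos _ _ huv)
    obtain ⟨f, hf⟩ := Finset.card_pos.1 (hpos _ _ hvw)
    have he1 := oth_of_mem_J hl he
    have hf' := hf
    rw [J_comm] at hf'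
    have hf1 := oth_of_mem_J hl hf'
    have hne : e ≠ f := by
      intro hef
      rw [hef] at he1
      exact huw (he1.2.symm.trans hf1.2)
    have h1 := hL2 _ e he1.1 f hf1.1
    rw [if_neg hne] at h1
    have h2 : (0 : ℚ) < ((L.countP fun C => e ∈ C ∧ f ∈ C : ℕ) : ℚ) := by
      rw [h1]
      refine mul_pos (by exact_mod_cast hN) ?_
      have h3 := hκ0 (o, false) e f
      have h4 : (0 : ℚ) < 1 / ((D : ℚ) - 1) := div_pos one_pos (by linarith)
      linarith
    have h3 : 0 < (L.countP fun C => e ∈ C ∧ f ∈ C) := by exact_mod_cast h2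
    obtain ⟨C, hC, hC2⟩ := List.countP_pos_iff.1 h3
    have hC3 : e ∈ C ∧ f ∈ C := by simpa using hC2
    exact ⟨C, hC, three_le hl (hL1 C hC) huw he hf hC3.1 hC3.2⟩
  · intro v e he f hf
    have he' := conMap_mem hU v e he
    have hf' := conMap_mem hU v f hf
    have h1 := hL2 v e he f hf
    have h2 := hL2 (bar v) _ he' _ hf'
    have h3 : ((L.countP fun C => e ∈ C ∧ f ∈ C : ℕ) : ℚ) =
        ((L.countP fun C => conMap U v e ∈ C ∧ conMap U v f ∈ C : ℕ) : ℚ) := by
      rw [h1, h2]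
      by_cases hef : e = f
      · rw [if_pos hef, if_pos (by rw [hef])]
      · rw [if_neg hef, if_neg (fun h => hef (conMap_inj hU v e he f hf h)), hκc v e he f hf]
    exact_mod_cast h3

/-- **Nearly regular lists are polygonal.** -/
theorem near_regular_real (hn : 3 ≤ n) {U : List (List (Letter n))} (hU : CycRed U) (D : ℕ)
    (hD0 : 0 < D) (ε : ℝ) (hε : 0 < ε) (hocc : ∀ a, occ U a ≤ D)
    (hlo : ∀ u v : Letter n, u ≠ v → ε * D ≤ mult U u v)
    (hhalf : ∀ u v : Letter n, u ≠ v → occ U v.1 < D → 2 * mult U u v ≤ occ U v.1)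
    (hodd : ∀ S : Finset (Letter n), Odd S.card → 3 ≤ S.card → S.card + 3 ≤ 2 * n →
      (1 + ε) * D ≤ (cut (src U) (tgt U) S).card)
    (hnear : ∀ a, 160 * (n : ℝ) ^ 3 * ((D : ℝ) - occ U a) ≤ ε ^ 2 * D) : Polygonal U := by
  classical
  have hDq : (0 : ℚ) < D := by exact_mod_cast hD0
  have hDr : (0 : ℝ) < D := by exact_mod_cast hD0
  -- the set of all ratios
  let F : Finset ℚ :=
    ((univ : Finset (Letter n × Letter n)).filter fun p => p.1 ≠ p.2).image
      (fun p => (mult U p.1 p.2 : ℚ) / D) ∪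
    ((univ : Finset (Finset (Letter n))).filter fun S => Odd S.card ∧ 3 ≤ S.card ∧
      S.card + 3 ≤ 2 * n).image (fun S => ((cut (src U) (tgt U) S).card : ℚ) / D - 1)
  have hF1 : ∀ u v : Letter n, u ≠ v → (mult U u v : ℚ) / D ∈ F := by
    intro u v huv
    apply Finset.mem_union_left
    rw [Finset.mem_image]
    exact ⟨(u, v), by rw [Finset.mem_filter]; exact ⟨Finset.mem_univ _, huv⟩, rfl⟩
  have hF2 : ∀ S : Finset (Letter n), Odd S.card → 3 ≤ S.card → S.card + 3 ≤ 2 * n →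
      ((cut (src U) (tgt U) S).card : ℚ) / D - 1 ∈ F := by
    intro S h1 h2 h3
    apply Finset.mem_union_right
    rw [Finset.mem_image]
    exact ⟨S, by rw [Finset.mem_filter]; exact ⟨Finset.mem_univ _, h1, h2, h3⟩, rfl⟩
  have hFε : ∀ x ∈ F, ε ≤ (x : ℝ) := by
    intro x hx
    rcases Finset.mem_union.1 hx with hx | hx
    · obtain ⟨p, hp, rfl⟩ := Finset.mem_image.1 hx
      rw [Finset.mem_filter] at hp
      have h1 := hlo p.1 p.2 hp.2
      push_cast
      rw [le_div_iff₀ hDr]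
      exact h1
    · obtain ⟨S, hS, rfl⟩ := Finset.mem_image.1 hx
      rw [Finset.mem_filter] at hS
      have h1 := hodd S hS.2.1 hS.2.2.1 hS.2.2.2
      push_cast
      rw [le_sub_iff_add_le, le_div_iff₀ hDr, add_comm]
      exact h1
  have hne : F.Nonempty := by
    let o : Fin n := ⟨0, by omega⟩
    exact ⟨_, hF1 (o, true) (o, false) (by simp)⟩
  obtain ⟨δ, hδF, hδmin⟩ := F.exists_min_image id hne
  have hεδ := hFε δ hδF
  have hδ0 : 0 < δ := by
    have : (0 : ℝ) < (δ : ℝ) := lt_of_lt_of_le hε hεδ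
    exact_mod_cast this
  refine near_regular hn hU D hD0 δ hδ0 hocc ?_ hhalf ?_ ?_
  · intro u v huv
    have h1 := hδmin _ (hF1 u v huv)
    simp only [id] at h1
    rw [le_div_iff₀ hDq] at h1
    exact h1
  · intro S h1 h2 h3
    have h4 := hδmin _ (hF2 S h1 h2 h3)
    simp only [id] at h4
    rw [le_sub_iff_add_le, le_div_iff₀ hDq, add_comm] at h4
    exact h4
  · intro a
    have h1 := hnear a
    have h2 : ε ^ 2 * D ≤ (δ : ℝ) ^ 2 * D :=
      mul_le_mul_of_nonneg_right (pow_le_pow_left₀ hε.le hεδ 2) hDr.le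
    have h3 : 160 * (n : ℝ) ^ 3 * ((D : ℝ) - occ U a) ≤ (δ : ℝ) ^ 2 * D := h1.trans h2
    exact_mod_cast h3

end Words

end Pool.Agent.Lib.MP_95bb8c_al.GW
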