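import Pool.Agent.Lib.MP_95bb8c_al.GW.Cover
import Pool.Agent.Lib.MP_95bb8c_al.Edmonds

set_option autoImplicit false
set_option linter.unusedSectionVars false

/-!
# A family of even cycles from two independent random perfect matchings

`y`, `z` are points of the perfect matching polytope of the complete graph on `V`. The family
covers the corner `(u, v, w; p, q)` with weight
`θ (y(uv) z(vw) + z(uv) y(vw)) / (m(uv) m(vw))`.
-/

namespace Pool.Agent.Lib.MP_95bb8c_al.GW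

open Finset

variable {V E : Type} [Fintype V] [DecidableEq V] [Fintype E] [DecidableEq E]

/-- `y` is in the perfect matching polytope of the complete graph on `V`. -/
structure PMT (y : V → V → ℚ) : Prop where
  symm : ∀ u v, y u v = y v u
  nonneg : ∀ u v, u ≠ v → 0 ≤ y u v
  row : ∀ v, ∑ u, (if u = v then 0 else y u v) = 1
  odd : ∀ S : Finset V, Odd S.card → 1 ≤ ∑ u ∈ S, ∑ v ∈ univ \ S, y u v

theorem r1_mem_J_st {s t : E → V} (hl : ∀ e, s e ≠ t e) (e : E) : e ∈ J s t (s e) (t e) :=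
  g1_mem_J.mpr ⟨hl e, Or.inl ⟨rfl, rfl⟩⟩

theorem r1_J_comm (s t : E → V) (u v : V) : J s t u v = J s t v u := by
  ext e
  exact ⟨g1_J_symm, g1_J_symm⟩

theorem r1_mq_comm (s t : E → V) (u v : V) : mq s t u v = mq s t v u := by
  unfold mq
  rw [r1_J_comm]

/-- The sum over the edges of a cut. -/
theorem r1_cut_sum {s t : E → V} (hl : ∀ e, s e ≠ t e) (S : Finset V) (F : E → ℚ) :
    ∑ e ∈ cut s t S, F e = ∑ u ∈ S, ∑ v ∈ univ \ S, ∑ e ∈ J s t u v, F e := by
  classical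
  have hmap : ∀ e ∈ cut s t S, (if s e ∈ S then (s e, t e) else (t e, s e)) ∈ S ×ˢ (univ \ S) := by
    intro e he
    rw [mem_cut] at he
    rw [Finset.mem_product, Finset.mem_sdiff]
    by_cases h : s e ∈ S
    · rw [if_pos h]
      exact ⟨h, Finset.mem_univ _, fun h' => he ⟨fun _ => h', fun _ => h⟩⟩
    · rw [if_neg h]
      refine ⟨?_, Finset.mem_univ _, h⟩
      by_contra h'
      exact he ⟨fun h'' => absurd h'' h, fun h'' => absurd h'' h'⟩
  rw [← Finset.sum_fiberwise_of_maps_to (g := fun e => if s e ∈ S then (s e, t e) else (t e, s e))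
    hmap, Finset.sum_product]
  refine Finset.sum_congr rfl fun u hu => Finset.sum_congr rfl fun v hv => ?_
  rw [Finset.mem_sdiff] at hv
  refine Finset.sum_congr ?_ fun _ _ => rfl
  ext e
  rw [Finset.mem_filter, mem_cut, g1_mem_J]
  constructor
  · rintro ⟨h1, h2⟩
    by_cases h : s e ∈ S
    · rw [if_pos h, Prod.mk.injEq] at h2
      refine ⟨fun h3 => hl e (h2.1.trans (h3.trans h2.2.symm)), Or.inl h2⟩
    · rw [if_neg h, Prod.mk.injEq] at h2
      refine ⟨fun h3 => hl e (h2.2.trans (h3.symm.trans h2.1.symm)), Or.inr ⟨h2.2, h2.1⟩⟩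
  · rintro ⟨h1, ⟨h2, h3⟩ | ⟨h2, h3⟩⟩
    · rw [h2, h3]
      exact ⟨fun h => hv.2 (h.mp hu), by rw [if_pos hu]⟩
    · rw [h2, h3]
      exact ⟨fun h => hv.2 (h.mpr hu), by rw [if_neg hv.2]⟩

theorem r1_star_sum {s t : E → V} (hl : ∀ e, s e ≠ t e) (v : V) (F : E → ℚ) :
    ∑ e ∈ cut s t {v}, F e = ∑ u, ∑ e ∈ J s t u v, F e := by
  rw [r1_cut_sum hl, Finset.sum_singleton]
  rw [← Finset.sum_sdiff (Finset.subset_univ ({v} : Finset V)) (f := fun u => ∑ e ∈ J s t u v, F e),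
    Finset.sum_singleton]
  have h1 : J s t v v = ∅ := by
    ext e
    rw [g1_mem_J]
    simp
  rw [h1, Finset.sum_empty, add_zero]
  refine Finset.sum_congr rfl fun u _ => ?_
  rw [r1_J_comm]

/-- The edge weights which belong to `y`. -/
def r1x (s t : E → V) (y : V → V → ℚ) (e : E) : ℚ := y (s e) (t e) / mq s t (s e) (t e)

theorem r1x_eq {s t : E → V} {y : V → V → ℚ} (hy : ∀ u v, y u v = y v u) {u v : V} {e : E}
    (he : e ∈ J s t u v) : r1x s t y e = y u v / mq s t u v := by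
  rw [g1_mem_J] at he
  unfold r1x
  rcases he.2 with ⟨h1, h2⟩ | ⟨h1, h2⟩
  · rw [h1, h2]
  · rw [h1, h2, hy, r1_mq_comm]

theorem r1x_sum {s t : E → V} {y : V → V → ℚ} (hy : ∀ u v, y u v = y v u)
    (hm : ∀ u v, u ≠ v → 0 < mq s t u v) (u v : V) :
    ∑ e ∈ J s t u v, r1x s t y e = if u = v then 0 else y u v := by
  by_cases huv : u = v
  · rw [if_pos huv]
    refine Finset.sum_eq_zero fun e he => ?_
    exact absurd huv (g1_J_ne he)
  · rw [if_neg huv, Finset.sum_congr rfl (fun e he => r1x_eq hy he), Finset.sum_const,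
      nsmul_eq_mul]
    have h1 := hm u v huv
    have h2 : ((J s t u v).card : ℚ) = mq s t u v := rfl
    rw [h2]
    field_simp

theorem r1_inQ {s t : E → V} (hl : ∀ e, s e ≠ t e) (hm : ∀ u v, u ≠ v → 0 < mq s t u v)
    {y : V → V → ℚ} (hy : PMT y) : InQ s t (r1x s t y) := by
  refine ⟨?_, ?_, ?_, ?_⟩
  · intro e
    exact div_nonneg (hy.nonneg _ _ (hl e)) (hm _ _ (hl e)).le
  · intro e he
    exact absurd he (hl e)
  · intro v
    rw [r1_star_sum hl, ← hy.row v]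
    exact Finset.sum_congr rfl fun u _ => r1x_sum hy.symm hm u v
  · intro S hS
    rw [r1_cut_sum hl]
    refine le_trans (hy.odd S hS) (le_of_eq ?_)
    refine Finset.sum_congr rfl fun u hu => Finset.sum_congr rfl fun v hv => ?_
    rw [Finset.mem_sdiff] at hv
    rw [r1x_sum hy.symm hm, if_neg]
    rintro rfl
    exact hv.2 hu

/-- The long components of the union of two perfect matchings. -/
def r1X (s t : E → V) (M N : Finset E) : Finset E :=
  (M ∪ N).filter fun e => ¬ ((∃ f ∈ M, e ∈ J s t (s f) (t f)) ∧ ∃ g ∈ N, e ∈ J s t (s g) (t g))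

/-- Two edges with the same ends. -/
theorem r1_par {s t : E → V} {e f : E} (h : e ∈ J s t (s f) (t f)) {v : V} :
    e ∈ cut s t {v} ↔ f ∈ cut s t {v} := by
  have hl : s f ≠ t f := g1_J_ne h
  have h1 : f ∈ J s t (s f) (t f) := g1_mem_J.mpr ⟨hl, Or.inl ⟨rfl, rfl⟩⟩
  rw [g1_mem_cut h, g1_mem_cut h1]

theorem r1_par_symm {s t : E → V} {e f : E} (h : e ∈ J s t (s f) (t f)) :
    f ∈ J s t (s e) (t e) := by
  rw [g1_mem_J] at h ⊢
  obtain ⟨h1, ⟨h2, h3⟩ | ⟨h2, h3⟩⟩ := h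
  · rw [h2, h3]
    exact ⟨h1, Or.inl ⟨rfl, rfl⟩⟩
  · rw [h2, h3]
    exact ⟨h1.symm, Or.inr ⟨rfl, rfl⟩⟩

theorem r1_par_of {s t : E → V} {u v : V} {e f : E} (he : e ∈ J s t u v) (hf : f ∈ J s t u v) :
    e ∈ J s t (s f) (t f) := by
  rw [g1_mem_J] at he hf ⊢
  obtain ⟨huv, ⟨h3, h4⟩ | ⟨h3, h4⟩⟩ := hf
  · rw [h3, h4]
    exact ⟨huv, he.2⟩
  · rw [h3, h4]
    exact ⟨huv.symm, he.2.symm⟩

/-- The structure of `r1X` at a vertex. -/
theorem r1_struct {s t : E → V} (hl : ∀ e, s e ≠ t e) {M N : Finset E} (hM : IsPM s t M)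
    (hN : IsPM s t N) (v : V) : ∃ a b, M ∩ cut s t {v} = {a} ∧ N ∩ cut s t {v} = {b} ∧
      (a ∈ J s t (s b) (t b) → r1X s t M N ∩ cut s t {v} = ∅) ∧
      (a ∉ J s t (s b) (t b) → r1X s t M N ∩ cut s t {v} = {a, b}) := by
  obtain ⟨a, ha⟩ := Finset.card_eq_one.mp (hM v)
  obtain ⟨b, hb⟩ := Finset.card_eq_one.mp (hN v)
  have ha1 : a ∈ M ∩ cut s t {v} := by rw [ha]; exact Finset.mem_singleton_self a
  have hb1 : b ∈ N ∩ cut s t {v} := by rw [hb]; exact Finset.mem_singleton_self b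
  rw [Finset.mem_inter] at ha1 hb1
  have hMu : ∀ e ∈ M, e ∈ cut s t {v} → e = a := by
    intro e he hv
    have : e ∈ M ∩ cut s t {v} := Finset.mem_inter.mpr ⟨he, hv⟩
    rw [ha] at this
    exact Finset.mem_singleton.mp this
  have hNu : ∀ e ∈ N, e ∈ cut s t {v} → e = b := by
    intro e he hv
    have : e ∈ N ∩ cut s t {v} := Finset.mem_inter.mpr ⟨he, hv⟩
    rw [hb] at this
    exact Finset.mem_singleton.mp this
  refine ⟨a, b, ha, hb, ?_, ?_⟩
  · intro hab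
    rw [Finset.eq_empty_iff_forall_notMem]
    intro e he
    rw [Finset.mem_inter, r1X, Finset.mem_filter, Finset.mem_union] at he
    obtain ⟨⟨he1, he2⟩, he3⟩ := he
    apply he2
    rcases he1 with he1 | he1
    · have := hMu e he1 he3
      subst this
      exact ⟨⟨e, he1, r1_mem_J_st hl e⟩, ⟨b, hb1.1, hab⟩⟩
    · have := hNu e he1 he3
      subst this
      exact ⟨⟨a, ha1.1, r1_par_symm hab⟩, ⟨e, he1, r1_mem_J_st hl e⟩⟩
  · intro hab
    ext e
    rw [Finset.mem_inter, r1X, Finset.mem_filter, Finset.mem_union, Finset.mem_insert,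
      Finset.mem_singleton]
    constructor
    · rintro ⟨⟨h1, -⟩, h3⟩
      rcases h1 with h1 | h1
      · exact Or.inl (hMu e h1 h3)
      · exact Or.inr (hNu e h1 h3)
    · rintro (rfl | rfl)
      · refine ⟨⟨Or.inl ha1.1, ?_⟩, ha1.2⟩
        rintro ⟨-, g, hg, hg2⟩
        have h1 := hNu g hg ((r1_par hg2).mp ha1.2)
        rw [h1] at hg2
        exact hab hg2
      · refine ⟨⟨Or.inr hb1.1, ?_⟩, hb1.2⟩
        rintro ⟨⟨f, hf, hf2⟩, -⟩
        have h1 := hMu f hf ((r1_par hf2).mp hb1.2)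
        rw [h1] at hf2
        exact hab (r1_par_symm hf2)

theorem r1_deg {s t : E → V} (hl : ∀ e, s e ≠ t e) {M N : Finset E} (hM : IsPM s t M)
    (hN : IsPM s t N) : Deg02 s t (r1X s t M N) := by
  intro v
  obtain ⟨a, b, -, -, h1, h2⟩ := r1_struct hl hM hN v
  by_cases hab : a ∈ J s t (s b) (t b)
  · left
    rw [h1 hab, Finset.card_empty]
  · right
    rw [h2 hab, Finset.card_pair]
    rintro rfl
    exact hab (r1_mem_J_st hl a)

theorem r1_nopar {s t : E → V} (hl : ∀ e, s e ≠ t e) {M N : Finset E} (hM : IsPM s t M)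
    (hN : IsPM s t N) {u v : V} {e f : E} (he : e ∈ J s t u v) (hf : f ∈ J s t u v)
    (heX : e ∈ r1X s t M N) (hfX : f ∈ r1X s t M N) : e = f := by
  obtain ⟨a, b, -, -, h1, h2⟩ := r1_struct hl hM hN u
  have heu : e ∈ r1X s t M N ∩ cut s t {u} :=
    Finset.mem_inter.mpr ⟨heX, (g1_mem_cut he).mpr (Or.inl rfl)⟩
  have hfu : f ∈ r1X s t M N ∩ cut s t {u} :=
    Finset.mem_inter.mpr ⟨hfX, (g1_mem_cut hf).mpr (Or.inl rfl)⟩
  by_cases hab : a ∈ J s t (s b) (t b)
  · rw [h1 hab] at heu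
    exact absurd heu (Finset.notMem_empty _)
  · rw [h2 hab, Finset.mem_insert, Finset.mem_singleton] at heu hfu
    rcases heu with h3 | h3 <;> rcases hfu with h4 | h4
    · rw [h3, h4]
    · subst h3 h4
      exact absurd (r1_par_of he hf) hab
    · subst h3 h4
      exact absurd (r1_par_of hf he) hab
    · rw [h3, h4]

theorem r1_pair {s t : E → V} (hl : ∀ e, s e ≠ t e) {M N : Finset E} (hM : IsPM s t M)
    (hN : IsPM s t N) {u v w : V} (huw : u ≠ w) {p q : E} (hp : p ∈ J s t u v)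
    (hq : q ∈ J s t v w) : (if p ∈ r1X s t M N ∧ q ∈ r1X s t M N then (1 : ℚ) else 0) =
      (if p ∈ M then 1 else 0) * (if q ∈ N then 1 else 0) +
        (if q ∈ M then 1 else 0) * (if p ∈ N then 1 else 0) := by
  obtain ⟨a, b, ha, hb, h1, h2⟩ := r1_struct hl hM hN v
  have hpq : p ≠ q := g1_ne hp hq huw
  have hpv : p ∈ cut s t {v} := (g1_mem_cut hp).mpr (Or.inr rfl)
  have hqv : q ∈ cut s t {v} := (g1_mem_cut hq).mpr (Or.inl rfl)
  have hMm : ∀ e ∈ cut s t {v}, e ∈ M ↔ e = a := by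
    intro e he
    rw [← Finset.mem_singleton, ← ha, Finset.mem_inter]
    exact ⟨fun h => ⟨h, he⟩, fun h => h.1⟩
  have hNm : ∀ e ∈ cut s t {v}, e ∈ N ↔ e = b := by
    intro e he
    rw [← Finset.mem_singleton, ← hb, Finset.mem_inter]
    exact ⟨fun h => ⟨h, he⟩, fun h => h.1⟩
  have hXm : ∀ e ∈ cut s t {v}, e ∈ r1X s t M N ↔ e ∈ r1X s t M N ∩ cut s t {v} := by
    intro e he
    rw [Finset.mem_inter]
    exact ⟨fun h => ⟨h, he⟩, fun h => h.1⟩
  have hnp : ∀ e f, e ∈ J s t (s f) (t f) → ¬ ((p = e ∧ q = f) ∨ (p = f ∧ q = e)) := by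
    intro e f hef
    have huv := g1_J_ne hp
    rintro (⟨rfl, rfl⟩ | ⟨rfl, rfl⟩)
    · exact g1_npar hp hq huw hef (r1_mem_J_st hl q)
    · exact g1_npar hp hq huw (r1_mem_J_st hl p) hef
  simp only [hMm p hpv, hMm q hqv, hNm p hpv, hNm q hqv, hXm p hpv, hXm q hqv]
  by_cases hab : a ∈ J s t (s b) (t b)
  · rw [h1 hab]
    have h3 := hnp a b hab
    rw [not_or] at h3
    have h4 : ¬ (q = a ∧ p = b) := fun h => h3.2 ⟨h.2, h.1⟩
    have h5 := h3.1
    simp only [Finset.notMem_empty, false_and, if_false]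
    by_cases h6 : p = a
    · by_cases h7 : q = b
      · exact absurd ⟨h6, h7⟩ h5
      · by_cases h8 : q = a
        · exact absurd (h6.trans h8.symm) hpq
        · simp [h7, h8]
    · by_cases h7 : q = a
      · by_cases h8 : p = b
        · exact absurd ⟨h7, h8⟩ h4
        · simp [h6, h8]
      · simp [h6, h7]
  · rw [h2 hab]
    have hab' : a ≠ b := by
      rintro rfl
      exact hab (r1_mem_J_st hl a)
    simp only [Finset.mem_insert, Finset.mem_singleton]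
    by_cases h6 : p = a
    · subst h6
      by_cases h7 : q = b
      · subst h7
        simp [hpq, hpq.symm]
      · simp [h7, hpq, hpq.symm]
    · by_cases h7 : p = b
      · subst h7
        by_cases h8 : q = a
        · subst h8
          simp [hpq, hpq.symm]
        · simp [h6, h8, hpq, hpq.symm]
      · simp [h6, h7]

/-- **The matching-pair family.** -/
theorem pm_family {s t : E → V} (hl : ∀ e, s e ≠ t e) (hm : ∀ u v, u ≠ v → 0 < mq s t u v)
    (y z : V → V → ℚ) (hy : PMT y) (hz : PMT z) (θ : ℚ) (hθ : 0 ≤ θ) :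
    ∃ (ι : Type) (_ : Fintype ι) (W0 : ι → ℚ) (X0 : ι → Finset E), (∀ i, 0 ≤ W0 i) ∧
      (∀ i, W0 i ≠ 0 → Deg02 s t (X0 i)) ∧
      (∀ i, W0 i ≠ 0 → ∀ u v, ∀ e ∈ J s t u v, ∀ f ∈ J s t u v, e ∈ X0 i → f ∈ X0 i → e = f) ∧
      ∀ u v w, u ≠ w → ∀ p ∈ J s t u v, ∀ q ∈ J s t v w,
        ∑ i, W0 i * (if p ∈ X0 i ∧ q ∈ X0 i then 1 else 0) =
          θ * (y u v * z v w + z u v * y v w) / (mq s t u v * mq s t v w) := by
  obtain ⟨ι₁, hι₁, w₁, M, hw₁, hM, -, hMx⟩ := edmonds V s t _ (r1_inQ hl hm hy)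
  obtain ⟨ι₂, hι₂, w₂, N, hw₂, hN, -, hNx⟩ := edmonds V s t _ (r1_inQ hl hm hz)
  refine ⟨ι₁ × ι₂, inferInstance, fun i => θ * (w₁ i.1 * w₂ i.2),
    fun i => r1X s t (M i.1) (N i.2), ?_, ?_, ?_, ?_⟩
  · intro i
    exact mul_nonneg hθ (mul_nonneg (hw₁ _) (hw₂ _))
  · intro i hi
    have h1 : w₁ i.1 ≠ 0 := fun h => hi (by simp [h])
    have h2 : w₂ i.2 ≠ 0 := fun h => hi (by simp [h])
    exact r1_deg hl (hM _ h1) (hN _ h2)
  · intro i hi u v e he f hf heX hfX
    have h1 : w₁ i.1 ≠ 0 := fun h => hi (by simp [h])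
    have h2 : w₂ i.2 ≠ 0 := fun h => hi (by simp [h])
    exact r1_nopar hl (hM _ h1) (hN _ h2) he hf heX hfX
  · intro u v w huw p hp q hq
    have h1 : ∀ i : ι₁ × ι₂, θ * (w₁ i.1 * w₂ i.2) *
        (if p ∈ r1X s t (M i.1) (N i.2) ∧ q ∈ r1X s t (M i.1) (N i.2) then (1 : ℚ) else 0) =
        θ * (((if p ∈ M i.1 then w₁ i.1 else 0) * (if q ∈ N i.2 then w₂ i.2 else 0)) +
          ((if q ∈ M i.1 then w₁ i.1 else 0) * (if p ∈ N i.2 then w₂ i.2 else 0))) := by
      intro i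
      by_cases h1 : w₁ i.1 = 0
      · rw [h1]; simp
      by_cases h2 : w₂ i.2 = 0
      · rw [h2]; simp
      rw [r1_pair hl (hM _ h1) (hN _ h2) huw hp hq]
      have h3 : ∀ (P : Prop) [Decidable P] (x : ℚ), (if P then x else 0) =
          x * (if P then 1 else 0) := by
        intro P _ x
        split_ifs <;> ring
      rw [h3 (p ∈ M i.1) (w₁ i.1), h3 (q ∈ N i.2) (w₂ i.2), h3 (q ∈ M i.1) (w₁ i.1),
        h3 (p ∈ N i.2) (w₂ i.2)]
      ring
    simp only [h1]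
    rw [← Finset.mul_sum, Finset.sum_add_distrib, Fintype.sum_prod_type, Fintype.sum_prod_type]
    simp only [← Finset.mul_sum, ← Finset.sum_mul]
    rw [hMx, hMx, hNx, hNx, r1x_eq hy.symm hp, r1x_eq hy.symm hq, r1x_eq hz.symm hp,
      r1x_eq hz.symm hq]
    have h2 := hm u v (g1_J_ne hp)
    have h3 := hm v w (g1_J_ne hq)
    field_simp

end Pool.Agent.Lib.MP_95bb8c_al.GW
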