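import Pool.Agent.Lib.MP_95bb8c_al.GW.Functional

set_option autoImplicit false
set_option linter.unusedSectionVars false

/-!
# Nearly uniform lists: the cost identity for weights with arbitrary row sums
-/

namespace Pool.Agent.Lib.MP_95bb8c_al.GW

open Finset

variable {V E : Type} [Fintype V] [DecidableEq V] [Fintype E] [DecidableEq E]

/-- The sum of `r` over the edges which join `u` and `v`. -/
def Rs (s t : E → V) (r : E → ℚ) (u v : V) : ℚ := ∑ p ∈ J s t u v, r p

/-- The weights of the 4-cycles which only depend on one edge. -/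
def WEof (s t : E → V) (k : ℚ) (r : E → ℚ) (u v w z : V) (p _q _r _x : E) : ℚ :=
  r p / (k * (k - 1) * mq s t v w * mq s t w z * mq s t z u)

/-- The weights of the 4-cycles with the correction of the row sums. -/
def WQs (s t : E → V) (k : ℚ) (e : V → E → E → ℚ) (r : E → ℚ) (Y : V → V → V → V → ℚ)
    (u v w z : V) (p q r' x : E) : ℚ :=
  WQof s t k e Y u v w z p q r' x - WEof s t k r u v w z p q r' x

theorem b4_FQ_sub (s t : E → V) (W W' : V → V → V → V → E → E → E → E → ℚ) (u v w : V) (p q : E) :
    g3_FQ s t (fun u v w z p q r x => W u v w z p q r x - W' u v w z p q r x) u v w p q =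
      g3_FQ s t W u v w p q - g3_FQ s t W' u v w p q := by
  unfold g3_FQ
  rw [← sum_sub_distrib]
  refine sum_congr rfl fun z _ => ?_
  by_cases h : v = z
  · simp only [if_pos h, sub_zero]
  · simp only [if_neg h]
    rw [← sum_sub_distrib]
    refine sum_congr rfl fun r _ => ?_
    rw [← sum_sub_distrib]
    refine sum_congr rfl fun x _ => ?_
    ring

theorem b4_FQ_WE {s t : E → V} (k : ℚ) (hk : k = (Fintype.card V : ℚ) - 2)
    (hK : 4 ≤ Fintype.card V) (hm : ∀ u v, u ≠ v → mq s t u v ≠ 0) (r : E → ℚ) {u v w : V}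
    (huv : u ≠ v) (hvw : v ≠ w) (huw : u ≠ w) (p q : E) :
    g3_FQ s t (WEof s t k r) u v w p q =
      r p / (k * mq s t v w) + r q / (k * mq s t u v) +
        sum4 u v w (fun z => Rs s t r z u + Rs s t r w z) /
          (k * (k - 1) * mq s t u v * mq s t v w) := by
  have h4 : (4 : ℚ) ≤ (Fintype.card V : ℚ) := by exact_mod_cast hK
  have hk0 : k ≠ 0 := by
    intro h
    rw [h] at hk
    linarith
  have hk1 : k - 1 ≠ 0 := by
    intro h
    rw [hk] at h
    linarith
  have m1 := hm u v huv
  have m2 := hm v w hvw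
  rw [g3_FQ_sum4]
  have key : ∀ z, z ≠ u → z ≠ v → z ≠ w →
      (∑ r' ∈ J s t w z, ∑ x ∈ J s t z u,
        (WEof s t k r u v w z p q r' x + WEof s t k r z u v w x p q r' +
          WEof s t k r w z u v r' x p q + WEof s t k r v w z u q r' x p)) =
      (r p / (k * (k - 1) * mq s t v w) + r q / (k * (k - 1) * mq s t u v)) +
        (Rs s t r z u + Rs s t r w z) * (1 / (k * (k - 1) * mq s t u v * mq s t v w)) := by
    intro z hzu hzv hzw
    have m3 := hm w z hzw.symm
    have m4 := hm z u hzu
    have c3 : (((J s t w z).card : ℚ)) = mq s t w z := rfl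
    have c4 : (((J s t z u).card : ℚ)) = mq s t z u := rfl
    unfold WEof Rs
    have h : ∀ r' x, (r p / (k * (k - 1) * mq s t v w * mq s t w z * mq s t z u) +
        r x / (k * (k - 1) * mq s t u v * mq s t v w * mq s t w z) +
        r r' / (k * (k - 1) * mq s t z u * mq s t u v * mq s t v w) +
        r q / (k * (k - 1) * mq s t w z * mq s t z u * mq s t u v)) =
        (r p / (k * (k - 1) * mq s t v w * mq s t w z * mq s t z u) +
          r q / (k * (k - 1) * mq s t w z * mq s t z u * mq s t u v)) +
          r x * (1 / (k * (k - 1) * mq s t u v * mq s t v w * mq s t w z)) +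
          r r' * (1 / (k * (k - 1) * mq s t z u * mq s t u v * mq s t v w)) := by
      intro r' x
      field_simp
      ring
    rw [sum_congr rfl fun r' _ => sum_congr rfl fun x _ => h r' x]
    simp only [sum_add_distrib, ← sum_mul, sum_const, nsmul_eq_mul, c3, c4, ← mul_sum]
    field_simp
    ring
  rw [g3_sum4_congr u v w _ _ key, g3_sum4_add, g3_sum4_mul, g3_sum4_const huv hvw huw]
  have hk3 : (Fintype.card V : ℚ) - 3 = k - 1 := by rw [hk]; ring
  rw [hk3]
  field_simp

/-- The cost identity for weights with arbitrary row sums. -/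
theorem functional_signed {s t : E → V} (k : ℚ) (hk : k = (Fintype.card V : ℚ) - 2)
    (hK : 4 ≤ Fintype.card V) (hm : ∀ u v, u ≠ v → mq s t u v ≠ 0)
    (e : V → E → E → ℚ) (hsym : ∀ v p q, e v p q = e v q p) (r : E → ℚ)
    (hrow : ∀ v w, ∀ q ∈ J s t v w,
      ∑ u, (if u = w then 0 else ∑ p ∈ J s t u v, e v p q) = r q)
    (A T : V → V → V → ℚ) (hT : ∀ u v w, T u v w = T v w u)
    (Y : V → V → V → V → ℚ) (hY : ∀ u v w z, Y u v w z = Y v w z u)
    (hd : ∀ u v w, u ≠ v → v ≠ w → u ≠ w →
      3 * T u v w + 4 * sum4 u v w (fun z => Y u v w z) =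
        A u v w - sum4 u v w (fun z => Kx s t e z u w) / k +
          sum4 u v w (fun z => Rs s t r z u + Rs s t r w z) / (k * (k - 1)))
    (c : V → E → E → ℚ) :
    totT s t (WTof s t k e T) c + totQ s t (WQs s t k e r Y) c =
      corner s t (fun u v w p q => e v p q + A u v w / (mq s t u v * mq s t v w)) c := by
  have h4 : (4 : ℚ) ≤ (Fintype.card V : ℚ) := by exact_mod_cast hK
  have hk0 : k ≠ 0 := by
    intro h
    rw [h] at hk
    linarith
  have hk1 : k - 1 ≠ 0 := by
    intro h
    rw [hk] at h
    linarith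
  rw [g3_totT, g3_totQ, g3_corner_add]
  refine g3_corner_congr _ _ c fun u v w huv hvw huw p hp q hq => ?_
  have m1 := hm u v huv
  have m2 := hm v w hvw
  have hW : g3_FQ s t (WQs s t k e r Y) u v w p q =
      g3_FQ s t (WQof s t k e Y) u v w p q - g3_FQ s t (WEof s t k r) u v w p q :=
    b4_FQ_sub s t (WQof s t k e Y) (WEof s t k r) u v w p q
  rw [hW, g3_FT_val k e hk0 hm T hT huv hvw huw, g3_FQ_val k e hk0 hm hsym Y hY huv hvw huw,
    b4_FQ_WE k hk hK hm r huv hvw huw]
  have r1 : (∑ r' ∈ J s t w u, e u r' p) + sum4 u v w (fun z => ∑ x ∈ J s t z u, e u x p) =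
      r p := by
    have h1 := hrow u v p hp
    have h2 := g3_split huv hvw huw (fun z => ∑ x ∈ J s t z u, e u x p)
    rw [h2] at h1
    simp only [g3_J_self, sum_empty, zero_add] at h1
    exact h1
  have r2 : (∑ r' ∈ J s t w u, e w q r') + sum4 u v w (fun z => ∑ r' ∈ J s t w z, e w q r') =
      r q := by
    have h1 := hrow w v q (by rw [g3_J_comm]; exact hq)
    have h2 := g3_split huv hvw huw (fun z => ∑ x ∈ J s t z w, e w x q)
    rw [h2] at h1
    simp only [g3_J_self, sum_empty, add_zero] at h1
    rw [← h1, g3_J_comm s t w u]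
    have e1 : ∀ z, (∑ r' ∈ J s t w z, e w q r') = ∑ x ∈ J s t z w, e w x q := by
      intro z
      rw [g3_J_comm s t w z]
      exact sum_congr rfl fun r' _ => hsym w q r'
    have e2 : (∑ r' ∈ J s t u w, e w q r') = ∑ x ∈ J s t u w, e w x q :=
      sum_congr rfl fun r' _ => hsym w q r'
    rw [e2]
    simp only [e1]
  have hdd := hd u v w huv hvw huw
  have hk3 : (Fintype.card V : ℚ) - 3 = k - 1 := by rw [hk]; ring
  rw [hk3]
  have e3 : e v p q / k + (k - 1) * (e v p q / k) = e v p q := by
    field_simp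
    ring
  have e4 : 3 * T u v w / (mq s t u v * mq s t v w) +
      4 * sum4 u v w (fun z => Y u v w z) / (mq s t u v * mq s t v w) =
      (A u v w - sum4 u v w (fun z => Kx s t e z u w) / k +
          sum4 u v w (fun z => Rs s t r z u + Rs s t r w z) / (k * (k - 1))) /
            (mq s t u v * mq s t v w) := by
    rw [← hdd]
    ring
  have e5 : (∑ r' ∈ J s t w u, e u r' p) / (k * mq s t v w) +
      sum4 u v w (fun z => ∑ x ∈ J s t z u, e u x p) / (k * mq s t v w) =
      r p / (k * mq s t v w) := by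
    rw [← r1]
    ring
  have e6 : (∑ r' ∈ J s t w u, e w q r') / (k * mq s t u v) +
      sum4 u v w (fun z => ∑ r' ∈ J s t w z, e w q r') / (k * mq s t u v) =
      r q / (k * mq s t u v) := by
    rw [← r2]
    ring
  have e7 : (A u v w - sum4 u v w (fun z => Kx s t e z u w) / k +
          sum4 u v w (fun z => Rs s t r z u + Rs s t r w z) / (k * (k - 1))) /
            (mq s t u v * mq s t v w) =
      A u v w / (mq s t u v * mq s t v w) -
        sum4 u v w (fun z => Kx s t e z u w) / (k * mq s t u v * mq s t v w) +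
        sum4 u v w (fun z => Rs s t r z u + Rs s t r w z) /
          (k * (k - 1) * mq s t u v * mq s t v w) := by
    field_simp
  linear_combination e3 + e4 + e5 + e6 + e7

end Pool.Agent.Lib.MP_95bb8c_al.GW
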