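import Pool.Agent.Lib.MP_95bb8c_al.GW.TypeLevel

set_option autoImplicit false
set_option linter.unusedSectionVars false

/-!
# Nearly uniform lists: the weights of the triangles and 4-cycles, with a better constant
-/

namespace Pool.Agent.Lib.MP_95bb8c_al.GW

open Finset

section TL
variable {V : Type} [Fintype V] [DecidableEq V]

/-- The edge sum is a sum of differences of demands. -/
theorem t17_E (d : V → V → V → ℚ)
    (hedge : ∀ u v, u ≠ v → sum3 u v (fun w => d u v w) = sum3 u v (fun w => d v u w))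
    {u v : V} (huv : u ≠ v) :
    g4E d u v = sum3 u v (fun w => (d u v w - d u w v) / 3) := by
  unfold g4E
  have h1 : sum3 u v (fun w => g4e d u v w) =
      sum3 u v (fun w => (d u v w - d u w v) / 3 +
        (1 / 3 * d u v w + (-1 / 3) * d v u w)) := by
    refine g4_congr fun z _ _ => ?_
    unfold g4e g4T
    ring
  rw [h1, g4_add, g4_add, g4_mul, g4_mul, hedge u v huv]
  ring

theorem type_level17 (hK : 4 ≤ Fintype.card V) (d : V → V → V → ℚ)
    (hsym : ∀ u v w, d u v w = d w v u)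
    (hedge : ∀ u v, u ≠ v → sum3 u v (fun w => d u v w) = sum3 u v (fun w => d v u w))
    (a Δ : ℚ) (hd : ∀ u v w, u ≠ v → v ≠ w → u ≠ w → a ≤ d u v w ∧ d u v w ≤ a + Δ)
    (hΔ : 0 ≤ Δ) (haΔ : 17 * Δ ≤ 3 * a) :
    ∃ (T : V → V → V → ℚ) (Y : V → V → V → V → ℚ),
      (∀ u v w, u ≠ v → v ≠ w → u ≠ w → 0 ≤ T u v w) ∧
      (∀ u v w z, u ≠ v → v ≠ w → w ≠ z → z ≠ u → u ≠ w → v ≠ z → 0 ≤ Y u v w z) ∧
      (∀ u v w, T u v w = T v w u) ∧ (∀ u v w z, Y u v w z = Y v w z u) ∧
      ∀ u v w, u ≠ v → v ≠ w → u ≠ w →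
        3 * T u v w + 4 * sum4 u v w (fun z => Y u v w z) = d u v w := by
  set K : ℚ := (Fintype.card V : ℚ) with hKdef
  have hK4 : (4 : ℚ) ≤ K := by rw [hKdef]; exact_mod_cast hK
  have hK2 : 0 < K - 2 := by linarith
  have hK3 : 0 < K - 3 := by linarith
  have he : ∀ u v w, u ≠ v → v ≠ w → u ≠ w → |g4e d u v w| ≤ 2 * Δ / 3 := by
    intro u v w h1 h2 h3
    have a1 := hd u v w h1 h2 h3
    have a2 := hd v u w h1.symm h3 h2
    have a3 := hd u w v h3 h2.symm h1
    unfold g4e g4T
    rw [abs_le]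
    constructor <;> linarith [a1.1, a1.2, a2.1, a2.2, a3.1, a3.2]
  have hE : ∀ u v, u ≠ v → |g4E d u v| ≤ (K - 2) * (Δ / 3) := by
    intro u v h1
    rw [t17_E d hedge h1]
    refine g4_abs h1 _ _ fun z h2 h3 => ?_
    have a1 := hd u v z h1 h3.symm h2.symm
    have a2 := hd u z v h2.symm h3 h1
    rw [abs_le]
    constructor <;> linarith [a1.1, a1.2, a2.1, a2.2]
  refine ⟨fun u v w => (g4T d u v w / 3 - 14 * a / 17 -
      (g4E d u v + g4E d v w + g4E d u w) * (K - 5) / ((K - 3) * (K - 2))) / 3,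
    fun u v w z => (14 * a / (17 * (K - 3)) + (1 / (K - 3)) *
      ((g4e d u v w + g4e d u z w + g4e d v u z + g4e d v w z) +
        (3 / (K - 2)) * (g4E d v z + g4E d u w))) / 4, ?_, ?_, ?_, ?_, ?_⟩
  · intro u v w h1 h2 h3
    have a1 := hd u v w h1 h2 h3
    have a2 := hd v u w h1.symm h3 h2
    have a3 := hd u w v h3 h2.symm h1
    have e1 := abs_le.mp (hE u v h1)
    have e2 := abs_le.mp (hE v w h2)
    have e3 := abs_le.mp (hE u w h3)
    have hT : a ≤ g4T d u v w / 3 := by unfold g4T; linarith [a1.1, a2.1, a3.1]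
    have hS : (g4E d u v + g4E d v w + g4E d u w) * (K - 5) / ((K - 3) * (K - 2)) ≤ Δ := by
      rw [div_le_iff₀ (by positivity)]
      have hS1 : g4E d u v + g4E d v w + g4E d u w ≤ Δ * (K - 2) := by linarith [e1.2, e2.2, e3.2]
      have hS2 : -(Δ * (K - 2)) ≤ g4E d u v + g4E d v w + g4E d u w := by
        linarith [e1.1, e2.1, e3.1]
      have hx : 0 ≤ Δ * (K - 2) := by positivity
      rcases le_total 0 (K - 5) with h | h
      · calc (g4E d u v + g4E d v w + g4E d u w) * (K - 5) ≤ (Δ * (K - 2)) * (K - 5) :=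
            mul_le_mul_of_nonneg_right hS1 h
          _ ≤ (Δ * (K - 2)) * (K - 3) := mul_le_mul_of_nonneg_left (by linarith) hx
          _ = Δ * ((K - 3) * (K - 2)) := by ring
      · calc (g4E d u v + g4E d v w + g4E d u w) * (K - 5) ≤ (-(Δ * (K - 2))) * (K - 5) :=
            mul_le_mul_of_nonpos_right hS2 h
          _ = (Δ * (K - 2)) * (5 - K) := by ring
          _ ≤ (Δ * (K - 2)) * (K - 3) := mul_le_mul_of_nonneg_left (by linarith) hx
          _ = Δ * ((K - 3) * (K - 2)) := by ring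
    show 0 ≤ (g4T d u v w / 3 - 14 * a / 17 -
      (g4E d u v + g4E d v w + g4E d u w) * (K - 5) / ((K - 3) * (K - 2))) / 3
    linarith
  · intro u v w z h1 h2 h3 h4 h5 h6
    have e1 := abs_le.mp (he u v w h1 h2 h5)
    have e2 := abs_le.mp (he u z w h4.symm h3.symm h5)
    have e3 := abs_le.mp (he v u z h1.symm h4.symm h6)
    have e4 := abs_le.mp (he v w z h2 h3 h6)
    have e5 := abs_le.mp (hE v z h6)
    have e6 := abs_le.mp (hE u w h5)
    have hX : -(2 * Δ) ≤ (3 / (K - 2)) * (g4E d v z + g4E d u w) := by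
      rw [div_mul_eq_mul_div, le_div_iff₀ hK2]
      linarith [e5.1, e6.1]
    have hY : 0 ≤ 14 * a / (17 * (K - 3)) + (1 / (K - 3)) *
      ((g4e d u v w + g4e d u z w + g4e d v u z + g4e d v w z) +
        (3 / (K - 2)) * (g4E d v z + g4E d u w)) := by
      have h7 : 14 * a / (17 * (K - 3)) + (1 / (K - 3)) *
          ((g4e d u v w + g4e d u z w + g4e d v u z + g4e d v w z) +
            (3 / (K - 2)) * (g4E d v z + g4E d u w)) =
          (14 * a / 17 + ((g4e d u v w + g4e d u z w + g4e d v u z + g4e d v w z) +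
            (3 / (K - 2)) * (g4E d v z + g4E d u w))) / (K - 3) := by
        field_simp
      rw [h7]
      apply div_nonneg _ hK3.le
      linarith [e1.1, e2.1, e3.1, e4.1]
    show 0 ≤ _ / 4
    linarith
  · intro u v w
    show (g4T d u v w / 3 - 14 * a / 17 -
      (g4E d u v + g4E d v w + g4E d u w) * (K - 5) / ((K - 3) * (K - 2))) / 3 =
      (g4T d v w u / 3 - 14 * a / 17 -
      (g4E d v w + g4E d w u + g4E d v u) * (K - 5) / ((K - 3) * (K - 2))) / 3
    rw [g4T_rot d hsym u v w, g4E_sym d hsym hedge w u, g4E_sym d hsym hedge v u]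
    ring
  · intro u v w z
    show (14 * a / (17 * (K - 3)) + (1 / (K - 3)) *
      ((g4e d u v w + g4e d u z w + g4e d v u z + g4e d v w z) +
        (3 / (K - 2)) * (g4E d v z + g4E d u w))) / 4 =
      (14 * a / (17 * (K - 3)) + (1 / (K - 3)) *
      ((g4e d v w z + g4e d v u z + g4e d w v u + g4e d w z u) +
        (3 / (K - 2)) * (g4E d w u + g4E d v z))) / 4
    rw [g4e_sym d hsym w v u, g4e_sym d hsym w z u, g4E_sym d hsym hedge w u]
    ring
  · intro u v w h1 h2 h3
    have hone : sum4 u v w (fun _ => (1 : ℚ)) = K - 3 := by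
      rw [g4_sum4 _ h3.symm h2.symm, g4_const _ h1]; ring
    have hsum : sum4 u v w (fun z => (14 * a / (17 * (K - 3)) + (1 / (K - 3)) *
      ((g4e d u v w + g4e d u z w + g4e d v u z + g4e d v w z) +
        (3 / (K - 2)) * (g4E d v z + g4E d u w))) / 4) =
        (14 * a / (68 * (K - 3))) * sum4 u v w (fun _ => (1 : ℚ)) + (1 / (4 * (K - 3))) *
          sum4 u v w (fun z => g4e d u v w + g4e d u z w + g4e d v u z + g4e d v w z) +
          (3 / (4 * (K - 3) * (K - 2))) * sum4 u v w (fun z => g4E d v z + g4E d u w) := by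
      unfold sum4
      rw [Finset.mul_sum, Finset.mul_sum, Finset.mul_sum, ← Finset.sum_add_distrib,
        ← Finset.sum_add_distrib]
      refine Finset.sum_congr rfl fun z _ => ?_
      by_cases h : z = u ∨ z = v ∨ z = w
      · simp [h]
      · simp only [h, if_false]
        field_simp
        ring
    show 3 * ((g4T d u v w / 3 - 14 * a / 17 -
      (g4E d u v + g4E d v w + g4E d u w) * (K - 5) / ((K - 3) * (K - 2))) / 3) +
      4 * sum4 u v w (fun z => (14 * a / (17 * (K - 3)) + (1 / (K - 3)) *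
      ((g4e d u v w + g4e d u z w + g4e d v u z + g4e d v w z) +
        (3 / (K - 2)) * (g4E d v z + g4E d u w))) / 4) = d u v w
    rw [hsum, hone, g4_I d hsym hedge h1 h2 h3, g4_E3 d hsym hedge h1 h2 h3]
    have h4 : d u v w = g4T d u v w / 3 + g4e d u v w := by unfold g4e; ring
    rw [h4, ← hKdef]
    field_simp
    ring

end TL

end Pool.Agent.Lib.MP_95bb8c_al.GW
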