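import Pool.Agent.Lib.MP_95bb8c_al.GW.Defs

set_option autoImplicit false
set_option linter.unusedSectionVars false

/-!
# The list `[List.ofFn w]` of one word
-/

namespace Pool.Agent.Lib.MP_95bb8c_al.GW

open Finset

section Words

variable {n : ℕ}

/-- The position of the list `[List.ofFn w]` with index `i`. -/
def g12_pos {N : ℕ} (w : Fin N → Letter n) (i : Fin N) : Pos [List.ofFn w] :=
  ⟨(0 : Fin 1), ⟨i.1, by
    show i.1 < (List.ofFn w).length
    rw [List.length_ofFn]
    exact i.2⟩⟩

theorem g12_letter {N : ℕ} (w : Fin N → Letter n) (i : Fin N) : (g12_pos w i).letter = w i := by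
  show (List.ofFn w).get ⟨i.1, _⟩ = w i
  rw [List.get_ofFn]
  rfl

theorem g12_next {N : ℕ} (w : Fin N → Letter n) (i : Fin N) :
    (g12_pos w i).next = g12_pos w (nx i) := by
  unfold Pos.next g12_pos nx
  have h : (List.ofFn w).length = N := List.length_ofFn
  simp only [Sigma.mk.injEq, heq_eq_eq, true_and]
  apply Fin.ext
  show (i.1 + 1) % (List.ofFn w).length = (i.1 + 1) % N
  rw [h]

theorem g12_inj {N : ℕ} (w : Fin N → Letter n) : Function.Injective (g12_pos w) := by
  intro i j h
  have h2 : (g12_pos w i).2.1 = (g12_pos w j).2.1 := by rw [h]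
  exact Fin.ext h2

theorem g12_surj {N : ℕ} (w : Fin N → Letter n) : Function.Surjective (g12_pos w) := by
  rintro ⟨j, i⟩
  obtain ⟨j, hj⟩ := j
  have hj0 : j = 0 := by
    have h1 : j < 1 := hj
    omega
  subst hj0
  have hi : i.1 < N := by
    have h := i.2
    have h2 : i.1 < (List.ofFn w).length := h
    rwa [List.length_ofFn] at h2
  exact ⟨⟨i.1, hi⟩, rfl⟩

/-! G12 WordList (file GW/WordList.lean) -/
theorem cycRed_ofFn {N : ℕ} (hN : 0 < N) (w : Fin N → Letter n) :
    CycRed [List.ofFn w] ↔ CR w := by
  constructor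
  · intro h i
    have h1 := h.2 (g12_pos w i)
    rwa [g12_next, g12_letter, g12_letter] at h1
  · intro h
    refine ⟨?_, ?_⟩
    · intro u hu
      rw [List.mem_singleton] at hu
      subst hu
      intro h0
      have h1 : (List.ofFn w).length = 0 := by rw [h0]; rfl
      rw [List.length_ofFn] at h1
      omega
    · intro p
      obtain ⟨i, rfl⟩ := g12_surj w p
      rw [g12_next, g12_letter, g12_letter]
      exact h i

theorem mult_ofFn {N : ℕ} (w : Fin N → Letter n) (u v : Letter n) (huv : u ≠ v) :
    mult [List.ofFn w] u v = X w u (bar v) + X w v (bar u) := by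
  unfold mult J X
  rw [← Finset.card_union_of_disjoint]
  · symm
    apply Finset.card_bij (fun i _ => g12_pos w i)
    · intro i hi
      rw [Finset.mem_union, Finset.mem_filter, Finset.mem_filter] at hi
      rw [Finset.mem_filter]
      refine ⟨Finset.mem_univ _, huv, ?_⟩
      unfold src tgt
      rw [g12_next, g12_letter, g12_letter]
      rcases hi with hi | hi
      · left
        exact ⟨hi.2.1, by rw [hi.2.2, bar_bar]⟩
      · right
        exact ⟨hi.2.1, by rw [hi.2.2, bar_bar]⟩
    · intro i _ j _ h
      exact g12_inj w h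
    · intro p hp
      obtain ⟨i, rfl⟩ := g12_surj w p
      rw [Finset.mem_filter] at hp
      unfold src tgt at hp
      rw [g12_next, g12_letter, g12_letter] at hp
      refine ⟨i, ?_, rfl⟩
      rw [Finset.mem_union, Finset.mem_filter, Finset.mem_filter]
      rcases hp.2.2 with h | h
      · left
        exact ⟨Finset.mem_univ _, h.1, by rw [← h.2, bar_bar]⟩
      · right
        exact ⟨Finset.mem_univ _, h.1, by rw [← h.2, bar_bar]⟩
  · rw [Finset.disjoint_left]
    intro i hi hi2
    rw [Finset.mem_filter] at hi hi2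
    exact huv (hi.2.1.symm.trans hi2.2.1)

end Words

end Pool.Agent.Lib.MP_95bb8c_al.GW
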